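import Pool.Agent.IST.AmpT

/-!
# Normal fine ultrafilters: push-forward, projections, existence
-/

set_option synthInstance.maxSize 100000

namespace Pool.Agent.IST

open Pool.Agent.BVM CMap Amp

section

variable {M : Type} [SetModel M]

/-- push-forward of an ultrafilter -/
noncomputable def push (W D D' : M) (H : M → M) : M := sep (pw D') fun X => Aa W D fun s => H s ∈ X

section

variable {κ Z D W Z' D' : M} {H : M → M} [hHd : Dff fun γ : E0 M × M => H γ.2]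

theorem mem_push {X : M} : X ∈ push W D D' H ↔ X ⊆ D' ∧ Aa W D fun s => H s ∈ X := by
  have hH' : ∀ {Δ : Type} [IsCtx Δ M] {v : Δ → M} [Dff v], Dff fun δ => H (v δ) :=
    fun {_ _ _ _} => dff_un hHd
  unfold push
  rw [mem_sep, mem_pw]

theorem aa_push (h : Nfu κ Z D W) (hH : ∀ s ∈ D, H s ∈ D') {φ : M → Prop}
    [hφ : Dfp fun γ : E0 M × M => φ γ.2] :
    Aa (push W D D' H) D' φ ↔ Aa W D fun s => φ (H s) := by
  have hH' : ∀ {Δ : Type} [IsCtx Δ M] {v : Δ → M} [Dff v], Dff fun δ => H (v δ) :=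
    fun {_ _ _ _} => dff_un hHd
  have hφ' : ∀ {Δ : Type} [IsCtx Δ M] {v : Δ → M} [Dff v], Dfp fun δ => φ (v δ) :=
    fun {_ _ _ _} => dfp_un hφ
  unfold Aa
  rw [mem_push]
  constructor
  · rintro ⟨-, h1⟩
    exact h.aa_mono h1 fun s _ h2 => (mem_sep.1 h2).2
  · intro h1
    exact ⟨fun x hx => (mem_sep.1 hx).1, h.aa_mono (φ := fun s => φ (H s)) h1 fun s hs h2 =>
      mem_sep.2 ⟨hH s hs, h2⟩⟩

theorem nfu_push (h : Nfu κ Z D W) (hH : ∀ s ∈ D, H s ∈ D') (hZ : ∀ x ∈ D', x ⊆ Z')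
    (hfine : ∀ z ∈ Z', Aa W D fun s => z ∈ H s)
    (hnorm : ∀ F, (∀ z ∈ Z', Aa W D fun s => H s ∈ ap F z) →
      Aa W D fun s => ∀ z ∈ H s, H s ∈ ap F z) : Nfu κ Z' D' (push W D D' H) := by
  have hH' : ∀ {Δ : Type} [IsCtx Δ M] {v : Δ → M} [Dff v], Dff fun δ => H (v δ) :=
    fun {_ _ _ _} => dff_un hHd
  refine ⟨hZ, fun X hX => (mem_push.1 hX).1, fun X hX Y h1 h2 => ?_, fun X hX Y hY => ?_,
    fun X hX => ?_, fun z hz => ?_, fun F _ h2 h3 => ?_, fun F _ h2 h3 => ?_⟩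
  · rw [mem_push] at hX ⊢
    exact ⟨h2, h.aa_mono hX.2 fun s _ h3 => h1 _ h3⟩
  · rw [mem_push] at hX hY ⊢
    refine ⟨fun x hx => hX.1 x (mem_inter.1 hx).1, ?_⟩
    exact h.aa_mono (h.aa_and hX.2 hY.2) fun s _ h3 => mem_inter.2 h3
  · rw [mem_push, mem_push]
    have h1 : (Aa W D fun s => H s ∈ D' \ X) ↔ Aa W D fun s => ¬ H s ∈ X :=
      h.aa_congr fun s hs => by
        rw [mem_diff]
        exact ⟨fun h => h.2, fun h => ⟨hH s hs, h⟩⟩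
    rw [h1, h.aa_not]
    constructor
    · rintro ⟨-, h2⟩ h3
      exact h2 h3.2
    · intro h2
      exact ⟨fun x hx => (mem_diff.1 hx).1, fun h3 => h2 ⟨hX, h3⟩⟩
  · rw [mem_push]
    refine ⟨fun x hx => (mem_sep.1 hx).1, h.aa_mono (hfine z hz) fun s hs h1 => ?_⟩
    exact mem_sep.2 ⟨hH s hs, h1⟩
  · rw [mem_push]
    refine ⟨fun x hx => (mem_sep.1 hx).1, ?_⟩
    have h4 := (h.aa_small (χ := fun z s => H s ∈ ap F z) h2).2 fun z hz => (mem_push.1 (h3 z hz)).2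
    exact h.aa_mono h4 fun s hs h5 => mem_sep.2 ⟨hH s hs, h5⟩
  · rw [mem_push]
    refine ⟨fun x hx => (mem_sep.1 hx).1, ?_⟩
    have h4 := hnorm F fun z hz => (mem_push.1 (h3 z hz)).2
    exact h.aa_mono h4 fun s hs h5 => mem_sep.2 ⟨hH s hs, h5⟩

end

theorem inter_mem_pws {κ Z Z' s : M} (hκ : IsOrd κ) (hs : s ∈ pws κ Z) : s ∩ Z' ∈ pws κ Z' := by
  rw [mem_pws] at hs ⊢
  exact ⟨fun x hx => (mem_inter.1 hx).2, (isOrd_card _).mem_of_sub_of_mem hκ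
    (card_sub_iff.2 (leq_of_sub fun y hy => (mem_inter.1 hy).1)) hs.2⟩

theorem inter_Vr_dff {θ : M} : Dff fun γ : E0 M × M => γ.2 ∩ Vr θ := inferInstance

/-- projection of an ultrafilter on `P_κ(V_η)` to `P_κ(V_θ)` -/
noncomputable def Amp.pr (A : Amp M) (θ : M) : M := push A.U A.D (pws A.κ (Vr θ)) fun s => s ∩ Vr θ

theorem Amp.pr_isAmp (A : Amp M) {θ : M} (hθ : IsLim θ) (h1 : A.κ ∈ θ) (h2 : θ ⊆ A.η) :
    IsAmp A.κ θ (A.pr θ) := by
  refine ⟨⟨⟨A.card_κ, A.om_mem⟩, h1, hθ⟩, ?_⟩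
  refine nfu_push A.nfu (fun s hs => inter_mem_pws A.ord_κ hs) (fun x hx => (mem_pws.1 hx).1)
    (fun z hz => ?_) fun F hF => ?_
  · exact A.nfu.aa_mono (A.nfu.aa_fine (Vr_mono h2 z hz)) fun s _ h => mem_inter.2 ⟨h, hz⟩
  · have h3 : A.aa fun s => ∀ z ∈ s, z ∈ Vr θ → s ∩ Vr θ ∈ ap F z := by
      refine aa_all.2 fun z _ => ?_
      by_cases hz : z ∈ Vr θ
      · exact aa_mono (hF z hz) fun s _ h _ => h
      · exact aa_of_all fun s _ h => absurd h hz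
    exact A.nfu.aa_mono h3 fun s _ h z hz => h z (mem_inter.1 hz).1 (mem_inter.1 hz).2

theorem Amp.aa_pr {A : Amp M} {θ : M} {φ : M → Prop} [hφ : Dfp fun γ : E0 M × M => φ γ.2] :
    Aa (A.pr θ) (pws A.κ (Vr θ)) φ ↔ A.aa fun s => φ (s ∩ Vr θ) :=
  aa_push A.nfu fun _ hs => inter_mem_pws A.ord_κ hs

theorem mc_inter {s t x : M} (ht : IsTrans t) (hx : x ⊆ t) : mc (s ∩ t) x = mc s x := by
  have key : ∀ x : M, x ⊆ t → mc (s ∩ t) x = mc s x := by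
    refine mem_ind (fun x => x ⊆ t → mc (s ∩ t) x = mc s x) fun x ih hx => ext fun z => ?_
    rw [mem_mc, mem_mc]
    constructor
    · rintro ⟨y, hy, hyx, rfl⟩
      exact ⟨y, (mem_inter.1 hy).1, hyx, ih y hyx (fun w hw => ht y (hx y hyx) w hw)⟩
    · rintro ⟨y, hy, hyx, rfl⟩
      exact ⟨y, mem_inter.2 ⟨hy, hx y hyx⟩, hyx,
        (ih y hyx (fun w hw => ht y (hx y hyx) w hw)).symm⟩
  exact key x hx

/-- supercompact cardinals have ultrafilters on all `P_κ(V_η)` -/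
theorem exists_amp {κ : M} (h1 : IsCard κ) (h2 : om ∈ κ)
    (h3 : ∀ l, IsOrd l → κ ⊆ l → ∃ W, Nfu κ l (pws κ l) W) {η : M} (hη : IsLim η) (h : κ ∈ η) :
    ∃ U, IsAmp κ η U := by
  obtain ⟨g, hg⟩ := (eqn_card (Vr η)).symm
  have hl : κ ⊆ card (Vr η) := by
    rw [← h1.card_eq]
    refine card_sub_iff.2 (leq_of_sub fun x hx => ?_)
    exact isTrans_Vr _ _ ((ord_mem_Vr_iff h1.1 hη.1).2 h) x hx
  obtain ⟨W, hW⟩ := h3 _ (isOrd_card _) hl
  have hH : ∀ s ∈ pws κ (card (Vr η)), im g s ∈ pws κ (Vr η) := by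
    intro s hs
    rw [mem_pws] at hs ⊢
    constructor
    · intro y hy
      obtain ⟨x, -, hxy⟩ := mem_im.1 hy
      rw [← hg.2.2]
      exact mem_ran.2 ⟨x, hxy⟩
    · have h4 : im g s ⊆ img s fun x => ap g x := by
        intro y hy
        obtain ⟨x, hx, hxy⟩ := mem_im.1 hy
        exact mem_img.2 ⟨x, hx, (hg.1.isFun.ap_eq hxy).symm⟩
      exact (isOrd_card _).mem_of_sub_of_mem h1.1
        (card_sub_iff.2 ((leq_of_sub h4).trans (leq_img _ _))) hs.2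
  have hmem : ∀ s ⊆ card (Vr η), ∀ y, y ∈ im g s ↔ ∃ x ∈ s, y = ap g x := by
    intro s hs y
    rw [mem_im]
    refine exists_congr fun x => and_congr_right fun hx => ?_
    rw [hg.1.isFun.op_mem_iff, hg.1.dom_eq]
    exact ⟨fun h => h.2.symm, fun h => ⟨hs x hx, h.symm⟩⟩
  refine ⟨push W (pws κ (card (Vr η))) (pws κ (Vr η)) fun s => im g s, ⟨⟨h1, h2⟩, h, hη⟩,
    nfu_push hW hH (fun x hx => (mem_pws.1 hx).1) (fun z hz => ?_) fun F hF => ?_⟩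
  · rw [← hg.2.2] at hz
    obtain ⟨x, hx, rfl⟩ := hg.1.isFun.mem_ran_iff.1 hz
    rw [hg.1.dom_eq] at hx
    refine hW.aa_mono (hW.aa_fine hx) fun s hs h4 => ?_
    rw [hmem s (mem_pws.1 hs).1]
    exact ⟨x, h4, rfl⟩
  · have h4 := (hW.aa_all (χ := fun ξ s => im g s ∈ ap F (ap g ξ))).2 fun ξ hξ =>
      hF _ (hg.1.ap_mem hξ)
    refine hW.aa_mono h4 fun s hs h5 z hz => ?_
    obtain ⟨x, hx, rfl⟩ := (hmem s (mem_pws.1 hs).1 z).1 hz
    exact h5 x hx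

end

end Pool.Agent.IST
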