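import Pool.Agent.IST.CardMul

/-!
# Cardinal exponentiation
-/

set_option synthInstance.maxSize 100000

namespace Pool.Agent.IST

open Pool.Agent.BVM

section

variable {M : Type} [SetModel M] {Γ : Type} [IsCtx Γ M]

/-- the number two -/
noncomputable def two : M := sc (sc ∅)

theorem mem_two {x : M} : x ∈ (two : M) ↔ x = ∅ ∨ x = sc ∅ := by
  unfold two
  rw [mem_sc, mem_sc]
  simp

theorem empty_ne_one : (∅ : M) ≠ sc ∅ := by
  intro e
  have h := self_mem_sc (∅ : M)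
  rw [← e] at h
  exact notMem_empty _ h

/-! ### function sets -/

theorem leq_fns {a b a' b' : M} (h : Leq a a') (h' : Leq b b') (hb : b' ≠ ∅) :
    Leq (fns a b) (fns a' b') := by
  classical
  obtain ⟨e, he, hei⟩ := h
  obtain ⟨g, hg, hgi⟩ := h'
  obtain ⟨y0, hy0⟩ := ne_empty_iff.1 hb
  rw [hg.inj_iff] at hgi
  have hinv : ∀ x ∈ a, ap (inv e) (ap e x) = x := fun x hx =>
    he.isFun.ap_inv_ap hei (he.dom_eq.symm ▸ hx)
  have hran : ∀ x ∈ a, ap e x ∈ ran e := fun x hx => he.isFun.ap_mem_ran (he.dom_eq.symm ▸ hx)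
  refine leq_of (fun f => lam a' fun x => if x ∈ ran e then ap g (ap f (ap (inv e) x)) else y0)
    ?_ ?_
  · intro f hf
    rw [mem_fns] at hf ⊢
    refine maps_lam fun x _ => ?_
    by_cases h1 : x ∈ ran e
    · rw [if_pos h1]
      obtain ⟨z, hz, rfl⟩ := he.isFun.mem_ran_iff.1 h1
      rw [he.dom_eq] at hz
      rw [hinv z hz]
      exact hg.ap_mem (hf.ap_mem hz)
    · rw [if_neg h1]
      exact hy0
  · intro f hf f' hf' e1
    rw [mem_fns] at hf hf'
    refine hf.ext hf' fun x hx => ?_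
    have h2 : ap (lam a' fun x => if x ∈ ran e then ap g (ap f (ap (inv e) x)) else y0) (ap e x) =
      ap (lam a' fun x => if x ∈ ran e then ap g (ap f' (ap (inv e) x)) else y0) (ap e x) := by
      rw [e1]
    rw [ap_lam (he.ap_mem hx), ap_lam (he.ap_mem hx), if_pos (hran x hx), if_pos (hran x hx),
      hinv x hx] at h2
    exact hgi _ (hf.ap_mem hx) _ (hf'.ap_mem hx) h2

theorem eqn_fns_empty (b : M) : Eqn (fns ∅ b) (sc ∅) := by
  refine eqn_of (fun _ => ∅) (fun _ _ => self_mem_sc ∅) (fun x hx y hy _ => ?_) fun y hy => ?_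
  · rw [mem_fns] at hx hy
    exact hx.ext hy fun z hz => absurd hz (notMem_empty z)
  · rcases mem_sc.1 hy with h | rfl
    · exact absurd h (notMem_empty y)
    · refine ⟨lam ∅ fun x => x, mem_fns.2 (maps_lam fun x hx => absurd hx (notMem_empty x)), rfl⟩

theorem fns_congr {a b a' b' : M} (h : Eqn a a') (h' : Eqn b b') : Eqn (fns a b) (fns a' b') := by
  by_cases hb : b' = ∅
  · have hb1 : b = ∅ := by
      obtain ⟨f, hf⟩ := h'
      rw [hb] at hf
      exact eq_empty_iff.2 fun z hz => notMem_empty _ (hf.1.ap_mem hz)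
    by_cases ha : a = ∅
    · have ha1 : a' = ∅ := by
        obtain ⟨f, hf⟩ := h.symm
        rw [ha] at hf
        exact eq_empty_iff.2 fun z hz => notMem_empty _ (hf.1.ap_mem hz)
      rw [ha, ha1, hb, hb1]
      exact Eqn.refl _
    · have ha1 : a' ≠ ∅ := by
        obtain ⟨f, hf⟩ := h
        obtain ⟨x, hx⟩ := ne_empty_iff.1 ha
        exact ne_empty_iff.2 ⟨_, hf.1.ap_mem hx⟩
      have key : ∀ c : M, c ≠ ∅ → fns c ∅ = ∅ := by
        intro c hc
        obtain ⟨x, hx⟩ := ne_empty_iff.1 hc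
        exact eq_empty_iff.2 fun f hf => notMem_empty _ ((mem_fns.1 hf).ap_mem hx)
      rw [hb, hb1, key a ha, key a' ha1]
      exact Eqn.refl _
  · have hb1 : b ≠ ∅ := by
      obtain ⟨f, hf⟩ := h'.symm
      obtain ⟨x, hx⟩ := ne_empty_iff.1 hb
      exact ne_empty_iff.2 ⟨_, hf.1.ap_mem hx⟩
    exact (leq_fns h.leq h'.leq hb).antisymm (leq_fns h.symm.leq h'.symm.leq hb1)

theorem fns_curry (a b c : M) : Eqn (fns (prod a b) c) (fns a (fns b c)) := by
  refine eqn_of (fun f => lam a fun x => lam b fun y => ap f (op x y)) ?_ ?_ ?_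
  · intro f hf
    rw [mem_fns] at hf ⊢
    refine maps_lam fun x hx => mem_fns.2 (maps_lam fun y hy => ?_)
    exact hf.ap_mem (op_mem_prod.2 ⟨hx, hy⟩)
  · intro f hf g hg e
    rw [mem_fns] at hf hg
    refine hf.ext hg fun p hp => ?_
    obtain ⟨x, hx, y, hy, rfl⟩ := mem_prod.1 hp
    have h1 : ap (ap (lam a fun x => lam b fun y => ap f (op x y)) x) y =
      ap (ap (lam a fun x => lam b fun y => ap g (op x y)) x) y := by rw [e]
    rw [ap_lam hx, ap_lam hx, ap_lam hy, ap_lam hy] at h1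
    exact h1
  · intro g hg
    rw [mem_fns] at hg
    refine ⟨lam (prod a b) fun p => ap (ap g (p1 p)) (p2 p), mem_fns.2 (maps_lam fun p hp => ?_), ?_⟩
    · obtain ⟨x, hx, y, hy, rfl⟩ := mem_prod.1 hp
      rw [p1_op, p2_op]
      exact (mem_fns.1 (hg.ap_mem hx)).ap_mem hy
    · refine isFun_lam.ext hg.isFun (by rw [dom_lam, hg.dom_eq]) fun x hx => ?_
      rw [dom_lam] at hx
      rw [ap_lam hx]
      have h1 := mem_fns.1 (hg.ap_mem hx)
      refine isFun_lam.ext h1.isFun (by rw [dom_lam, h1.dom_eq]) fun y hy => ?_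
      rw [dom_lam] at hy
      rw [ap_lam hy, ap_lam (op_mem_prod.2 ⟨hx, hy⟩), p1_op, p2_op]

theorem eqn_pw_fns (a : M) : Eqn (pw a) (fns a two) := by
  classical
  refine eqn_of (fun X => lam a fun x => if x ∈ X then sc ∅ else ∅) ?_ ?_ ?_
  · intro X _
    refine mem_fns.2 (maps_lam fun x _ => mem_two.2 ?_)
    by_cases h : x ∈ X
    · rw [if_pos h]; exact Or.inr rfl
    · rw [if_neg h]; exact Or.inl rfl
  · intro X hX Y hY e
    rw [mem_pw] at hX hY
    have key : ∀ x ∈ a, (x ∈ X ↔ x ∈ Y) := by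
      intro x hx
      have h1 : ap (lam a fun x => if x ∈ X then sc ∅ else ∅) x =
        ap (lam a fun x => if x ∈ Y then sc ∅ else ∅) x := by rw [e]
      rw [ap_lam hx, ap_lam hx] at h1
      by_cases h2 : x ∈ X <;> by_cases h3 : x ∈ Y <;>
        simp only [h2, h3, if_true, if_false] at h1 ⊢
      · exact absurd h1.symm empty_ne_one
      · exact absurd h1 empty_ne_one
    exact ext fun x => ⟨fun hx => (key x (hX x hx)).1 hx, fun hx => (key x (hY x hx)).2 hx⟩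
  · intro f hf
    rw [mem_fns] at hf
    refine ⟨sep a fun x => ap f x = sc ∅, mem_pw.2 fun x hx => (mem_sep.1 hx).1, ?_⟩
    refine isFun_lam.ext hf.isFun (by rw [dom_lam, hf.dom_eq]) fun x hx => ?_
    rw [dom_lam] at hx
    rw [ap_lam hx]
    by_cases h : ap f x = sc ∅
    · have h2 : x ∈ sep a (fun x => ap f x = sc ∅) := mem_sep.2 ⟨hx, h⟩
      rw [if_pos h2, h]
    · have h2 : x ∉ sep a (fun x => ap f x = sc ∅) := fun h1 => h (mem_sep.1 h1).2
      rw [if_neg h2]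
      rcases mem_two.1 (hf.ap_mem hx) with h1 | h1
      · exact h1.symm
      · exact absurd h1 h

theorem leq_pw {a b : M} (h : Leq a b) : Leq (pw a) (pw b) := leq_pw_of_leq h

theorem pw_congr {a b : M} (h : Eqn a b) : Eqn (pw a) (pw b) :=
  (leq_pw h.leq).antisymm (leq_pw h.symm.leq)

theorem eqn_pw_pow2 (κ : M) : Eqn (pw κ) (pow2 κ) := eqn_card _

/-- `(2^κ)^κ = 2^κ` -/
theorem eqn_fns_pw {κ : M} (h : InfCard κ) : Eqn (fns κ (pw κ)) (pw κ) := by
  have h1 : Eqn (fns κ (pw κ)) (fns κ (fns κ two)) := fns_congr (Eqn.refl κ) (eqn_pw_fns κ)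
  have h2 : Eqn (fns κ (fns κ two)) (fns (prod κ κ) two) := (fns_curry κ κ two).symm
  have h3 : Eqn (fns (prod κ κ) (two : M)) (fns κ two) :=
    fns_congr (eqn_prod_self h) (Eqn.refl two)
  exact ((h1.trans h2).trans h3).trans (eqn_pw_fns κ).symm

theorem leq_fns_pw {κ a b : M} (h : InfCard κ) (ha : Leq a κ) (hb : Leq b (pw κ)) :
    Leq (fns a b) (pw κ) :=
  (leq_fns ha hb (ne_empty_iff.2 ⟨∅, mem_pw.2 (empty_sub κ)⟩)).trans (eqn_fns_pw h).leq

theorem leq_fns_pow2 {κ a b : M} (h : InfCard κ) (ha : Leq a κ) (hb : Leq b (pow2 κ)) :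
    Leq (fns a b) (pow2 κ) :=
  (leq_fns_pw h ha (hb.trans (eqn_pw_pow2 κ).symm.leq)).trans (eqn_pw_pow2 κ).leq

/-! ### sequences -/

theorem leq_seqs {κ θ : M} (h : InfCard θ) (hκ : κ ⊆ θ)
    (h' : ∀ α ∈ κ, Leq (fns α θ) θ) : Leq (seqs κ θ) θ :=
  leq_iU h (fun α => fns α θ) (leq_of_sub hκ) h'

theorem leq_seqs_self {κ a : M} (h : sc ∅ ∈ κ) : Leq a (seqs κ a) := by
  refine leq_of (fun x => lam (sc ∅) fun _ => x) (fun x hx => ?_) fun x _ y _ e => ?_
  · exact mem_seqs.2 ⟨sc ∅, h, maps_lam fun _ _ => hx⟩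
  · have h1 : ap (lam (sc ∅) fun _ => x) ∅ = ap (lam (sc ∅) fun _ => y) ∅ := by rw [e]
    rwa [ap_lam (self_mem_sc ∅), ap_lam (self_mem_sc ∅)] at h1

theorem seqs_mono {κ κ' a b : M} (h : κ ⊆ κ') (h' : a ⊆ b) : seqs κ a ⊆ seqs κ' b := by
  intro s hs
  obtain ⟨α, hα, h1⟩ := mem_seqs.1 hs
  exact mem_seqs.2 ⟨α, h α hα, h1.mono h'⟩

theorem leq_seqs_congr {κ a b : M} (h : Leq a b) : Leq (seqs κ a) (seqs κ b) := by
  obtain ⟨g, hg, hgi⟩ := h
  rw [hg.inj_iff] at hgi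
  refine leq_of (fun s => cmp g s) (fun s hs => ?_) fun s hs t ht e => ?_
  · obtain ⟨α, hα, h1⟩ := mem_seqs.1 hs
    exact mem_seqs.2 ⟨α, hα, h1.cmp hg⟩
  · obtain ⟨α, hα, h1⟩ := mem_seqs.1 hs
    obtain ⟨β, hβ, h2⟩ := mem_seqs.1 ht
    have hd : dom s = dom t := by
      have := congrArg dom e
      rwa [dom_cmp, dom_cmp] at this
    refine h1.isFun.ext h2.isFun hd fun x hx => ?_
    have hx' : x ∈ dom t := hd ▸ hx
    have h3 : ap (cmp g s) x = ap (cmp g t) x := by rw [e]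
    rw [ap_cmp hx, ap_cmp hx'] at h3
    exact hgi _ (h1.ap_mem (h1.dom_eq ▸ hx)) _ (h2.ap_mem (h2.dom_eq ▸ hx')) h3

theorem leq_seqs_pow2 {κ : M} (h : InfCard κ) : Leq (seqs (scard κ) (pow2 κ)) (pow2 κ) :=
  leq_seqs (infCard_pow2 h) (scard_sub_pow2 h.isCard) fun _ hα =>
    leq_fns_pow2 h ((mem_scard_iff h.isCard ((infCard_scard h).isOrd.mem hα)).1 hα)
      (Leq.refl _)

theorem card_seqs_pow2 {κ : M} (h : InfCard κ) : card (seqs (scard κ) (pow2 κ)) = pow2 κ :=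
  card_eq_of (isCard_pow2 κ) ((leq_seqs_pow2 h).antisymm
    (leq_seqs_self ((infCard_scard h).2 _ (mem_om.2 isNat_empty.sc))))

theorem leq_pws_seqs {κ a : M} : Leq (pws κ a) (seqs κ a) := by
  obtain ⟨g, -, -, hg⟩ := exists_choice_cls (pws κ a) (fun s g => Bij g (card s) s) fun s _ =>
    (eqn_card s).symm
  refine leq_of (fun s => ap g s) (fun s hs => ?_) fun s hs t ht e => ?_
  · obtain ⟨h1, h2⟩ := mem_pws.1 hs
    exact mem_seqs.2 ⟨card s, h2, (hg s hs).1.mono h1⟩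
  · rw [← (hg s hs).2.2, ← (hg t ht).2.2, e]

/-- the number of small subsets -/
theorem leq_pws {κ θ a : M} (h : Leq (seqs κ θ) θ) (ha : Leq a θ) : Leq (pws κ a) θ :=
  (leq_pws_seqs.trans (leq_seqs_congr ha)).trans h

theorem leq_fns_of_seqs {κ θ α : M} (h : Leq (seqs κ θ) θ) (hα : α ∈ κ) : Leq (fns α θ) θ :=
  (leq_of_sub fun s hs => mem_seqs.2 ⟨α, hα, mem_fns.1 hs⟩).trans h

/-! ### Hausdorff -/

theorem leq_fns_scard' {κ lm : M} (h : InfCard κ) (hl : Leq lm κ) :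
    Leq (fns lm (scard κ)) (prod (fns lm κ) (scard κ)) := by
  have hs := infCard_scard h
  obtain ⟨g, -, -, hg⟩ := exists_choice_cls (scard κ) (fun β g => Maps g β κ ∧ Inj g) fun β hβ =>
    (mem_scard_iff h.isCard (hs.isOrd.mem hβ)).1 hβ
  have hb : ∀ f, Maps f lm (scard κ) → bigU (img (ran f) fun y => sc y) ∈ scard κ ∧
      ∀ x ∈ lm, ap f x ∈ bigU (img (ran f) fun y => sc y) := by
    intro f hf
    refine ⟨?_, fun x hx => mem_bigU.2 ⟨sc (ap f x), mem_img.2 ⟨ap f x, ?_, rfl⟩, self_mem_sc _⟩⟩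
    · rw [mem_scard_iff h.isCard]
      · refine leq_bigU h ((leq_img _ _).trans ((leq_ran hf.isFun).trans (hf.dom_eq.symm ▸ hl))) ?_
        intro y hy
        obtain ⟨z, hz, rfl⟩ := mem_img.1 hy
        have h1 := hf.ran_sub z hz
        rw [← mem_scard_iff h.isCard (hs.isOrd.mem h1).sc]
        exact hs.isLim.2.2 z h1
      · refine isOrd_bigU fun y hy => ?_
        obtain ⟨z, hz, rfl⟩ := mem_img.1 hy
        exact (hs.isOrd.mem (hf.ran_sub z hz)).sc
    · exact hf.isFun.ap_mem_ran (hf.dom_eq.symm ▸ hx)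
  refine leq_of (fun f => op (lam lm fun x => ap (ap g (bigU (img (ran f) fun y => sc y))) (ap f x))
    (bigU (img (ran f) fun y => sc y))) ?_ ?_
  · intro f hf
    rw [mem_fns] at hf
    obtain ⟨h1, h2⟩ := hb f hf
    refine op_mem_prod.2 ⟨mem_fns.2 (maps_lam fun x hx => ?_), h1⟩
    exact (hg _ h1).1.ap_mem (h2 x hx)
  · intro f hf f' hf' e
    rw [mem_fns] at hf hf'
    rw [op_inj] at e
    obtain ⟨h1, h2⟩ := hb f hf
    obtain ⟨h1', h2'⟩ := hb f' hf'
    refine hf.ext hf' fun x hx => ?_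
    have h3 : ap (lam lm fun x => ap (ap g (bigU (img (ran f) fun y => sc y))) (ap f x)) x =
      ap (lam lm fun x => ap (ap g (bigU (img (ran f') fun y => sc y))) (ap f' x)) x := by
      rw [e.1]
    rw [ap_lam hx, ap_lam hx, ← e.2] at h3
    exact (hg _ h1).1.inj_iff.1 (hg _ h1).2 _ (h2 x hx) _ (e.2 ▸ h2' x hx) h3

theorem leq_fns_scard {κ lm : M} (h : InfCard κ) (hl' : lm ⊆ κ) :
    Leq (fns lm (scard κ)) (prod (fns lm κ) (scard κ)) := leq_fns_scard' h (leq_of_sub hl')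

theorem leq_fns_scard_self {κ lm : M} (h : InfCard κ) (hl : Leq lm κ) (h' : Leq (fns lm κ) κ) :
    Leq (fns lm (scard κ)) (scard κ) := by
  refine (leq_fns_scard' h hl).trans (leq_prod (infCard_scard h) (h'.trans ?_) (Leq.refl _))
  exact leq_of_sub ((infCard_scard h).isOrd.sub_of_mem (mem_scard_self h.isOrd))

theorem leq_seqs_scard {κ θ : M} (h : InfCard θ) (hκ : κ ⊆ θ)
    (h' : Leq (seqs κ θ) θ) : Leq (seqs κ (scard θ)) (scard θ) := by
  refine leq_seqs (infCard_scard h) ?_ fun α hα => ?_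
  · exact Sub.trans hκ ((infCard_scard h).isOrd.sub_of_mem (mem_scard_self h.isOrd))
  · exact leq_fns_scard_self h (leq_of_sub (h.isOrd.sub_of_mem (hκ α hα)))
      (leq_fns_of_seqs h' hα)

end

end Pool.Agent.IST
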