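import Pool.Agent.IST.CardMul

/-!
# Regular cardinals, cofinality
-/

set_option synthInstance.maxSize 100000

namespace Pool.Agent.IST

open Pool.Agent.BVM

section

variable {M : Type} [SetModel M] {Γ : Type} [IsCtx Γ M]

theorem union_sub {a b c : M} (ha : a ⊆ c) (hb : b ⊆ c) : a ∪ b ⊆ c := fun z hz => by
  rcases mem_union.1 hz with h | h
  · exact ha z h
  · exact hb z h

theorem sub_union_left {a b : M} : a ⊆ a ∪ b := fun _ hz => mem_union.2 (Or.inl hz)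

theorem sub_union_right {a b : M} : b ⊆ a ∪ b := fun _ hz => mem_union.2 (Or.inr hz)

/-- the maximum of two elements of an ordinal -/
theorem IsOrd.union_mem {α β γ : M} (h : IsOrd γ) (hα : α ∈ γ) (hβ : β ∈ γ) : α ∪ β ∈ γ := by
  rcases (h.mem hα).total (h.mem hβ) with h1 | h1
  · have : α ∪ β = β := Sub.antisymm (union_sub h1 (Sub.refl β)) sub_union_right
    rw [this]
    exact hβ
  · have : α ∪ β = α :=
      Sub.antisymm (union_sub (Sub.refl α) ((h.mem hα).sub_of_mem h1)) sub_union_left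
    rw [this]
    exact hα

theorem isReg_om : IsReg (om : M) := by
  refine ⟨infCard_om, nat_ind (fun n => ∀ f, Maps f n om → ∃ β ∈ (om : M), ∀ ξ ∈ n, ap f ξ ∈ β)
    ?_ ?_⟩
  · intro f _
    exact ⟨∅, mem_om.2 isNat_empty, fun ξ hξ => absurd hξ (notMem_empty ξ)⟩
  · intro n hn ih f hf
    have h1 : Maps (lam n fun x => ap f x) n om :=
      maps_lam fun x hx => hf.ap_mem (mem_sc.2 (Or.inl hx))
    obtain ⟨β, hβ, h2⟩ := ih _ h1
    have h3 : ap f n ∈ (om : M) := hf.ap_mem (self_mem_sc n)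
    have h4 : sc (ap f n) ∈ (om : M) := isLim_om.2.2 _ h3
    refine ⟨β ∪ sc (ap f n), isOrd_om.union_mem hβ h4, fun ξ hξ => ?_⟩
    rcases mem_sc.1 hξ with h5 | rfl
    · have := h2 ξ h5
      rw [ap_lam h5] at this
      exact sub_union_left _ this
    · exact sub_union_right _ (self_mem_sc _)

theorem isReg_scard {κ : M} (h : InfCard κ) : IsReg (scard κ) := by
  have hs := infCard_scard h
  refine ⟨hs, fun α hα f hf => ?_⟩
  have h1 : Leq (iU α fun ξ => ap f ξ) κ := by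
    refine leq_iU h (fun ξ => ap f ξ) ((mem_scard_iff h.1 (hs.isOrd.mem hα)).1 hα) fun ξ hξ => ?_
    exact (mem_scard_iff h.1 (hs.isOrd.mem (hf.ap_mem hξ))).1 (hf.ap_mem hξ)
  have h2 : IsOrd (iU α fun ξ => ap f ξ) := isOrd_bigU fun y hy => by
    obtain ⟨ξ, hξ, rfl⟩ := mem_img.1 hy
    exact hs.isOrd.mem (hf.ap_mem hξ)
  have h3 : iU α (fun ξ => ap f ξ) ∈ scard κ := (mem_scard_iff h.1 h2).2 h1
  refine ⟨sc (iU α fun ξ => ap f ξ), hs.isLim.2.2 _ h3, fun ξ hξ => ?_⟩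
  rw [(hs.isOrd.mem (hf.ap_mem hξ)).mem_sc_iff h2]
  exact fun z hz => mem_iU.2 ⟨ξ, hξ, hz⟩

theorem IsReg.infCard {κ : M} (h : IsReg κ) : InfCard κ := h.1

theorem IsReg.isCard {κ : M} (h : IsReg κ) : IsCard κ := h.1.1

theorem IsReg.isOrd {κ : M} (h : IsReg κ) : IsOrd κ := h.1.1.1

theorem IsReg.bdd {κ a : M} (h : IsReg κ) (ha : card a ∈ κ) (F : M → M)
    [hFd : Dff fun γ : E0 M × M => F γ.2] (hF : ∀ x ∈ a, F x ∈ κ) :
    ∃ β ∈ κ, ∀ x ∈ a, F x ∈ β := by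
  obtain ⟨g, hg⟩ := (eqn_card a).symm
  have h1 : Dff fun γ : E0 M × M => F (ap g γ.2) :=
    Dff.lift1 (Γ := E0 M) (F := fun _ x => F x) (c := fun _ => ⟨⟩) (hc := Cor.e0)
  obtain ⟨β, hβ, h2⟩ := h.2 _ ha (lam (card a) fun ξ => F (ap g ξ))
    (maps_lam fun ξ hξ => hF _ (hg.1.ap_mem hξ))
  refine ⟨β, hβ, fun x hx => ?_⟩
  obtain ⟨ξ, hξ, rfl⟩ := hg.surj hx
  have := h2 ξ hξ
  rwa [ap_lam hξ] at this

theorem IsReg.bigU_mem {κ a : M} (h : IsReg κ) (ha : card a ∈ κ) (hF : ∀ x ∈ a, x ∈ κ) :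
    bigU a ∈ κ := by
  obtain ⟨β, hβ, h1⟩ := h.bdd ha (fun x => x) hF
  refine (isOrd_bigU fun x hx => h.isOrd.mem (hF x hx)).mem_of_sub_of_mem h.isOrd ?_ hβ
  intro z hz
  obtain ⟨x, hx, hz⟩ := mem_bigU.1 hz
  exact (h.isOrd.mem hβ).trans hz (h1 x hx)

theorem iU_congr {a : M} {F G : M → M} [Dff fun γ : E0 M × M => F γ.2]
    [Dff fun γ : E0 M × M => G γ.2] (h : ∀ x ∈ a, F x = G x) : iU a F = iU a G := by
  apply ext
  intro z
  rw [mem_iU, mem_iU]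
  constructor
  · rintro ⟨x, hx, hz⟩
    exact ⟨x, hx, h x hx ▸ hz⟩
  · rintro ⟨x, hx, hz⟩
    exact ⟨x, hx, (h x hx).symm ▸ hz⟩

theorem card_iU_om_aux : ∀ n ∈ (om : M), ∀ f, IsFun f → dom f = n →
    (∀ ξ ∈ n, card (ap f ξ) ∈ (om : M)) → card (iU n fun ξ => ap f ξ) ∈ (om : M) := by
  refine nat_ind (fun n => ∀ f, IsFun f → dom f = n →
    (∀ ξ ∈ n, card (ap f ξ) ∈ (om : M)) → card (iU n fun ξ => ap f ξ) ∈ (om : M)) ?_ ?_
  · intro f _ _ _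
    have : iU (∅ : M) (fun ξ => ap f ξ) = ∅ := eq_empty_iff.2 fun z hz => by
      obtain ⟨x, hx, -⟩ := mem_iU.1 hz
      exact notMem_empty _ hx
    rw [this, isCard_empty.card_eq]
    exact mem_om.2 isNat_empty
  · intro n hn ih f hf hd h
    have h1 : card (iU n fun ξ => ap (lam n fun x => ap f x) ξ) ∈ (om : M) := by
      refine ih (lam n fun x => ap f x) isFun_lam dom_lam fun ξ hξ => ?_
      rw [ap_lam hξ]
      exact h ξ (mem_sc.2 (Or.inl hξ))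
    have h2 : iU (sc n) (fun ξ => ap f ξ) = iU n (fun ξ => ap (lam n fun x => ap f x) ξ) ∪ ap f n := by
      apply ext
      intro z
      rw [mem_union, mem_iU, mem_iU]
      constructor
      · rintro ⟨x, hx, hz⟩
        rcases mem_sc.1 hx with h3 | rfl
        · exact Or.inl ⟨x, h3, by rw [ap_lam h3]; exact hz⟩
        · exact Or.inr hz
      · rintro (⟨x, hx, hz⟩ | hz)
        · rw [ap_lam hx] at hz
          exact ⟨x, mem_sc.2 (Or.inl hx), hz⟩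
        · exact ⟨n, self_mem_sc n, hz⟩
    rw [h2]
    exact card_union_mem infCard_om h1 (h n (self_mem_sc n))

theorem IsReg.card_iU {κ a : M} (h : IsReg κ) (F : M → M) [hFd : Dff fun γ : E0 M × M => F γ.2]
    (ha : card a ∈ κ) (hF : ∀ x ∈ a, card (F x) ∈ κ) : card (iU a F) ∈ κ := by
  have hFd' : ∀ {Δ : Type} [IsCtx Δ M] {f : Δ → M} [Dff f], Dff fun γ => F (f γ) := by
    intro Δ _ f _
    exact Dff.lift1 (Γ := E0 M) (F := fun _ x => F x) (c := fun _ => ⟨⟩) (hc := Cor.e0)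
  rcases (isOrd_om.sub_iff h.isOrd).1 h.1.2 with hom | hom
  · obtain ⟨β, hβ, h1⟩ := h.bdd ha (fun x => card (F x)) hF
    have h2 : card (om ∪ (β ∪ card a)) ∈ κ := card_mem_of_mem h.isCard
      (h.isOrd.union_mem hom (h.isOrd.union_mem hβ ha))
    have hβo := h.isOrd.mem hβ
    set μ := card (om ∪ (β ∪ card a)) with hμ
    have hμl : ∀ x : M, x ⊆ om ∪ (β ∪ card a) → Leq x μ := fun x hx =>
      (leq_of_sub hx).trans (eqn_card _).leq
    have hμi : InfCard μ := by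
      refine ⟨isCard_card _, ?_⟩
      rw [isCard_om.sub_iff (isCard_card _)]
      exact hμl _ sub_union_left
    have h3 : Leq (iU a F) μ := by
      refine leq_iU hμi F ?_ fun x hx => ?_
      · exact (eqn_card a).leq.trans (hμl _ (Sub.trans sub_union_right sub_union_right))
      · refine (eqn_card (F x)).leq.trans (hμl _ ?_)
        exact Sub.trans (hβo.sub_of_mem (h1 x hx)) (Sub.trans sub_union_left sub_union_right)
    exact (isOrd_card _).mem_of_sub_of_mem h.isOrd (card_sub_of_leq hμi.1 h3) h2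
  · obtain ⟨g, hg⟩ := (eqn_card a).symm
    rw [← hom] at ha hF ⊢
    have h1 := card_iU_om_aux (card a) ha (lam (card a) fun ξ => F (ap g ξ)) isFun_lam dom_lam
      fun ξ hξ => by rw [ap_lam hξ]; exact hF _ (hg.1.ap_mem hξ)
    have h2 : iU a F = iU (card a) (fun ξ => ap (lam (card a) fun ξ => F (ap g ξ)) ξ) := by
      apply ext
      intro z
      rw [mem_iU, mem_iU]
      constructor
      · rintro ⟨x, hx, hz⟩
        obtain ⟨ξ, hξ, rfl⟩ := hg.surj hx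
        exact ⟨ξ, hξ, by rw [ap_lam hξ]; exact hz⟩
      · rintro ⟨ξ, hξ, hz⟩
        rw [ap_lam hξ] at hz
        exact ⟨_, hg.1.ap_mem hξ, hz⟩
    rw [h2]
    exact h1

theorem IsReg.card_bigU {κ a : M} (h : IsReg κ) (ha : card a ∈ κ) (hF : ∀ x ∈ a, card x ∈ κ) :
    card (bigU a) ∈ κ := by
  have h1 := h.card_iU (fun x => x) ha hF
  have : iU a (fun x => x) = bigU a := ext fun z => by rw [mem_iU, mem_bigU]
  rwa [this] at h1

theorem IsReg.card_unbounded {κ a : M} (h : IsReg κ) (ha : a ⊆ κ)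
    (hu : ∀ β ∈ κ, ∃ α ∈ a, β ⊆ α) : card a = κ := by
  rcases ((isOrd_card a).sub_iff h.isOrd).1 (card_sub_of_leq h.isCard (leq_of_sub ha)) with h1 | h1
  · obtain ⟨β, hβ, h2⟩ := h.bdd h1 (fun x => x) ha
    obtain ⟨α, hα, h3⟩ := hu β hβ
    exact absurd (h3 _ (h2 α hα)) (mem_irrefl α)
  · exact h1

/-- pigeonhole -/
theorem IsReg.pigeon {κ a b : M} (h : IsReg κ) (ha : card a = κ) (hb : card b ∈ κ) (F : M → M)
    [hFd : Dff fun γ : E0 M × M => F γ.2] (hF : ∀ x ∈ a, F x ∈ b) :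
    ∃ y ∈ b, card (sep a fun x => F x = y) = κ := by
  have hFd' : ∀ {Δ : Type} [IsCtx Δ M] {f : Δ → M} [Dff f], Dff fun γ => F (f γ) := by
    intro Δ _ f _
    exact Dff.lift1 (Γ := E0 M) (F := fun _ x => F x) (c := fun _ => ⟨⟩) (hc := Cor.e0)
  by_contra hc
  push Not at hc
  have h1 : ∀ y ∈ b, card (sep a fun x => F x = y) ∈ κ := by
    intro y hy
    have h2 : card (sep a fun x => F x = y) ⊆ κ := by
      rw [← ha]
      exact card_mono fun z hz => (mem_sep.1 hz).1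
    rcases ((isOrd_card _).sub_iff h.isOrd).1 h2 with h3 | h3
    · exact h3
    · exact absurd h3 (hc y hy)
  have h2 := h.card_iU (fun y => sep a fun x => F x = y) hb h1
  have h3 : a ⊆ iU b fun y => sep a fun x => F x = y := fun x hx =>
    mem_iU.2 ⟨F x, hF x hx, mem_sep.2 ⟨hx, rfl⟩⟩
  have h4 := card_mono h3
  rw [ha] at h4
  exact mem_irrefl _ (h4 _ h2)

/-- the cofinality of an ordinal: the least ordinal with a cofinal map -/
noncomputable def cof (α : M) : M := the fun κ => IsOrd κ ∧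
  (∃ f, Maps f κ α ∧ ∀ β ∈ α, ∃ ξ ∈ κ, β ⊆ ap f ξ) ∧
    ∀ μ ∈ κ, ¬ ∃ f, Maps f μ α ∧ ∀ β ∈ α, ∃ ξ ∈ μ, β ⊆ ap f ξ

instance cof.dff {f : Γ → M} [Dff f] : Dff fun γ => cof (f γ) := by
  unfold cof; infer_instance

theorem cof_spec {α : M} (h : IsOrd α) : IsOrd (cof α) ∧ cof α ⊆ α ∧
    (∃ f, Maps f (cof α) α ∧ ∀ β ∈ α, ∃ ξ ∈ cof α, β ⊆ ap f ξ) ∧
    ∀ μ ∈ cof α, ∀ f, Maps f μ α → ∃ β ∈ α, ∀ ξ ∈ μ, ap f ξ ∈ β := by
  have h0 : ∃ f, Maps f α α ∧ ∀ β ∈ α, ∃ ξ ∈ α, β ⊆ ap f ξ := by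
    refine ⟨lam α fun x => x, maps_lam fun _ hx => hx, fun β hβ => ⟨β, hβ, ?_⟩⟩
    rw [ap_lam hβ]
    exact Sub.refl β
  obtain ⟨κ, hκ, h1, h2⟩ := exists_min (fun κ => ∃ f, Maps f κ α ∧ ∀ β ∈ α, ∃ ξ ∈ κ, β ⊆ ap f ξ)
    h h0
  have h3 : cof α = κ := by
    refine the_eq ⟨hκ, h1, h2⟩ ?_
    rintro μ ⟨g1, g2, g3⟩
    rcases g1.cmp hκ with h4 | h4 | h4
    · exact absurd g2 (h2 μ h4)
    · exact h4
    · exact absurd h1 (g3 κ h4)
  rw [h3]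
  refine ⟨hκ, ?_, h1, fun μ hμ f hf => ?_⟩
  · rcases hκ.total h with h4 | h4
    · exact h4
    · exact absurd h0 (h2 α h4)
  · by_contra hc
    push Not at hc
    refine h2 μ hμ ⟨f, hf, fun β hβ => ?_⟩
    obtain ⟨ξ, hξ, h4⟩ := hc β hβ
    exact ⟨ξ, hξ, ((h.mem (hf.ap_mem hξ)).not_mem (h.mem hβ)).1 h4⟩

theorem isLim_cof {α : M} (h : IsLim α) : IsLim (cof α) := by
  obtain ⟨h1, h2, ⟨f, hf, hfc⟩, h4⟩ := cof_spec h.1
  rcases ord_cases h1 with h5 | ⟨μ, hμ, h5⟩ | h5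
  · obtain ⟨β, hβ⟩ := ne_empty_iff.1 h.2.1
    obtain ⟨ξ, hξ, -⟩ := hfc β hβ
    rw [h5] at hξ
    exact absurd hξ (notMem_empty _)
  · exfalso
    have h6 : μ ∈ cof α := h5 ▸ self_mem_sc μ
    obtain ⟨β, hβ, h7⟩ := h4 μ h6 (lam μ fun ξ => ap f ξ)
      (maps_lam fun ξ hξ => hf.ap_mem (h1.trans hξ h6))
    have h8 : β ∪ sc (ap f μ) ∈ α := h.1.union_mem hβ (h.2.2 _ (hf.ap_mem h6))
    obtain ⟨ξ, hξ, h9⟩ := hfc _ h8
    rw [h5] at hξ
    rcases mem_sc.1 hξ with h10 | rfl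
    · have := h7 ξ h10
      rw [ap_lam h10] at this
      exact mem_irrefl _ (h9 _ (sub_union_left _ this))
    · exact mem_irrefl _ (h9 _ (sub_union_right _ (self_mem_sc _)))
  · exact h5

/-- increasing continuous cofinal sequence -/
theorem exists_cofinal {α : M} (h : IsLim α) : ∃ f : M, Maps f (cof α) α ∧
    (∀ ξ ∈ cof α, ∀ ζ ∈ ξ, ap f ζ ∈ ap f ξ) ∧ (∀ β ∈ α, ∃ ξ ∈ cof α, β ∈ ap f ξ) ∧
    ∀ ξ ∈ cof α, IsLim ξ → ap f ξ = bigU (im f ξ) := by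
  classical
  obtain ⟨h1, h2, ⟨g, hg, hgc⟩, h4⟩ := cof_spec h.1
  have hlim := isLim_cof h
  let G : M → M → M := fun ξ k => if IsLim ξ then bigU (ran k) else
    sc (bigU (ran k) ∪ bigU (img ξ fun η => ap g η))
  have hG : Dff fun γ : (E0 M × M) × M => G γ.1.2 γ.2 := by
    simp only [G]; infer_instance
  let F : M → M := fun ξ => erec G ξ
  have hF : Dff fun γ : E0 M × M => F γ.2 := erec_slice (G := G)
  have hFd : ∀ {Δ : Type} [IsCtx Δ M] {f : Δ → M} [Dff f], Dff fun γ => F (f γ) := by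
    intro Δ _ f _
    exact erec.dff' (Γ := E0 M) (G := fun _ => G) (c := fun _ => ⟨⟩) (hc := Cor.e0)
  have hFl : ∀ ξ, IsLim ξ → F ξ = bigU (img ξ F) := by
    intro ξ hξ
    simp only [F]
    rw [erec_ord hξ.1]
    simp only [G]
    rw [ran_lam, if_pos hξ]
  have hFs : ∀ ξ, IsOrd ξ → ¬ IsLim ξ →
      F ξ = sc (bigU (img ξ F) ∪ bigU (img ξ fun η => ap g η)) := by
    intro ξ hξ hξ'
    simp only [F]
    rw [erec_ord hξ]
    simp only [G]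
    rw [ran_lam, if_neg hξ']
  have hbd : ∀ ξ ∈ cof α, ∀ K : M → M, (Dff fun γ : E0 M × M => K γ.2) →
      (∀ η ∈ ξ, K η ∈ α) → bigU (img ξ K) ∈ α := by
    intro ξ hξ K hK hKα
    obtain ⟨β, hβ, h5⟩ := h4 ξ hξ (lam ξ K) (maps_lam hKα)
    refine (isOrd_bigU fun y hy => ?_).mem_of_sub_of_mem h.1 ?_ hβ
    · obtain ⟨η, hη, rfl⟩ := mem_img.1 hy
      exact h.1.mem (hKα η hη)
    · intro z hz
      obtain ⟨y, hy, hz⟩ := mem_bigU.1 hz
      obtain ⟨η, hη, rfl⟩ := mem_img.1 hy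
      have := h5 η hη
      rw [ap_lam hη] at this
      exact (h.1.mem hβ).trans hz this
  have hFα : ∀ ξ, IsOrd ξ → ξ ∈ cof α → F ξ ∈ α := by
    refine ord_ind (fun ξ => ξ ∈ cof α → F ξ ∈ α) fun ξ hξ ih hξc => ?_
    have h5 := hbd ξ hξc F hF fun η hη => ih η hη (h1.trans hη hξc)
    by_cases h6 : IsLim ξ
    · rw [hFl ξ h6]
      exact h5
    · rw [hFs ξ hξ h6]
      refine h.2.2 _ (h.1.union_mem h5 (hbd ξ hξc _ inferInstance fun η hη => ?_))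
      exact hg.ap_mem (h1.trans hη hξc)
  have hsub : ∀ ξ ζ, ζ ∈ ξ → F ζ ⊆ bigU (img ξ F) := fun ξ ζ hζ =>
    sub_bigU (mem_img.2 ⟨ζ, hζ, rfl⟩)
  have hinc1 : ∀ ξ, IsOrd ξ → ¬ IsLim ξ → ξ ∈ cof α → ∀ ζ ∈ ξ, F ζ ∈ F ξ := by
    intro ξ hξ hξ' hξc ζ hζ
    have h5 := hFα ζ (hξ.mem hζ) (h1.trans hζ hξc)
    have h6 := hFα ξ hξ hξc
    rw [hFs ξ hξ hξ'] at h6 ⊢
    have h7 := h.1.trans (self_mem_sc _) h6
    rw [(h.1.mem h5).mem_sc_iff (h.1.mem h7)]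
    exact Sub.trans (hsub ξ ζ hζ) sub_union_left
  have hinc : ∀ ξ ∈ cof α, ∀ ζ ∈ ξ, F ζ ∈ F ξ := by
    intro ξ hξc ζ hζ
    by_cases h6 : IsLim ξ
    · rw [hFl ξ h6]
      have h7 := h6.2.2 ζ hζ
      refine hsub ξ (sc ζ) h7 _ ?_
      exact hinc1 (sc ζ) (h1.mem (h1.trans h7 hξc)) not_isLim_sc (h1.trans h7 hξc) ζ (self_mem_sc ζ)
    · exact hinc1 ξ (h1.mem hξc) h6 hξc ζ hζ
  refine ⟨lam (cof α) F, maps_lam fun ξ hξ => hFα ξ (h1.mem hξ) hξ, ?_, ?_, ?_⟩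
  · intro ξ hξ ζ hζ
    rw [ap_lam hξ, ap_lam (h1.trans hζ hξ)]
    exact hinc ξ hξ ζ hζ
  · intro β hβ
    obtain ⟨ξ, hξ, h5⟩ := hgc (sc β) (h.2.2 β hβ)
    have h6 := hlim.2.2 ξ hξ
    refine ⟨sc ξ, h6, ?_⟩
    rw [ap_lam h6, hFs _ (h1.mem h6) not_isLim_sc]
    refine mem_sc.2 (Or.inl (mem_union.2 (Or.inr (mem_bigU.2 ⟨ap g ξ, ?_, h5 β (self_mem_sc β)⟩))))
    exact mem_img.2 ⟨ξ, self_mem_sc ξ, rfl⟩
  · intro ξ hξ hξl
    rw [ap_lam hξ, hFl ξ hξl]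
    congr 1
    apply ext
    intro z
    rw [mem_img, mem_im]
    refine exists_congr fun x => and_congr_right fun hx => ?_
    rw [op_mem_lam]
    exact ⟨fun e => ⟨h1.trans hx hξ, e⟩, fun e => e.2⟩

theorem isReg_cof {α : M} (h : IsLim α) : IsReg (cof α) := by
  obtain ⟨h1, h2, -, h4⟩ := cof_spec h.1
  obtain ⟨f, hf, hinc, hcf, -⟩ := exists_cofinal h
  have hlim := isLim_cof h
  have key : ∀ μ ∈ cof α, ∀ k, Maps k μ (cof α) → ∃ β ∈ cof α, ∀ ξ ∈ μ, ap k ξ ∈ β := by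
    intro μ hμ k hk
    obtain ⟨β, hβ, h5⟩ := h4 μ hμ (cmp f k) (hk.cmp hf)
    obtain ⟨ξ, hξ, h6⟩ := hcf β hβ
    refine ⟨ξ, hξ, fun η hη => ?_⟩
    have h7 := h5 η hη
    rw [ap_cmp (hk.dom_eq.symm ▸ hη)] at h7
    have h8 := hk.ap_mem hη
    rcases (h1.mem h8).cmp (h1.mem hξ) with h9 | h9 | h9
    · exact h9
    · rw [h9] at h7
      exact absurd h7 (mem_asymm h6)
    · have h10 := hinc _ h8 ξ h9
      have h11 := h.1.mem (hf.ap_mem h8)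
      exact absurd (h11.trans h6 h10) (mem_asymm h7)
  refine ⟨⟨⟨h1, fun μ hμ h5 => ?_⟩, om_sub_of_isLim hlim⟩, key⟩
  obtain ⟨k, hk⟩ := h5
  obtain ⟨β, hβ, h6⟩ := key μ hμ k hk.1
  obtain ⟨ξ, hξ, h7⟩ := hk.surj hβ
  have := h6 ξ hξ
  rw [h7] at this
  exact mem_irrefl _ this

theorem isReg_iff_cof {κ : M} (h : InfCard κ) : IsReg κ ↔ cof κ = κ := by
  obtain ⟨h1, h2, ⟨f, hf, hfc⟩, h4⟩ := cof_spec h.isOrd
  constructor
  · intro hr
    rcases (h1.sub_iff h.isOrd).1 h2 with h5 | h5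
    · obtain ⟨β, hβ, h6⟩ := hr.2 _ h5 f hf
      obtain ⟨ξ, hξ, h7⟩ := hfc β hβ
      exact absurd (h7 _ (h6 ξ hξ)) (mem_irrefl _)
    · exact h5
  · intro h5
    have := isReg_cof h.isLim
    rwa [h5] at this

theorem cof_sub {α : M} (h : IsOrd α) : cof α ⊆ α := (cof_spec h).2.1

/-- a singular cardinal has smaller cofinality -/
theorem cof_mem {κ : M} (h : InfCard κ) (h' : ¬ IsReg κ) : cof κ ∈ κ := by
  rcases ((cof_spec h.isOrd).1.sub_iff h.isOrd).1 (cof_sub h.isOrd) with h1 | h1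
  · exact h1
  · exact absurd ((isReg_iff_cof h).2 h1) h'

end

end Pool.Agent.IST
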