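import Pool.Agent.IST.LosE
import Pool.Agent.IST.Reg
import Pool.Agent.IST.CardExp

/-!
# Normal fine ultrafilters on `P_κ(V_η)`: basic facts
-/

set_option synthInstance.maxSize 100000

namespace Pool.Agent.IST

open Pool.Agent.BVM CMap Amp

section

variable {M : Type} [SetModel M] {A : Amp M}

namespace Amp

theorem mem_D {s : M} : s ∈ A.D ↔ s ⊆ Vr A.η ∧ card s ∈ A.κ := mem_pws

theorem κ_sub_Vr : A.κ ⊆ Vr A.η := fun _ h => A.trans_Z h κ_mem_Vr_η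

/-- small sets are subsets of almost all `s` -/
theorem aa_sub {w : M} (hw : w ⊆ Vr A.η) (hc : card w ∈ A.κ) : A.aa fun s => w ⊆ s := by
  obtain ⟨g, hg⟩ := (eqn_card w).symm
  have h1 : A.aa fun s => ∀ z ∈ card w, ap g z ∈ s :=
    (A.nfu.aa_small (χ := fun z s => ap g z ∈ s) hc).2 fun z hz => aa_fine (hw _ (hg.1.ap_mem hz))
  refine aa_mono h1 fun s _ h y hy => ?_
  rw [← hg.2.2] at hy
  obtain ⟨z, hz, rfl⟩ := hg.1.isFun.mem_ran_iff.1 hy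
  exact h z (hg.1.dom_eq ▸ hz)

theorem card_mem_of_mem_κ {α : M} (h : α ∈ A.κ) : card α ∈ A.κ :=
  (isOrd_card α).mem_of_sub_of_mem A.ord_κ (card_sub_self (A.ord_κ.mem h)) h

/-- `s ∩ κ ∈ κ` for almost all `s` -/
theorem aa_inter_κ : A.aa fun s => s ∩ A.κ ∈ A.κ := by
  have h1 : A.aa fun s => ∀ z ∈ s, z ∈ A.κ → z ⊆ s := by
    refine aa_all.2 fun z _ => ?_
    by_cases hz : z ∈ A.κ
    · have h2 := aa_sub (A := A) (w := z)
        (fun y hy => κ_sub_Vr y (A.ord_κ.trans hy hz)) (card_mem_of_mem_κ hz)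
      exact aa_mono h2 fun s _ h _ => h
    · exact aa_of_all fun s _ h => absurd h hz
  refine aa_mono h1 fun s hs h => ?_
  have h2 : IsOrd (s ∩ A.κ) := by
    refine isOrd_of_trans (fun y hy z hz => ?_) fun y hy => A.ord_κ.mem (mem_inter.1 hy).2
    rw [mem_inter] at hy ⊢
    exact ⟨h y hy.1 hy.2 z hz, A.ord_κ.trans hz hy.2⟩
  rcases (h2.sub_iff A.ord_κ).1 (fun y hy => (mem_inter.1 hy).2) with h3 | h3
  · exact h3
  · have h4 : A.κ ⊆ s := fun y hy => (mem_inter.1 (h3.symm ▸ hy)).1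
    have h5 : card A.κ ⊆ card s := card_sub_iff.2 (leq_of_sub h4)
    rw [A.card_κ.card_eq] at h5
    exact absurd (h5 _ (mem_D.1 hs).2) (mem_irrefl _)

theorem infCard_κ : InfCard A.κ := ⟨A.card_κ, A.ord_κ.sub_of_mem A.om_mem⟩

theorem reg_κ : IsReg A.κ := by
  refine ⟨infCard_κ, fun α hα f hf => ?_⟩
  have h1 : A.aa fun s => ∀ ξ ∈ α, ap f ξ ∈ s :=
    (A.nfu.aa_small (χ := fun z s => ap f z ∈ s) hα).2 fun z hz =>
      aa_fine (κ_sub_Vr _ (hf.ap_mem hz))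
  obtain ⟨s, -, h2, h3⟩ := aa_ex (aa_and h1 aa_inter_κ)
  exact ⟨_, h3, fun ξ hξ => mem_inter.2 ⟨h2 ξ hξ, hf.ap_mem hξ⟩⟩

theorem slim_κ : IsSLim A.κ := by
  refine ⟨infCard_κ, fun α hα => ?_⟩
  rcases A.ord_κ.total (isCard_pow2 α).isOrd with h | h
  swap
  · exact h
  exfalso
  obtain ⟨g, hg, hgi⟩ : Leq A.κ (pw α) := (leq_of_sub h).trans (eqn_card (pw α)).symm.leq
  set a := sep α fun ξ => A.aa fun s => ξ ∈ ap g (s ∩ A.κ) with ha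
  have h1 : A.aa fun s => ∀ ξ ∈ α, (ξ ∈ a ↔ ξ ∈ ap g (s ∩ A.κ)) := by
    refine (A.nfu.aa_small (χ := fun ξ s => (ξ ∈ a ↔ ξ ∈ ap g (s ∩ A.κ))) hα).2 fun ξ hξ => ?_
    refine A.nfu.aa_iff_iff.2 (A.nfu.aa_const.trans ?_)
    rw [ha, mem_sep]
    exact ⟨fun h => h.2, fun h => ⟨hξ, h⟩⟩
  have h2 : A.aa fun s => ap g (s ∩ A.κ) = a := by
    refine aa_mono (aa_and h1 aa_inter_κ) fun s _ ⟨h3, h4⟩ => ext fun ξ => ?_
    have h5 : ap g (s ∩ A.κ) ⊆ α := mem_pw.1 (hg.ap_mem h4)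
    exact ⟨fun h6 => (h3 ξ (h5 ξ h6)).2 h6, fun h6 => (h3 ξ (mem_sep.1 h6).1).1 h6⟩
  obtain ⟨s1, -, h3, h4⟩ := aa_ex (aa_and h2 aa_inter_κ)
  obtain ⟨s2, -, ⟨h5, h6⟩, h7⟩ := aa_ex (aa_and (aa_and h2 aa_inter_κ)
    (aa_fine (κ_sub_Vr _ h4)))
  have h8 := hgi _ (by rw [hg.dom_eq]; exact h4) _ (by rw [hg.dom_eq]; exact h6) (h3.trans h5.symm)
  have h9 : s1 ∩ A.κ ∈ s2 ∩ A.κ := mem_inter.2 ⟨h7, h4⟩
  rw [← h8] at h9
  exact mem_irrefl _ h9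

end Amp

/-! ### `V_κ` for inaccessible `κ` -/

theorem card_Vr_mem {κ : M} (h1 : IsReg κ) (h2 : IsSLim κ) : ∀ β ∈ κ, card (Vr β) ∈ κ := by
  have key : ∀ β : M, IsOrd β → β ∈ κ → card (Vr β) ∈ κ := by
    refine ord_ind (fun β => β ∈ κ → card (Vr β) ∈ κ) fun β hβ ih hβκ => ?_
    have e : Vr β = iU β fun γ => pw (Vr γ) := by
      apply ext; intro z
      rw [mem_Vr, mem_iU]
      simp only [mem_pw]
    rw [e]
    refine h1.card_iU _ ?_ fun γ hγ => ?_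
    · exact (isOrd_card β).mem_of_sub_of_mem h1.isOrd (card_sub_self hβ) hβκ
    · have h3 := h2.2 _ (ih γ hγ (h1.isOrd.trans hγ hβκ))
      have h4 : card (pw (Vr γ)) = pow2 (card (Vr γ)) :=
        card_eq_iff.2 (pw_congr (eqn_card _))
      rw [h4]
      exact h3
  exact fun β hβ => key β (h1.isOrd.mem hβ) hβ

theorem card_mem_of_mem_Vr {κ x : M} (h1 : IsReg κ) (h2 : IsSLim κ) (hx : x ∈ Vr κ) :
    card x ∈ κ := by
  obtain ⟨β, hβ, h⟩ := mem_Vr.1 hx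
  exact (isOrd_card x).mem_of_sub_of_mem h1.isOrd (card_sub_iff.2 (leq_of_sub h))
    (card_Vr_mem h1 h2 β hβ)

theorem mem_Vr_of_card {κ x : M} (h1 : IsReg κ) (hx : x ⊆ Vr κ) (hc : card x ∈ κ) :
    x ∈ Vr κ := by
  obtain ⟨β, hβ, h⟩ := h1.bdd hc (fun y => rk y) fun y hy => (mem_Vr_iff h1.isOrd).1 (hx y hy)
  rw [mem_Vr_iff h1.isOrd]
  exact (isOrd_rk x).mem_of_sub_of_mem h1.isOrd ((rk_sub_iff (h1.isOrd.mem hβ)).2 h) hβ

theorem isLim_of_reg {κ : M} (h : IsReg κ) : IsLim κ := h.infCard.isLim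

namespace Amp

theorem Vκ_sub : Vr A.κ ⊆ Vr A.η := Vr_mono (A.lim.1.sub_of_mem A.κ_mem)

theorem card_small {x : M} (hx : x ∈ Vr A.κ) : card x ∈ A.κ :=
  card_mem_of_mem_Vr reg_κ slim_κ hx

theorem aa_Vκ_trans : A.aa fun s => ∀ x ∈ s, x ∈ Vr A.κ → x ⊆ s := by
  refine aa_all.2 fun x hx => ?_
  by_cases h : x ∈ Vr A.κ
  · exact aa_mono (aa_sub (fun y hy => A.trans_Z hy hx) (card_small h)) fun s _ h _ => h
  · exact aa_of_all fun s _ h' => absurd h' h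

/-- `s ∩ V_κ = V_(s ∩ κ)` -/
theorem aa_inter_Vκ : A.aa fun s => s ∩ Vr A.κ = Vr (s ∩ A.κ) := by
  have h1 : A.aa fun s => ∀ x ∈ s, rk x ∈ s := by
    refine aa_all.2 fun x hx => aa_fine (rk_mem_Vr A.lim.1 hx)
  have h2 : A.aa fun s => ∀ x ∈ s, sc x ∈ s := by
    refine aa_all.2 fun x hx => aa_fine (sc_mem_Vr A.lim hx)
  have h3 : A.aa fun s => ∀ x ∈ s, Vr x ∈ s := by
    refine aa_all.2 fun x hx => aa_fine (Vr_mem_Vr A.lim.1 hx)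
  refine aa_mono (aa_and (aa_and h1 h2) (aa_and h3 (aa_and aa_Vκ_trans aa_inter_κ)))
    fun s _ ⟨⟨h1, h2⟩, h3, h4, h5⟩ => ?_
  have ho := A.ord_κ.mem h5
  have hl := isLim_of_reg (reg_κ (A := A))
  apply ext; intro x
  rw [mem_inter, mem_Vr_iff ho, mem_inter]
  constructor
  · rintro ⟨hx, hx'⟩
    exact ⟨h1 x hx, (mem_Vr_iff A.ord_κ).1 hx'⟩
  · rintro ⟨hx, hx'⟩
    have h6 : x ∈ Vr (sc (rk x)) := by
      rw [mem_Vr_iff (isOrd_rk x).sc]; exact self_mem_sc _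
    have h7 : sc (rk x) ∈ A.κ := hl.2.2 _ hx'
    have h8 : Vr (sc (rk x)) ∈ Vr A.κ := by
      rw [mem_Vr_iff A.ord_κ]
      exact (isOrd_rk _).mem_of_sub_of_mem A.ord_κ (rk_Vr_sub (isOrd_rk x).sc) h7
    exact ⟨h4 _ (h3 _ (h2 _ hx)) h8 x h6, (mem_Vr_iff A.ord_κ).2 hx'⟩

/-- the collapse is the identity on `V_(s ∩ κ)` -/
theorem aa_mc_self : A.aa fun s => ∀ x ∈ Vr (s ∩ A.κ), mc s x = x := by
  refine aa_mono aa_inter_Vκ fun s _ h x hx => ?_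
  refine mc_eq_self (isTrans_Vr _) (fun y hy => ?_) hx
  rw [← h] at hy
  exact (mem_inter.1 hy).1

theorem aa_mc_eq {x : M} (hx : x ∈ Vr A.κ) : A.aa fun s => mc s x = x := by
  refine aa_mono (aa_and (aa_and aa_mc_self aa_inter_Vκ) (aa_fine (Vκ_sub x hx)))
    fun s _ ⟨⟨h1, h2⟩, h3⟩ => h1 x ?_
  rw [← h2]
  exact mem_inter.2 ⟨h3, hx⟩

theorem aa_mc_sub {x : M} (hx : x ⊆ Vr A.κ) : A.aa fun s => mc s x = x ∩ Vr (s ∩ A.κ) := by
  refine aa_mono (aa_and aa_mc_self aa_inter_Vκ) fun s _ ⟨h1, h2⟩ => ext fun z => ?_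
  rw [mem_mc, mem_inter, ← h2, mem_inter]
  constructor
  · rintro ⟨y, hy, hyx, rfl⟩
    have h3 : y ∈ Vr (s ∩ A.κ) := h2 ▸ mem_inter.2 ⟨hy, hx y hyx⟩
    rw [h1 y h3]
    exact ⟨hyx, hy, hx y hyx⟩
  · rintro ⟨h3, h4, h5⟩
    exact ⟨z, h4, h3, (h1 z (h2 ▸ mem_inter.2 ⟨h4, h5⟩)).symm⟩

theorem aa_mc_κ : A.aa fun s => mc s A.κ = s ∩ A.κ := by
  refine aa_mono (aa_and (aa_mc_sub (ord_sub_Vr A.ord_κ)) aa_inter_κ) fun s _ ⟨h1, h2⟩ => ?_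
  rw [h1]
  apply ext; intro z
  have ho := A.ord_κ.mem h2
  rw [mem_inter]
  constructor
  · rintro ⟨h3, h4⟩
    exact (ord_mem_Vr_iff (A.ord_κ.mem h3) ho).1 h4
  · intro h3
    exact ⟨(mem_inter.1 h3).2, ord_sub_Vr ho z h3⟩

theorem aa_card_mc {x : M} (_hx : x ∈ Vr A.η) : A.aa fun s => card (mc s x) ∈ A.κ := by
  refine aa_of_all fun s hs => ?_
  have h1 : mc s x = img (s ∩ x) fun y => mc s y := by
    apply ext; intro z
    rw [mem_mc, mem_img]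
    simp only [mem_inter, and_assoc]
  rw [h1]
  exact (isOrd_card _).mem_of_sub_of_mem A.ord_κ
    (card_sub_iff.2 ((leq_img _ _).trans (leq_of_sub fun y hy => (mem_inter.1 hy).1))) (mem_D.1 hs).2

/-- the collapses of elements of `V_η` are in `V_κ` -/
theorem mc_mem_Vκ {s x : M} (hs : s ∈ A.D) : mc s x ∈ Vr A.κ := by
  refine mem_ind (fun x => mc s x ∈ Vr A.κ) (fun x ih => ?_) x
  have h1 : mc s x = img (s ∩ x) fun y => mc s y := by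
    apply ext; intro z
    rw [mem_mc, mem_img]
    simp only [mem_inter, and_assoc]
  refine mem_Vr_of_card reg_κ (fun z hz => ?_) ?_
  · obtain ⟨y, -, hy, rfl⟩ := mem_mc.1 hz
    exact ih y hy
  · rw [h1]
    exact (isOrd_card _).mem_of_sub_of_mem A.ord_κ
      (card_sub_iff.2 ((leq_img _ _).trans (leq_of_sub fun y hy => (mem_inter.1 hy).1)))
      (mem_D.1 hs).2

end Amp

end

end Pool.Agent.IST
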