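import Pool.Agent.IST.Rec

/-!
# Definable functions and predicates of several variables in arbitrary contexts
-/

set_option synthInstance.maxSize 100000

namespace Pool.Agent.IST

open Pool.Agent.BVM

section

variable {M : Type} [SetModel M] {Γ : Type} [IsCtx Γ M]

/-! ### dependence on a context -/

theorem Dff.sub3' {F : Γ → M → M → M → M}
    [h : Dff fun γ : ((Γ × M) × M) × M => F γ.1.1.1 γ.1.1.2 γ.1.2 γ.2]
    {f g k : Γ → M} [Dff f] [Dff g] [Dff k] : Dff fun γ => F γ (f γ) (g γ) (k γ) := by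
  have h1 : Dff fun γ : (Γ × M) × M => F γ.1.1 γ.1.2 γ.2 (k γ.1.1) :=
    Dff.sub1' (F := fun (γ : (Γ × M) × M) z => F γ.1.1 γ.1.2 γ.2 z)
  exact Dff.sub2' (F := fun γ x y => F γ x y (k γ))

theorem Dfp.sub3' {P : Γ → M → M → M → Prop}
    [h : Dfp fun γ : ((Γ × M) × M) × M => P γ.1.1.1 γ.1.1.2 γ.1.2 γ.2]
    {f g k : Γ → M} [Dff f] [Dff g] [Dff k] : Dfp fun γ => P γ (f γ) (g γ) (k γ) := by
  have h1 : Dfp fun γ : (Γ × M) × M => P γ.1.1 γ.1.2 γ.2 (k γ.1.1) :=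
    Dfp.sub1' (P := fun (γ : (Γ × M) × M) z => P γ.1.1 γ.1.2 γ.2 z)
  exact Dfp.sub2' (P := fun γ x y => P γ x y (k γ))

theorem Dff.sub4' {F : Γ → M → M → M → M → M}
    [h : Dff fun γ : (((Γ × M) × M) × M) × M => F γ.1.1.1.1 γ.1.1.1.2 γ.1.1.2 γ.1.2 γ.2]
    {f g k l : Γ → M} [Dff f] [Dff g] [Dff k] [Dff l] :
    Dff fun γ => F γ (f γ) (g γ) (k γ) (l γ) := by
  have h1 : Dff fun γ : ((Γ × M) × M) × M => F γ.1.1.1 γ.1.1.2 γ.1.2 γ.2 (l γ.1.1.1) :=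
    Dff.sub1' (F := fun (γ : ((Γ × M) × M) × M) z => F γ.1.1.1 γ.1.1.2 γ.1.2 γ.2 z)
  exact Dff.sub3' (F := fun γ x y z => F γ x y z (l γ))

theorem Dfp.sub4' {P : Γ → M → M → M → M → Prop}
    [h : Dfp fun γ : (((Γ × M) × M) × M) × M => P γ.1.1.1.1 γ.1.1.1.2 γ.1.1.2 γ.1.2 γ.2]
    {f g k l : Γ → M} [Dff f] [Dff g] [Dff k] [Dff l] :
    Dfp fun γ => P γ (f γ) (g γ) (k γ) (l γ) := by
  have h1 : Dfp fun γ : ((Γ × M) × M) × M => P γ.1.1.1 γ.1.1.2 γ.1.2 γ.2 (l γ.1.1.1) :=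
    Dfp.sub1' (P := fun (γ : ((Γ × M) × M) × M) z => P γ.1.1.1 γ.1.1.2 γ.1.2 γ.2 z)
  exact Dfp.sub3' (P := fun γ x y z => P γ x y z (l γ))

theorem Cor.prodC {Δ : Type} [IsCtx Δ M] {c : Δ → Γ} (hc : Cor c) :
    Cor fun γ : Δ × M => ((c γ.1, γ.2) : Γ × M) := Cor.prod

theorem Dff.lift3 {Δ : Type} [IsCtx Δ M] {F : Γ → M → M → M → M}
    [h : Dff fun γ : ((Γ × M) × M) × M => F γ.1.1.1 γ.1.1.2 γ.1.2 γ.2] {c : Δ → Γ} [hc : Cor c]
    {f g k : Δ → M} [Dff f] [Dff g] [Dff k] : Dff fun δ => F (c δ) (f δ) (g δ) (k δ) := by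
  have : Dff fun γ : ((Δ × M) × M) × M => F (c γ.1.1.1) γ.1.1.2 γ.1.2 γ.2 :=
    Dff.comp (g := fun γ : ((Δ × M) × M) × M =>
      ((((c γ.1.1.1, γ.1.1.2) , γ.1.2), γ.2) : ((Γ × M) × M) × M))
      (hg := Cor.prodC (Cor.prodC (Cor.prodC hc)))
      (F := fun δ : ((Γ × M) × M) × M => F δ.1.1.1 δ.1.1.2 δ.1.2 δ.2)
  exact Dff.sub3' (F := fun δ x y z => F (c δ) x y z)

theorem Dfp.lift3 {Δ : Type} [IsCtx Δ M] {P : Γ → M → M → M → Prop}
    [h : Dfp fun γ : ((Γ × M) × M) × M => P γ.1.1.1 γ.1.1.2 γ.1.2 γ.2] {c : Δ → Γ} [hc : Cor c]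
    {f g k : Δ → M} [Dff f] [Dff g] [Dff k] : Dfp fun δ => P (c δ) (f δ) (g δ) (k δ) := by
  have : Dfp fun γ : ((Δ × M) × M) × M => P (c γ.1.1.1) γ.1.1.2 γ.1.2 γ.2 :=
    Dfp.comp (g := fun γ : ((Δ × M) × M) × M =>
      ((((c γ.1.1.1, γ.1.1.2) , γ.1.2), γ.2) : ((Γ × M) × M) × M))
      (hg := Cor.prodC (Cor.prodC (Cor.prodC hc)))
      (P := fun δ : ((Γ × M) × M) × M => P δ.1.1.1 δ.1.1.2 δ.1.2 δ.2)
  exact Dfp.sub3' (P := fun δ x y z => P (c δ) x y z)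

theorem Dff.lift4 {Δ : Type} [IsCtx Δ M] {F : Γ → M → M → M → M → M}
    [h : Dff fun γ : (((Γ × M) × M) × M) × M => F γ.1.1.1.1 γ.1.1.1.2 γ.1.1.2 γ.1.2 γ.2]
    {c : Δ → Γ} [hc : Cor c] {f g k l : Δ → M} [Dff f] [Dff g] [Dff k] [Dff l] :
    Dff fun δ => F (c δ) (f δ) (g δ) (k δ) (l δ) := by
  have : Dff fun γ : (((Δ × M) × M) × M) × M =>
      F (c γ.1.1.1.1) γ.1.1.1.2 γ.1.1.2 γ.1.2 γ.2 :=
    Dff.comp (g := fun γ : (((Δ × M) × M) × M) × M =>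
      (((((c γ.1.1.1.1, γ.1.1.1.2), γ.1.1.2) , γ.1.2), γ.2) : (((Γ × M) × M) × M) × M))
      (hg := Cor.prodC (Cor.prodC (Cor.prodC (Cor.prodC hc))))
      (F := fun δ : (((Γ × M) × M) × M) × M => F δ.1.1.1.1 δ.1.1.1.2 δ.1.1.2 δ.1.2 δ.2)
  exact Dff.sub4' (F := fun δ x y z w => F (c δ) x y z w)

theorem Dfp.lift4 {Δ : Type} [IsCtx Δ M] {P : Γ → M → M → M → M → Prop}
    [h : Dfp fun γ : (((Γ × M) × M) × M) × M => P γ.1.1.1.1 γ.1.1.1.2 γ.1.1.2 γ.1.2 γ.2]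
    {c : Δ → Γ} [hc : Cor c] {f g k l : Δ → M} [Dff f] [Dff g] [Dff k] [Dff l] :
    Dfp fun δ => P (c δ) (f δ) (g δ) (k δ) (l δ) := by
  have : Dfp fun γ : (((Δ × M) × M) × M) × M =>
      P (c γ.1.1.1.1) γ.1.1.1.2 γ.1.1.2 γ.1.2 γ.2 :=
    Dfp.comp (g := fun γ : (((Δ × M) × M) × M) × M =>
      (((((c γ.1.1.1.1, γ.1.1.1.2), γ.1.1.2) , γ.1.2), γ.2) : (((Γ × M) × M) × M) × M))
      (hg := Cor.prodC (Cor.prodC (Cor.prodC (Cor.prodC hc))))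
      (P := fun δ : (((Γ × M) × M) × M) × M => P δ.1.1.1.1 δ.1.1.1.2 δ.1.1.2 δ.1.2 δ.2)
  exact Dfp.sub4' (P := fun δ x y z w => P (c δ) x y z w)

/-! ### closed functions and predicates: classes -/

/-- definable unary function -/
class DF1 (F : M → M) : Prop where
  out : Dff fun γ : E0 M × M => F γ.2

/-- definable binary function -/
class DF2 (F : M → M → M) : Prop where
  out : Dff fun γ : (E0 M × M) × M => F γ.1.2 γ.2

/-- definable ternary function -/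
class DF3 (F : M → M → M → M) : Prop where
  out : Dff fun γ : ((E0 M × M) × M) × M => F γ.1.1.2 γ.1.2 γ.2

/-- definable function of four variables -/
class DF4 (F : M → M → M → M → M) : Prop where
  out : Dff fun γ : (((E0 M × M) × M) × M) × M => F γ.1.1.1.2 γ.1.1.2 γ.1.2 γ.2

/-- definable class -/
class DP1 (P : M → Prop) : Prop where
  out : Dfp fun γ : E0 M × M => P γ.2

/-- definable binary relation -/
class DP2 (P : M → M → Prop) : Prop where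
  out : Dfp fun γ : (E0 M × M) × M => P γ.1.2 γ.2

/-- definable ternary relation -/
class DP3 (P : M → M → M → Prop) : Prop where
  out : Dfp fun γ : ((E0 M × M) × M) × M => P γ.1.1.2 γ.1.2 γ.2

/-- definable relation of four variables -/
class DP4 (P : M → M → M → M → Prop) : Prop where
  out : Dfp fun γ : (((E0 M × M) × M) × M) × M => P γ.1.1.1.2 γ.1.1.2 γ.1.2 γ.2

instance (priority := 100) DF1.dff {F : M → M} [h : DF1 F] {f : Γ → M} [Dff f] :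
    Dff fun γ => F (f γ) :=
  Dff.lift1 (Γ := E0 M) (F := fun _ => F) (h := h.out) (c := fun _ : Γ => (⟨⟩ : E0 M))

instance (priority := 100) DF2.dff {F : M → M → M} [h : DF2 F] {f g : Γ → M} [Dff f] [Dff g] :
    Dff fun γ => F (f γ) (g γ) :=
  Dff.lift2 (Γ := E0 M) (F := fun _ => F) (h := h.out) (c := fun _ : Γ => (⟨⟩ : E0 M))

instance (priority := 100) DF3.dff {F : M → M → M → M} [h : DF3 F] {f g k : Γ → M} [Dff f]
    [Dff g] [Dff k] : Dff fun γ => F (f γ) (g γ) (k γ) :=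
  Dff.lift3 (Γ := E0 M) (F := fun _ => F) (h := h.out) (c := fun _ : Γ => (⟨⟩ : E0 M))

instance (priority := 100) DF4.dff {F : M → M → M → M → M} [h : DF4 F] {f g k l : Γ → M} [Dff f]
    [Dff g] [Dff k] [Dff l] : Dff fun γ => F (f γ) (g γ) (k γ) (l γ) :=
  Dff.lift4 (Γ := E0 M) (F := fun _ => F) (h := h.out) (c := fun _ : Γ => (⟨⟩ : E0 M))

instance (priority := 100) DP1.dfp {P : M → Prop} [h : DP1 P] {f : Γ → M} [Dff f] :
    Dfp fun γ => P (f γ) :=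
  Dfp.lift1 (Γ := E0 M) (P := fun _ => P) (h := h.out) (c := fun _ : Γ => (⟨⟩ : E0 M))

instance (priority := 100) DP2.dfp {P : M → M → Prop} [h : DP2 P] {f g : Γ → M} [Dff f] [Dff g] :
    Dfp fun γ => P (f γ) (g γ) :=
  Dfp.lift2 (Γ := E0 M) (P := fun _ => P) (h := h.out) (c := fun _ : Γ => (⟨⟩ : E0 M))

instance (priority := 100) DP3.dfp {P : M → M → M → Prop} [h : DP3 P] {f g k : Γ → M} [Dff f]
    [Dff g] [Dff k] : Dfp fun γ => P (f γ) (g γ) (k γ) :=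
  Dfp.lift3 (Γ := E0 M) (P := fun _ => P) (h := h.out) (c := fun _ : Γ => (⟨⟩ : E0 M))

instance (priority := 100) DP4.dfp {P : M → M → M → M → Prop} [h : DP4 P] {f g k l : Γ → M}
    [Dff f] [Dff g] [Dff k] [Dff l] : Dfp fun γ => P (f γ) (g γ) (k γ) (l γ) :=
  Dfp.lift4 (Γ := E0 M) (P := fun _ => P) (h := h.out) (c := fun _ : Γ => (⟨⟩ : E0 M))

end

end Pool.Agent.IST
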