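import Pool.Agent.IST.Choice
import Pool.Agent.IST.Subst

/-!
# Maximal antichains
-/

set_option synthInstance.maxSize 100000

namespace Pool.Agent.IST

open Pool.Agent.BVM

section

variable {M : Type} [SetModel M] {Γ : Type} [IsCtx Γ M]

/-- selection of a maximal antichain along an enumeration -/
noncomputable def maSel (R : M → M → Prop) (g ξ : M) : M :=
  erec (fun ξ f => sep (sing ∅) fun _ => ∀ ζ ∈ ξ, ap f ζ ≠ ∅ → ¬ R (ap g ζ) (ap g ξ)) ξ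

instance maSel.dff {R : M → M → Prop} [DP2 R] {f g : Γ → M} [Dff f] [Dff g] :
    Dff fun γ => maSel R (f γ) (g γ) := by
  unfold maSel; infer_instance

theorem maSel_ne {R : M → M → Prop} [DP2 R] {g ξ : M} :
    maSel R g ξ ≠ ∅ ↔ ∀ ζ ∈ ξ, maSel R g ζ ≠ ∅ → ¬ R (ap g ζ) (ap g ξ) := by
  have h1 : maSel R g ξ = sep (sing ∅) fun _ => ∀ ζ ∈ ξ,
      ap (lam ξ fun ζ => maSel R g ζ) ζ ≠ ∅ → ¬ R (ap g ζ) (ap g ξ) := by
    conv_lhs => unfold maSel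
    rw [erec_eq]
    rfl
  rw [h1, ne_empty_iff]
  simp only [mem_sep, mem_sing]
  constructor
  · rintro ⟨z, -, h⟩ ζ hζ h2
    refine h ζ hζ ?_
    rwa [ap_lam hζ]
  · intro h
    refine ⟨∅, rfl, fun ζ hζ h2 => h ζ hζ ?_⟩
    rwa [ap_lam hζ] at h2

/-- maximal antichains; `R` is compatibility -/
theorem exists_maxanti (S : M) (R : M → M → Prop) [DP2 R] (hsym : ∀ x y, R x y → R y x)
    (hrefl : ∀ x ∈ S, R x x) :
    ∃ A, A ⊆ S ∧ (∀ a ∈ A, ∀ b ∈ A, R a b → a = b) ∧ ∀ s ∈ S, ∃ a ∈ A, R s a := by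
  obtain ⟨θ, hθ, g, hg⟩ := exists_eqn_ord S
  refine ⟨sep S fun s => ∃ ξ ∈ θ, s = ap g ξ ∧ maSel R g ξ ≠ ∅, fun s hs => (mem_sep.1 hs).1,
    fun a ha b hb hab => ?_, fun s hs => ?_⟩
  · obtain ⟨-, ξ, hξ, rfl, h1⟩ := mem_sep.1 ha
    obtain ⟨-, η, hη, rfl, h2⟩ := mem_sep.1 hb
    rcases (hθ.mem hξ).cmp (hθ.mem hη) with h | h | h
    · exact absurd hab (maSel_ne.1 h2 ξ h h1)
    · rw [h]
    · exact absurd (hsym _ _ hab) (maSel_ne.1 h1 η h h2)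
  · obtain ⟨ξ, hξ, rfl⟩ := hg.surj hs
    by_cases h : maSel R g ξ ≠ ∅
    · exact ⟨_, mem_sep.2 ⟨hs, ξ, hξ, rfl, h⟩, hrefl _ hs⟩
    · rw [maSel_ne] at h
      push Not at h
      obtain ⟨ζ, hζ, h1, h2⟩ := h
      exact ⟨_, mem_sep.2 ⟨hg.maps.ap_mem (hθ.trans hζ hξ), ζ, hθ.trans hζ hξ, rfl, h1⟩,
        hsym _ _ h2⟩

end

end Pool.Agent.IST
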