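import Pool.Agent.IST.Dfn

/-!
# Basic set theory in a model of ZFC
-/

set_option synthInstance.maxSize 100000

namespace Pool.Agent.IST

open Pool.Agent.BVM

section

variable {M : Type} [SetModel M] {Γ : Type} [IsCtx Γ M]

@[ext] theorem ext {x y : M} (h : ∀ z, z ∈ x ↔ z ∈ y) : x = y := SetModel.zfc.ext x y h

/-! ### definability tools -/

theorem Dff.of_iff {F : Γ → M} {R : Γ → M → Prop} [h : Dfp fun γ : Γ × M => R γ.1 γ.2]
    (h' : ∀ γ z, z = F γ ↔ R γ z) : Dff F :=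
  ⟨h.congr fun γ => h' γ.1 γ.2⟩

/-- functions with a characterised membership relation -/
theorem Dff.of_mem {F : Γ → M} {R : Γ → M → Prop} [h : Dfp fun γ : Γ × M => R γ.1 γ.2]
    (h' : ∀ γ z, z ∈ F γ ↔ R γ z) : Dff F := by
  have : Dfp fun γ : (Γ × M) × M => R γ.1.1 γ.2 :=
    Dfp.comp (g := fun γ : (Γ × M) × M => ((γ.1.1, γ.2) : Γ × M)) (hg := ⟨by
      rintro f (⟨f', hf', rfl⟩ | rfl)
      · exact simple_fst (simple_fst hf')
      · exact simple_snd⟩) (P := fun δ : Γ × M => R δ.1 δ.2)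
  exact Dff.of_iff (R := fun γ z => ∀ t, t ∈ z ↔ R γ t)
    fun γ z => ⟨fun e t => by rw [e, h'], fun e => ext fun t => by rw [e, h']⟩

/-- swapping out an intermediate variable -/
instance (priority := 400) Cor.drop : Cor fun γ : (Γ × M) × M => ((γ.1.1, γ.2) : Γ × M) :=
  ⟨by
    rintro f (⟨f', hf', rfl⟩ | rfl)
    · exact simple_fst (simple_fst hf')
    · exact simple_snd⟩

theorem Dfp.drop {R : Γ → M → Prop} [h : Dfp fun γ : Γ × M => R γ.1 γ.2] :
    Dfp fun γ : (Γ × M) × M => R γ.1.1 γ.2 :=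
  Dfp.comp (g := fun γ : (Γ × M) × M => ((γ.1.1, γ.2) : Γ × M)) (P := fun δ : Γ × M => R δ.1 δ.2)

theorem Dff.drop {R : Γ → M → M} [h : Dff fun γ : Γ × M => R γ.1 γ.2] :
    Dff fun γ : (Γ × M) × M => R γ.1.1 γ.2 :=
  Dff.comp (g := fun γ : (Γ × M) × M => ((γ.1.1, γ.2) : Γ × M)) (F := fun δ : Γ × M => R δ.1 δ.2)

/-- fixing the parameters -/
theorem dfp_slice {P : Γ → M → Prop} [h : Dfp fun γ : Γ × M => P γ.1 γ.2] (γ : Γ) :
    Dfp fun δ : E0 M × M => P γ δ.2 := by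
  obtain ⟨φ, s, hs, hP⟩ := h.out
  refine ⟨φ, fun i δ => s i (γ, δ.2), fun i => ?_, fun δ => hP (γ, δ.2)⟩
  dsimp only
  rcases hs i with ⟨g, hg, h⟩ | h
  · rw [h]; exact (IsCtx.const (g γ) : IsCtx.simple fun _ : E0 M × M => g γ)
  · rw [h]; exact (simple_snd : IsCtx.simple (Prod.snd : E0 M × M → M))

theorem dfp_slice2 {P : Γ → M → M → Prop} [h : Dfp fun γ : (Γ × M) × M => P γ.1.1 γ.1.2 γ.2]
    (γ : Γ) : Dfp fun δ : (E0 M × M) × M => P γ δ.1.2 δ.2 := by
  obtain ⟨φ, s, hs, hP⟩ := h.out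
  refine ⟨φ, fun i δ => s i ((γ, δ.1.2), δ.2), fun i => ?_, fun δ => hP ((γ, δ.1.2), δ.2)⟩
  dsimp only
  rcases hs i with ⟨g, ⟨g', hg', rfl⟩ | rfl, h⟩ | h
  · rw [h]; exact (IsCtx.const (g' γ) : IsCtx.simple fun _ : (E0 M × M) × M => g' γ)
  · rw [h]; exact simple_fst (simple_snd : IsCtx.simple (Prod.snd : E0 M × M → M))
  · rw [h]; exact (simple_snd : IsCtx.simple (Prod.snd : (E0 M × M) × M → M))

theorem dff_slice {F : Γ → M → M} [h : Dff fun γ : Γ × M => F γ.1 γ.2] (γ : Γ) :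
    Dff fun δ : E0 M × M => F γ δ.2 :=
  ⟨dfp_slice2 (P := fun γ x y => y = F γ x) (h := h.out) γ⟩

instance Dfp.ne {f g : Γ → M} [Dff f] [Dff g] : Dfp fun γ => f γ ≠ g γ :=
  inferInstanceAs (Dfp fun γ => ¬ (f γ = g γ))

instance Dfp.existsUnique {P : Γ → M → Prop} [h : Dfp fun γ : Γ × M => P γ.1 γ.2] :
    Dfp fun γ => ∃! x, P γ x := by
  have := Dfp.drop (R := P)
  exact inferInstanceAs (Dfp fun γ => ∃ x, P γ x ∧ ∀ y, P γ y → y = x)

instance Dff.ite {P : Γ → Prop} {f g : Γ → M} [∀ γ, Decidable (P γ)] [Dfp P] [Dff f] [Dff g] :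
    Dff fun γ => if P γ then f γ else g γ := by
  refine Dff.of_iff (R := fun γ z => (P γ ∧ z = f γ) ∨ (¬ P γ ∧ z = g γ)) fun γ z => ?_
  by_cases h : P γ <;> simp [h]

/-! ### separation and replacement -/

theorem exists_env {φ : FmlU} {s : ℕ → E0 M × M → M} (hs : ∀ i, IsCtx.simple (s i)) :
    ∃ (ψ : FmlU) (v : ℕ → M), ∀ x, SatU SetModel.E SetModel.U φ (fun i => s i (⟨⟩, x)) ↔
      SatU SetModel.E SetModel.U ψ (cons x v) := by
  classical
  obtain ⟨a⟩ := nonempty_model (M := M)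
  have hs' : ∀ i, ∃ g : M, (s i = (Prod.snd : E0 M × M → M) ∨ s i = fun _ => g) := by
    intro i
    rcases hs i with ⟨g, -, h⟩ | h
    · exact ⟨g ⟨⟩, Or.inr h⟩
    · exact ⟨a, Or.inl h⟩
  choose g hg using hs'
  refine ⟨rn (fun i => if s i = Prod.snd then 0 else i + 1) φ, g, fun x => ?_⟩
  rw [sat_rn]
  refine iff_of_eq ?_
  congr 1
  funext i
  by_cases h : s i = Prod.snd
  · rw [if_pos h, h]; rfl
  · rw [if_neg h]
    rcases hg i with h1 | h1
    · exact absurd h1 h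
    · rw [h1]; rfl

theorem exists_env2 {φ : FmlU} {s : ℕ → (E0 M × M) × M → M} (hs : ∀ i, IsCtx.simple (s i)) :
    ∃ (ψ : FmlU) (v : ℕ → M), ∀ x y, SatU SetModel.E SetModel.U φ (fun i => s i ((⟨⟩, x), y)) ↔
      SatU SetModel.E SetModel.U ψ (cons y (cons x v)) := by
  classical
  obtain ⟨a⟩ := nonempty_model (M := M)
  have hs' : ∀ i, ∃ (k : ℕ) (g : M), ∀ x y, s i ((⟨⟩, x), y) = cons y (cons x fun _ => g) k ∧
      (2 ≤ k → k = i + 2) := by
    intro i
    rcases hs i with ⟨g, ⟨g', -, rfl⟩ | rfl, h⟩ | h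
    · exact ⟨i + 2, g' ⟨⟩, fun x y => ⟨by rw [h]; rfl, fun _ => rfl⟩⟩
    · exact ⟨1, a, fun x y => ⟨by rw [h]; rfl, by omega⟩⟩
    · exact ⟨0, a, fun x y => ⟨by rw [h]; rfl, by omega⟩⟩
  choose k g hg using hs'
  refine ⟨rn k φ, g, fun x y => ?_⟩
  rw [sat_rn]
  refine iff_of_eq ?_
  congr 1
  funext i
  obtain ⟨h1, h2⟩ := hg i x y
  rw [h1]
  rcases hk : k i with _ | _ | m
  · rfl
  · rfl
  · have := h2 (by omega)
    have : m = i := by omega
    subst this
    rfl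

theorem exists_sep (a : M) (P : M → Prop) [h : Dfp fun γ : E0 M × M => P γ.2] :
    ∃ y : M, ∀ z, z ∈ y ↔ z ∈ a ∧ P z := by
  obtain ⟨φ, s, hs, hP⟩ := h.out
  obtain ⟨ψ, v, hψ⟩ := exists_env hs
  obtain ⟨y, hy⟩ := SetModel.zfc.sep ψ v a
  exact ⟨y, fun z => (hy z).trans (and_congr Iff.rfl ((hψ z).symm.trans (hP (⟨⟩, z)).symm))⟩

open Classical in
/-- separation -/
noncomputable def sep (a : M) (P : M → Prop) : M :=
  if h : ∃ y : M, ∀ z, z ∈ y ↔ z ∈ a ∧ P z then h.choose else a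

theorem mem_sep {a : M} {P : M → Prop} [h : Dfp fun γ : E0 M × M => P γ.2] {z : M} :
    z ∈ sep a P ↔ z ∈ a ∧ P z := by
  have h := exists_sep a P
  unfold sep
  rw [dif_pos h]
  exact h.choose_spec z

instance sep.dff {f : Γ → M} {P : Γ → M → Prop} [hf : Dff f]
    [h : Dfp fun γ : Γ × M => P γ.1 γ.2] : Dff fun γ => sep (f γ) (P γ) := by
  refine Dff.of_mem (R := fun γ z => z ∈ f γ ∧ P γ z) fun γ z => ?_
  have := dfp_slice (P := P) γ
  rw [mem_sep]

theorem exists_img (a : M) (F : M → M) [h : Dff fun γ : E0 M × M => F γ.2] :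
    ∃ y : M, ∀ z, z ∈ y ↔ ∃ x ∈ a, z = F x := by
  obtain ⟨φ, s, hs, hP⟩ := h.out.out
  obtain ⟨ψ, v, hψ⟩ := exists_env2 hs
  have h1 : ∀ x y, y = F x ↔ SatU SetModel.E SetModel.U ψ (cons y (cons x v)) := fun x y =>
    (hP ((⟨⟩, x), y)).trans (hψ x y)
  obtain ⟨y, hy⟩ := SetModel.zfc.repl ψ v a fun x _ => ⟨F x, (h1 x _).1 rfl, fun y hy =>
    (h1 x y).2 hy⟩
  exact ⟨y, fun z => (hy z).trans ⟨fun ⟨x, hx, hz⟩ => ⟨x, hx, (h1 x z).2 hz⟩,
    fun ⟨x, hx, hz⟩ => ⟨x, hx, (h1 x z).1 hz⟩⟩⟩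

open Classical in
/-- replacement -/
noncomputable def img (a : M) (F : M → M) : M :=
  if h : ∃ y : M, ∀ z, z ∈ y ↔ ∃ x ∈ a, z = F x then h.choose else a

theorem mem_img {a : M} {F : M → M} [h : Dff fun γ : E0 M × M => F γ.2] {z : M} :
    z ∈ img a F ↔ ∃ x ∈ a, z = F x := by
  have h := exists_img a F
  unfold img
  rw [dif_pos h]
  exact h.choose_spec z

instance img.dff {f : Γ → M} {F : Γ → M → M} [hf : Dff f]
    [h : Dff fun γ : Γ × M => F γ.1 γ.2] : Dff fun γ => img (f γ) (F γ) := by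
  have := Dff.drop (R := F)
  refine Dff.of_mem (R := fun γ z => ∃ x ∈ f γ, z = F γ x) fun γ z => ?_
  have := dff_slice (F := F) γ
  rw [mem_img]

/-! ### the empty set, subsets -/

theorem exists_empty : ∃ e : M, ∀ z : M, z ∉ e := by
  obtain ⟨a⟩ := nonempty_model (M := M)
  exact ⟨sep a fun _ => False, fun z hz => (mem_sep.1 hz).2⟩

noncomputable instance : EmptyCollection M := ⟨exists_empty.choose⟩

@[simp] theorem notMem_empty (z : M) : z ∉ (∅ : M) := exists_empty.choose_spec z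

theorem eq_empty_iff {x : M} : x = ∅ ↔ ∀ z, z ∉ x :=
  ⟨fun h z => h ▸ notMem_empty z, fun h => ext fun z => by simp [h z]⟩

theorem ne_empty_iff {x : M} : x ≠ ∅ ↔ ∃ z, z ∈ x := by
  rw [Ne, eq_empty_iff]; push Not; rfl

instance : HasSubset M := ⟨fun x y => ∀ z, z ∈ x → z ∈ y⟩

theorem sub_iff {x y : M} : x ⊆ y ↔ ∀ z, z ∈ x → z ∈ y := Iff.rfl

theorem Sub.refl (x : M) : x ⊆ x := fun _ h => h

theorem Sub.trans {x y z : M} (h : x ⊆ y) (h' : y ⊆ z) : x ⊆ z := fun _ ht => h' _ (h _ ht)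

theorem Sub.antisymm {x y : M} (h : x ⊆ y) (h' : y ⊆ x) : x = y := ext fun t => ⟨h t, h' t⟩

theorem empty_sub (x : M) : ∅ ⊆ x := fun z hz => absurd hz (notMem_empty z)

instance Dfp.sub {f g : Γ → M} [Dff f] [Dff g] : Dfp fun γ => f γ ⊆ g γ := by
  simp only [sub_iff]; infer_instance

/-! ### pairs, unions, power sets -/

theorem exists_pair (x y : M) : ∃ z : M, ∀ t, t ∈ z ↔ t = x ∨ t = y := SetModel.zfc.pair x y

/-- unordered pair -/
noncomputable def upair (x y : M) : M := (exists_pair x y).choose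

@[simp] theorem mem_upair {x y t : M} : t ∈ upair x y ↔ t = x ∨ t = y :=
  (exists_pair x y).choose_spec t

instance upair.dff {f g : Γ → M} [Dff f] [Dff g] : Dff fun γ => upair (f γ) (g γ) :=
  Dff.of_mem fun _ _ => mem_upair

/-- singleton -/
noncomputable def sing (x : M) : M := upair x x

@[simp] theorem mem_sing {x t : M} : t ∈ sing x ↔ t = x := by simp [sing]

instance sing.dff {f : Γ → M} [Dff f] : Dff fun γ => sing (f γ) := by
  unfold sing; infer_instance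

theorem exists_bigU (x : M) : ∃ u : M, ∀ t, t ∈ u ↔ ∃ y ∈ x, t ∈ y := SetModel.zfc.union x

/-- union of a set of sets -/
noncomputable def bigU (x : M) : M := (exists_bigU x).choose

@[simp] theorem mem_bigU {x t : M} : t ∈ bigU x ↔ ∃ y ∈ x, t ∈ y := (exists_bigU x).choose_spec t

instance bigU.dff {f : Γ → M} [Dff f] : Dff fun γ => bigU (f γ) :=
  Dff.of_mem fun _ _ => mem_bigU

noncomputable instance : Union M := ⟨fun x y => bigU (upair x y)⟩

@[simp] theorem mem_union {x y t : M} : t ∈ x ∪ y ↔ t ∈ x ∨ t ∈ y := by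
  change t ∈ bigU (upair x y) ↔ _
  simp

instance Dff.union {f g : Γ → M} [Dff f] [Dff g] : Dff fun γ => f γ ∪ g γ :=
  Dff.of_mem fun _ _ => mem_union

noncomputable instance : Inter M := ⟨fun x y => sep x fun t => t ∈ y⟩

@[simp] theorem mem_inter {x y t : M} : t ∈ x ∩ y ↔ t ∈ x ∧ t ∈ y := by
  change t ∈ sep x _ ↔ _
  rw [mem_sep]

instance Dff.inter {f g : Γ → M} [Dff f] [Dff g] : Dff fun γ => f γ ∩ g γ :=
  Dff.of_mem fun _ _ => mem_inter

noncomputable instance : SDiff M := ⟨fun x y => sep x fun t => t ∉ y⟩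

@[simp] theorem mem_diff {x y t : M} : t ∈ x \ y ↔ t ∈ x ∧ t ∉ y := by
  change t ∈ sep x _ ↔ _
  rw [mem_sep]

instance Dff.diff {f g : Γ → M} [Dff f] [Dff g] : Dff fun γ => f γ \ g γ :=
  Dff.of_mem fun _ _ => mem_diff

theorem exists_pw (x : M) : ∃ p : M, ∀ t, t ∈ p ↔ t ⊆ x := SetModel.zfc.power x

/-- power set -/
noncomputable def pw (x : M) : M := (exists_pw x).choose

@[simp] theorem mem_pw {x t : M} : t ∈ pw x ↔ t ⊆ x := (exists_pw x).choose_spec t

instance pw.dff {f : Γ → M} [Dff f] : Dff fun γ => pw (f γ) :=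
  Dff.of_mem fun _ _ => mem_pw

/-- indexed union -/
noncomputable def iU (a : M) (F : M → M) : M := bigU (img a F)

theorem mem_iU {a : M} {F : M → M} [h : Dff fun γ : E0 M × M => F γ.2] {z : M} :
    z ∈ iU a F ↔ ∃ x ∈ a, z ∈ F x := by
  unfold iU
  rw [mem_bigU]
  constructor
  · rintro ⟨y, hy, hz⟩
    obtain ⟨x, hx, rfl⟩ := mem_img.1 hy
    exact ⟨x, hx, hz⟩
  · rintro ⟨x, hx, hz⟩
    exact ⟨F x, mem_img.2 ⟨x, hx, rfl⟩, hz⟩

instance iU.dff {f : Γ → M} {F : Γ → M → M} [hf : Dff f]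
    [h : Dff fun γ : Γ × M => F γ.1 γ.2] : Dff fun γ => iU (f γ) (F γ) := by
  unfold iU; infer_instance

/-- intersection of a nonempty set of sets -/
noncomputable def bigI (x : M) : M := sep (bigU x) fun t => ∀ y ∈ x, t ∈ y

theorem mem_bigI {x t : M} (h : x ≠ ∅) : t ∈ bigI x ↔ ∀ y ∈ x, t ∈ y := by
  unfold bigI
  rw [mem_sep]
  refine ⟨fun h => h.2, fun h' => ⟨?_, h'⟩⟩
  obtain ⟨y, hy⟩ := ne_empty_iff.1 h
  exact mem_bigU.2 ⟨y, hy, h' y hy⟩

instance bigI.dff {f : Γ → M} [Dff f] : Dff fun γ => bigI (f γ) := by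
  unfold bigI; infer_instance

/-! ### ordered pairs -/

/-- Kuratowski pair -/
noncomputable def op (x y : M) : M := upair (sing x) (upair x y)

instance op.dff {f g : Γ → M} [Dff f] [Dff g] : Dff fun γ => op (f γ) (g γ) := by
  unfold op; infer_instance

theorem mem_op {x y t : M} : t ∈ op x y ↔ t = sing x ∨ t = upair x y := by
  unfold op; simp

theorem sing_inj {x y : M} : sing x = sing y ↔ x = y := by
  refine ⟨fun h => ?_, fun h => by rw [h]⟩
  have : x ∈ sing y := h ▸ mem_sing.2 rfl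
  exact mem_sing.1 this

theorem upair_eq_sing {x y z : M} : upair x y = sing z ↔ x = z ∧ y = z := by
  constructor
  · intro h
    have h1 : x ∈ sing z := h ▸ mem_upair.2 (Or.inl rfl)
    have h2 : y ∈ sing z := h ▸ mem_upair.2 (Or.inr rfl)
    exact ⟨mem_sing.1 h1, mem_sing.1 h2⟩
  · rintro ⟨rfl, rfl⟩; rfl

@[simp] theorem op_inj {x y x' y' : M} : op x y = op x' y' ↔ x = x' ∧ y = y' := by
  constructor
  · intro h
    have hx : x = x' := by
      have h1 : sing x ∈ op x' y' := h ▸ mem_op.2 (Or.inl rfl)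
      rcases mem_op.1 h1 with h2 | h2
      · exact sing_inj.1 h2
      · exact ((upair_eq_sing.1 h2.symm).1).symm
    subst hx
    refine ⟨rfl, ?_⟩
    have h1 : upair x y ∈ op x y' := h ▸ mem_op.2 (Or.inr rfl)
    have h2 : upair x y' ∈ op x y := h.symm ▸ mem_op.2 (Or.inr rfl)
    rcases mem_op.1 h1 with h3 | h3
    · obtain ⟨-, h4⟩ := upair_eq_sing.1 h3
      rcases mem_op.1 h2 with h5 | h5
      · rw [h4, (upair_eq_sing.1 h5).2]
      · have : y' ∈ upair x y := h5 ▸ mem_upair.2 (Or.inr rfl)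
        rcases mem_upair.1 this with h6 | h6
        · rw [h4, h6]
        · exact h6.symm
    · have h4 : y ∈ upair x y' := h3 ▸ mem_upair.2 (Or.inr rfl)
      rcases mem_upair.1 h4 with h5 | h5
      · have h6 : y' ∈ upair x y := h3.symm ▸ mem_upair.2 (Or.inr rfl)
        rcases mem_upair.1 h6 with h7 | h7
        · rw [h5, h7]
        · exact h7.symm
      · exact h5
  · rintro ⟨rfl, rfl⟩; rfl

/-- cartesian product -/
noncomputable def prod (a b : M) : M := iU a fun x => img b fun y => op x y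

@[simp] theorem mem_prod {a b p : M} : p ∈ prod a b ↔ ∃ x ∈ a, ∃ y ∈ b, p = op x y := by
  unfold prod
  rw [mem_iU]
  simp only [mem_img]

theorem op_mem_prod {a b x y : M} : op x y ∈ prod a b ↔ x ∈ a ∧ y ∈ b := by
  rw [mem_prod]
  constructor
  · rintro ⟨x', hx, y', hy, h⟩
    obtain ⟨rfl, rfl⟩ := op_inj.1 h
    exact ⟨hx, hy⟩
  · rintro ⟨hx, hy⟩
    exact ⟨x, hx, y, hy, rfl⟩

instance prod.dff {f g : Γ → M} [Dff f] [Dff g] : Dff fun γ => prod (f γ) (g γ) := by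
  unfold prod; infer_instance

/-- the unique element satisfying a property (`∅` if there is none) -/
noncomputable def the (P : M → Prop) : M := by
  classical
  exact if h : ∃! x, P x then h.choose else ∅

theorem the_spec {P : M → Prop} (h : ∃! x, P x) : P (the P) := by
  unfold the
  rw [dif_pos h]
  exact h.choose_spec.1

theorem the_eq {P : M → Prop} {x : M} (hx : P x) (h : ∀ y, P y → y = x) : the P = x :=
  h _ (the_spec ⟨x, hx, h⟩)

instance the.dff {P : Γ → M → Prop} [h : Dfp fun γ : Γ × M => P γ.1 γ.2] :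
    Dff fun γ => the (P γ) := by
  have := Dfp.drop (R := P)
  have h1 : Dfp fun γ : Γ × M => ∃! x, P γ.1 x := inferInstance
  refine Dff.of_iff (R := fun γ z => ((∃! x, P γ x) ∧ P γ z) ∨ (¬ (∃! x, P γ x) ∧ z = ∅))
    fun γ z => ?_
  by_cases h : ∃! x, P γ x
  · simp only [h, true_and, not_true_eq_false, false_and, or_false]
    exact ⟨fun e => e ▸ the_spec h, fun hz => h.unique hz (the_spec h)⟩
  · simp only [h, false_and, not_false_eq_true, true_and, false_or]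
    unfold the
    rw [dif_neg h]

/-- first component -/
noncomputable def p1 (p : M) : M := the fun x => ∃ y, p = op x y

/-- second component -/
noncomputable def p2 (p : M) : M := the fun y => ∃ x, p = op x y

@[simp] theorem p1_op (x y : M) : p1 (op x y) = x :=
  the_eq ⟨y, rfl⟩ fun _ ⟨_, h⟩ => (op_inj.1 h).1.symm

@[simp] theorem p2_op (x y : M) : p2 (op x y) = y :=
  the_eq ⟨x, rfl⟩ fun _ ⟨_, h⟩ => (op_inj.1 h).2.symm

instance p1.dff {f : Γ → M} [Dff f] : Dff fun γ => p1 (f γ) := by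
  unfold p1; infer_instance

instance p2.dff {f : Γ → M} [Dff f] : Dff fun γ => p2 (f γ) := by
  unfold p2; infer_instance

end

end Pool.Agent.IST
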