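import Pool.Agent.IST.CardDef

/-!
# Comparison of sets by injections and bijections
-/

set_option synthInstance.maxSize 100000

namespace Pool.Agent.IST

open Pool.Agent.BVM

section

variable {M : Type} [SetModel M] {Γ : Type} [IsCtx Γ M]

theorem Maps.mono {f a b c : M} (h : Maps f a b) (h' : b ⊆ c) : Maps f a c :=
  ⟨h.1, h.2.1, fun x hx => h' _ (h.2.2 x hx)⟩

theorem inj_lam {a : M} {F : M → M} [Dff fun γ : E0 M × M => F γ.2]
    (h : ∀ x ∈ a, ∀ y ∈ a, F x = F y → x = y) : Inj (lam a F) := by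
  intro x hx y hy e
  rw [dom_lam] at hx hy
  rw [ap_lam hx, ap_lam hy] at e
  exact h x hx y hy e

theorem bij_lam {a b : M} {F : M → M} [Dff fun γ : E0 M × M => F γ.2] (h1 : ∀ x ∈ a, F x ∈ b)
    (h2 : ∀ x ∈ a, ∀ y ∈ a, F x = F y → x = y) (h3 : ∀ y ∈ b, ∃ x ∈ a, F x = y) :
    Bij (lam a F) a b := by
  refine ⟨maps_lam h1, inj_lam h2, ext fun y => ?_⟩
  rw [ran_lam, mem_img]
  constructor
  · rintro ⟨x, hx, rfl⟩
    exact h1 x hx
  · intro hy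
    obtain ⟨x, hx, rfl⟩ := h3 y hy
    exact ⟨x, hx, rfl⟩

theorem leq_of {a b : M} (F : M → M) [Dff fun γ : E0 M × M => F γ.2] (h1 : ∀ x ∈ a, F x ∈ b)
    (h2 : ∀ x ∈ a, ∀ y ∈ a, F x = F y → x = y) : Leq a b :=
  ⟨lam a F, maps_lam h1, inj_lam h2⟩

theorem eqn_of {a b : M} (F : M → M) [Dff fun γ : E0 M × M => F γ.2] (h1 : ∀ x ∈ a, F x ∈ b)
    (h2 : ∀ x ∈ a, ∀ y ∈ a, F x = F y → x = y) (h3 : ∀ y ∈ b, ∃ x ∈ a, F x = y) : Eqn a b :=
  ⟨lam a F, bij_lam h1 h2 h3⟩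

theorem Maps.inj_iff {f a b : M} (h : Maps f a b) :
    Inj f ↔ ∀ x ∈ a, ∀ y ∈ a, ap f x = ap f y → x = y := by
  unfold Inj
  rw [h.dom_eq]

theorem Bij.maps {f a b : M} (h : Bij f a b) : Maps f a b := h.1

theorem Bij.inj {f a b x y : M} (h : Bij f a b) (hx : x ∈ a) (hy : y ∈ a) (e : ap f x = ap f y) :
    x = y := h.1.inj_iff.1 h.2.1 x hx y hy e

theorem Bij.surj {f a b y : M} (h : Bij f a b) (hy : y ∈ b) : ∃ x ∈ a, ap f x = y := by
  rw [← h.2.2] at hy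
  obtain ⟨x, hx, rfl⟩ := h.1.isFun.mem_ran_iff.1 hy
  exact ⟨x, h.1.dom_eq ▸ hx, rfl⟩

theorem Eqn.refl (a : M) : Eqn a a := ⟨_, bij_idf a⟩

theorem Eqn.symm {a b : M} (h : Eqn a b) : Eqn b a := by
  obtain ⟨f, hf⟩ := h
  exact ⟨_, hf.inv⟩

theorem Eqn.trans {a b c : M} (h : Eqn a b) (h' : Eqn b c) : Eqn a c := by
  obtain ⟨f, hf⟩ := h
  obtain ⟨g, hg⟩ := h'
  exact ⟨_, hf.cmp hg⟩

theorem Eqn.leq {a b : M} (h : Eqn a b) : Leq a b := by
  obtain ⟨f, hf⟩ := h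
  exact ⟨f, hf.1, hf.2.1⟩

theorem leq_of_sub {a b : M} (h : a ⊆ b) : Leq a b := leq_of (fun x => x) h fun _ _ _ _ e => e

theorem Leq.refl (a : M) : Leq a a := leq_of_sub (Sub.refl a)

theorem Leq.trans {a b c : M} (h : Leq a b) (h' : Leq b c) : Leq a c := by
  obtain ⟨f, hf, hfi⟩ := h
  obtain ⟨g, hg, hgi⟩ := h'
  refine ⟨_, hf.cmp hg, ?_⟩
  rw [(hf.cmp hg).inj_iff]
  intro x hx y hy e
  rw [ap_cmp (hf.dom_eq.symm ▸ hx), ap_cmp (hf.dom_eq.symm ▸ hy)] at e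
  exact hf.inj_iff.1 hfi x hx y hy (hg.inj_iff.1 hgi _ (hf.ap_mem hx) _ (hf.ap_mem hy) e)

/-- the Schroeder-Bernstein theorem -/
theorem Leq.antisymm {a b : M} (h : Leq a b) (h' : Leq b a) : Eqn a b := by
  classical
  obtain ⟨f, hf, hfi⟩ := h
  obtain ⟨g, hg, hgi⟩ := h'
  rw [hf.inj_iff] at hfi
  have hgi' := hg.inj_iff.1 hgi
  let Φ : M → M := fun X => a \ im g (b \ im f X)
  have hΦ : ∀ X Y : M, X ⊆ Y → Φ X ⊆ Φ Y := by
    intro X Y hXY z hz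
    simp only [Φ, mem_diff, mem_im, not_exists, not_and] at hz ⊢
    refine ⟨hz.1, fun y hy hp => hz.2 y ⟨hy.1, fun x hx => ?_⟩ hp⟩
    exact fun hxy => hy.2 x (hXY x hx) hxy
  have hdΦ : Dff fun γ : E0 M × M => Φ γ.2 := by
    simp only [Φ]; infer_instance
  let C : M := sep a fun x => ∀ X, Φ X ⊆ X → x ∈ X
  have hC : ∀ x, x ∈ C ↔ x ∈ a ∧ ∀ X, Φ X ⊆ X → x ∈ X := fun x => mem_sep
  have hCX : ∀ X, Φ X ⊆ X → C ⊆ X := fun X hX x hx => ((hC x).1 hx).2 X hX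
  have hΦC : Φ C ⊆ C := by
    intro x hx
    refine (hC x).2 ⟨(mem_diff.1 hx).1, fun X hX => ?_⟩
    exact hX x (hΦ C X (hCX X hX) x hx)
  have hCΦ : C ⊆ Φ C := hCX _ (hΦ _ _ hΦC)
  have key : ∀ x ∈ a, x ∉ C → ∃ y, y ∈ b ∧ y ∉ im f C ∧ ap g y = x := by
    intro x hx hxC
    by_contra hc
    push Not at hc
    refine hxC (hΦC x (mem_diff.2 ⟨hx, fun hi => ?_⟩))
    obtain ⟨y, hy, hp⟩ := mem_im.1 hi
    rw [mem_diff] at hy
    exact hc y hy.1 hy.2 (hg.isFun.ap_eq hp)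
  have key2 : ∀ y ∈ b, y ∉ im f C → ap g y ∉ C := by
    intro y hy hy' hgC
    have := hCΦ _ hgC
    refine (mem_diff.1 this).2 (mem_im.2 ⟨y, mem_diff.2 ⟨hy, hy'⟩, ?_⟩)
    exact hg.isFun.op_ap_mem (hg.dom_eq.symm ▸ hy)
  have hinv : ∀ y ∈ b, ap (inv g) (ap g y) = y := fun y hy =>
    hg.isFun.ap_inv_ap hgi (hg.dom_eq.symm ▸ hy)
  have hmem : ∀ x ∈ C, ap f x ∈ im f C := fun x hx => mem_im.2 ⟨x, hx,
    hf.isFun.op_ap_mem (hf.dom_eq.symm ▸ ((hC x).1 hx).1)⟩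
  have hd : Dff fun γ : E0 M × M => if γ.2 ∈ C then ap f γ.2 else ap (inv g) γ.2 := inferInstance
  refine eqn_of (fun x => if x ∈ C then ap f x else ap (inv g) x) ?_ ?_ ?_
  · intro x hx
    by_cases hxC : x ∈ C
    · simp only [hxC, if_true]
      exact hf.ap_mem hx
    · simp only [hxC, if_false]
      obtain ⟨y, hy, -, rfl⟩ := key x hx hxC
      rw [hinv y hy]
      exact hy
  · intro x hx x' hx' e
    by_cases hxC : x ∈ C <;> by_cases hxC' : x' ∈ C <;> simp only [hxC, hxC', if_true, if_false] at e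
    · exact hfi x hx x' hx' e
    · obtain ⟨y', hy', h1, rfl⟩ := key x' hx' hxC'
      rw [hinv y' hy'] at e
      exact absurd (e ▸ hmem x hxC) h1
    · obtain ⟨y, hy, h1, rfl⟩ := key x hx hxC
      rw [hinv y hy] at e
      exact absurd (e ▸ hmem x' hxC') h1
    · obtain ⟨y, hy, h1, rfl⟩ := key x hx hxC
      obtain ⟨y', hy', h1', rfl⟩ := key x' hx' hxC'
      rw [hinv y hy, hinv y' hy'] at e
      rw [e]
  · intro y hy
    by_cases h1 : y ∈ im f C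
    · obtain ⟨x, hx, hp⟩ := mem_im.1 h1
      refine ⟨x, ((hC x).1 hx).1, ?_⟩
      simp only [hx, if_true]
      exact hf.isFun.ap_eq hp
    · refine ⟨ap g y, hg.ap_mem hy, ?_⟩
      simp only [key2 y hy h1, if_false]
      exact hinv y hy

theorem Leq.congr {a b a' b' : M} (h : Leq a b) (ha : Eqn a a') (hb : Eqn b b') : Leq a' b' :=
  (ha.symm.leq.trans h).trans hb.leq

/-- Cantor's theorem -/
theorem not_leq_pw (a : M) : ¬ Leq (pw a) a := by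
  rintro ⟨f, hf, hfi⟩
  have hfi' := hf.inj_iff.1 hfi
  let D : M := sep a fun x => ∃ X, X ⊆ a ∧ ap f X = x ∧ x ∉ X
  have hDa : D ⊆ a := fun x hx => (mem_sep.1 hx).1
  have hDp : D ∈ pw a := mem_pw.2 hDa
  have h1 : ap f D ∈ a := hf.ap_mem hDp
  by_cases h : ap f D ∈ D
  · obtain ⟨-, X, hX, h2, h3⟩ := mem_sep.1 h
    have : X = D := hfi' X (mem_pw.2 hX) D hDp h2
    rw [this] at h3
    exact h3 h
  · exact h (mem_sep.2 ⟨h1, D, hDa, rfl, h⟩)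

theorem leq_pw_self (a : M) : Leq a (pw a) :=
  leq_of (fun x => sing x) (fun x hx => mem_pw.2 fun z hz => (mem_sing.1 hz) ▸ hx)
    fun _ _ _ _ e => sing_inj.1 e

/-! ### cardinals -/

theorem IsCard.isOrd {κ : M} (h : IsCard κ) : IsOrd κ := h.1

theorem IsCard.not_leq {κ α : M} (h : IsCard κ) (hα : α ∈ κ) : ¬ Leq κ α := fun h1 =>
  h.2 α hα ((leq_of_sub (h.1.sub_of_mem hα)).antisymm h1)

theorem IsCard.eq_of_eqn {κ μ : M} (hκ : IsCard κ) (hμ : IsCard μ) (h : Eqn κ μ) : κ = μ := by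
  rcases hκ.1.cmp hμ.1 with h1 | h1 | h1
  · exact absurd h (hμ.2 κ h1)
  · exact h1
  · exact absurd h.symm (hκ.2 μ h1)

theorem IsCard.sub_iff {κ μ : M} (hκ : IsCard κ) (hμ : IsCard μ) : κ ⊆ μ ↔ Leq κ μ := by
  refine ⟨leq_of_sub, fun h => ?_⟩
  rcases hκ.1.total hμ.1 with h1 | h1
  · exact h1
  · exact absurd h (hκ.not_leq h1)

/-- every ordinal has a cardinality -/
theorem exists_card_of_ord {α : M} (h : IsOrd α) : ∃ κ, IsCard κ ∧ Eqn α κ ∧ κ ⊆ α := by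
  obtain ⟨κ, hκ, h1, h2⟩ := exists_min (fun x => Eqn α x) h (Eqn.refl α)
  refine ⟨κ, ⟨hκ, fun β hβ h3 => h2 β hβ (h1.trans h3.symm)⟩, h1, ?_⟩
  rcases hκ.total h with h3 | h3
  · exact h3
  · exact absurd (Eqn.refl α) (h2 α h3)

theorem card_eq_of {a κ : M} (hκ : IsCard κ) (h : Eqn a κ) : card a = κ :=
  the_eq ⟨hκ, h⟩ fun _ ⟨h1, h2⟩ => h1.eq_of_eqn hκ (h2.symm.trans h)

theorem IsCard.card_eq {κ : M} (h : IsCard κ) : card κ = κ := card_eq_of h (Eqn.refl κ)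

/-- enumeration of `W` by an ordinal, always taking the element selected by `S` -/
theorem exists_enum_sel {W : M} (S : M → M) [hSd : Dff fun γ : E0 M × M => S γ.2]
    (hS : ∀ X, X ⊆ W → X ≠ ∅ → S X ∈ X) :
    ∃ α f, IsOrd α ∧ Bij f α W ∧ ∀ β ∈ α, ap f β = S (W \ im f β) := by
  classical
  have hS1 : Dff fun γ : (E0 M × M) × M => S (W \ ran γ.2) :=
    Dff.lift1 (Γ := E0 M) (F := fun _ x => S x) (c := fun _ => ⟨⟩) (hc := Cor.e0)
  let G : M → M → M := fun _ g => if W \ ran g = ∅ then W else S (W \ ran g)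
  have hG : Dff fun γ : (E0 M × M) × M => G γ.1.2 γ.2 := by
    simp only [G]; infer_instance
  let F : M → M := fun α => erec G α
  have hF : Dff fun γ : E0 M × M => F γ.2 := erec_slice (G := G)
  have hFd : ∀ {Δ : Type} [IsCtx Δ M] {f : Δ → M} [Dff f], Dff fun γ => F (f γ) := by
    intro Δ _ f _
    exact erec.dff' (Γ := E0 M) (G := fun _ => G) (c := fun _ => ⟨⟩) (hc := Cor.e0)
  have hF1 : ∀ α, IsOrd α → W \ img α F = ∅ → F α = W := by
    intro α hα h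
    simp only [F]
    rw [erec_ord hα]
    simp only [G]
    rw [ran_lam, if_pos h]
  have hF2 : ∀ α, IsOrd α → W \ img α F ≠ ∅ → F α = S (W \ img α F) := by
    intro α hα h
    simp only [F]
    rw [erec_ord hα]
    simp only [G]
    rw [ran_lam, if_neg h]
  have hF3 : ∀ α, IsOrd α → W \ img α F ≠ ∅ → F α ∈ W \ img α F := by
    intro α hα h
    rw [hF2 α hα h]
    exact hS _ (fun z hz => (mem_diff.1 hz).1) h
  have hinj : ∀ α, IsOrd α → F α ≠ W → ∀ β ∈ α, F β ≠ F α := by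
    intro α hα h β hβ e
    have h1 : W \ img α F ≠ ∅ := fun h' => h (hF1 α hα h')
    have h2 := hF3 α hα h1
    exact (mem_diff.1 h2).2 (mem_img.2 ⟨β, hβ, e.symm⟩)
  have hex : ∃ α, IsOrd α ∧ F α = W := by
    by_contra hc
    push Not at hc
    obtain ⟨α, hα, hα'⟩ := exists_ord_notMem (img W fun w => the fun α => IsOrd α ∧ F α = w)
    refine hα' (mem_img.2 ⟨F α, ?_, ?_⟩)
    · exact (mem_diff.1 (hF3 α hα fun h => hc α hα (hF1 α hα h))).1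
    · refine (the_eq ⟨hα, rfl⟩ ?_).symm
      rintro β ⟨hβ, e⟩
      rcases hβ.cmp hα with h | h | h
      · exact absurd e (hinj α hα (hc α hα) β h)
      · exact h
      · exact absurd e.symm (hinj β hβ (hc β hβ) α h)
  obtain ⟨α₀, hα₀, hW₀⟩ := hex
  obtain ⟨α, hα, hαW, hmin⟩ := exists_min (fun α => F α = W) hα₀ hW₀
  have hne : ∀ β ∈ α, W \ img β F ≠ ∅ := fun β hβ h => hmin β hβ (hF1 β (hα.mem hβ) h)
  have hmem : ∀ β ∈ α, F β ∈ W := fun β hβ =>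
    (mem_diff.1 (hF3 β (hα.mem hβ) (hne β hβ))).1
  have hbij : Bij (lam α F) α W := by
    refine bij_lam hmem ?_ ?_
    · intro β hβ γ hγ e
      rcases (hα.mem hβ).cmp (hα.mem hγ) with h | h | h
      · exact absurd e (hinj γ (hα.mem hγ) (hmin γ hγ) β h)
      · exact h
      · exact absurd e.symm (hinj β (hα.mem hβ) (hmin β hβ) γ h)
    · intro w hw
      by_contra hc
      push Not at hc
      have h1 : W \ img α F ≠ ∅ := ne_empty_iff.2 ⟨w, mem_diff.2 ⟨hw, fun h => by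
        obtain ⟨x, hx, rfl⟩ := mem_img.1 h
        exact hc x hx rfl⟩⟩
      have h2 := (mem_diff.1 (hF3 α hα h1)).1
      rw [hαW] at h2
      exact mem_irrefl _ h2
  refine ⟨α, lam α F, hα, hbij, fun β hβ => ?_⟩
  rw [ap_lam hβ, hF2 β (hα.mem hβ) (hne β hβ)]
  congr 2
  apply ext
  intro z
  rw [mem_im, mem_img]
  constructor
  · rintro ⟨x, hx, rfl⟩
    exact ⟨x, hx, op_mem_lam.2 ⟨hα.trans hx hβ, rfl⟩⟩
  · rintro ⟨x, hx, h⟩
    exact ⟨x, hx, (op_mem_lam.1 h).2⟩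

/-- the well-ordering theorem, from a choice function -/
theorem exists_eqn_ord_of_choice {W c : M} (hc : ∀ X, X ⊆ W → X ≠ ∅ → ap c X ∈ X) :
    ∃ α, IsOrd α ∧ Eqn W α := by
  obtain ⟨α, f, hα, hf, -⟩ := exists_enum_sel (fun X => ap c X) hc
  exact ⟨α, hα, ⟨_, hf.inv⟩⟩

end

end Pool.Agent.IST
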