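import Pool.Agent.IST.Choice

/-!
# Cardinals: basic facts
-/

set_option synthInstance.maxSize 100000

namespace Pool.Agent.IST

open Pool.Agent.BVM

section

variable {M : Type} [SetModel M] {Γ : Type} [IsCtx Γ M]

theorem not_leq_sc_nat : ∀ n ∈ (om : M), ¬ Leq (sc n) n := by
  classical
  refine nat_ind (fun n => ¬ Leq (sc n) n) ?_ ?_
  · rintro ⟨f, hf, -⟩
    exact notMem_empty _ (hf.ap_mem (self_mem_sc ∅))
  · intro m hm ih h
    obtain ⟨f, hf, hfi⟩ := h
    rw [hf.inj_iff] at hfi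
    refine ih (leq_of (fun x => if ap f x = m then ap f (sc m) else ap f x) ?_ ?_)
    · intro x hx
      have hx' : x ∈ sc (sc m) := mem_sc.2 (Or.inl hx)
      by_cases h1 : ap f x = m
      · rw [if_pos h1]
        rcases mem_sc.1 (hf.ap_mem (self_mem_sc (sc m))) with h2 | h2
        · exact h2
        · have := hfi _ hx' _ (self_mem_sc (sc m)) (h1.trans h2.symm)
          rw [this] at hx
          exact absurd hx (mem_irrefl _)
      · rw [if_neg h1]
        rcases mem_sc.1 (hf.ap_mem hx') with h2 | h2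
        · exact h2
        · exact absurd h2 h1
    · intro x hx y hy e
      have hx' : x ∈ sc (sc m) := mem_sc.2 (Or.inl hx)
      have hy' : y ∈ sc (sc m) := mem_sc.2 (Or.inl hy)
      by_cases h1 : ap f x = m <;> by_cases h2 : ap f y = m <;>
        simp only [h1, h2, if_true, if_false] at e
      · exact hfi _ hx' _ hy' (h1.trans h2.symm)
      · have := hfi _ (self_mem_sc (sc m)) _ hy' e
        rw [← this] at hy
        exact absurd hy (mem_irrefl _)
      · have := hfi _ hx' _ (self_mem_sc (sc m)) e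
        rw [this] at hx
        exact absurd hx (mem_irrefl _)
      · exact hfi _ hx' _ hy' e

theorem isCard_nat {n : M} (h : n ∈ (om : M)) : IsCard n := by
  refine ⟨isOrd_om.mem h, fun α hα h1 => ?_⟩
  refine not_leq_sc_nat α (isOrd_om.trans hα h) ?_
  exact (leq_of_sub ((isOrd_om.mem h).sc_sub_iff.2 hα)).trans h1.symm.leq

theorem isCard_om : IsCard (om : M) := by
  refine ⟨isOrd_om, fun α hα h1 => not_leq_sc_nat α hα ?_⟩
  exact (leq_of_sub (isOrd_om.sc_sub_iff.2 hα)).trans h1.symm.leq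

theorem infCard_om : InfCard (om : M) := ⟨isCard_om, Sub.refl _⟩

theorem InfCard.isCard {κ : M} (h : InfCard κ) : IsCard κ := h.1

theorem InfCard.isOrd {κ : M} (h : InfCard κ) : IsOrd κ := h.1.1

theorem eqn_sc {α : M} (h : IsOrd α) (h' : om ⊆ α) : Eqn (sc α) α := by
  classical
  have hα : α ∉ (om : M) := fun h1 => mem_irrefl α (h' α h1)
  refine eqn_of (fun x => if x = α then ∅ else if x ∈ (om : M) then sc x else x) ?_ ?_ ?_
  · intro x hx
    by_cases h1 : x = α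
    · rw [if_pos h1]
      exact h' _ (mem_om.2 isNat_empty)
    · rw [if_neg h1]
      by_cases h2 : x ∈ (om : M)
      · rw [if_pos h2]
        exact h' _ (mem_om.2 (mem_om.1 h2).sc)
      · rw [if_neg h2]
        rcases mem_sc.1 hx with h3 | h3
        · exact h3
        · exact absurd h3 h1
  · intro x hx y hy e
    have hs : ∀ z : M, sc z ≠ ∅ := fun z hz => notMem_empty z (hz ▸ self_mem_sc z)
    have h0 : (∅ : M) ∈ (om : M) := mem_om.2 isNat_empty
    by_cases h1 : x = α <;> by_cases h2 : y = α <;> simp only [h1, h2, if_true, if_false] at e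
    · rw [h1, h2]
    · by_cases h4 : y ∈ (om : M)
      · rw [if_pos h4] at e
        exact absurd e.symm (hs y)
      · rw [if_neg h4] at e
        exact absurd (e ▸ h0) h4
    · by_cases h3 : x ∈ (om : M)
      · rw [if_pos h3] at e
        exact absurd e (hs x)
      · rw [if_neg h3] at e
        exact absurd (e.symm ▸ h0) h3
    · by_cases h3 : x ∈ (om : M) <;> by_cases h4 : y ∈ (om : M) <;>
        simp only [h3, h4, if_true, if_false] at e
      · exact sc_inj e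
      · exact absurd (e ▸ mem_om.2 (mem_om.1 h3).sc) h4
      · exact absurd (e.symm ▸ mem_om.2 (mem_om.1 h4).sc) h3
      · exact e
  · intro y hy
    by_cases h2 : y ∈ (om : M)
    · rcases om_cases h2 with rfl | ⟨m, hm, rfl⟩
      · exact ⟨α, self_mem_sc α, if_pos rfl⟩
      · refine ⟨m, mem_sc.2 (Or.inl (h' m hm)), ?_⟩
        rw [if_neg (fun e : m = α => hα (e ▸ hm)), if_pos hm]
    · refine ⟨y, mem_sc.2 (Or.inl hy), ?_⟩
      rw [if_neg (fun e : y = α => mem_irrefl α (e ▸ hy)), if_neg h2]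

theorem InfCard.isLim {κ : M} (h : InfCard κ) : IsLim κ := by
  refine ⟨h.isOrd, ne_empty_iff.2 ⟨∅, h.2 _ (mem_om.2 isNat_empty)⟩, fun β hβ => ?_⟩
  have hβo := h.isOrd.mem hβ
  rcases hβo.sc.cmp h.isOrd with h1 | h1 | h1
  · exact h1
  · exfalso
    have h2 : (om : M) ⊆ sc β := h1.symm ▸ h.2
    have h3 : (om : M) ⊆ β := by
      rcases (isOrd_om.sub_iff hβo.sc).1 h2 with h4 | h4
      · exact (isOrd_om.mem_sc_iff hβo).1 h4
      · exact absurd (h4 ▸ isLim_om) not_isLim_sc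
    have h4 := eqn_sc hβo h3
    rw [h1] at h4
    exact h.1.2 β hβ h4.symm
  · rcases mem_sc.1 h1 with h2 | h2
    · exact absurd h2 (mem_asymm hβ)
    · exact absurd (h2 ▸ hβ) (mem_irrefl _)

theorem IsCard.fin_or_inf {κ : M} (h : IsCard κ) : κ ∈ (om : M) ∨ InfCard κ := by
  rcases isOrd_om.total h.1 with h1 | h1
  · exact Or.inr ⟨h, h1⟩
  · exact Or.inl h1

theorem card_mem_pow2 (a : M) : card a ∈ pow2 a := card_mem_iff.2 (not_leq_pw a)

theorem IsCard.mem_pow2 {κ : M} (h : IsCard κ) : κ ∈ pow2 κ := by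
  have h1 := card_mem_pow2 κ
  rwa [h.card_eq] at h1

theorem isCard_pow2 (κ : M) : IsCard (pow2 κ) := isCard_card _

theorem infCard_pow2 {κ : M} (h : InfCard κ) : InfCard (pow2 κ) :=
  ⟨isCard_pow2 κ, Sub.trans h.2 ((isCard_pow2 κ).1.sub_of_mem h.1.mem_pow2)⟩

theorem scard_spec {α : M} (h : IsOrd α) :
    IsCard (scard α) ∧ α ∈ scard α ∧ ∀ ν, IsCard ν → α ∈ ν → scard α ⊆ ν := by
  have h1 : α ∈ pow2 α := by
    rcases (isCard_pow2 α).1.total h with h2 | h2
    · exact absurd (leq_of_card_sub h2) (not_leq_pw α)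
    · exact h2
  obtain ⟨μ, hμ, ⟨hμ1, hμ2⟩, hm⟩ := exists_min (fun μ => IsCard μ ∧ α ∈ μ) (isCard_pow2 α).1
    ⟨isCard_pow2 α, h1⟩
  have hs : IsCard μ ∧ α ∈ μ ∧ ∀ ν, IsCard ν → α ∈ ν → μ ⊆ ν := by
    refine ⟨hμ1, hμ2, fun ν hν hα => ?_⟩
    rcases hμ.total hν.1 with h3 | h3
    · exact h3
    · exact absurd ⟨hν, hα⟩ (hm ν h3)
  exact the_spec (P := fun μ => IsCard μ ∧ α ∈ μ ∧ ∀ ν, IsCard ν → α ∈ ν → μ ⊆ ν)
    ⟨μ, hs, fun ν hν => Sub.antisymm (hν.2.2 μ hs.1 hs.2.1) (hs.2.2 ν hν.1 hν.2.1)⟩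

theorem isCard_scard {α : M} (h : IsOrd α) : IsCard (scard α) := (scard_spec h).1

theorem mem_scard_self {α : M} (h : IsOrd α) : α ∈ scard α := (scard_spec h).2.1

theorem scard_sub {α ν : M} (h : IsOrd α) (hν : IsCard ν) (h' : α ∈ ν) : scard α ⊆ ν :=
  (scard_spec h).2.2 ν hν h'

theorem infCard_scard {κ : M} (h : InfCard κ) : InfCard (scard κ) :=
  ⟨isCard_scard h.isOrd, Sub.trans h.2 ((isCard_scard h.isOrd).1.sub_of_mem (mem_scard_self h.isOrd))⟩

theorem mem_scard_iff {κ α : M} (h : IsCard κ) (hα : IsOrd α) : α ∈ scard κ ↔ Leq α κ := by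
  have hs := scard_spec h.1
  constructor
  · intro h1
    by_contra h2
    have h3 : κ ∈ card α := by
      have := card_mem_iff.2 h2
      rwa [h.card_eq] at this
    have h4 := hs.2.2 _ (isCard_card α) h3
    exact mem_irrefl α (card_sub_self hα _ (h4 _ h1))
  · intro h1
    rcases hs.1.1.total hα with h2 | h2
    · exact absurd ((leq_of_sub h2).trans h1) (hs.1.not_leq hs.2.1)
    · exact h2

theorem card_mem_scard_iff {κ a : M} (h : IsCard κ) : card a ∈ scard κ ↔ Leq a κ := by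
  rw [mem_scard_iff h (isOrd_card a)]
  exact ⟨fun h1 => (eqn_card a).leq.trans h1, fun h1 => (eqn_card a).symm.leq.trans h1⟩

theorem card_mem_iff_sub {κ μ : M} (h : IsCard κ) (hμ : IsCard μ) : μ ∈ scard κ ↔ μ ⊆ κ := by
  rw [mem_scard_iff h hμ.1, hμ.sub_iff h]

theorem scard_sub_pow2 {κ : M} (h : IsCard κ) : scard κ ⊆ pow2 κ :=
  scard_sub h.1 (isCard_pow2 κ) h.mem_pow2

theorem isCard_bigU {a : M} (h : ∀ x ∈ a, IsCard x) : IsCard (bigU a) := by
  refine ⟨isOrd_bigU fun x hx => (h x hx).1, fun α hα h1 => ?_⟩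
  obtain ⟨x, hx, hαx⟩ := mem_bigU.1 hα
  exact (h x hx).not_leq hαx ((leq_of_sub (sub_bigU hx)).trans h1.symm.leq)

theorem card_mem_of_mem {κ α : M} (h : IsCard κ) (hα : α ∈ κ) : card α ∈ κ :=
  (isOrd_card α).mem_of_sub_of_mem h.1 (card_sub_self (h.1.mem hα)) hα

theorem mem_iff_card_mem {κ α : M} (h : IsCard κ) (hα : IsOrd α) : α ∈ κ ↔ card α ∈ κ := by
  refine ⟨card_mem_of_mem h, fun h1 => ?_⟩
  rcases h.1.total hα with h2 | h2
  · rw [card_mem_iff_not_leq h] at h1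
    exact absurd (leq_of_sub h2) h1
  · exact h2

/-- an infinite limit cardinal -/
theorem scard_mem_or {κ μ : M} (hκ : IsCard κ) (hμ : IsCard μ) (h : μ ∈ κ) :
    scard μ ∈ κ ∨ κ = scard μ := by
  rcases ((isCard_scard hμ.1).1.sub_iff hκ.1).1 (scard_sub hμ.1 hκ h) with h1 | h1
  · exact Or.inl h1
  · exact Or.inr h1.symm

theorem leq_om_of_fin {a : M} (h : card a ∈ (om : M)) : Leq a om := leq_of_card_mem isOrd_om h

theorem leq_pw_of_leq {a b : M} (h : Leq a b) : Leq (pw a) (pw b) := by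
  obtain ⟨f, hf, hfi⟩ := h
  rw [hf.inj_iff] at hfi
  have key : ∀ X, X ⊆ a → ∀ x ∈ a, ap f x ∈ im f X → x ∈ X := by
    intro X hX x hx h1
    obtain ⟨y, hy, hp⟩ := mem_im.1 h1
    have := hfi _ (hX y hy) _ hx (hf.1.ap_eq hp)
    exact this ▸ hy
  have key2 : ∀ X x, x ∈ X → x ∈ a → ap f x ∈ im f X := fun X x hx hxa =>
    mem_im.2 ⟨x, hx, hf.1.op_ap_mem (hf.dom_eq.symm ▸ hxa)⟩
  refine leq_of (fun X => im f X) ?_ ?_
  · intro X hX
    rw [mem_pw] at hX ⊢
    intro y hy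
    obtain ⟨x, hx, hp⟩ := mem_im.1 hy
    rw [← hf.1.ap_eq hp]
    exact hf.ap_mem (hX x hx)
  · intro X hX Y hY e
    rw [mem_pw] at hX hY
    refine ext fun x => ⟨fun hx => ?_, fun hx => ?_⟩
    · exact key Y hY x (hX x hx) (e ▸ key2 X x hx (hX x hx))
    · exact key X hX x (hY x hx) (e ▸ key2 Y x hx (hY x hx))

theorem pow2_mono {a b : M} (h : Leq a b) : pow2 a ⊆ pow2 b := card_sub_iff.2 (leq_pw_of_leq h)

end

end Pool.Agent.IST
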