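import Pool.Agent.IST.Rec

/-!
# Cardinals, ranks: definitions
-/

set_option synthInstance.maxSize 100000

namespace Pool.Agent.IST

open Pool.Agent.BVM

section

variable {M : Type} [SetModel M] {Γ : Type} [IsCtx Γ M]

/-- there is a bijection -/
def Eqn (a b : M) : Prop := ∃ f, Bij f a b

instance Eqn.dfp {f g : Γ → M} [Dff f] [Dff g] : Dfp fun γ => Eqn (f γ) (g γ) := by
  unfold Eqn; infer_instance

/-- there is an injection -/
def Leq (a b : M) : Prop := ∃ f, Maps f a b ∧ Inj f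

instance Leq.dfp {f g : Γ → M} [Dff f] [Dff g] : Dfp fun γ => Leq (f γ) (g γ) := by
  unfold Leq; infer_instance

/-- cardinals: initial ordinals (finite ones included) -/
def IsCard (κ : M) : Prop := IsOrd κ ∧ ∀ α ∈ κ, ¬ Eqn α κ

instance IsCard.dfp {f : Γ → M} [Dff f] : Dfp fun γ => IsCard (f γ) := by
  unfold IsCard; infer_instance

/-- infinite cardinals -/
def InfCard (κ : M) : Prop := IsCard κ ∧ om ⊆ κ

instance InfCard.dfp {f : Γ → M} [Dff f] : Dfp fun γ => InfCard (f γ) := by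
  unfold InfCard; infer_instance

/-- the cardinality of a set -/
noncomputable def card (a : M) : M := the fun κ => IsCard κ ∧ Eqn a κ

instance card.dff {f : Γ → M} [Dff f] : Dff fun γ => card (f γ) := by
  unfold card; infer_instance

/-- the successor cardinal -/
noncomputable def scard (κ : M) : M :=
  the fun μ => IsCard μ ∧ κ ∈ μ ∧ ∀ ν, IsCard ν → κ ∈ ν → μ ⊆ ν

instance scard.dff {f : Γ → M} [Dff f] : Dff fun γ => scard (f γ) := by
  unfold scard; infer_instance

/-- regular (infinite) cardinals -/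
def IsReg (κ : M) : Prop :=
  InfCard κ ∧ ∀ α ∈ κ, ∀ f, Maps f α κ → ∃ β ∈ κ, ∀ ξ ∈ α, ap f ξ ∈ β

instance IsReg.dfp {f : Γ → M} [Dff f] : Dfp fun γ => IsReg (f γ) := by
  unfold IsReg; infer_instance

/-- `2^κ` -/
noncomputable def pow2 (κ : M) : M := card (pw κ)

instance pow2.dff {f : Γ → M} [Dff f] : Dff fun γ => pow2 (f γ) := by
  unfold pow2; infer_instance

/-- strong limit cardinals -/
def IsSLim (κ : M) : Prop := InfCard κ ∧ ∀ α ∈ κ, pow2 α ∈ κ

instance IsSLim.dfp {f : Γ → M} [Dff f] : Dfp fun γ => IsSLim (f γ) := by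
  unfold IsSLim; infer_instance

/-- `κ^μ` -/
noncomputable def cexp (κ μ : M) : M := card (fns μ κ)

instance cexp.dff {f g : Γ → M} [Dff f] [Dff g] : Dff fun γ => cexp (f γ) (g γ) := by
  unfold cexp; infer_instance

/-- the set of sequences in `a` of length less than `lam` -/
noncomputable def seqs (lm a : M) : M := iU lm fun α => fns α a

instance seqs.dff {f g : Γ → M} [Dff f] [Dff g] : Dff fun γ => seqs (f γ) (g γ) := by
  unfold seqs; infer_instance

theorem mem_seqs {lm a s : M} : s ∈ seqs lm a ↔ ∃ α ∈ lm, Maps s α a := by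
  unfold seqs
  rw [mem_iU]
  simp only [mem_fns]

/-- the set of subsets of `a` of cardinality less than `κ` -/
noncomputable def pws (κ a : M) : M := sep (pw a) fun s => card s ∈ κ

instance pws.dff {f g : Γ → M} [Dff f] [Dff g] : Dff fun γ => pws (f γ) (g γ) := by
  unfold pws; infer_instance

theorem mem_pws {κ a s : M} : s ∈ pws κ a ↔ s ⊆ a ∧ card s ∈ κ := by
  unfold pws
  rw [mem_sep, mem_pw]

/-- the cumulative hierarchy -/
noncomputable def Vr (α : M) : M := erec (fun _ f => bigU (img (ran f) fun y => pw y)) α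

instance Vr.dff {f : Γ → M} [Dff f] : Dff fun γ => Vr (f γ) := by
  unfold Vr; infer_instance

theorem mem_Vr {α x : M} : x ∈ Vr α ↔ ∃ β ∈ α, x ⊆ Vr β := by
  unfold Vr
  rw [erec_eq, mem_bigU]
  have : ran (lam α fun y : M => erec (fun _ f : M => bigU (img (ran f) fun y => pw y)) y) =
      img α fun y => Vr y := ran_lam
  rw [this]
  simp only [mem_img]
  constructor
  · rintro ⟨y, ⟨z, ⟨β, hβ, rfl⟩, rfl⟩, hx⟩
    exact ⟨β, hβ, mem_pw.1 hx⟩
  · rintro ⟨β, hβ, hx⟩
    exact ⟨pw (Vr β), ⟨Vr β, ⟨β, hβ, rfl⟩, rfl⟩, mem_pw.2 hx⟩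

/-- rank -/
noncomputable def rk (x : M) : M := erec (fun _ f => bigU (img (ran f) fun y => sc y)) x

instance rk.dff {f : Γ → M} [Dff f] : Dff fun γ => rk (f γ) := by
  unfold rk; infer_instance

theorem mem_rk {x z : M} : z ∈ rk x ↔ ∃ y ∈ x, z ∈ sc (rk y) := by
  unfold rk
  rw [erec_eq, mem_bigU]
  have : ran (lam x fun y : M => erec (fun _ f : M => bigU (img (ran f) fun y => sc y)) y) =
      img x fun y => rk y := ran_lam
  rw [this]
  simp only [mem_img]
  constructor
  · rintro ⟨y, ⟨z, ⟨β, hβ, rfl⟩, rfl⟩, hx⟩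
    exact ⟨β, hβ, hx⟩
  · rintro ⟨β, hβ, hx⟩
    exact ⟨sc (rk β), ⟨rk β, ⟨β, hβ, rfl⟩, rfl⟩, hx⟩

end

end Pool.Agent.IST
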