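import Pool.Agent.IST.CardB

/-!
# Products and unions of infinite cardinals
-/

set_option synthInstance.maxSize 100000

namespace Pool.Agent.IST

open Pool.Agent.BVM

section

variable {M : Type} [SetModel M] {Γ : Type} [IsCtx Γ M]

/-! ### products -/

theorem leq_prod_congr {a b a' b' : M} (h : Leq a a') (h' : Leq b b') :
    Leq (prod a b) (prod a' b') := by
  obtain ⟨f, hf, hfi⟩ := h
  obtain ⟨g, hg, hgi⟩ := h'
  rw [hf.inj_iff] at hfi
  rw [hg.inj_iff] at hgi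
  refine leq_of (fun p => op (ap f (p1 p)) (ap g (p2 p))) ?_ ?_
  · intro p hp
    obtain ⟨x, hx, y, hy, rfl⟩ := mem_prod.1 hp
    rw [p1_op, p2_op]
    exact op_mem_prod.2 ⟨hf.ap_mem hx, hg.ap_mem hy⟩
  · intro p hp q hq e
    obtain ⟨x, hx, y, hy, rfl⟩ := mem_prod.1 hp
    obtain ⟨x', hx', y', hy', rfl⟩ := mem_prod.1 hq
    simp only [p1_op, p2_op, op_inj] at e ⊢
    exact ⟨hfi x hx x' hx' e.1, hgi y hy y' hy' e.2⟩

theorem prod_congr {a b a' b' : M} (h : Eqn a a') (h' : Eqn b b') : Eqn (prod a b) (prod a' b') :=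
  (leq_prod_congr h.leq h'.leq).antisymm (leq_prod_congr h.symm.leq h'.symm.leq)

theorem leq_prod_left {a b : M} (h : b ≠ ∅) : Leq a (prod a b) := by
  obtain ⟨y, hy⟩ := ne_empty_iff.1 h
  exact leq_of (fun x => op x y) (fun x hx => op_mem_prod.2 ⟨hx, hy⟩) fun x _ x' _ e =>
    (op_inj.1 e).1

theorem leq_prod_right {a b : M} (h : a ≠ ∅) : Leq b (prod a b) := by
  obtain ⟨x, hx⟩ := ne_empty_iff.1 h
  exact leq_of (fun y => op x y) (fun y hy => op_mem_prod.2 ⟨hx, hy⟩) fun x _ x' _ e =>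
    (op_inj.1 e).2

theorem prod_comm_eqn (a b : M) : Eqn (prod a b) (prod b a) := by
  refine eqn_of (fun p => op (p2 p) (p1 p)) ?_ ?_ ?_
  · intro p hp
    obtain ⟨x, hx, y, hy, rfl⟩ := mem_prod.1 hp
    rw [p1_op, p2_op]
    exact op_mem_prod.2 ⟨hy, hx⟩
  · intro p hp q hq e
    obtain ⟨x, hx, y, hy, rfl⟩ := mem_prod.1 hp
    obtain ⟨x', hx', y', hy', rfl⟩ := mem_prod.1 hq
    simp only [p1_op, p2_op, op_inj] at e ⊢
    exact ⟨e.2, e.1⟩
  · intro p hp
    obtain ⟨x, hx, y, hy, rfl⟩ := mem_prod.1 hp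
    exact ⟨op y x, op_mem_prod.2 ⟨hy, hx⟩, by simp⟩

theorem leq_sing {a κ : M} (h : κ ≠ ∅) : Leq (sing a) κ := by
  obtain ⟨y, hy⟩ := ne_empty_iff.1 h
  exact leq_of (fun _ => y) (fun _ _ => hy) fun x hx x' hx' _ => by
    rw [mem_sing.1 hx, mem_sing.1 hx']

/-! ### finite sets -/

theorem om_sub_infCard {κ : M} (h : InfCard κ) : om ⊆ κ := h.2

theorem fin_of_leq {a n : M} (hn : n ∈ (om : M)) (h : Leq a n) : card a ∈ (om : M) :=
  (isOrd_card a).mem_of_sub_of_mem isOrd_om (card_sub_of_leq (isCard_nat hn) h) hn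

theorem fin_mono {a b : M} (h : Leq a b) (hb : card b ∈ (om : M)) : card a ∈ (om : M) :=
  fin_of_leq hb (h.trans (eqn_card b).leq)

theorem fin_insert {a x : M} (h : card a ∈ (om : M)) : card (a ∪ sing x) ∈ (om : M) := by
  classical
  obtain ⟨f, hf⟩ := eqn_card a
  refine fin_of_leq (mem_om.2 (mem_om.1 h).sc) (leq_of (fun y => if y ∈ a then ap f y else card a)
    ?_ ?_)
  · intro y _
    by_cases h1 : y ∈ a
    · rw [if_pos h1]
      exact mem_sc.2 (Or.inl (hf.1.ap_mem h1))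
    · rw [if_neg h1]
      exact self_mem_sc _
  · intro y hy z hz e
    by_cases h1 : y ∈ a <;> by_cases h2 : z ∈ a <;> simp only [h1, h2, if_true, if_false] at e
    · exact hf.inj h1 h2 e
    · exact absurd (e ▸ hf.1.ap_mem h1) (mem_irrefl _)
    · exact absurd (e.symm ▸ hf.1.ap_mem h2) (mem_irrefl _)
    · rcases mem_union.1 hy with h3 | h3
      · exact absurd h3 h1
      rcases mem_union.1 hz with h4 | h4
      · exact absurd h4 h2
      rw [mem_sing.1 h3, mem_sing.1 h4]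

/-- induction on finite sets -/
theorem fin_ind (P : M → Prop) [hP : Dfp fun γ : E0 M × M => P γ.2] (h0 : P ∅)
    (h1 : ∀ a x, card a ∈ (om : M) → P a → P (a ∪ sing x)) : ∀ a, card a ∈ (om : M) → P a := by
  have key : ∀ n ∈ (om : M), ∀ a, Leq a n → P a := by
    have hd : Dfp fun γ : E0 M × M => ∀ a, Leq a γ.2 → P a := by
      have : Dfp fun γ : (E0 M × M) × M => P γ.2 :=
        Dfp.lift1 (Γ := E0 M) (P := fun _ => P) (c := fun _ : (E0 M × M) × M => (⟨⟩ : E0 M))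
          (f := fun γ : (E0 M × M) × M => γ.2)
      infer_instance
    refine nat_ind (fun n => ∀ a, Leq a n → P a) ?_ ?_
    · intro a ha
      obtain ⟨f, hf, -⟩ := ha
      have : a = ∅ := eq_empty_iff.2 fun z hz => notMem_empty _ (hf.ap_mem hz)
      rw [this]; exact h0
    · intro m hm ih a ha
      obtain ⟨f, hf, hfi⟩ := ha
      rw [hf.inj_iff] at hfi
      have h2 : Leq (sep a fun y => ap f y ∈ m) m := leq_of (fun y => ap f y)
        (fun y hy => (mem_sep.1 hy).2) fun y hy z hz e =>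
          hfi y (mem_sep.1 hy).1 z (mem_sep.1 hz).1 e
      by_cases h3 : ∃ y ∈ a, ap f y = m
      · obtain ⟨y, hy, hym⟩ := h3
        have h4 : a = sep a (fun y => ap f y ∈ m) ∪ sing y := by
          apply ext
          intro z
          rw [mem_union, mem_sep, mem_sing]
          constructor
          · intro hz
            rcases mem_sc.1 (hf.ap_mem hz) with h5 | h5
            · exact Or.inl ⟨hz, h5⟩
            · exact Or.inr (hfi z hz y hy (h5.trans hym.symm))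
          · rintro (h5 | rfl)
            · exact h5.1
            · exact hy
        rw [h4]
        exact h1 _ y (fin_of_leq hm h2) (ih _ h2)
      · refine ih a (leq_of (fun y => ap f y) (fun y hy => ?_) fun y hy z hz e => hfi y hy z hz e)
        rcases mem_sc.1 (hf.ap_mem hy) with h5 | h5
        · exact h5
        · exact absurd ⟨y, hy, h5⟩ h3
  exact fun a ha => key _ ha a (eqn_card a).leq

theorem fin_union {a b : M} (ha : card a ∈ (om : M)) (hb : card b ∈ (om : M)) :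
    card (a ∪ b) ∈ (om : M) := by
  refine fin_ind (fun b => card (a ∪ b) ∈ (om : M)) ?_ ?_ b hb
  · have : a ∪ ∅ = a := ext fun z => by simp
    rw [this]; exact ha
  · intro b x _ h
    have : a ∪ (b ∪ sing x) = (a ∪ b) ∪ sing x := ext fun z => by simp [or_assoc]
    rw [this]
    exact fin_insert h

theorem fin_prod {a b : M} (ha : card a ∈ (om : M)) (hb : card b ∈ (om : M)) :
    card (prod a b) ∈ (om : M) := by
  refine fin_ind (fun b => card (prod a b) ∈ (om : M)) ?_ ?_ b hb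
  · have : prod a ∅ = ∅ := eq_empty_iff.2 fun z hz => by simp at hz
    rw [this]
    rw [(card_eq_empty (M := M)).2 rfl]
    exact mem_om.2 isNat_empty
  · intro b x _ h
    have h1 : prod a (b ∪ sing x) = prod a b ∪ prod a (sing x) := by
      apply ext
      intro z
      simp only [mem_prod, mem_union, mem_sing]
      constructor
      · rintro ⟨u, hu, v, hv | rfl, rfl⟩
        · exact Or.inl ⟨u, hu, v, hv, rfl⟩
        · exact Or.inr ⟨u, hu, v, rfl, rfl⟩
      · rintro (⟨u, hu, v, hv, rfl⟩ | ⟨u, hu, v, rfl, rfl⟩)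
        · exact ⟨u, hu, v, Or.inl hv, rfl⟩
        · exact ⟨u, hu, v, Or.inr rfl, rfl⟩
    rw [h1]
    refine fin_union h (fin_mono (b := a) (leq_of (fun p => p1 p) ?_ ?_) ha)
    · intro p hp
      obtain ⟨u, hu, v, -, rfl⟩ := mem_prod.1 hp
      rw [p1_op]; exact hu
    · intro p hp q hq e
      obtain ⟨u, hu, v, hv, rfl⟩ := mem_prod.1 hp
      obtain ⟨u', hu', v', hv', rfl⟩ := mem_prod.1 hq
      rw [p1_op, p1_op] at e
      rw [e, mem_sing.1 hv, mem_sing.1 hv']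

/-! ### Hessenberg -/

theorem leq_prod_self_of {κ : M} (h : InfCard κ)
    (ih : ∀ ν ∈ κ, InfCard ν → Eqn (prod ν ν) ν) : Leq (prod κ κ) κ := by
  obtain ⟨c, -, -, hc⟩ := exists_choice (sep (pw (prod κ κ)) fun X => X ≠ ∅) fun x hx =>
    (mem_sep.1 hx).2
  -- elements with minimal maximum
  have hne : ∀ X, X ⊆ prod κ κ → X ≠ ∅ →
      (sep X fun p => ∀ q ∈ X, p1 p ∪ p2 p ⊆ p1 q ∪ p2 q) ≠ ∅ := by
    intro X hX hX0
    obtain ⟨q0, hq0⟩ := ne_empty_iff.1 hX0
    have ho : ∀ q ∈ X, IsOrd (p1 q ∪ p2 q) := by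
      intro q hq
      obtain ⟨u, hu, v, hv, rfl⟩ := mem_prod.1 (hX q hq)
      rw [p1_op, p2_op]
      exact isOrd_union (h.isOrd.mem hu) (h.isOrd.mem hv)
    obtain ⟨μ, hμ, ⟨p, hp, rfl⟩, hmin⟩ := exists_min (fun μ => ∃ p ∈ X, p1 p ∪ p2 p = μ)
      (ho q0 hq0) ⟨q0, hq0, rfl⟩
    refine ne_empty_iff.2 ⟨p, mem_sep.2 ⟨hp, fun q hq => ?_⟩⟩
    rcases hμ.total (ho q hq) with h1 | h1
    · exact h1
    · exact absurd ⟨q, hq, rfl⟩ (hmin _ h1)
  let S : M → M := fun X => ap c (sep X fun p => ∀ q ∈ X, p1 p ∪ p2 p ⊆ p1 q ∪ p2 q)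
  have hS : ∀ X, X ⊆ prod κ κ → X ≠ ∅ → S X ∈ X ∧
      ∀ q ∈ X, p1 (S X) ∪ p2 (S X) ⊆ p1 q ∪ p2 q := fun X hX hX0 =>
    mem_sep.1 (hc _ (mem_sep.2 ⟨mem_pw.2 fun z hz => hX z (mem_sep.1 hz).1, hne X hX hX0⟩))
  obtain ⟨α, f, hα, hf, hfS⟩ := exists_enum_sel (W := prod κ κ) S fun X hX hX0 => (hS X hX hX0).1
  have key : ∀ β ∈ α, β ∈ κ := by
    intro β hβ
    rw [mem_iff_card_mem h.isCard (hα.mem hβ)]
    obtain ⟨u, hu, v, hv, e⟩ := mem_prod.1 (hf.1.ap_mem hβ)
    have hμ : u ∪ v ∈ κ := union_mem_of_ord h.isOrd hu hv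
    have hsμ : sc (u ∪ v) ∈ κ := h.isLim.2.2 _ hμ
    have h1 : Leq β (prod (sc (u ∪ v)) (sc (u ∪ v))) := by
      refine leq_of (fun γ => ap f γ) ?_ ?_
      · intro γ hγ
        have hγα := hα.trans hγ hβ
        have h2 : ap f β ∈ prod κ κ \ im f γ := by
          refine mem_diff.2 ⟨hf.1.ap_mem hβ, fun h3 => ?_⟩
          obtain ⟨δ, hδ, h4⟩ := mem_im.1 h3
          have h5 := hf.1.isFun.ap_eq h4
          have h6 := hf.inj (hα.trans hδ hγα) hβ h5
          rw [h6] at hδ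
          exact mem_asymm hδ hγ
        have h3 := (hS (prod κ κ \ im f γ) (fun z hz => (mem_diff.1 hz).1)
          (ne_empty_iff.2 ⟨_, h2⟩)).2 _ h2
        rw [← hfS γ hγα, e, p1_op, p2_op] at h3
        obtain ⟨u', hu', v', hv', e'⟩ := mem_prod.1 (hf.1.ap_mem hγα)
        rw [e', p1_op, p2_op] at h3
        rw [e']
        have ho := h.isOrd.mem hμ
        refine op_mem_prod.2 ⟨((h.isOrd.mem hu').mem_sc_iff ho).2 fun t ht => ?_,
          ((h.isOrd.mem hv').mem_sc_iff ho).2 fun t ht => ?_⟩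
        · exact h3 t (mem_union.2 (Or.inl ht))
        · exact h3 t (mem_union.2 (Or.inr ht))
      · intro γ hγ δ hδ e
        exact hf.inj (hα.trans hγ hβ) (hα.trans hδ hβ) e
    have h4 : card (sc (u ∪ v)) ∈ κ := card_mem_of_mem h.isCard hsμ
    rcases (isCard_card (sc (u ∪ v))).fin_or_inf with h5 | h5
    · exact h.2 _ (fin_mono h1 (fin_prod h5 h5))
    · have h6 : Eqn (prod (sc (u ∪ v)) (sc (u ∪ v))) (card (sc (u ∪ v))) :=
        (prod_congr (eqn_card _) (eqn_card _)).trans (ih _ h4 h5)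
      exact (isOrd_card β).mem_of_sub_of_mem h.isOrd
        (card_sub_of_leq (isCard_card _) (h1.trans h6.leq)) h4
  have h7 : Eqn (prod κ κ) α := ⟨_, hf.inv⟩
  exact h7.leq.trans (leq_of_sub key)

/-- Hessenberg -/
theorem eqn_prod_self {κ : M} (h : InfCard κ) : Eqn (prod κ κ) κ := by
  have key : ∀ κ : M, IsOrd κ → InfCard κ → Eqn (prod κ κ) κ := by
    refine ord_ind (fun κ => InfCard κ → Eqn (prod κ κ) κ) fun κ _ ih h => ?_
    refine (leq_prod_self_of h fun ν hν h' => ih ν hν h').antisymm (leq_prod_left ?_)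
    exact ne_empty_iff.2 ⟨∅, h.2 _ (mem_om.2 isNat_empty)⟩
  exact key κ h.isOrd h

theorem InfCard.ne_empty {κ : M} (h : InfCard κ) : κ ≠ ∅ :=
  ne_empty_iff.2 ⟨∅, h.2 _ (mem_om.2 isNat_empty)⟩

theorem leq_prod {a b κ : M} (h : InfCard κ) (ha : Leq a κ) (hb : Leq b κ) : Leq (prod a b) κ :=
  (leq_prod_congr ha hb).trans (eqn_prod_self h).leq

theorem leq_union {a b κ : M} (h : InfCard κ) (ha : Leq a κ) (hb : Leq b κ) : Leq (a ∪ b) κ := by
  classical
  obtain ⟨f, hf, hfi⟩ := ha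
  obtain ⟨g, hg, hgi⟩ := hb
  rw [hf.inj_iff] at hfi
  rw [hg.inj_iff] at hgi
  have h0 : (∅ : M) ∈ κ := h.2 _ (mem_om.2 isNat_empty)
  have h1 : sc (∅ : M) ∈ κ := h.2 _ (mem_om.2 isNat_empty.sc)
  have h01 : (∅ : M) ≠ sc ∅ := fun e => notMem_empty _ (e.symm ▸ self_mem_sc (∅ : M))
  refine Leq.trans (b := prod κ κ)
    (leq_of (fun x => if x ∈ a then op ∅ (ap f x) else op (sc ∅) (ap g x)) ?_ ?_)
    (eqn_prod_self h).leq
  · intro x hx
    by_cases h2 : x ∈ a
    · rw [if_pos h2]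
      exact op_mem_prod.2 ⟨h0, hf.ap_mem h2⟩
    · rw [if_neg h2]
      rcases mem_union.1 hx with h3 | h3
      · exact absurd h3 h2
      · exact op_mem_prod.2 ⟨h1, hg.ap_mem h3⟩
  · intro x hx y hy e
    by_cases h2 : x ∈ a <;> by_cases h3 : y ∈ a <;> simp only [h2, h3, if_true, if_false, op_inj] at e
    · exact hfi x h2 y h3 e.2
    · exact absurd e.1 h01
    · exact absurd e.1.symm h01
    · rcases mem_union.1 hx with h4 | h4
      · exact absurd h4 h2
      rcases mem_union.1 hy with h5 | h5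
      · exact absurd h5 h3
      exact hgi x h4 y h5 e.2

theorem leq_iU {a κ : M} (h : InfCard κ) (F : M → M) [hF' : Dff fun γ : E0 M × M => F γ.2]
    (ha : Leq a κ) (hF : ∀ x ∈ a, Leq (F x) κ) : Leq (iU a F) κ := by
  obtain ⟨e, he, hei⟩ := ha
  rw [he.inj_iff] at hei
  have hFd : ∀ {Δ : Type} [IsCtx Δ M] {f : Δ → M} [Dff f], Dff fun γ => F (f γ) := by
    intro Δ _ f _
    exact Dff.lift1 (Γ := E0 M) (F := fun _ x => F x) (c := fun _ => ⟨⟩) (hc := Cor.e0)
  obtain ⟨g, -, -, hg⟩ := exists_choice_cls a (fun x g => Maps g (F x) κ ∧ Inj g) hF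
  obtain ⟨k, hk, hk'⟩ := exists_choice_rel (iU a F) a (fun z x => z ∈ F x) fun z hz => by
    obtain ⟨x, hx, hzx⟩ := mem_iU.1 hz
    exact ⟨x, hx, hzx⟩
  refine Leq.trans (b := prod κ κ)
    (leq_of (fun z => op (ap e (ap k z)) (ap (ap g (ap k z)) z)) ?_ ?_) (eqn_prod_self h).leq
  · intro z hz
    have h1 := hk.ap_mem hz
    exact op_mem_prod.2 ⟨he.ap_mem h1, (hg _ h1).1.ap_mem (hk' z hz)⟩
  · intro z hz w hw e1
    rw [op_inj] at e1
    have h1 := hei _ (hk.ap_mem hz) _ (hk.ap_mem hw) e1.1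
    have h2 := e1.2
    rw [← h1] at h2
    obtain ⟨h3, h4⟩ := hg _ (hk.ap_mem hz)
    exact h3.inj_iff.1 h4 z (hk' z hz) w (h1 ▸ hk' w hw) h2

theorem iU_id (a : M) : (iU a fun x => x) = bigU a := by
  apply ext
  intro z
  rw [mem_iU, mem_bigU]

theorem leq_bigU {a κ : M} (h : InfCard κ) (ha : Leq a κ) (hF : ∀ x ∈ a, Leq x κ) :
    Leq (bigU a) κ := by
  rw [← iU_id]
  exact leq_iU h (fun x => x) ha hF

theorem leq_fns_nat {κ n : M} (h : InfCard κ) (hn : n ∈ (om : M)) : Leq (fns n κ) κ := by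
  refine nat_ind (fun n => Leq (fns n κ) κ) ?_ ?_ n hn
  · refine leq_of (fun _ => ∅) (fun _ _ => h.2 _ (mem_om.2 isNat_empty)) fun x hx y hy _ => ?_
    rw [mem_fns] at hx hy
    exact hx.ext hy fun z hz => absurd hz (notMem_empty z)
  · intro m _ ih
    refine Leq.trans (b := prod (fns m κ) κ) ?_ (leq_prod h ih (Leq.refl κ))
    have hr : ∀ s, Maps s (sc m) κ → Maps (res s m) m κ := by
      intro s hs
      refine ⟨hs.isFun.res, ?_, fun x hx => ?_⟩
      · rw [dom_res, hs.dom_eq]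
        apply ext
        intro z
        rw [mem_inter]
        exact ⟨fun h1 => h1.2, fun h1 => ⟨sub_sc m z h1, h1⟩⟩
      · rw [hs.isFun.ap_res hx]
        exact hs.ap_mem (sub_sc m x hx)
    refine leq_of (fun s => op (res s m) (ap s m)) ?_ ?_
    · intro s hs
      rw [mem_fns] at hs
      exact op_mem_prod.2 ⟨mem_fns.2 (hr s hs), hs.ap_mem (self_mem_sc m)⟩
    · intro s hs t ht e
      rw [mem_fns] at hs ht
      rw [op_inj] at e
      refine hs.ext ht fun x hx => ?_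
      rcases mem_sc.1 hx with h1 | rfl
      · rw [← hs.isFun.ap_res h1, ← ht.isFun.ap_res h1, e.1]
      · exact e.2

theorem leq_seqs_om {κ : M} (h : InfCard κ) : Leq (seqs om κ) κ :=
  leq_iU h (fun α => fns α κ) (leq_of_sub h.2) fun _ hn => leq_fns_nat h hn

/-! ### versions with cardinalities -/

theorem card_prod_sub {a b κ : M} (h : InfCard κ) (ha : card a ⊆ κ) (hb : card b ⊆ κ) :
    card (prod a b) ⊆ κ :=
  card_sub_of_leq h.isCard (leq_prod h (leq_of_card_sub ha) (leq_of_card_sub hb))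

theorem card_union_sub {a b κ : M} (h : InfCard κ) (ha : card a ⊆ κ) (hb : card b ⊆ κ) :
    card (a ∪ b) ⊆ κ :=
  card_sub_of_leq h.isCard (leq_union h (leq_of_card_sub ha) (leq_of_card_sub hb))

theorem union_isCard {κ μ : M} (h : IsCard κ) (h' : IsCard μ) : κ ∪ μ = κ ∨ κ ∪ μ = μ := by
  rcases h.isOrd.total h'.isOrd with h1 | h1
  · exact Or.inr (ext fun z => by rw [mem_union]; exact ⟨fun h2 => h2.elim (h1 z) id, Or.inr⟩)
  · refine Or.inl (ext fun z => ?_)
    rw [mem_union]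
    exact ⟨fun h2 => h2.elim id (h.isOrd.sub_of_mem h1 z), Or.inl⟩

theorem card_max {a b κ : M} (h : IsOrd κ) (ha : card a ∈ κ) (hb : card b ∈ κ) :
    ∃ μ ∈ κ, IsCard μ ∧ card a ⊆ μ ∧ card b ⊆ μ := by
  refine ⟨card a ∪ card b, union_mem_of_ord h ha hb, ?_, fun z hz => mem_union.2 (Or.inl hz),
    fun z hz => mem_union.2 (Or.inr hz)⟩
  rcases union_isCard (isCard_card a) (isCard_card b) with h1 | h1
  · rw [h1]; exact isCard_card a
  · rw [h1]; exact isCard_card b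

theorem card_union_mem {a b κ : M} (h : InfCard κ) (ha : card a ∈ κ) (hb : card b ∈ κ) :
    card (a ∪ b) ∈ κ := by
  obtain ⟨μ, hμ, h1, h2, h3⟩ := card_max h.isOrd ha hb
  rcases h1.fin_or_inf with h4 | h4
  · exact h.2 _ (fin_union ((isOrd_card a).mem_of_sub_of_mem isOrd_om h2 h4)
      ((isOrd_card b).mem_of_sub_of_mem isOrd_om h3 h4))
  · exact (isOrd_card _).mem_of_sub_of_mem h.isOrd (card_union_sub h4 h2 h3) hμ

theorem card_prod_mem {a b κ : M} (h : InfCard κ) (ha : card a ∈ κ) (hb : card b ∈ κ) :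
    card (prod a b) ∈ κ := by
  obtain ⟨μ, hμ, h1, h2, h3⟩ := card_max h.isOrd ha hb
  rcases h1.fin_or_inf with h4 | h4
  · exact h.2 _ (fin_prod ((isOrd_card a).mem_of_sub_of_mem isOrd_om h2 h4)
      ((isOrd_card b).mem_of_sub_of_mem isOrd_om h3 h4))
  · exact (isOrd_card _).mem_of_sub_of_mem h.isOrd (card_prod_sub h4 h2 h3) hμ

end

end Pool.Agent.IST
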