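import Pool.Agent.IST.Rank

/-!
# Choice functions (owner helper81)
-/

set_option synthInstance.maxSize 100000

namespace Pool.Agent.IST

open Pool.Agent.BVM

section

variable {M : Type} [SetModel M] {Γ : Type} [IsCtx Γ M]

/-- choice functions -/
theorem exists_choice (a : M) (h : ∀ x ∈ a, x ≠ ∅) :
    ∃ f : M, IsFun f ∧ dom f = a ∧ ∀ x ∈ a, ap f x ∈ x := by
  obtain ⟨c, hc⟩ := SetModel.zfc.choice (img a fun x => prod (sing x) x) (by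
    intro y hy
    obtain ⟨x, hx, rfl⟩ := mem_img.1 hy
    obtain ⟨z, hz⟩ := ne_empty_iff.1 (h x hx)
    exact ⟨op x z, op_mem_prod.2 ⟨mem_sing.2 rfl, hz⟩⟩) (by
    intro y y' z hy hy' hz hz'
    obtain ⟨x, hx, rfl⟩ := mem_img.1 hy
    obtain ⟨x', hx', rfl⟩ := mem_img.1 hy'
    obtain ⟨u, hu, v, hv, rfl⟩ := mem_prod.1 hz
    obtain ⟨h1, h2⟩ := op_mem_prod.1 hz'
    rw [mem_sing] at hu h1
    rw [← h1, ← hu])
  have key : ∀ x ∈ a, ∃! y, y ∈ x ∧ op x y ∈ c := by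
    intro x hx
    obtain ⟨z, ⟨hz, hzc⟩, hu⟩ := hc (prod (sing x) x) (mem_img.2 ⟨x, hx, rfl⟩)
    obtain ⟨u, hu', v, hv, rfl⟩ := mem_prod.1 hz
    rw [mem_sing] at hu'
    subst hu'
    refine ⟨v, ⟨hv, hzc⟩, fun w hw => ?_⟩
    have := hu (op u w) ⟨op_mem_prod.2 ⟨mem_sing.2 rfl, hw.1⟩, hw.2⟩
    exact (op_inj.1 this).2
  refine ⟨lam a fun x => the fun y => y ∈ x ∧ op x y ∈ c, isFun_lam, dom_lam, fun x hx => ?_⟩
  rw [ap_lam hx]
  exact (the_spec (key x hx)).1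

theorem exists_choice_rel (a b : M) (R : M → M → Prop)
    [Dfp fun γ : (E0 M × M) × M => R γ.1.2 γ.2] (h : ∀ x ∈ a, ∃ y ∈ b, R x y) :
    ∃ f : M, Maps f a b ∧ ∀ x ∈ a, R x (ap f x) := by
  have hs : ∀ x, Dfp fun γ : E0 M × M => R x γ.2 := fun x =>
    dfp_slice (P := fun (γ : E0 M × M) y => R γ.2 y) (⟨⟩, x)
  obtain ⟨f, -, -, hc⟩ := exists_choice (img a fun x => sep b fun y => R x y) (by
    intro y hy
    obtain ⟨x, hx, rfl⟩ := mem_img.1 hy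
    obtain ⟨z, hz, hz'⟩ := h x hx
    exact ne_empty_iff.2 ⟨z, mem_sep.2 ⟨hz, hz'⟩⟩)
  have key : ∀ x ∈ a, ap f (sep b fun y => R x y) ∈ b ∧ R x (ap f (sep b fun y => R x y)) :=
    fun x hx => mem_sep.1 (hc _ (mem_img.2 ⟨x, hx, rfl⟩))
  refine ⟨lam a fun x => ap f (sep b fun y => R x y), maps_lam fun x hx => (key x hx).1,
    fun x hx => ?_⟩
  rw [ap_lam hx]
  exact (key x hx).2

theorem exists_choice_cls (a : M) (R : M → M → Prop)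
    [Dfp fun γ : (E0 M × M) × M => R γ.1.2 γ.2] (h : ∀ x ∈ a, ∃ y, R x y) :
    ∃ f : M, IsFun f ∧ dom f = a ∧ ∀ x ∈ a, R x (ap f x) := by
  obtain ⟨b, hb⟩ := collection a R h
  obtain ⟨f, hf, hR⟩ := exists_choice_rel a b R hb
  exact ⟨f, hf.isFun, hf.dom_eq, hR⟩

end

end Pool.Agent.IST
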