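import Pool.Agent.IST.CardA
import Pool.Agent.IST.ChoiceA

/-!
# The well-ordering theorem, cardinality
-/

set_option synthInstance.maxSize 100000

namespace Pool.Agent.IST

open Pool.Agent.BVM

section

variable {M : Type} [SetModel M] {Γ : Type} [IsCtx Γ M]

/-- the well-ordering theorem -/
theorem exists_eqn_ord (a : M) : ∃ α : M, IsOrd α ∧ Eqn α a := by
  obtain ⟨c, hc, hd, h⟩ := exists_choice (sep (pw a) fun x => x ≠ ∅) fun x hx => (mem_sep.1 hx).2
  obtain ⟨α, hα, h1⟩ := exists_eqn_ord_of_choice (W := a) (c := c) fun X hX hne =>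
    h X (mem_sep.2 ⟨mem_pw.2 hX, hne⟩)
  exact ⟨α, hα, h1.symm⟩

theorem exists_card (a : M) : ∃ κ : M, IsCard κ ∧ Eqn a κ := by
  obtain ⟨α, hα, h⟩ := exists_eqn_ord a
  obtain ⟨κ, hκ, h1, -⟩ := exists_card_of_ord hα
  exact ⟨κ, hκ, h.symm.trans h1⟩

theorem card_spec (a : M) : IsCard (card a) ∧ Eqn a (card a) := by
  obtain ⟨κ, hκ, h⟩ := exists_card a
  rw [card_eq_of hκ h]
  exact ⟨hκ, h⟩

theorem isCard_card (a : M) : IsCard (card a) := (card_spec a).1

theorem eqn_card (a : M) : Eqn a (card a) := (card_spec a).2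

theorem isOrd_card (a : M) : IsOrd (card a) := (isCard_card a).isOrd

theorem card_eq_iff {a b : M} : card a = card b ↔ Eqn a b := by
  constructor
  · intro h
    exact (eqn_card a).trans (h ▸ (eqn_card b).symm)
  · intro h
    exact card_eq_of (isCard_card b) (h.trans (eqn_card b))

theorem card_sub_iff {a b : M} : card a ⊆ card b ↔ Leq a b := by
  rw [(isCard_card a).sub_iff (isCard_card b)]
  exact ⟨fun h => h.congr (eqn_card a).symm (eqn_card b).symm,
    fun h => h.congr (eqn_card a) (eqn_card b)⟩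

theorem card_mem_iff {a b : M} : card a ∈ card b ↔ ¬ Leq b a := by
  rw [← card_sub_iff, ← (isOrd_card a).not_mem (isOrd_card b), not_not]

theorem card_sub_self {α : M} (h : IsOrd α) : card α ⊆ α := by
  obtain ⟨κ, hκ, h1, h2⟩ := exists_card_of_ord h
  rw [card_eq_of hκ h1]
  exact h2

theorem card_sub_of_leq {a κ : M} (hκ : IsCard κ) (h : Leq a κ) : card a ⊆ κ := by
  rw [← hκ.card_eq]
  exact card_sub_iff.2 h

theorem leq_of_card_sub {a κ : M} (h : card a ⊆ κ) : Leq a κ :=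
  (eqn_card a).leq.trans (leq_of_sub h)

theorem card_sub_iff_leq {a κ : M} (hκ : IsCard κ) : card a ⊆ κ ↔ Leq a κ :=
  ⟨leq_of_card_sub, card_sub_of_leq hκ⟩

theorem leq_of_card_mem {a κ : M} (hκ : IsOrd κ) (h : card a ∈ κ) : Leq a κ :=
  leq_of_card_sub (hκ.sub_of_mem h)

theorem card_mem_iff_not_leq {a κ : M} (hκ : IsCard κ) : card a ∈ κ ↔ ¬ Leq κ a := by
  rw [← card_mem_iff, hκ.card_eq]

theorem leq_total (a b : M) : Leq a b ∨ Leq b a := by
  rw [← card_sub_iff, ← card_sub_iff]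
  rcases (isOrd_card a).total (isOrd_card b) with h | h
  · exact Or.inl h
  · exact Or.inr ((isOrd_card a).sub_of_mem h)

/-- a definable surjection from `b` onto `a` -/
theorem leq_of_surj {a b : M} (F : M → M) [hF : Dff fun γ : E0 M × M => F γ.2]
    (h : ∀ y ∈ a, ∃ x ∈ b, F x = y) : Leq a b := by
  obtain ⟨α, hα, g, hg⟩ := exists_eqn_ord b
  have hFd : ∀ {Δ : Type} [IsCtx Δ M] {f : Δ → M} [Dff f], Dff fun γ => F (f γ) := by
    intro Δ _ f _
    exact Dff.lift1 (Γ := E0 M) (F := fun _ x => F x) (c := fun _ => ⟨⟩) (hc := Cor.e0)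
  let H : M → M := fun y => the fun ξ => ξ ∈ α ∧ F (ap g ξ) = y ∧ ∀ ζ ∈ ξ, F (ap g ζ) ≠ y
  have hH : Dff fun γ : E0 M × M => H γ.2 := by
    simp only [H]; infer_instance
  have hspec : ∀ y ∈ a, H y ∈ α ∧ F (ap g (H y)) = y := by
    intro y hy
    obtain ⟨x, hx, hxy⟩ := h y hy
    obtain ⟨ξ, hξ, rfl⟩ := hg.surj hx
    obtain ⟨ζ, hζ, ⟨hζα, hζ1⟩, hζ2⟩ := exists_min (fun ζ => ζ ∈ α ∧ F (ap g ζ) = y) (hα.mem hξ)
      ⟨hξ, hxy⟩
    have hz : ζ ∈ α ∧ F (ap g ζ) = y ∧ ∀ η ∈ ζ, F (ap g η) ≠ y :=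
      ⟨hζα, hζ1, fun η hη e => hζ2 η hη ⟨hα.trans hη hζα, e⟩⟩
    have : H y = ζ := by
      refine the_eq hz ?_
      rintro η ⟨h1, h2, h3⟩
      rcases (hα.mem h1).cmp hζ with h4 | h4 | h4
      · exact absurd h2 (hz.2.2 η h4)
      · exact h4
      · exact absurd hζ1 (h3 ζ h4)
    rw [this]
    exact ⟨hζα, hζ1⟩
  have h1 : Leq a α := leq_of H (fun y hy => (hspec y hy).1) fun y hy y' hy' e => by
    rw [← (hspec y hy).2, ← (hspec y' hy').2, e]
  exact h1.trans ⟨g, hg.1, hg.2.1⟩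

theorem leq_img (a : M) (F : M → M) [Dff fun γ : E0 M × M => F γ.2] : Leq (img a F) a :=
  leq_of_surj F fun y hy => by
    obtain ⟨x, hx, rfl⟩ := mem_img.1 hy
    exact ⟨x, hx, rfl⟩

theorem leq_ran {f : M} (h : IsFun f) : Leq (ran f) (dom f) :=
  leq_of_surj (fun x => ap f x) fun y hy => by
    obtain ⟨x, hx, rfl⟩ := h.mem_ran_iff.1 hy
    exact ⟨x, hx, rfl⟩

theorem leq_iff_surj {a b : M} (h : a ≠ ∅) :
    Leq a b ↔ ∃ f : M, IsFun f ∧ dom f = b ∧ ran f = a := by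
  classical
  constructor
  · rintro ⟨f, hf, hfi⟩
    obtain ⟨a0, ha0⟩ := ne_empty_iff.1 h
    refine ⟨lam b fun y => if y ∈ ran f then ap (inv f) y else a0, isFun_lam, dom_lam, ?_⟩
    apply ext
    intro x
    rw [ran_lam, mem_img]
    constructor
    · rintro ⟨y, hy, rfl⟩
      by_cases h1 : y ∈ ran f
      · rw [if_pos h1]
        obtain ⟨z, hz, rfl⟩ := hf.1.mem_ran_iff.1 h1
        rw [hf.1.ap_inv_ap hfi hz]
        rw [hf.dom_eq] at hz
        exact hz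
      · rw [if_neg h1]
        exact ha0
    · intro hx
      have hx' : x ∈ dom f := by rw [hf.dom_eq]; exact hx
      refine ⟨ap f x, hf.ap_mem hx, ?_⟩
      rw [if_pos (hf.1.ap_mem_ran hx'), hf.1.ap_inv_ap hfi hx']
  · rintro ⟨f, hf, rfl, rfl⟩
    exact leq_ran hf

theorem eqn_img {a : M} {F : M → M} [Dff fun γ : E0 M × M => F γ.2]
    (h : ∀ x ∈ a, ∀ y ∈ a, F x = F y → x = y) : Eqn a (img a F) :=
  eqn_of F (fun x hx => mem_img.2 ⟨x, hx, rfl⟩) h fun y hy => by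
    obtain ⟨x, hx, rfl⟩ := mem_img.1 hy
    exact ⟨x, hx, rfl⟩

theorem eqn_empty_iff {a : M} : Eqn a ∅ ↔ a = ∅ := by
  constructor
  · rintro ⟨f, hf⟩
    rw [eq_empty_iff]
    intro z hz
    exact notMem_empty _ (hf.1.ap_mem hz)
  · rintro rfl
    exact Eqn.refl _

theorem isCard_empty : IsCard (∅ : M) := ⟨isOrd_empty, fun α hα => absurd hα (notMem_empty α)⟩

theorem card_eq_empty {a : M} : card a = ∅ ↔ a = ∅ := by
  rw [← eqn_empty_iff (a := a), ← card_eq_iff, isCard_empty.card_eq]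

theorem card_mono {a b : M} (h : a ⊆ b) : card a ⊆ card b := card_sub_iff.2 (leq_of_sub h)

end

end Pool.Agent.IST
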