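import Pool.Agent.IST.Basic

/-!
# There are only countably many definable classes over a countable model
-/

set_option synthInstance.maxSize 100000

namespace Pool.Agent.IST

open Pool.Agent.BVM

/-- a code of a formula -/
def encU : FmlU → ℕ
  | .mem i j => Nat.pair 0 (Nat.pair i j)
  | .eq i j => Nat.pair 1 (Nat.pair i j)
  | .cl i => Nat.pair 2 i
  | .neg a => Nat.pair 3 (encU a)
  | .and a b => Nat.pair 4 (Nat.pair (encU a) (encU b))
  | .or a b => Nat.pair 5 (Nat.pair (encU a) (encU b))
  | .imp a b => Nat.pair 6 (Nat.pair (encU a) (encU b))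
  | .iff a b => Nat.pair 7 (Nat.pair (encU a) (encU b))
  | .all a => Nat.pair 8 (encU a)
  | .ex a => Nat.pair 9 (encU a)

theorem encU_inj' : ∀ a b : FmlU, encU a = encU b → a = b := by
  intro a
  induction a with
  | mem i j => intro b h; cases b <;> simp_all [encU]
  | eq i j => intro b h; cases b <;> simp_all [encU]
  | cl i => intro b h; cases b <;> simp_all [encU]
  | neg a ih =>
    intro b h; cases b <;> simp only [encU, Nat.pair_eq_pair] at h <;> simp at h
    rw [ih _ h]
  | and a b iha ihb =>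
    intro b h; cases b <;> simp only [encU, Nat.pair_eq_pair] at h <;> simp at h
    rw [iha _ h.1, ihb _ h.2]
  | or a b iha ihb =>
    intro b h; cases b <;> simp only [encU, Nat.pair_eq_pair] at h <;> simp at h
    rw [iha _ h.1, ihb _ h.2]
  | imp a b iha ihb =>
    intro b h; cases b <;> simp only [encU, Nat.pair_eq_pair] at h <;> simp at h
    rw [iha _ h.1, ihb _ h.2]
  | iff a b iha ihb =>
    intro b h; cases b <;> simp only [encU, Nat.pair_eq_pair] at h <;> simp at h
    rw [iha _ h.1, ihb _ h.2]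
  | all a ih =>
    intro b h; cases b <;> simp only [encU, Nat.pair_eq_pair] at h <;> simp at h
    rw [ih _ h]
  | ex a ih =>
    intro b h; cases b <;> simp only [encU, Nat.pair_eq_pair] at h <;> simp at h
    rw [ih _ h]

theorem encU_inj : Function.Injective encU := fun a b h => encU_inj' a b h

instance : Countable FmlU := encU_inj.countable

/-- a formula depends on finitely many variables -/
theorem exists_bd (φ : FmlU) : ∃ n : ℕ, ∀ (M : Type) (E : M → M → Prop) (U : M → Prop)
    (v v' : ℕ → M), (∀ i < n, v i = v' i) → (SatU E U φ v ↔ SatU E U φ v') := by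
  have hb : ∀ a b : FmlU, (∃ n : ℕ, ∀ (M : Type) (E : M → M → Prop) (U : M → Prop)
      (v v' : ℕ → M), (∀ i < n, v i = v' i) → (SatU E U a v ↔ SatU E U a v')) →
      (∃ n : ℕ, ∀ (M : Type) (E : M → M → Prop) (U : M → Prop)
      (v v' : ℕ → M), (∀ i < n, v i = v' i) → (SatU E U b v ↔ SatU E U b v')) →
      ∃ n : ℕ, ∀ (M : Type) (E : M → M → Prop) (U : M → Prop)
      (v v' : ℕ → M), (∀ i < n, v i = v' i) → (SatU E U a v ↔ SatU E U a v') ∧
        (SatU E U b v ↔ SatU E U b v') := by
    rintro a b ⟨n, hn⟩ ⟨m, hm⟩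
    exact ⟨max n m, fun M E U v v' h => ⟨hn M E U v v' fun i hi => h i (lt_max_of_lt_left hi),
      hm M E U v v' fun i hi => h i (lt_max_of_lt_right hi)⟩⟩
  have hq : ∀ a : FmlU, (∃ n : ℕ, ∀ (M : Type) (E : M → M → Prop) (U : M → Prop)
      (v v' : ℕ → M), (∀ i < n, v i = v' i) → (SatU E U a v ↔ SatU E U a v')) →
      ∃ n : ℕ, ∀ (M : Type) (E : M → M → Prop) (U : M → Prop)
      (v v' : ℕ → M), (∀ i < n, v i = v' i) → ∀ x, (SatU E U a (cons x v) ↔
        SatU E U a (cons x v')) := by
    rintro a ⟨n, hn⟩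
    refine ⟨n, fun M E U v v' h x => hn M E U _ _ fun i hi => ?_⟩
    cases i with
    | zero => rfl
    | succ i => exact h i (by omega)
  induction φ with
  | mem i j =>
    refine ⟨max i j + 1, fun M E U v v' h => ?_⟩
    simp only [SatU]
    rw [h i (by omega), h j (by omega)]
  | eq i j =>
    refine ⟨max i j + 1, fun M E U v v' h => ?_⟩
    simp only [SatU]
    rw [h i (by omega), h j (by omega)]
  | cl i =>
    refine ⟨i + 1, fun M E U v v' h => ?_⟩
    simp only [SatU]
    rw [h i (by omega)]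
  | neg a ih =>
    obtain ⟨n, hn⟩ := ih
    exact ⟨n, fun M E U v v' h => not_congr (hn M E U v v' h)⟩
  | and a b iha ihb =>
    obtain ⟨n, hn⟩ := hb a b iha ihb
    refine ⟨n, fun M E U v v' h => ?_⟩
    obtain ⟨h1, h2⟩ := hn M E U v v' h
    simp only [SatU]; rw [h1, h2]
  | or a b iha ihb =>
    obtain ⟨n, hn⟩ := hb a b iha ihb
    refine ⟨n, fun M E U v v' h => ?_⟩
    obtain ⟨h1, h2⟩ := hn M E U v v' h
    simp only [SatU]; rw [h1, h2]
  | imp a b iha ihb =>
    obtain ⟨n, hn⟩ := hb a b iha ihb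
    refine ⟨n, fun M E U v v' h => ?_⟩
    obtain ⟨h1, h2⟩ := hn M E U v v' h
    simp only [SatU]; rw [h1, h2]
  | iff a b iha ihb =>
    obtain ⟨n, hn⟩ := hb a b iha ihb
    refine ⟨n, fun M E U v v' h => ?_⟩
    obtain ⟨h1, h2⟩ := hn M E U v v' h
    simp only [SatU]; rw [h1, h2]
  | all a ih =>
    obtain ⟨n, hn⟩ := hq a ih
    exact ⟨n, fun M E U v v' h => forall_congr' fun x => hn M E U v v' h x⟩
  | ex a ih =>
    obtain ⟨n, hn⟩ := hq a ih
    exact ⟨n, fun M E U v v' h => exists_congr fun x => hn M E U v v' h x⟩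

section

variable {M : Type} [SetModel M]

/-- an enumeration of the definable classes of a countable model -/
theorem exists_enum_dfp [Countable M] : ∃ D : ℕ → M → Prop,
    (∀ n, Dfp fun γ : E0 M × M => D n γ.2) ∧
    ∀ P : M → Prop, (Dfp fun γ : E0 M × M => P γ.2) → ∃ n, D n = P := by
  obtain ⟨d⟩ := nonempty_model (M := M)
  have : Nonempty (FmlU × List M) := ⟨(.eq 0 0, [])⟩
  obtain ⟨e, he⟩ := exists_surjective_nat (FmlU × List M)
  refine ⟨fun n x => SatU SetModel.E SetModel.U (e n).1 (cons x fun i => (e n).2.getD i d),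
    fun n => ?_, fun P hP => ?_⟩
  · refine ⟨(e n).1, fun i => Nat.casesOn i (fun γ => γ.2) fun k _ => (e n).2.getD k d,
      fun i => ?_, fun γ => iff_of_eq ?_⟩
    · cases i with
      | zero => exact (simple_snd : IsCtx.simple (Prod.snd : E0 M × M → M))
      | succ k => exact (IsCtx.const _ : IsCtx.simple fun _ : E0 M × M => (e n).2.getD k d)
    · dsimp only
      congr 1
      funext i
      cases i <;> rfl
  · obtain ⟨φ, s, hs, h⟩ := hP.out
    obtain ⟨ψ, v, hψ⟩ := exists_env hs
    obtain ⟨m, hm⟩ := exists_bd ψ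
    obtain ⟨n, hn⟩ := he (ψ, (List.range m).map v)
    refine ⟨n, funext fun x => propext ?_⟩
    dsimp only
    rw [hn]
    refine Iff.trans (hm M _ _ _ _ fun i hi => ?_) ((h (⟨⟩, x)).trans (hψ x)).symm
    cases i with
    | zero => rfl
    | succ i =>
      change List.getD _ i d = v i
      simp [List.getD, show i < m by omega]

end

end Pool.Agent.IST
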