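import Pool.Agent.IST.CardDef

/-!
# The cumulative hierarchy
-/

set_option synthInstance.maxSize 100000

namespace Pool.Agent.IST

open Pool.Agent.BVM

section

variable {M : Type} [SetModel M] {Γ : Type} [IsCtx Γ M]

theorem Vr_mono {α β : M} (h : α ⊆ β) : Vr α ⊆ Vr β := fun x hx => by
  obtain ⟨γ, hγ, h'⟩ := mem_Vr.1 hx
  exact mem_Vr.2 ⟨γ, h γ hγ, h'⟩

theorem isTrans_Vr (α : M) : IsTrans (Vr α) := by
  have key : ∀ α : M, ∀ x ∈ Vr α, ∀ y ∈ x, y ∈ Vr α := by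
    refine mem_ind (fun α => ∀ x ∈ Vr α, ∀ y ∈ x, y ∈ Vr α) fun α ih x hx y hy => ?_
    obtain ⟨β, hβ, hxβ⟩ := mem_Vr.1 hx
    have hy' : y ∈ Vr β := hxβ y hy
    exact mem_Vr.2 ⟨β, hβ, fun z hz => ih β hβ y hy' z hz⟩
  exact key α

theorem mem_Vr_of_sub {α x y : M} (h : x ∈ Vr α) (h' : y ⊆ x) : y ∈ Vr α := by
  obtain ⟨β, hβ, hx⟩ := mem_Vr.1 h
  exact mem_Vr.2 ⟨β, hβ, Sub.trans h' hx⟩

theorem Vr_sc {α : M} (h : IsOrd α) : Vr (sc α) = pw (Vr α) := by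
  apply ext
  intro x
  rw [mem_Vr, mem_pw]
  constructor
  · rintro ⟨β, hβ, hx⟩
    rcases mem_sc.1 hβ with h1 | rfl
    · exact Sub.trans hx (Vr_mono (h.sub_of_mem h1))
    · exact hx
  · exact fun hx => ⟨α, self_mem_sc α, hx⟩

theorem Vr_lim {α : M} (h : IsLim α) : Vr α = iU α fun β => Vr β := by
  apply ext
  intro x
  rw [mem_Vr, mem_iU]
  constructor
  · rintro ⟨β, hβ, hx⟩
    exact ⟨sc β, h.2.2 β hβ, mem_Vr.2 ⟨β, self_mem_sc β, hx⟩⟩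
  · rintro ⟨β, hβ, hx⟩
    exact ⟨β, hβ, fun y hy => isTrans_Vr β x hx y hy⟩

theorem isOrd_rk (x : M) : IsOrd (rk x) := by
  refine mem_ind (fun x => IsOrd (rk x)) (fun x ih => ?_) x
  refine isOrd_of_trans (fun y hy z hz => ?_) fun y hy => ?_
  · obtain ⟨t, ht, hy⟩ := mem_rk.1 hy
    exact mem_rk.2 ⟨t, ht, (ih t ht).sc.trans hz hy⟩
  · obtain ⟨t, ht, hy⟩ := mem_rk.1 hy
    exact (ih t ht).sc.mem hy

theorem rk_mem {x y : M} (h : x ∈ y) : rk x ∈ rk y := mem_rk.2 ⟨x, h, self_mem_sc _⟩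

theorem rk_sub_iff {x α : M} (h : IsOrd α) : rk x ⊆ α ↔ ∀ y ∈ x, rk y ∈ α := by
  constructor
  · exact fun h' y hy => h' _ (rk_mem hy)
  · intro h' z hz
    obtain ⟨y, hy, hz⟩ := mem_rk.1 hz
    rcases mem_sc.1 hz with h1 | rfl
    · exact h.trans h1 (h' y hy)
    · exact h' y hy

theorem rk_mono {x y : M} (h : x ⊆ y) : rk x ⊆ rk y :=
  (rk_sub_iff (isOrd_rk y)).2 fun z hz => rk_mem (h z hz)

theorem rk_ord {α : M} (h : IsOrd α) : rk α = α := by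
  refine ord_ind (fun α => rk α = α) (fun α hα ih => ?_) α h
  apply ext
  intro z
  rw [mem_rk]
  constructor
  · rintro ⟨y, hy, hz⟩
    rw [ih y hy] at hz
    rcases mem_sc.1 hz with h1 | rfl
    · exact hα.trans h1 hy
    · exact hy
  · exact fun hz => ⟨z, hz, by rw [ih z hz]; exact self_mem_sc z⟩

theorem sub_Vr_rk (x : M) : x ⊆ Vr (rk x) := by
  refine mem_ind (fun x => x ⊆ Vr (rk x)) (fun x ih y hy => ?_) x
  exact mem_Vr.2 ⟨rk y, rk_mem hy, ih y hy⟩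

theorem rk_mem_of_mem_Vr {x α : M} (h : IsOrd α) (hx : x ∈ Vr α) : rk x ∈ α := by
  have key : ∀ α : M, IsOrd α → ∀ x ∈ Vr α, rk x ∈ α := by
    refine ord_ind (fun α => ∀ x ∈ Vr α, rk x ∈ α) fun α hα ih x hx => ?_
    obtain ⟨β, hβ, hx⟩ := mem_Vr.1 hx
    exact (isOrd_rk x).mem_of_sub_of_mem hα
      ((rk_sub_iff (hα.mem hβ)).2 fun y hy => ih β hβ y (hx y hy)) hβ
  exact key α h x hx

theorem mem_Vr_iff {x α : M} (h : IsOrd α) : x ∈ Vr α ↔ rk x ∈ α :=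
  ⟨rk_mem_of_mem_Vr h, fun h' => mem_Vr.2 ⟨rk x, h', sub_Vr_rk x⟩⟩

theorem sub_Vr_iff {x α : M} (h : IsOrd α) : x ⊆ Vr α ↔ rk x ⊆ α := by
  rw [rk_sub_iff h]
  exact forall_congr' fun y => forall_congr' fun _ => mem_Vr_iff h

theorem exists_mem_Vr (x : M) : ∃ α : M, IsOrd α ∧ x ∈ Vr α :=
  ⟨sc (rk x), (isOrd_rk x).sc, (mem_Vr_iff (isOrd_rk x).sc).2 (self_mem_sc _)⟩

theorem ord_mem_Vr_iff {α β : M} (hα : IsOrd α) (hβ : IsOrd β) : α ∈ Vr β ↔ α ∈ β := by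
  rw [mem_Vr_iff hβ, rk_ord hα]

theorem ord_sub_Vr {α : M} (h : IsOrd α) : α ⊆ Vr α := fun _ hβ =>
  (ord_mem_Vr_iff (h.mem hβ) h).2 hβ

theorem ord_eq_ext {α β : M} (hα : IsOrd α) (hβ : IsOrd β) (h : ∀ γ, IsOrd γ → (α ⊆ γ ↔ β ⊆ γ)) :
    α = β := Sub.antisymm ((h β hβ).2 (Sub.refl _)) ((h α hα).1 (Sub.refl _))

theorem union_sub_iff {x y z : M} : x ∪ y ⊆ z ↔ x ⊆ z ∧ y ⊆ z := by
  constructor
  · exact fun h => ⟨fun t ht => h t (mem_union.2 (Or.inl ht)), fun t ht => h t (mem_union.2 (Or.inr ht))⟩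
  · rintro ⟨h1, h2⟩ t ht
    rcases mem_union.1 ht with h | h
    · exact h1 t h
    · exact h2 t h

theorem union_mem_of_ord {α β γ : M} (hγ : IsOrd γ) (hα : α ∈ γ) (hβ : β ∈ γ) : α ∪ β ∈ γ := by
  rcases (hγ.mem hα).total (hγ.mem hβ) with h | h
  · have : α ∪ β = β := Sub.antisymm (union_sub_iff.2 ⟨h, Sub.refl _⟩) fun t ht =>
      mem_union.2 (Or.inr ht)
    rw [this]; exact hβ
  · have : α ∪ β = α := Sub.antisymm (union_sub_iff.2 ⟨Sub.refl _, (hγ.mem hα).sub_of_mem h⟩)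
      fun t ht => mem_union.2 (Or.inl ht)
    rw [this]; exact hα

theorem rk_sing {x : M} : rk (sing x) = sc (rk x) := by
  apply ext; intro z
  rw [mem_rk]
  simp only [mem_sing]
  simp

theorem rk_upair {x y : M} : rk (upair x y) = sc (rk x ∪ rk y) := by
  refine ord_eq_ext (isOrd_rk _) (isOrd_union (isOrd_rk _) (isOrd_rk _)).sc fun γ hγ => ?_
  rw [rk_sub_iff hγ, hγ.sc_sub_iff]
  constructor
  · intro h
    exact union_mem_of_ord hγ (h x (mem_upair.2 (Or.inl rfl))) (h y (mem_upair.2 (Or.inr rfl)))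
  · intro h t ht
    have hu := union_sub_iff.1 (Sub.refl (rk x ∪ rk y))
    rcases mem_upair.1 ht with rfl | rfl
    · exact (isOrd_rk _).mem_of_sub_of_mem hγ hu.1 h
    · exact (isOrd_rk _).mem_of_sub_of_mem hγ hu.2 h

theorem rk_op {x y : M} : rk (op x y) = sc (sc (rk x ∪ rk y)) := by
  unfold op
  rw [rk_upair, rk_sing, rk_upair]
  congr 1
  refine Sub.antisymm (union_sub_iff.2 ⟨?_, Sub.refl _⟩) fun t ht => mem_union.2 (Or.inr ht)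
  have ho := isOrd_union (isOrd_rk x) (isOrd_rk y)
  rw [ho.sc.sc_sub_iff, (isOrd_rk x).mem_sc_iff ho]
  exact (union_sub_iff.1 (Sub.refl (rk x ∪ rk y))).1

theorem upair_mem_Vr {α x y : M} (h : IsLim α) (hx : x ∈ Vr α) (hy : y ∈ Vr α) :
    upair x y ∈ Vr α := by
  rw [mem_Vr_iff h.1] at hx hy ⊢
  rw [rk_upair]
  exact h.2.2 _ (union_mem_of_ord h.1 hx hy)

theorem sing_mem_Vr {α x : M} (h : IsLim α) (hx : x ∈ Vr α) : sing x ∈ Vr α := by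
  rw [mem_Vr_iff h.1] at hx ⊢
  rw [rk_sing]
  exact h.2.2 _ hx

theorem op_mem_Vr {α x y : M} (h : IsLim α) (hx : x ∈ Vr α) (hy : y ∈ Vr α) : op x y ∈ Vr α := by
  rw [mem_Vr_iff h.1] at hx hy ⊢
  rw [rk_op]
  exact h.2.2 _ (h.2.2 _ (union_mem_of_ord h.1 hx hy))

theorem rk_pw {x : M} : rk (pw x) = sc (rk x) := by
  refine ord_eq_ext (isOrd_rk _) (isOrd_rk _).sc fun γ hγ => ?_
  rw [rk_sub_iff hγ, hγ.sc_sub_iff]
  constructor
  · exact fun h => h x (mem_pw.2 (Sub.refl x))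
  · exact fun h y hy => (isOrd_rk _).mem_of_sub_of_mem hγ (rk_mono (mem_pw.1 hy)) h

theorem pw_mem_Vr {α x : M} (h : IsLim α) (hx : x ∈ Vr α) : pw x ∈ Vr α := by
  rw [mem_Vr_iff h.1] at hx ⊢
  rw [rk_pw]
  exact h.2.2 _ hx

theorem rk_bigU_sub {x : M} : rk (bigU x) ⊆ rk x := by
  rw [rk_sub_iff (isOrd_rk x)]
  intro y hy
  obtain ⟨z, hz, hy⟩ := mem_bigU.1 hy
  exact (isOrd_rk x).trans (rk_mem hy) (rk_mem hz)

theorem bigU_mem_Vr {α x : M} (h : IsOrd α) (hx : x ∈ Vr α) : bigU x ∈ Vr α := by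
  rw [mem_Vr_iff h] at hx ⊢
  exact (isOrd_rk _).mem_of_sub_of_mem h rk_bigU_sub hx

theorem union_mem_Vr {α x y : M} (h : IsOrd α) (hx : x ∈ Vr α) (hy : y ∈ Vr α) :
    x ∪ y ∈ Vr α := by
  rw [mem_Vr_iff h] at hx hy ⊢
  refine (isOrd_rk _).mem_of_sub_of_mem h ?_ (union_mem_of_ord h hx hy)
  rw [rk_sub_iff (isOrd_union (isOrd_rk _) (isOrd_rk _))]
  intro z hz
  rcases mem_union.1 hz with h1 | h1
  · exact mem_union.2 (Or.inl (rk_mem h1))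
  · exact mem_union.2 (Or.inr (rk_mem h1))

theorem rk_prod_sub {x y : M} : rk (prod x y) ⊆ sc (sc (rk x ∪ rk y)) := by
  have ho := isOrd_union (isOrd_rk x) (isOrd_rk y)
  rw [rk_sub_iff ho.sc.sc]
  intro p hp
  obtain ⟨a, ha, b, hb, rfl⟩ := mem_prod.1 hp
  rw [rk_op]
  have h1 : rk a ∪ rk b ∈ rk x ∪ rk y := union_mem_of_ord ho
    (mem_union.2 (Or.inl (rk_mem ha))) (mem_union.2 (Or.inr (rk_mem hb)))
  have h2 : sc (rk a ∪ rk b) ⊆ rk x ∪ rk y := ho.sc_sub_iff.2 h1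
  have h3 : sc (rk a ∪ rk b) ∈ sc (rk x ∪ rk y) :=
    ((isOrd_union (isOrd_rk a) (isOrd_rk b)).sc.mem_sc_iff ho).2 h2
  exact ((isOrd_union (isOrd_rk a) (isOrd_rk b)).sc.sc.mem_sc_iff ho.sc).2
    (ho.sc.sc_sub_iff.2 h3)

theorem prod_mem_Vr {α x y : M} (h : IsLim α) (hx : x ∈ Vr α) (hy : y ∈ Vr α) :
    prod x y ∈ Vr α := by
  rw [mem_Vr_iff h.1] at hx hy ⊢
  exact (isOrd_rk _).mem_of_sub_of_mem h.1 rk_prod_sub
    (h.2.2 _ (h.2.2 _ (union_mem_of_ord h.1 hx hy)))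

/-- a function between elements of `V_α` is in `V_α` -/
theorem fun_mem_Vr {α f a b : M} (h : IsLim α) (hf : Maps f a b) (ha : a ∈ Vr α) (hb : b ∈ Vr α) :
    f ∈ Vr α := mem_Vr_of_sub (prod_mem_Vr h ha hb) hf.sub_prod

/-- an ordinal above the values of a function -/
theorem exists_ord_bound (a : M) (F : M → M) [Dff fun γ : E0 M × M => F γ.2]
    (h : ∀ x ∈ a, IsOrd (F x)) : ∃ α : M, IsOrd α ∧ ∀ x ∈ a, F x ∈ α := by
  obtain ⟨α, hα, h'⟩ := exists_ord_above (img a F)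
  exact ⟨α, hα, fun x hx => h' _ (mem_img.2 ⟨x, hx, rfl⟩) (h x hx)⟩

/-- the least ordinal of a definable class (`∅` if there is none) -/
noncomputable def lst (P : M → Prop) : M := the fun α => IsOrd α ∧ P α ∧ ∀ β ∈ α, ¬ P β

instance lst.dff {P : Γ → M → Prop} [h : Dfp fun γ : Γ × M => P γ.1 γ.2] :
    Dff fun γ => lst (P γ) := by
  unfold lst
  have : Dfp fun γ : (Γ × M) × M => P γ.1.1 γ.2 := Dfp.drop
  infer_instance

theorem lst_spec {P : M → Prop} [Dfp fun γ : E0 M × M => P γ.2] {α : M} (hα : IsOrd α)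
    (h : P α) : IsOrd (lst P) ∧ P (lst P) ∧ ∀ β ∈ lst P, ¬ P β := by
  refine the_spec (P := fun α => IsOrd α ∧ P α ∧ ∀ β ∈ α, ¬ P β) ?_
  obtain ⟨β, h1, h2, h3⟩ := exists_min P hα h
  refine ⟨β, ⟨h1, h2, h3⟩, fun γ ⟨g1, g2, g3⟩ => ?_⟩
  rcases g1.cmp h1 with h4 | h4 | h4
  · exact absurd g2 (h3 γ h4)
  · exact h4
  · exact absurd h2 (g3 β h4)

theorem lst_sub {P : M → Prop} [Dfp fun γ : E0 M × M => P γ.2] {α : M} (hα : IsOrd α)
    (h : P α) : lst P ⊆ α := by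
  obtain ⟨h1, h2, h3⟩ := lst_spec hα h
  exact (hα.not_mem h1).1 fun h' => h3 α h' h

/-- collection -/
theorem collection (a : M) (R : M → M → Prop) [Dfp fun γ : (E0 M × M) × M => R γ.1.2 γ.2]
    (h : ∀ x ∈ a, ∃ y, R x y) : ∃ b : M, ∀ x ∈ a, ∃ y ∈ b, R x y := by
  have h1 : Dfp fun γ : (E0 M × M) × M => ∃ y ∈ Vr γ.2, R γ.1.2 y := by
    have : Dfp fun γ : ((E0 M × M) × M) × M => R γ.1.1.2 γ.2 :=
      Dfp.lift2 (Γ := E0 M) (P := fun _ => R) (c := fun γ : ((E0 M × M) × M) × M => γ.1.1.1)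
    infer_instance
  obtain ⟨α, hα, hb⟩ := exists_ord_bound a (fun x => lst fun α => ∃ y ∈ Vr α, R x y)
    (fun x hx => by
      obtain ⟨y, hy⟩ := h x hx
      obtain ⟨α, hα, hyα⟩ := exists_mem_Vr y
      have : Dfp fun γ : E0 M × M => ∃ y ∈ Vr γ.2, R x y :=
        dfp_slice (Γ := E0 M × M) (P := fun γ α => ∃ y ∈ Vr α, R γ.2 y) (⟨⟩, x)
      exact (lst_spec (P := fun α => ∃ y ∈ Vr α, R x y) hα ⟨y, hyα, hy⟩).1)
  refine ⟨Vr α, fun x hx => ?_⟩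
  obtain ⟨y, hy⟩ := h x hx
  obtain ⟨β, hβ, hyβ⟩ := exists_mem_Vr y
  have : Dfp fun γ : E0 M × M => ∃ y ∈ Vr γ.2, R x y :=
    dfp_slice (Γ := E0 M × M) (P := fun γ α => ∃ y ∈ Vr α, R γ.2 y) (⟨⟩, x)
  obtain ⟨y', hy', hR⟩ := (lst_spec (P := fun α => ∃ y ∈ Vr α, R x y) hβ ⟨y, hyβ, hy⟩).2.1
  exact ⟨y', Vr_mono (hα.sub_of_mem (hb x hx)) y' hy', hR⟩

/-- one closing-off step -/
noncomputable def clStep (F : M → M) (a : M) : M := sc (a ∪ bigU (img a fun ξ => sc (F ξ)))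

/-- iterated closing off -/
noncomputable def clIt (F : M → M) (β n : M) : M :=
  erec (fun _ f => clStep F (β ∪ bigU (ran f))) n

section

variable (F : M → M) [hF : Dff fun γ : E0 M × M => F γ.2]

theorem clStep_dff {Δ : Type} [IsCtx Δ M] {f : Δ → M} [Dff f] : Dff fun γ => clStep F (f γ) := by
  unfold clStep
  have : Dff fun γ : Δ × M => F γ.2 :=
    Dff.lift1 (Γ := E0 M) (F := fun _ => F) (c := fun _ : Δ × M => (⟨⟩ : E0 M))
  infer_instance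

theorem isOrd_clStep (h : ∀ α : M, IsOrd α → IsOrd (F α)) {a : M} (ha : IsOrd a) :
    IsOrd (clStep F a) := by
  refine (isOrd_union ha (isOrd_bigU fun y hy => ?_)).sc
  obtain ⟨ξ, hξ, rfl⟩ := mem_img.1 hy
  exact (h ξ (ha.mem hξ)).sc

theorem clIt_eq {β n : M} : clIt F β n = clStep F (β ∪ bigU (img n fun m => clIt F β m)) := by
  have : Dff fun γ : (E0 M × M) × M => clStep F (β ∪ bigU (ran γ.2)) := clStep_dff F
  have hd := erec_slice (G := fun _ f : M => clStep F (β ∪ bigU (ran f)))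
  unfold clIt
  rw [erec_eq]
  congr 3
  exact ran_lam

/-- a limit ordinal above a given one closed under a class function -/
theorem exists_closed_ord (h : ∀ α : M, IsOrd α → IsOrd (F α))
    (β : M) (hβ : IsOrd β) : ∃ α : M, IsLim α ∧ β ∈ α ∧ ∀ ξ ∈ α, F ξ ∈ α := by
  have hd : Dff fun γ : (E0 M × M) × M => clStep F (β ∪ bigU (ran γ.2)) := clStep_dff F
  have hd2 : Dff fun γ : E0 M × M => clIt F β γ.2 :=
    erec_slice (G := fun _ f : M => clStep F (β ∪ bigU (ran f)))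
  have ho : ∀ n : M, IsOrd (clIt F β n) := by
    refine mem_ind (fun n => IsOrd (clIt F β n)) fun n ih => ?_
    rw [clIt_eq]
    refine isOrd_clStep F h (isOrd_union hβ (isOrd_bigU fun y hy => ?_))
    obtain ⟨m, hm, rfl⟩ := mem_img.1 hy
    exact ih m hm
  have hstep : ∀ n ∈ (om : M), ∀ ξ ∈ clIt F β n, sc ξ ∈ clIt F β (sc n) ∧
      F ξ ∈ clIt F β (sc n) := by
    intro n hn ξ hξ
    have h1 : ξ ∈ β ∪ bigU (img (sc n) fun m => clIt F β m) :=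
      mem_union.2 (Or.inr (mem_bigU.2 ⟨_, mem_img.2 ⟨n, self_mem_sc n, rfl⟩, hξ⟩))
    have h2 : IsOrd (β ∪ bigU (img (sc n) fun m => clIt F β m)) := by
      refine isOrd_union hβ (isOrd_bigU fun y hy => ?_)
      obtain ⟨m, hm, rfl⟩ := mem_img.1 hy
      exact ho m
    have h3 := isOrd_clStep F h h2
    rw [clIt_eq F (n := sc n)]
    unfold clStep at h3 ⊢
    refine ⟨(h2.mem h1).sc.mem_of_sub_of_mem h3 (Sub.trans (h2.sc_sub_iff.2 h1) ?_)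
      (self_mem_sc _), h3.trans (?_ : F ξ ∈ _ ∪ _) (self_mem_sc _)⟩
    · exact fun t ht => mem_union.2 (Or.inl ht)
    · exact mem_union.2 (Or.inr (mem_bigU.2 ⟨sc (F ξ), mem_img.2 ⟨ξ, h1, rfl⟩, self_mem_sc _⟩))
  have hα : IsOrd (bigU (img om fun n => clIt F β n)) := isOrd_bigU fun y hy => by
    obtain ⟨m, hm, rfl⟩ := mem_img.1 hy
    exact ho m
  have hβm : β ∈ bigU (img om fun n => clIt F β n) := by
    refine mem_bigU.2 ⟨_, mem_img.2 ⟨∅, mem_om.2 isNat_empty, rfl⟩, ?_⟩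
    have h2 : IsOrd (β ∪ bigU (img ∅ fun m => clIt F β m)) := by
      refine isOrd_union hβ (isOrd_bigU fun y hy => ?_)
      obtain ⟨m, hm, rfl⟩ := mem_img.1 hy
      exact ho m
    have h3 := isOrd_clStep F h h2
    rw [clIt_eq]
    unfold clStep at h3 ⊢
    exact hβ.mem_of_sub_of_mem h3 (fun t ht => mem_union.2 (Or.inl (mem_union.2 (Or.inl ht))))
      (self_mem_sc _)
  refine ⟨bigU (img om fun n => clIt F β n), ⟨hα, ne_empty_iff.2 ⟨β, hβm⟩, fun ξ hξ => ?_⟩, hβm,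
    fun ξ hξ => ?_⟩
  · obtain ⟨y, hy, hξ⟩ := mem_bigU.1 hξ
    obtain ⟨n, hn, rfl⟩ := mem_img.1 hy
    exact mem_bigU.2 ⟨_, mem_img.2 ⟨sc n, mem_om.2 (mem_om.1 hn).sc, rfl⟩, (hstep n hn ξ hξ).1⟩
  · obtain ⟨y, hy, hξ⟩ := mem_bigU.1 hξ
    obtain ⟨n, hn, rfl⟩ := mem_img.1 hy
    exact mem_bigU.2 ⟨_, mem_img.2 ⟨sc n, mem_om.2 (mem_om.1 hn).sc, rfl⟩, (hstep n hn ξ hξ).2⟩

end

end

end Pool.Agent.IST
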