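import Pool.Agent.IST.Choice
import Pool.Agent.IST.Rank
import Pool.Agent.IST.Subst

/-!
# The coding axiom

`lmf l b` is the `b`-th limit ordinal from `l` on (`l` a limit ordinal).
-/

set_option synthInstance.maxSize 100000

namespace Pool.Agent.IST

open Pool.Agent.BVM

/-- the class of the model codes every set of ordinals at limit ordinals -/
class Cod (M : Type) [SetModel M] : Prop where
  out : ∀ θ x l₀ : M, IsOrd θ → IsOrd l₀ → x ⊆ θ → ∃ l l' f : M, IsLim l ∧ l₀ ∈ l ∧ IsOrd l' ∧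
    Bij f θ (sep l' fun m => IsLim m ∧ l ⊆ m) ∧ (∀ ξ ∈ θ, ∀ ζ ∈ ξ, ap f ζ ∈ ap f ξ) ∧
    ∀ b ∈ θ, (SetModel.U (ap f b) ↔ b ∈ x)

section

variable {M : Type} [SetModel M] {Γ : Type} [IsCtx Γ M]

/-- the `b`-th limit ordinal from `l` on -/
noncomputable def lmf (l b : M) : M :=
  erec (fun b f => lst fun α => IsLim α ∧ l ⊆ α ∧ ∀ c ∈ b, ap f c ∈ α) b

instance lmf.dff {f g : Γ → M} [Dff f] [Dff g] : Dff fun γ => lmf (f γ) (g γ) := by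
  unfold lmf; infer_instance

theorem exists_lim_above {β : M} (hβ : IsOrd β) : ∃ α : M, IsLim α ∧ β ∈ α := by
  obtain ⟨α, h1, h2, -⟩ := exists_closed_ord (fun x : M => x) (fun _ h => h) β hβ
  exact ⟨α, h1, h2⟩

theorem lmf_eq (l : M) {b : M} : lmf l b = lst fun α => IsLim α ∧ l ⊆ α ∧
    ∀ c ∈ b, lmf l c ∈ α := by
  have h := erec_eq (G := fun b f => lst fun α => IsLim α ∧ l ⊆ α ∧ ∀ c ∈ b, ap f c ∈ α) b
  have : lmf l b = lst fun α => IsLim α ∧ l ⊆ α ∧ ∀ c ∈ b,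
      ap (lam b fun y => lmf l y) c ∈ α := h
  rw [this]
  congr 1
  funext α
  refine propext (and_congr_right fun _ => and_congr_right fun _ => forall_congr' fun c => ?_)
  refine forall_congr' fun hc => ?_
  rw [ap_lam hc]

theorem lmf_spec {l b : M} (hl : IsOrd l) : IsLim (lmf l b) ∧ l ⊆ lmf l b ∧
    (∀ c ∈ b, lmf l c ∈ lmf l b) ∧
    ∀ α, IsLim α → l ⊆ α → (∀ c ∈ b, lmf l c ∈ α) → lmf l b ⊆ α := by
  have hall : ∀ b : M, IsOrd (lmf l b) := by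
    intro b
    unfold lmf
    rw [erec_eq]
    by_cases h : ∃ α, IsOrd α ∧ (IsLim α ∧ l ⊆ α ∧ ∀ c ∈ b, ap (lam b fun y => erec (fun b f =>
      lst fun α => IsLim α ∧ l ⊆ α ∧ ∀ c ∈ b, ap f c ∈ α) y) c ∈ α)
    · obtain ⟨α, hα, h⟩ := h
      exact (lst_spec (P := fun α => IsLim α ∧ l ⊆ α ∧ ∀ c ∈ b, ap (lam b fun y => erec (fun b f =>
        lst fun α => IsLim α ∧ l ⊆ α ∧ ∀ c ∈ b, ap f c ∈ α) y) c ∈ α) hα h).1
    · have : lst (fun α => IsLim α ∧ l ⊆ α ∧ ∀ c ∈ b, ap (lam b fun y => erec (fun b f =>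
          lst fun α => IsLim α ∧ l ⊆ α ∧ ∀ c ∈ b, ap f c ∈ α) y) c ∈ α) = ∅ := by
        unfold lst the
        rw [dif_neg]
        rintro ⟨α, ⟨h1, h2, -⟩, -⟩
        exact h ⟨α, h1, h2⟩
      rw [this]
      exact isOrd_empty
  have hex : ∃ α, IsOrd α ∧ (IsLim α ∧ l ⊆ α ∧ ∀ c ∈ b, lmf l c ∈ α) := by
    obtain ⟨β, hβ, h1⟩ := exists_ord_above (sing l ∪ img b fun c => lmf l c)
    obtain ⟨α, hα, h2⟩ := exists_lim_above hβ
    refine ⟨α, hα.1, hα, ?_, fun c hc => ?_⟩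
    · exact hα.1.sub_of_mem (hα.1.trans (h1 l (mem_union.2 (Or.inl (mem_sing.2 rfl))) hl) h2)
    · exact hα.1.trans (h1 _ (mem_union.2 (Or.inr (mem_img.2 ⟨c, hc, rfl⟩))) (hall c)) h2
  obtain ⟨α, hα, h⟩ := hex
  obtain ⟨h1, h2, h3⟩ := lst_spec (P := fun α => IsLim α ∧ l ⊆ α ∧ ∀ c ∈ b, lmf l c ∈ α) hα h
  rw [← lmf_eq] at h1 h2 h3
  refine ⟨h2.1, h2.2.1, h2.2.2, fun β hβ h4 h5 => ?_⟩
  exact (hβ.1.not_mem h1).1 fun h' => h3 β h' ⟨hβ, h4, h5⟩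

theorem isLim_lmf {l b : M} (hl : IsOrd l) : IsLim (lmf l b) := (lmf_spec hl).1

theorem sub_lmf {l b : M} (hl : IsOrd l) : l ⊆ lmf l b := (lmf_spec hl).2.1

theorem lmf_mem {l b c : M} (hl : IsOrd l) (h : c ∈ b) : lmf l c ∈ lmf l b :=
  (lmf_spec hl).2.2.1 c h

/-- all limit ordinals are enumerated -/
theorem exists_lmf {l m : M} (hl : IsOrd l) (hm : IsLim m) (h : l ⊆ m) :
    ∀ b : M, IsOrd b → m ∈ lmf l b → ∃ c ∈ b, m = lmf l c := by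
  refine ord_ind (fun b => m ∈ lmf l b → ∃ c ∈ b, m = lmf l c) fun b hb ih hmb => ?_
  have h1 : ∃ c ∈ b, lmf l c ∉ m := by
    by_contra hc
    push Not at hc
    have := (lmf_spec hl).2.2.2 m hm h hc
    exact mem_irrefl m (this m hmb)
  obtain ⟨c, hc, hcm⟩ := h1
  rcases (isLim_lmf hl).1.cmp hm.1 with h2 | h2 | h2
  · exact absurd h2 hcm
  · exact ⟨c, hc, h2.symm⟩
  · obtain ⟨d, hd, hd'⟩ := ih c hc h2
    exact ⟨d, hb.trans hd hc, hd'⟩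

theorem lmf_inj {l b c : M} (hl : IsOrd l) (hb : IsOrd b) (hc : IsOrd c)
    (h : lmf l b = lmf l c) : b = c := by
  rcases hb.cmp hc with h1 | h1 | h1
  · exact absurd (h ▸ lmf_mem hl h1) (mem_irrefl _)
  · exact h1
  · exact absurd (h ▸ lmf_mem hl h1) (mem_irrefl _)

/-- the enumeration of the limit ordinals in an interval -/
theorem bij_lmf {l θ : M} (hl : IsOrd l) (hθ : IsOrd θ) : Bij (lam θ fun b => lmf l b) θ
    (sep (lmf l θ) fun m => IsLim m ∧ l ⊆ m) := by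
  refine bij_lam (fun b hb => ?_) (fun b hb c hc e => ?_) fun m hm => ?_
  · exact mem_sep.2 ⟨lmf_mem hl hb, isLim_lmf hl, sub_lmf hl⟩
  · exact lmf_inj hl (hθ.mem hb) (hθ.mem hc) e
  · obtain ⟨h1, h2, h3⟩ := mem_sep.1 hm
    obtain ⟨c, hc, h4⟩ := exists_lmf hl h2 h3 θ hθ h1
    exact ⟨c, hc, h4.symm⟩

/-- the coding axiom, from its form with `lmf` -/
theorem cod_of_lmf (h : ∀ θ x l₀ : M, IsOrd θ → IsOrd l₀ → x ⊆ θ → ∃ l, IsLim l ∧ l₀ ∈ l ∧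
    ∀ b ∈ θ, (SetModel.U (lmf l b) ↔ b ∈ x)) : Cod M := by
  refine ⟨fun θ x l₀ hθ hl₀ hx => ?_⟩
  obtain ⟨l, hl, hl', hu⟩ := h θ x l₀ hθ hl₀ hx
  refine ⟨l, lmf l θ, lam θ fun b => lmf l b, hl, hl', (isLim_lmf hl.1).1, bij_lmf hl.1 hθ,
    fun ξ hξ ζ hζ => ?_, fun b hb => ?_⟩
  · rw [ap_lam hξ, ap_lam (hθ.trans hζ hξ)]
    exact lmf_mem hl.1 hζ
  · rw [ap_lam hb]
    exact hu b hb

end

end Pool.Agent.IST
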