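import Pool.Agent.IST.Rank

/-!
# The transitive collapse, order types
-/

set_option synthInstance.maxSize 100000

namespace Pool.Agent.IST

open Pool.Agent.BVM

section

variable {M : Type} [SetModel M] {Γ : Type} [IsCtx Γ M]

/-- the transitive collapse of `x` with respect to `s` -/
noncomputable def mc (s x : M) : M := erec (fun x f => img (s ∩ x) fun y => ap f y) x

instance mc.dff {f g : Γ → M} [Dff f] [Dff g] : Dff fun γ => mc (f γ) (g γ) := by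
  unfold mc; infer_instance

theorem mem_mc {s x z : M} : z ∈ mc s x ↔ ∃ y ∈ s, y ∈ x ∧ z = mc s y := by
  have h : mc s x = img (s ∩ x) fun y => ap (lam x fun y => mc s y) y := by
    unfold mc
    rw [erec_eq]
  rw [h, mem_img]
  simp only [mem_inter, and_assoc]
  refine exists_congr fun y => and_congr_right fun _ => and_congr_right fun hy => ?_
  rw [ap_lam hy]

theorem mc_mem_mc {s x y : M} (hx : x ∈ s) (h : x ∈ y) : mc s x ∈ mc s y :=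
  mem_mc.2 ⟨x, hx, h, rfl⟩

theorem isTrans_img_mc (s : M) : IsTrans (img s fun x => mc s x) := by
  intro y hy z hz
  obtain ⟨x, -, rfl⟩ := mem_img.1 hy
  obtain ⟨w, hw, -, rfl⟩ := mem_mc.1 hz
  exact mem_img.2 ⟨w, hw, rfl⟩

theorem mc_inj {s x y : M} (hs : ∀ x ∈ s, ∀ y ∈ s, x ∩ s = y ∩ s → x = y) (hx : x ∈ s)
    (hy : y ∈ s) (e : mc s x = mc s y) : x = y := by
  have key : ∀ x : M, x ∈ s → ∀ y ∈ s, mc s x = mc s y → x = y := by
    refine mem_ind (fun x => x ∈ s → ∀ y ∈ s, mc s x = mc s y → x = y) fun x ih hx y hy e => ?_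
    refine hs x hx y hy (ext fun z => ?_)
    rw [mem_inter, mem_inter]
    refine and_congr_left fun hz => ⟨fun h => ?_, fun h => ?_⟩
    · obtain ⟨w, hw, hwy, h'⟩ := mem_mc.1 (e ▸ mc_mem_mc hz h : mc s z ∈ mc s y)
      rw [ih z h hz w hw h']
      exact hwy
    · obtain ⟨w, hw, hwx, h'⟩ := mem_mc.1 (e.symm ▸ mc_mem_mc hz h : mc s z ∈ mc s x)
      rw [← ih w hwx hw z hz h'.symm]
      exact hwx
  exact key x hx y hy e

theorem mc_mem_iff {s x y : M} (hs : ∀ x ∈ s, ∀ y ∈ s, x ∩ s = y ∩ s → x = y) (hx : x ∈ s)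
    (_hy : y ∈ s) : mc s x ∈ mc s y ↔ x ∈ y := by
  refine ⟨fun h => ?_, mc_mem_mc hx⟩
  obtain ⟨z, hz, hzy, h'⟩ := mem_mc.1 h
  rw [mc_inj hs hx hz h']
  exact hzy

theorem mc_eq_self {s t x : M} (ht : IsTrans t) (h : t ⊆ s) (hx : x ∈ t) : mc s x = x := by
  have key : ∀ x : M, x ∈ t → mc s x = x := by
    refine mem_ind (fun x => x ∈ t → mc s x = x) fun x ih hx => ext fun z => ?_
    rw [mem_mc]
    constructor
    · rintro ⟨y, -, hyx, rfl⟩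
      rw [ih y hyx (ht x hx y hyx)]
      exact hyx
    · intro hz
      exact ⟨z, h z (ht x hx z hz), hz, (ih z hz (ht x hx z hz)).symm⟩
  exact key x hx

theorem isOrd_mc {s x : M} (hx : IsOrd x) : IsOrd (mc s x) := by
  refine ord_ind (fun x => IsOrd (mc s x)) (fun x hx ih => ?_) x hx
  refine isOrd_of_trans (fun y hy z hz => ?_) fun y hy => ?_
  · obtain ⟨w, hw, hwx, rfl⟩ := mem_mc.1 hy
    obtain ⟨v, hv, hvw, rfl⟩ := mem_mc.1 hz
    exact mem_mc.2 ⟨v, hv, hx.trans hvw hwx, rfl⟩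
  · obtain ⟨w, hw, hwx, rfl⟩ := mem_mc.1 hy
    exact ih w hwx

theorem ords_ext {a : M} (h : ∀ x ∈ a, IsOrd x) : ∀ x ∈ a, ∀ y ∈ a, x ∩ a = y ∩ a → x = y := by
  intro x hx y hy e
  rcases (h x hx).cmp (h y hy) with h1 | h1 | h1
  · have : x ∈ x ∩ a := e ▸ mem_inter.2 ⟨h1, hx⟩
    exact absurd (mem_inter.1 this).1 (mem_irrefl x)
  · exact h1
  · have : y ∈ y ∩ a := e ▸ mem_inter.2 ⟨h1, hy⟩
    exact absurd (mem_inter.1 this).1 (mem_irrefl y)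

/-- the order type of a set of ordinals -/
noncomputable def otp (a : M) : M := img a fun x => mc a x

instance otp.dff {f : Γ → M} [Dff f] : Dff fun γ => otp (f γ) := by
  unfold otp; infer_instance

/-- the increasing enumeration of a set of ordinals -/
noncomputable def enm (a : M) : M := inv (lam a fun x => mc a x)

instance enm.dff {f : Γ → M} [Dff f] : Dff fun γ => enm (f γ) := by
  unfold enm; infer_instance

theorem isOrd_otp {a : M} (h : ∀ x ∈ a, IsOrd x) : IsOrd (otp a) :=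
  isOrd_of_trans (isTrans_img_mc a) fun y hy => by
    obtain ⟨x, hx, rfl⟩ := mem_img.1 hy
    exact isOrd_mc (h x hx)

theorem inj_mc {a : M} (h : ∀ x ∈ a, IsOrd x) : Inj (lam a fun x => mc a x) := by
  intro x hx y hy e
  rw [dom_lam] at hx hy
  rw [ap_lam hx, ap_lam hy] at e
  exact mc_inj (ords_ext h) hx hy e

theorem bij_mc {a : M} (h : ∀ x ∈ a, IsOrd x) : Bij (lam a fun x => mc a x) a (otp a) :=
  ⟨maps_lam fun x hx => mem_img.2 ⟨x, hx, rfl⟩, inj_mc h, ran_lam⟩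

theorem bij_enm {a : M} (h : ∀ x ∈ a, IsOrd x) : Bij (enm a) (otp a) a := (bij_mc h).inv

theorem enm_mc {a x : M} (h : ∀ x ∈ a, IsOrd x) (hx : x ∈ a) : ap (enm a) (mc a x) = x := by
  have := isFun_lam.ap_inv_ap (inj_mc h) (x := x) (by rw [dom_lam]; exact hx)
  rwa [ap_lam hx] at this

theorem mc_enm {a ξ : M} (h : ∀ x ∈ a, IsOrd x) (hξ : ξ ∈ otp a) :
    mc a (ap (enm a) ξ) = ξ := by
  obtain ⟨x, hx, rfl⟩ := mem_img.1 hξ
  rw [enm_mc h hx]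

theorem enm_mem {a ξ : M} (h : ∀ x ∈ a, IsOrd x) (hξ : ξ ∈ otp a) : ap (enm a) ξ ∈ a :=
  (bij_enm h).1.ap_mem hξ

theorem enm_mem_iff {a ξ ζ : M} (h : ∀ x ∈ a, IsOrd x) (hξ : ξ ∈ otp a) (hζ : ζ ∈ otp a) :
    ap (enm a) ζ ∈ ap (enm a) ξ ↔ ζ ∈ ξ := by
  rw [← mc_mem_iff (ords_ext h) (enm_mem h hζ) (enm_mem h hξ), mc_enm h hζ, mc_enm h hξ]

/-- an increasing function on an ordinal is at least the identity -/
theorem sub_of_increasing {α : M} (hα : IsOrd α) (F : M → M) [Dff fun γ : E0 M × M => F γ.2]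
    (ho : ∀ ξ ∈ α, IsOrd (F ξ)) (h : ∀ ξ ∈ α, ∀ ζ ∈ ξ, F ζ ∈ F ξ) : ∀ ξ ∈ α, ξ ⊆ F ξ := by
  have key : ∀ ξ : M, IsOrd ξ → ξ ∈ α → ξ ⊆ F ξ := by
    refine ord_ind (fun ξ => ξ ∈ α → ξ ⊆ F ξ) fun ξ hξ ih hα' ζ hζ => ?_
    exact (hξ.mem hζ).mem_of_sub_of_mem (ho ξ hα') (ih ζ hζ (hα.trans hζ hα')) (h ξ hα' ζ hζ)
  exact fun ξ hξ => key ξ (hα.mem hξ) hξ

theorem otp_sub {a β : M} (hβ : IsOrd β) (h : a ⊆ β) : otp a ⊆ β := by
  have ha : ∀ x ∈ a, IsOrd x := fun x hx => hβ.mem (h x hx)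
  intro ξ hξ
  have h1 := sub_of_increasing (isOrd_otp ha) (fun ξ => ap (enm a) ξ)
    (fun ξ hξ => ha _ (enm_mem ha hξ))
    (fun ξ hξ ζ hζ => (enm_mem_iff ha hξ ((isOrd_otp ha).trans hζ hξ)).2 hζ) ξ hξ
  exact ((isOrd_otp ha).mem hξ).mem_of_sub_of_mem hβ h1 (h _ (enm_mem ha hξ))

/-- every set of ordinals is order isomorphic to an ordinal -/
theorem exists_enum {a : M} (h : ∀ x ∈ a, IsOrd x) : ∃ α f : M, IsOrd α ∧ Bij f α a ∧
    ∀ ξ ∈ α, ∀ ζ ∈ ξ, ap f ζ ∈ ap f ξ :=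
  ⟨otp a, enm a, isOrd_otp h, bij_enm h, fun ξ hξ ζ hζ =>
    (enm_mem_iff h hξ ((isOrd_otp h).trans hζ hξ)).2 hζ⟩

/-- the next element of a well-ordering -/
noncomputable def otNext (a r f : M) : M :=
  the fun x => (x ∈ a ∧ x ∉ ran f ∧ ∀ y ∈ a, y ∉ ran f → y = x ∨ op x y ∈ r) ∨
    (x = a ∧ ∀ y ∈ a, y ∈ ran f)

instance otNext.dff {f g h : Γ → M} [Dff f] [Dff g] [Dff h] :
    Dff fun γ => otNext (f γ) (g γ) (h γ) := by
  unfold otNext; infer_instance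

/-- enumeration of a well-ordering -/
noncomputable def otEnum (a r ξ : M) : M := erec (fun _ f => otNext a r f) ξ

instance otEnum.dff {f g h : Γ → M} [Dff f] [Dff g] [Dff h] :
    Dff fun γ => otEnum (f γ) (g γ) (h γ) := by
  unfold otEnum; infer_instance

/-- every well-ordered set is isomorphic to an ordinal; `r` is the strict order -/
theorem exists_ordertype {a r : M} (hirr : ∀ x ∈ a, op x x ∉ r)
    (htr : ∀ x ∈ a, ∀ y ∈ a, ∀ z ∈ a, op x y ∈ r → op y z ∈ r → op x z ∈ r)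
    (htot : ∀ x ∈ a, ∀ y ∈ a, op x y ∈ r ∨ x = y ∨ op y x ∈ r)
    (hwf : ∀ b, b ⊆ a → b ≠ ∅ → ∃ x ∈ b, ∀ y ∈ b, op y x ∉ r) :
    ∃ α f : M, IsOrd α ∧ Bij f α a ∧ ∀ ξ ∈ α, ∀ ζ ∈ α, ζ ∈ ξ ↔ op (ap f ζ) (ap f ξ) ∈ r := by
  have heq : ∀ ξ : M, otEnum a r ξ = otNext a r (lam ξ fun ζ => otEnum a r ζ) := fun ξ => by
    unfold otEnum
    rw [erec_eq]
  have hran : ∀ ξ x : M, x ∈ ran (lam ξ fun ζ => otEnum a r ζ) ↔ ∃ ζ ∈ ξ, x = otEnum a r ζ :=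
    fun ξ x => by rw [ran_lam, mem_img]
  have hsp : ∀ ξ : M, (otEnum a r ξ ∈ a ∧ (∀ ζ ∈ ξ, otEnum a r ξ ≠ otEnum a r ζ) ∧
      ∀ y ∈ a, (∀ ζ ∈ ξ, y ≠ otEnum a r ζ) → y = otEnum a r ξ ∨ op (otEnum a r ξ) y ∈ r) ∨
      (otEnum a r ξ = a ∧ ∀ y ∈ a, ∃ ζ ∈ ξ, y = otEnum a r ζ) := by
    intro ξ
    have key : ∃! x, (x ∈ a ∧ x ∉ ran (lam ξ fun ζ => otEnum a r ζ) ∧
        ∀ y ∈ a, y ∉ ran (lam ξ fun ζ => otEnum a r ζ) → y = x ∨ op x y ∈ r) ∨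
        (x = a ∧ ∀ y ∈ a, y ∈ ran (lam ξ fun ζ => otEnum a r ζ)) := by
      by_cases he : ∀ y ∈ a, y ∈ ran (lam ξ fun ζ => otEnum a r ζ)
      · refine ⟨a, Or.inr ⟨rfl, he⟩, ?_⟩
        rintro y (⟨h1, h2, -⟩ | ⟨rfl, -⟩)
        · exact absurd (he y h1) h2
        · rfl
      · push Not at he
        obtain ⟨y₀, hy₀, hy₀'⟩ := he
        obtain ⟨x, hx, hm⟩ := hwf (sep a fun y => y ∉ ran (lam ξ fun ζ => otEnum a r ζ))
          (fun y hy => (mem_sep.1 hy).1) (ne_empty_iff.2 ⟨y₀, mem_sep.2 ⟨hy₀, hy₀'⟩⟩)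
        rw [mem_sep] at hx
        have hx3 : ∀ y ∈ a, y ∉ ran (lam ξ fun ζ => otEnum a r ζ) → y = x ∨ op x y ∈ r := by
          intro y hy hy'
          rcases htot x hx.1 y hy with h | h | h
          · exact Or.inr h
          · exact Or.inl h.symm
          · exact absurd h (hm y (mem_sep.2 ⟨hy, hy'⟩))
        refine ⟨x, Or.inl ⟨hx.1, hx.2, hx3⟩, ?_⟩
        rintro y (⟨h1, h2, h3⟩ | ⟨rfl, h2⟩)
        · rcases hx3 y h1 h2 with h4 | h4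
          · exact h4
          · rcases h3 x hx.1 hx.2 with h5 | h5
            · exact h5.symm
            · exact absurd (htr x hx.1 y h1 x hx.1 h4 h5) (hirr x hx.1)
        · exact absurd (h2 y₀ hy₀) hy₀'
    have h := the_spec key
    have h' : otEnum a r ξ = the fun x => (x ∈ a ∧ x ∉ ran (lam ξ fun ζ => otEnum a r ζ) ∧
        ∀ y ∈ a, y ∉ ran (lam ξ fun ζ => otEnum a r ζ) → y = x ∨ op x y ∈ r) ∨
        (x = a ∧ ∀ y ∈ a, y ∈ ran (lam ξ fun ζ => otEnum a r ζ)) := heq ξ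
    rw [← h'] at h
    simp only [hran] at h
    rcases h with ⟨h1, h2, h3⟩ | h
    · refine Or.inl ⟨h1, fun ζ hζ e => h2 ⟨ζ, hζ, e⟩, fun y hy hy' => h3 y hy ?_⟩
      rintro ⟨ζ, hζ, e⟩
      exact hy' ζ hζ e
    · exact Or.inr h
  have hex : ∃ ξ : M, IsOrd ξ ∧ otEnum a r ξ ∉ a := by
    by_contra hc
    push Not at hc
    have hinj : ∀ ξ ζ : M, IsOrd ξ → IsOrd ζ → otEnum a r ξ = otEnum a r ζ → ξ = ζ := by
      intro ξ ζ hξ hζ e
      rcases hξ.cmp hζ with h | h | h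
      · rcases hsp ζ with h1 | h1
        · exact absurd e.symm (h1.2.1 ξ h)
        · exact absurd (hc ζ hζ) (by rw [h1.1]; exact mem_irrefl a)
      · exact h
      · rcases hsp ξ with h1 | h1
        · exact absurd e (h1.2.1 ζ h)
        · exact absurd (hc ξ hξ) (by rw [h1.1]; exact mem_irrefl a)
    obtain ⟨β, hβ, hb⟩ := exists_ord_above
      (img a fun x => the fun ξ => IsOrd ξ ∧ otEnum a r ξ = x)
    refine mem_irrefl β (hb β ?_ hβ)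
    refine mem_img.2 ⟨otEnum a r β, hc β hβ, (the_eq ⟨hβ, rfl⟩ fun ζ hζ => ?_).symm⟩
    exact hinj ζ β hζ.1 hβ hζ.2
  obtain ⟨ξ₀, hξ₀, hξ₀'⟩ := hex
  obtain ⟨α, hα, hα1, hα2⟩ := exists_min (fun ξ => otEnum a r ξ ∉ a) hξ₀ hξ₀'
  have hα3 : ∀ ξ ∈ α, otEnum a r ξ ∈ a := fun ξ hξ => by simpa using hα2 ξ hξ
  have hlt : ∀ ξ ∈ α, ∀ ζ ∈ ξ, op (otEnum a r ζ) (otEnum a r ξ) ∈ r ∧
      otEnum a r ζ ≠ otEnum a r ξ := by
    intro ξ hξ ζ hζ
    have hζα := hα.trans hζ hξ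
    rcases hsp ξ with h1 | h1
    · rcases hsp ζ with h2 | h2
      · have hne := h1.2.1 ζ hζ
        rcases h2.2.2 (otEnum a r ξ) h1.1 (fun η hη => h1.2.1 η ((hα.mem hξ).trans hη hζ))
          with h3 | h3
        · exact absurd h3 hne
        · exact ⟨h3, hne.symm⟩
      · exact absurd (hα3 ζ hζα) (by rw [h2.1]; exact mem_irrefl a)
    · exact absurd (hα3 ξ hξ) (by rw [h1.1]; exact mem_irrefl a)
  refine ⟨α, lam α fun ξ => otEnum a r ξ, hα, ⟨maps_lam hα3, fun x hx y hy e => ?_, ?_⟩,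
    fun ξ hξ ζ hζ => ?_⟩
  · rw [dom_lam] at hx hy
    rw [ap_lam hx, ap_lam hy] at e
    rcases (hα.mem hx).cmp (hα.mem hy) with h | h | h
    · exact absurd e (hlt y hy x h).2
    · exact h
    · exact absurd e.symm (hlt x hx y h).2
  · rw [ran_lam]
    refine Sub.antisymm (fun y hy => ?_) fun y hy => ?_
    · obtain ⟨ξ, hξ, rfl⟩ := mem_img.1 hy
      exact hα3 ξ hξ
    · rcases hsp α with h1 | h1
      · exact absurd h1.1 hα1
      · obtain ⟨ζ, hζ, e⟩ := h1.2 y hy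
        exact mem_img.2 ⟨ζ, hζ, e⟩
  · rw [ap_lam hξ, ap_lam hζ]
    refine ⟨fun h => (hlt ξ hξ ζ h).1, fun h => ?_⟩
    rcases (hα.mem hζ).cmp (hα.mem hξ) with h1 | h1 | h1
    · exact h1
    · rw [h1] at h
      exact absurd h (hirr _ (hα3 ξ hξ))
    · exact absurd (htr _ (hα3 ξ hξ) _ (hα3 ζ hζ) _ (hα3 ξ hξ) (hlt ζ hζ ξ h1).1 h)
        (hirr _ (hα3 ξ hξ))

end

end Pool.Agent.IST
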