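import Pool.Agent.IST.FmlU

/-!
# Definability over a model of set theory by instance search
-/

set_option synthInstance.maxSize 100000

namespace Pool.Agent.IST

open Pool.Agent.BVM

/-- a model of ZFC with a class predicate -/
class SetModel (M : Type) where
  /-- membership -/
  E : M → M → Prop
  /-- a class -/
  U : M → Prop
  /-- the axioms -/
  zfc : ZFCU E U

/-- rename variables -/
def rn : (ℕ → ℕ) → FmlU → FmlU
  | f, .mem i j => .mem (f i) (f j)
  | f, .eq i j => .eq (f i) (f j)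
  | f, .cl i => .cl (f i)
  | f, .neg a => .neg (rn f a)
  | f, .and a b => .and (rn f a) (rn f b)
  | f, .or a b => .or (rn f a) (rn f b)
  | f, .imp a b => .imp (rn f a) (rn f b)
  | f, .iff a b => .iff (rn f a) (rn f b)
  | f, .all a => .all (rn (fun i => Nat.casesOn i 0 fun k => f k + 1) a)
  | f, .ex a => .ex (rn (fun i => Nat.casesOn i 0 fun k => f k + 1) a)

theorem cons_lift {M : Type*} (x : M) (v : ℕ → M) (f : ℕ → ℕ) :
    (fun i => cons x v (Nat.casesOn i 0 fun k => f k + 1)) = cons x fun i => v (f i) := by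
  funext i
  cases i <;> rfl

theorem sat_rn {M : Type*} (E : M → M → Prop) (U : M → Prop) (f : ℕ → ℕ) (φ : FmlU) (v : ℕ → M) :
    SatU E U (rn f φ) v ↔ SatU E U φ fun i => v (f i) := by
  induction φ generalizing f v with
  | mem i j => rfl
  | eq i j => rfl
  | cl i => rfl
  | neg a ih => simp only [rn, SatU, ih]
  | and a b iha ihb => simp only [rn, SatU, iha, ihb]
  | or a b iha ihb => simp only [rn, SatU, iha, ihb]
  | imp a b iha ihb => simp only [rn, SatU, iha, ihb]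
  | iff a b iha ihb => simp only [rn, SatU, iha, ihb]
  | all a ih => simp only [rn, SatU, ih, cons_lift]
  | ex a ih => simp only [rn, SatU, ih, cons_lift]

/-- the empty context -/
structure E0 (M : Type) : Type where

/-- contexts: lists of variables; `simple f` says that `f` is a coordinate or constant -/
class IsCtx (Γ : Type) (M : outParam Type) where
  /-- coordinates and constants -/
  simple : (Γ → M) → Prop
  /-- constants are simple -/
  const : ∀ c, simple fun _ => c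

instance (M : Type) : IsCtx (E0 M) M := ⟨fun _ => True, fun _ => trivial⟩

instance (Γ M : Type) [c : IsCtx Γ M] : IsCtx (Γ × M) M :=
  ⟨fun f => (∃ g, c.simple g ∧ f = fun γ => g γ.1) ∨ f = Prod.snd,
    fun a => Or.inl ⟨fun _ => a, c.const a, rfl⟩⟩

/-- definable predicates (with parameters) on a context -/
class Dfp {M : Type} [SetModel M] {Γ : Type} [IsCtx Γ M] (P : Γ → Prop) : Prop where
  out : ∃ (φ : FmlU) (s : ℕ → Γ → M), (∀ i, IsCtx.simple (s i)) ∧
    ∀ γ, P γ ↔ SatU (SetModel.E : M → M → Prop) SetModel.U φ fun i => s i γ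

/-- definable functions (with parameters) on a context -/
class Dff {M : Type} [SetModel M] {Γ : Type} [IsCtx Γ M] (F : Γ → M) : Prop where
  out : Dfp fun γ : Γ × M => γ.2 = F γ.1

/-- projections of contexts -/
class Cor {M : Type} [SetModel M] {Γ Δ : Type} [IsCtx Γ M] [IsCtx Δ M] (g : Γ → Δ) : Prop where
  out : ∀ f : Δ → M, IsCtx.simple f → IsCtx.simple fun γ => f (g γ)

section

variable {M : Type} [SetModel M] {Γ : Type} [IsCtx Γ M]

instance : Membership M M := ⟨fun a b => SetModel.E b a⟩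

theorem mem_def (x y : M) : x ∈ y ↔ SetModel.E x y := Iff.rfl

theorem nonempty_model : Nonempty M := by
  obtain ⟨x, -⟩ := (SetModel.zfc (M := M)).infinity
  exact ⟨x⟩

theorem Dfp.congr {P Q : Γ → Prop} [h : Dfp P] (h' : ∀ γ, Q γ ↔ P γ) : Dfp Q := by
  obtain ⟨φ, s, hs, hP⟩ := h.out
  exact ⟨φ, s, hs, fun γ => (h' γ).trans (hP γ)⟩

/-- merging two environments -/
def mrg {α : Type} (s t : ℕ → α) : ℕ → α := fun i => if i % 2 = 0 then s (i / 2) else t (i / 2)

theorem mrg_even {α : Type} (s t : ℕ → α) (i : ℕ) : mrg s t (2 * i) = s i := by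
  simp [mrg]

theorem mrg_odd {α : Type} (s t : ℕ → α) (i : ℕ) : mrg s t (2 * i + 1) = t i := by
  have h1 : (2 * i + 1) % 2 = 1 := by omega
  have h2 : (2 * i + 1) / 2 = i := by omega
  simp [mrg, h1, h2]

theorem Dfp.bin {P Q : Γ → Prop} [hP : Dfp P] [hQ : Dfp Q] (c : FmlU → FmlU → FmlU) (C : Prop → Prop → Prop)
    (hc : ∀ a b (v : ℕ → M), SatU SetModel.E SetModel.U (c a b) v ↔
      C (SatU SetModel.E SetModel.U a v) (SatU SetModel.E SetModel.U b v)) :
    Dfp fun γ => C (P γ) (Q γ) := by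
  obtain ⟨φ, s, hs, hP⟩ := hP.out
  obtain ⟨ψ, t, ht, hQ⟩ := hQ.out
  refine ⟨c (rn (fun i => 2 * i) φ) (rn (fun i => 2 * i + 1) ψ), mrg s t, fun i => ?_,
    fun γ => ?_⟩
  · unfold mrg
    split_ifs
    · exact hs _
    · exact ht _
  · simp only [hc, sat_rn, mrg_even, mrg_odd]
    rw [propext (hP γ), propext (hQ γ)]

instance (priority := 2000) Dfp.and {P Q : Γ → Prop} [Dfp P] [Dfp Q] : Dfp fun γ => P γ ∧ Q γ :=
  Dfp.bin .and And fun _ _ _ => Iff.rfl

instance (priority := 2000) Dfp.or {P Q : Γ → Prop} [Dfp P] [Dfp Q] : Dfp fun γ => P γ ∨ Q γ :=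
  Dfp.bin .or Or fun _ _ _ => Iff.rfl

instance (priority := 2000) Dfp.imp {P Q : Γ → Prop} [Dfp P] [Dfp Q] : Dfp fun γ => P γ → Q γ :=
  Dfp.bin .imp (fun a b => a → b) fun _ _ _ => Iff.rfl

instance (priority := 2000) Dfp.iff {P Q : Γ → Prop} [Dfp P] [Dfp Q] : Dfp fun γ => P γ ↔ Q γ :=
  Dfp.bin .iff Iff fun _ _ _ => Iff.rfl

instance (priority := 2000) Dfp.not {P : Γ → Prop} [h : Dfp P] : Dfp fun γ => ¬ P γ := by
  obtain ⟨φ, s, hs, hP⟩ := h.out
  refine ⟨.neg φ, s, hs, fun γ => ?_⟩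
  simp only [SatU]
  rw [hP γ]

theorem Dfp.quant {P : Γ → M → Prop} [h : Dfp fun γ : Γ × M => P γ.1 γ.2] (c : FmlU → FmlU)
    (C : (M → Prop) → Prop)
    (hc : ∀ a (v : ℕ → M), SatU SetModel.E SetModel.U (c a) v ↔
      C fun x => SatU SetModel.E SetModel.U a (cons x v)) :
    Dfp fun γ => C fun x => P γ x := by
  classical
  obtain ⟨φ, s, hs, hP⟩ := h.out
  obtain ⟨d⟩ := nonempty_model (M := M)
  have hs' : ∀ i, ∃ g : Γ → M, IsCtx.simple g ∧ (s i = Prod.snd ∨ s i = fun γ => g γ.1) := by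
    intro i
    rcases hs i with ⟨g, hg, h⟩ | h
    · exact ⟨g, hg, Or.inr h⟩
    · exact ⟨_, IsCtx.const d, Or.inl h⟩
  choose g hg hg' using hs'
  refine ⟨c (rn (fun i => if s i = Prod.snd then 0 else i + 1) φ), g, hg, fun γ => ?_⟩
  rw [hc]
  simp only [sat_rn]
  have key : (fun x => P γ x) = fun x => SatU SetModel.E SetModel.U φ fun i =>
      cons x (fun i => g i γ) (if s i = Prod.snd then 0 else i + 1) := by
    funext x
    refine propext ((hP (γ, x)).trans (iff_of_eq ?_))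
    congr 1
    funext i
    by_cases h : s i = Prod.snd
    · rw [if_pos h, h]; rfl
    · rw [if_neg h]
      rcases hg' i with h1 | h1
      · exact absurd h1 h
      · rw [h1]; rfl
  rw [key]

instance (priority := 2000) Dfp.all {P : Γ → M → Prop} [Dfp fun γ : Γ × M => P γ.1 γ.2] : Dfp fun γ => ∀ x, P γ x :=
  Dfp.quant .all (fun p => ∀ x, p x) fun _ _ => Iff.rfl

instance (priority := 2000) Dfp.ex {P : Γ → M → Prop} [Dfp fun γ : Γ × M => P γ.1 γ.2] : Dfp fun γ => ∃ x, P γ x :=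
  Dfp.quant .ex (fun p => ∃ x, p x) fun _ _ => Iff.rfl

instance (priority := 2000) Cor.id : Cor fun γ : Γ => γ := ⟨fun _ h => h⟩

instance (priority := 2000) Cor.fst {Δ : Type} [IsCtx Δ M] {g : Γ → Δ × M} [h : Cor g] : Cor fun γ => (g γ).1 :=
  ⟨fun f hf => h.out (fun δ => f δ.1) (Or.inl ⟨f, hf, rfl⟩)⟩

theorem Cor.fst' : Cor (Prod.fst : Γ × M → Γ) := ⟨fun f hf => Or.inl ⟨f, hf, rfl⟩⟩

instance (priority := 500) Dfp.comp {Δ : Type} [IsCtx Δ M] {g : Γ → Δ} [hg : Cor g] {P : Δ → Prop} [h : Dfp P] :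
    Dfp fun γ => P (g γ) := by
  obtain ⟨φ, s, hs, hP⟩ := h.out
  exact ⟨φ, fun i γ => s i (g γ), fun i => hg.out _ (hs i), fun γ => hP (g γ)⟩

theorem Cor.prod {Δ : Type} [IsCtx Δ M] {g : Γ → Δ} [hg : Cor g] :
    Cor fun γ : Γ × M => ((g γ.1, γ.2) : Δ × M) := by
  refine ⟨fun f hf => ?_⟩
  rcases hf with ⟨f', hf', rfl⟩ | rfl
  · exact Or.inl ⟨_, hg.out _ hf', rfl⟩
  · exact Or.inr rfl

instance (priority := 1500) Dff.comp {Δ : Type} [IsCtx Δ M] {g : Γ → Δ} [hg : Cor g] {F : Δ → M} [h : Dff F] :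
    Dff fun γ => F (g γ) := by
  have := h.out
  have h2 : Cor fun γ : Γ × M => ((g γ.1, γ.2) : Δ × M) := Cor.prod
  exact ⟨Dfp.comp (g := fun γ : Γ × M => ((g γ.1, γ.2) : Δ × M))
    (P := fun δ : Δ × M => δ.2 = F δ.1)⟩

theorem Dfp.eq_simple {f g : Γ → M} (hf : IsCtx.simple f) (hg : IsCtx.simple g) :
    Dfp fun γ => f γ = g γ := by
  refine ⟨.eq 0 1, fun i => if i = 0 then f else g, fun i => ?_, fun γ => ?_⟩
  · dsimp only
    split_ifs
    · exact hf
    · exact hg
  · simp [SatU]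

theorem Dfp.cl_simple {f : Γ → M} (hf : IsCtx.simple f) : Dfp fun γ => SetModel.U (f γ) :=
  ⟨.cl 0, fun _ => f, fun _ => hf, fun _ => Iff.rfl⟩

theorem Dfp.mem_simple {f g : Γ → M} (hf : IsCtx.simple f) (hg : IsCtx.simple g) :
    Dfp fun γ => f γ ∈ g γ := by
  refine ⟨.mem 0 1, fun i => if i = 0 then f else g, fun i => ?_, fun γ => ?_⟩
  · dsimp only
    split_ifs
    · exact hf
    · exact hg
  · simp [SatU, mem_def]

omit [SetModel M] in
theorem simple_snd : IsCtx.simple (Prod.snd : Γ × M → M) := Or.inr rfl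

omit [SetModel M] in
theorem simple_fst {f : Γ → M} (h : IsCtx.simple f) : IsCtx.simple (fun γ : Γ × M => f γ.1) :=
  Or.inl ⟨f, h, rfl⟩

theorem Dff.of_simple {f : Γ → M} (h : IsCtx.simple f) : Dff f :=
  ⟨Dfp.eq_simple simple_snd (simple_fst h)⟩

instance (priority := 2000) Dff.const (c : M) : Dff fun _ : Γ => c := Dff.of_simple (IsCtx.const c)

instance (priority := 2000) Dff.snd {Δ : Type} [IsCtx Δ M] {g : Γ → Δ × M} [h : Cor g] : Dff fun γ => (g γ).2 :=
  Dff.of_simple (h.out _ simple_snd)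

theorem Dfp.sub2 {R : M → M → Prop} (hR : Dfp fun γ : (Γ × M) × M => R γ.1.2 γ.2)
    {f g : Γ → M} [hf : Dff f] [hg : Dff g] : Dfp fun γ => R (f γ) (g γ) := by
  have h1 := hf.out
  have h2 := hg.out
  have h3 : Dfp fun γ : (Γ × M) × M => γ.2 = g γ.1.1 := 
    Dfp.comp (g := fun γ : (Γ × M) × M => ((γ.1.1, γ.2) : Γ × M)) (hg := ⟨by
      rintro f (⟨f', hf', rfl⟩ | rfl)
      · exact simple_fst (simple_fst hf')
      · exact simple_snd⟩) (P := fun δ : Γ × M => δ.2 = g δ.1)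
  have h4 : Dfp fun γ : (Γ × M) × M => γ.1.2 = f γ.1.1 :=
    Dfp.comp (g := fun γ : (Γ × M) × M => γ.1) (P := fun δ : Γ × M => δ.2 = f δ.1)
  have h5 : Dfp fun γ => ∃ x, ∃ y, x = f γ ∧ y = g γ ∧ R x y := Dfp.ex
  exact h5.congr fun γ => by simp

instance (priority := 2000) Dfp.mem {f g : Γ → M} [Dff f] [Dff g] : Dfp fun γ => f γ ∈ g γ :=
  Dfp.sub2 (R := fun x y => x ∈ y) (Dfp.mem_simple (simple_fst simple_snd) simple_snd)

instance (priority := 2000) Dfp.eq {f g : Γ → M} [Dff f] [Dff g] : Dfp fun γ => f γ = g γ :=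
  Dfp.sub2 (R := fun x y => x = y) (Dfp.eq_simple (simple_fst simple_snd) simple_snd)

instance Dfp.true : Dfp fun _ : Γ => True := by
  obtain ⟨d⟩ := nonempty_model (M := M)
  exact Dfp.congr (P := fun _ : Γ => d = d) (fun _ => by simp)

instance Dfp.false : Dfp fun _ : Γ => False :=
  Dfp.congr (P := fun _ : Γ => ¬ True) (fun _ => by simp)

/-- composition with a definable function -/
theorem Dfp.sub1 {P : M → Prop} (hP : Dfp fun γ : Γ × M => P γ.2)
    {f : Γ → M} [hf : Dff f] : Dfp fun γ => P (f γ) := by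
  have h1 := hf.out
  have h5 : Dfp fun γ => ∃ x, x = f γ ∧ P x := Dfp.ex
  exact h5.congr fun γ => by simp

/-- the class predicate -/
instance Dfp.cl {f : Γ → M} [Dff f] : Dfp fun γ => SetModel.U (f γ) :=
  Dfp.sub1 (P := fun x => SetModel.U x) (Dfp.cl_simple simple_snd)

end

end Pool.Agent.IST
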