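import Pool.Agent.BVM.Fml

/-!
# Formulas of set theory with one extra unary class predicate
-/

namespace Pool.Agent.IST

open Pool.Agent.BVM

/-- formulas of the language of set theory with a class predicate; de Bruijn indices -/
inductive FmlU : Type
  | mem (i j : ℕ)
  | eq (i j : ℕ)
  | cl (i : ℕ)
  | neg (a : FmlU)
  | and (a b : FmlU)
  | or (a b : FmlU)
  | imp (a b : FmlU)
  | iff (a b : FmlU)
  | all (a : FmlU)
  | ex (a : FmlU)

/-- satisfaction in a structure `(M, E, U)` -/
def SatU {M : Type*} (E : M → M → Prop) (U : M → Prop) : FmlU → (ℕ → M) → Prop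
  | .mem i j, v => E (v i) (v j)
  | .eq i j, v => v i = v j
  | .cl i, v => U (v i)
  | .neg a, v => ¬ SatU E U a v
  | .and a b, v => SatU E U a v ∧ SatU E U b v
  | .or a b, v => SatU E U a v ∨ SatU E U b v
  | .imp a b, v => SatU E U a v → SatU E U b v
  | .iff a b, v => (SatU E U a v ↔ SatU E U b v)
  | .all a, v => ∀ x, SatU E U a (cons x v)
  | .ex a, v => ∃ x, SatU E U a (cons x v)

/-- `(M, E, U)` is a model of ZFC in the language with the class predicate -/
structure ZFCU {M : Type*} (E : M → M → Prop) (U : M → Prop) : Prop where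
  /-- extensionality -/
  ext : ∀ x y, (∀ z, E z x ↔ E z y) → x = y
  /-- foundation -/
  found : ∀ x, (∃ y, E y x) → ∃ y, E y x ∧ ∀ z, E z y → ¬ E z x
  /-- pairing -/
  pair : ∀ x y, ∃ z, ∀ t, E t z ↔ (t = x ∨ t = y)
  /-- union -/
  union : ∀ x, ∃ u, ∀ t, E t u ↔ ∃ y, E y x ∧ E t y
  /-- power set -/
  power : ∀ x, ∃ p, ∀ t, E t p ↔ ∀ z, E z t → E z x
  /-- infinity -/
  infinity : ∃ x, (∃ e, E e x ∧ ∀ z, ¬ E z e) ∧ ∀ y, E y x → ∃ s, E s x ∧ ∀ z, E z s ↔
    (E z y ∨ z = y)
  /-- separation, for formulas with parameters -/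
  sep : ∀ (φ : FmlU) (v : ℕ → M) (x : M), ∃ y, ∀ z, E z y ↔ (E z x ∧ SatU E U φ (cons z v))
  /-- replacement, for formulas with parameters -/
  repl : ∀ (φ : FmlU) (v : ℕ → M) (x : M),
    (∀ a, E a x → ∃! b, SatU E U φ (cons b (cons a v))) →
    ∃ y, ∀ b, E b y ↔ ∃ a, E a x ∧ SatU E U φ (cons b (cons a v))
  /-- choice: every family of nonempty disjoint sets has a transversal -/
  choice : ∀ x, (∀ y, E y x → ∃ z, E z y) →
    (∀ y y' z, E y x → E y' x → E z y → E z y' → y = y') →
    ∃ c, ∀ y, E y x → ∃! z, E z y ∧ E z c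

/-- formulas without the class predicate -/
def upU : Fml → FmlU
  | .mem i j => .mem i j
  | .eq i j => .eq i j
  | .neg a => .neg (upU a)
  | .and a b => .and (upU a) (upU b)
  | .or a b => .or (upU a) (upU b)
  | .imp a b => .imp (upU a) (upU b)
  | .iff a b => .iff (upU a) (upU b)
  | .all a => .all (upU a)
  | .ex a => .ex (upU a)

theorem satU_upU {M : Type*} (E : M → M → Prop) (U : M → Prop) (φ : Fml) (v : ℕ → M) :
    SatU E U (upU φ) v ↔ Sat E φ v := by
  induction φ generalizing v with
  | mem i j => rfl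
  | eq i j => rfl
  | neg a ih => simp only [upU, SatU, Sat, ih]
  | and a b iha ihb => simp only [upU, SatU, Sat, iha, ihb]
  | or a b iha ihb => simp only [upU, SatU, Sat, iha, ihb]
  | imp a b iha ihb => simp only [upU, SatU, Sat, iha, ihb]
  | iff a b iha ihb => simp only [upU, SatU, Sat, iha, ihb]
  | all a ih => simp only [upU, SatU, Sat, ih]
  | ex a ih => simp only [upU, SatU, Sat, ih]

/-- interpret the class predicate as empty -/
def dnU : FmlU → Fml
  | .mem i j => .mem i j
  | .eq i j => .eq i j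
  | .cl i => .neg (.eq i i)
  | .neg a => .neg (dnU a)
  | .and a b => .and (dnU a) (dnU b)
  | .or a b => .or (dnU a) (dnU b)
  | .imp a b => .imp (dnU a) (dnU b)
  | .iff a b => .iff (dnU a) (dnU b)
  | .all a => .all (dnU a)
  | .ex a => .ex (dnU a)

theorem sat_dnU {M : Type*} (E : M → M → Prop) (φ : FmlU) (v : ℕ → M) :
    Sat E (dnU φ) v ↔ SatU E (fun _ => False) φ v := by
  induction φ generalizing v with
  | mem i j => rfl
  | eq i j => rfl
  | cl i => simp [dnU, SatU, Sat]
  | neg a ih => simp only [dnU, SatU, Sat, ih]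
  | and a b iha ihb => simp only [dnU, SatU, Sat, iha, ihb]
  | or a b iha ihb => simp only [dnU, SatU, Sat, iha, ihb]
  | imp a b iha ihb => simp only [dnU, SatU, Sat, iha, ihb]
  | iff a b iha ihb => simp only [dnU, SatU, Sat, iha, ihb]
  | all a ih => simp only [dnU, SatU, Sat, ih]
  | ex a ih => simp only [dnU, SatU, Sat, ih]

theorem ZFCU.zfc {M : Type*} {E : M → M → Prop} {U : M → Prop} (h : ZFCU E U) : ZFC E where
  ext := h.ext
  found := h.found
  pair := h.pair
  union := h.union
  power := h.power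
  infinity := h.infinity
  sep φ v x := by simpa only [satU_upU] using h.sep (upU φ) v x
  repl φ v x hx := by
    have := h.repl (upU φ) v x (by simpa only [satU_upU] using hx)
    simpa only [satU_upU] using this
  choice := h.choice

theorem _root_.Pool.Agent.BVM.ZFC.zfcU {M : Type*} {E : M → M → Prop} (h : ZFC E) :
    ZFCU E fun _ => False where
  ext := h.ext
  found := h.found
  pair := h.pair
  union := h.union
  power := h.power
  infinity := h.infinity
  sep φ v x := by simpa only [sat_dnU] using h.sep (dnU φ) v x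
  repl φ v x hx := by
    have := h.repl (dnU φ) v x (by simpa only [sat_dnU] using hx)
    simpa only [sat_dnU] using this
  choice := h.choice

end Pool.Agent.IST
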