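import Pool.Agent.IST.Basic

/-!
# Relations and functions in a model of ZFC
-/

set_option synthInstance.maxSize 100000

namespace Pool.Agent.IST

open Pool.Agent.BVM

section

variable {M : Type} [SetModel M] {Γ : Type} [IsCtx Γ M]

/-- `f` is a set of ordered pairs -/
def IsRel (f : M) : Prop := ∀ p ∈ f, ∃ x y, p = op x y

instance IsRel.dfp {f : Γ → M} [Dff f] : Dfp fun γ => IsRel (f γ) := by
  unfold IsRel; infer_instance

/-- domain -/
noncomputable def dom (f : M) : M := sep (bigU (bigU f)) fun x => ∃ y, op x y ∈ f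

theorem mem_bigU_bigU_left {f x y : M} (h : op x y ∈ f) : x ∈ bigU (bigU f) := by
  refine mem_bigU.2 ⟨sing x, mem_bigU.2 ⟨_, h, mem_op.2 (Or.inl rfl)⟩, mem_sing.2 rfl⟩

theorem mem_bigU_bigU_right {f x y : M} (h : op x y ∈ f) : y ∈ bigU (bigU f) := by
  refine mem_bigU.2 ⟨upair x y, mem_bigU.2 ⟨_, h, mem_op.2 (Or.inr rfl)⟩,
    mem_upair.2 (Or.inr rfl)⟩

theorem mem_dom {f x : M} : x ∈ dom f ↔ ∃ y, op x y ∈ f := by
  unfold dom
  rw [mem_sep]
  exact ⟨fun h => h.2, fun h => ⟨mem_bigU_bigU_left h.choose_spec, h⟩⟩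

instance dom.dff {f : Γ → M} [Dff f] : Dff fun γ => dom (f γ) := by
  unfold dom; infer_instance

/-- range -/
noncomputable def ran (f : M) : M := sep (bigU (bigU f)) fun y => ∃ x, op x y ∈ f

theorem mem_ran {f y : M} : y ∈ ran f ↔ ∃ x, op x y ∈ f := by
  unfold ran
  rw [mem_sep]
  exact ⟨fun h => h.2, fun h => ⟨mem_bigU_bigU_right h.choose_spec, h⟩⟩

instance ran.dff {f : Γ → M} [Dff f] : Dff fun γ => ran (f γ) := by
  unfold ran; infer_instance

/-- `f` is a function -/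
def IsFun (f : M) : Prop := IsRel f ∧ ∀ x y y', op x y ∈ f → op x y' ∈ f → y = y'

instance IsFun.dfp {f : Γ → M} [Dff f] : Dfp fun γ => IsFun (f γ) := by
  unfold IsFun; infer_instance

/-- value of a function -/
noncomputable def ap (f x : M) : M := the fun y => op x y ∈ f

instance ap.dff {f g : Γ → M} [Dff f] [Dff g] : Dff fun γ => ap (f γ) (g γ) := by
  unfold ap; infer_instance

theorem IsFun.ap_eq {f x y : M} (hf : IsFun f) (h : op x y ∈ f) : ap f x = y :=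
  the_eq h fun _ h' => hf.2 _ _ _ h' h

theorem IsFun.op_ap_mem {f x : M} (hf : IsFun f) (h : x ∈ dom f) : op x (ap f x) ∈ f := by
  obtain ⟨y, hy⟩ := mem_dom.1 h
  rw [hf.ap_eq hy]
  exact hy

theorem IsFun.mem_iff {f p : M} (hf : IsFun f) : p ∈ f ↔ ∃ x ∈ dom f, p = op x (ap f x) := by
  constructor
  · intro h
    obtain ⟨x, y, rfl⟩ := hf.1 p h
    exact ⟨x, mem_dom.2 ⟨y, h⟩, by rw [hf.ap_eq h]⟩
  · rintro ⟨x, hx, rfl⟩
    exact hf.op_ap_mem hx

theorem IsFun.op_mem_iff {f x y : M} (hf : IsFun f) : op x y ∈ f ↔ x ∈ dom f ∧ ap f x = y :=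
  ⟨fun h => ⟨mem_dom.2 ⟨y, h⟩, hf.ap_eq h⟩, fun ⟨h, h'⟩ => h' ▸ hf.op_ap_mem h⟩

theorem IsFun.ext {f g : M} (hf : IsFun f) (hg : IsFun g) (h : dom f = dom g)
    (h' : ∀ x ∈ dom f, ap f x = ap g x) : f = g := by
  apply IST.ext
  intro p
  rw [hf.mem_iff, hg.mem_iff, ← h]
  refine exists_congr fun x => and_congr_right fun hx => ?_
  rw [h' x hx]

theorem IsFun.mem_ran_iff {f y : M} (hf : IsFun f) : y ∈ ran f ↔ ∃ x ∈ dom f, y = ap f x := by
  rw [mem_ran]
  refine exists_congr fun x => ?_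
  rw [hf.op_mem_iff, eq_comm (a := y)]

theorem IsFun.ap_mem_ran {f x : M} (hf : IsFun f) (h : x ∈ dom f) : ap f x ∈ ran f :=
  hf.mem_ran_iff.2 ⟨x, h, rfl⟩

theorem ap_of_notMem {f x : M} (h : x ∉ dom f) : ap f x = ∅ := by
  unfold ap the
  rw [dif_neg]
  rintro ⟨y, hy, -⟩
  exact h (mem_dom.2 ⟨y, hy⟩)

/-- the function `x ↦ F x` on the set `a` -/
noncomputable def lam (a : M) (F : M → M) : M := img a fun x => op x (F x)

instance lam.dff {f : Γ → M} {F : Γ → M → M} [hf : Dff f]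
    [h : Dff fun γ : Γ × M => F γ.1 γ.2] : Dff fun γ => lam (f γ) (F γ) := by
  unfold lam; infer_instance

theorem mem_lam {a p : M} {F : M → M} [h : Dff fun γ : E0 M × M => F γ.2] :
    p ∈ lam a F ↔ ∃ x ∈ a, p = op x (F x) := by
  unfold lam
  rw [mem_img]

theorem op_mem_lam {a x y : M} {F : M → M} [h : Dff fun γ : E0 M × M => F γ.2] :
    op x y ∈ lam a F ↔ x ∈ a ∧ y = F x := by
  rw [mem_lam]
  constructor
  · rintro ⟨x', hx, h⟩
    obtain ⟨rfl, rfl⟩ := op_inj.1 h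
    exact ⟨hx, rfl⟩
  · rintro ⟨hx, rfl⟩
    exact ⟨x, hx, rfl⟩

theorem isFun_lam {a : M} {F : M → M} [h : Dff fun γ : E0 M × M => F γ.2] : IsFun (lam a F) := by
  constructor
  · intro p hp
    obtain ⟨x, -, rfl⟩ := mem_lam.1 hp
    exact ⟨x, _, rfl⟩
  · intro x y y' h1 h2
    rw [(op_mem_lam.1 h1).2, (op_mem_lam.1 h2).2]

@[simp] theorem dom_lam {a : M} {F : M → M} [h : Dff fun γ : E0 M × M => F γ.2] :
    dom (lam a F) = a := by
  apply ext
  intro x
  rw [mem_dom]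
  simp only [op_mem_lam]
  simp

theorem ap_lam {a x : M} {F : M → M} [h : Dff fun γ : E0 M × M => F γ.2] (hx : x ∈ a) :
    ap (lam a F) x = F x := isFun_lam.ap_eq (op_mem_lam.2 ⟨hx, rfl⟩)

theorem ran_lam {a : M} {F : M → M} [h : Dff fun γ : E0 M × M => F γ.2] :
    ran (lam a F) = img a F := by
  apply ext
  intro y
  rw [mem_ran, mem_img]
  simp only [op_mem_lam]

theorem IsFun.eq_lam {f : M} (hf : IsFun f) : f = lam (dom f) fun x => ap f x :=
  hf.ext isFun_lam dom_lam.symm fun x hx => (ap_lam hx).symm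

theorem lam_congr {a : M} {F G : M → M} [h : Dff fun γ : E0 M × M => F γ.2]
    [h : Dff fun γ : E0 M × M => G γ.2] (h : ∀ x ∈ a, F x = G x) : lam a F = lam a G :=
  isFun_lam.ext isFun_lam (by simp) fun x hx => by
    rw [dom_lam] at hx
    rw [ap_lam hx, ap_lam hx, h x hx]

/-- `f` is a function from `a` to `b` -/
def Maps (f a b : M) : Prop := IsFun f ∧ dom f = a ∧ ∀ x ∈ a, ap f x ∈ b

instance Maps.dfp {f g h : Γ → M} [Dff f] [Dff g] [Dff h] :
    Dfp fun γ => Maps (f γ) (g γ) (h γ) := by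
  unfold Maps; infer_instance

theorem Maps.isFun {f a b : M} (h : Maps f a b) : IsFun f := h.1

theorem Maps.dom_eq {f a b : M} (h : Maps f a b) : dom f = a := h.2.1

theorem Maps.ap_mem {f a b x : M} (h : Maps f a b) (hx : x ∈ a) : ap f x ∈ b := h.2.2 x hx

theorem Maps.ext {f g a b c : M} (h : Maps f a b) (h' : Maps g a c)
    (e : ∀ x ∈ a, ap f x = ap g x) : f = g :=
  h.1.ext h'.1 (h.2.1.trans h'.2.1.symm) fun x hx => e x (h.2.1 ▸ hx)

theorem Maps.ran_sub {f a b : M} (h : Maps f a b) : ran f ⊆ b := fun y hy => by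
  obtain ⟨x, hx, rfl⟩ := h.1.mem_ran_iff.1 hy
  exact h.ap_mem (h.dom_eq ▸ hx)

theorem maps_lam {a b : M} {F : M → M} [Dff fun γ : E0 M × M => F γ.2] (h : ∀ x ∈ a, F x ∈ b) :
    Maps (lam a F) a b :=
  ⟨isFun_lam, dom_lam, fun x hx => by rw [ap_lam hx]; exact h x hx⟩

theorem Maps.sub_prod {f a b : M} (h : Maps f a b) : f ⊆ prod a b := fun p hp => by
  obtain ⟨x, hx, rfl⟩ := h.1.mem_iff.1 hp
  rw [h.dom_eq] at hx
  exact op_mem_prod.2 ⟨hx, h.ap_mem hx⟩

/-- the set of all functions from `a` to `b` -/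
noncomputable def fns (a b : M) : M := sep (pw (prod a b)) fun f => Maps f a b

@[simp] theorem mem_fns {f a b : M} : f ∈ fns a b ↔ Maps f a b := by
  unfold fns
  rw [mem_sep, mem_pw]
  exact ⟨fun h => h.2, fun h => ⟨h.sub_prod, h⟩⟩

instance fns.dff {f g : Γ → M} [Dff f] [Dff g] : Dff fun γ => fns (f γ) (g γ) := by
  unfold fns; infer_instance

/-- injectivity -/
def Inj (f : M) : Prop := ∀ x ∈ dom f, ∀ y ∈ dom f, ap f x = ap f y → x = y

instance Inj.dfp {f : Γ → M} [Dff f] : Dfp fun γ => Inj (f γ) := by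
  unfold Inj; infer_instance

/-- `f` is a bijection from `a` to `b` -/
def Bij (f a b : M) : Prop := Maps f a b ∧ Inj f ∧ ran f = b

instance Bij.dfp {f g h : Γ → M} [Dff f] [Dff g] [Dff h] :
    Dfp fun γ => Bij (f γ) (g γ) (h γ) := by
  unfold Bij; infer_instance

/-- restriction -/
noncomputable def res (f a : M) : M := sep f fun p => ∃ x ∈ a, ∃ y, p = op x y

instance res.dff {f g : Γ → M} [Dff f] [Dff g] : Dff fun γ => res (f γ) (g γ) := by
  unfold res; infer_instance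

theorem op_mem_res {f a x y : M} : op x y ∈ res f a ↔ op x y ∈ f ∧ x ∈ a := by
  unfold res
  rw [mem_sep]
  refine and_congr_right fun _ => ⟨?_, fun h => ⟨x, h, y, rfl⟩⟩
  rintro ⟨x', hx, y', h⟩
  obtain ⟨rfl, rfl⟩ := op_inj.1 h
  exact hx

theorem res_sub {f a : M} : res f a ⊆ f := fun _ h => (mem_sep.1 h).1

theorem IsFun.mono {f g : M} (hf : IsFun f) (h : g ⊆ f) : IsFun g :=
  ⟨fun p hp => hf.1 p (h p hp), fun x y y' h1 h2 => hf.2 x y y' (h _ h1) (h _ h2)⟩

theorem IsFun.res {f a : M} (hf : IsFun f) : IsFun (res f a) := hf.mono res_sub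

theorem dom_res {f a : M} : dom (res f a) = dom f ∩ a := by
  apply ext
  intro x
  rw [mem_dom, mem_inter, mem_dom]
  simp only [op_mem_res]
  simp

theorem IsFun.ap_res {f a x : M} (hf : IsFun f) (hx : x ∈ a) : ap (IST.res f a) x = ap f x := by
  by_cases h : x ∈ dom f
  · exact hf.res.ap_eq (op_mem_res.2 ⟨hf.op_ap_mem h, hx⟩)
  · rw [ap_of_notMem h, ap_of_notMem]
    rw [dom_res, mem_inter]
    exact fun h' => h h'.1

/-- image of a set under a function -/
noncomputable def im (f a : M) : M := ran (res f a)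

instance im.dff {f g : Γ → M} [Dff f] [Dff g] : Dff fun γ => im (f γ) (g γ) := by
  unfold im; infer_instance

theorem mem_im {f a y : M} : y ∈ im f a ↔ ∃ x ∈ a, op x y ∈ f := by
  unfold im
  rw [mem_ran]
  simp only [op_mem_res]
  exact exists_congr fun _ => and_comm

/-- inverse relation -/
noncomputable def inv (f : M) : M := img (sep f fun p => ∃ x y, p = op x y) fun p => op (p2 p) (p1 p)

instance inv.dff {f : Γ → M} [Dff f] : Dff fun γ => inv (f γ) := by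
  unfold inv; infer_instance

theorem op_mem_inv {f x y : M} : op x y ∈ inv f ↔ op y x ∈ f := by
  unfold inv
  rw [mem_img]
  constructor
  · rintro ⟨p, hp, h⟩
    obtain ⟨h1, x', y', rfl⟩ := mem_sep.1 hp
    rw [p1_op, p2_op] at h
    obtain ⟨rfl, rfl⟩ := op_inj.1 h
    exact h1
  · intro h
    exact ⟨op y x, mem_sep.2 ⟨h, y, x, rfl⟩, by simp⟩

theorem isRel_inv {f : M} : IsRel (inv f) := by
  intro p hp
  unfold inv at hp
  obtain ⟨q, -, rfl⟩ := mem_img.1 hp
  exact ⟨_, _, rfl⟩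

@[simp] theorem dom_inv {f : M} : dom (inv f) = ran f := by
  apply ext; intro x
  simp only [mem_dom, mem_ran, op_mem_inv]

@[simp] theorem ran_inv {f : M} : ran (inv f) = dom f := by
  apply ext; intro x
  simp only [mem_dom, mem_ran, op_mem_inv]

theorem IsFun.isFun_inv {f : M} (hf : IsFun f) (h : Inj f) : IsFun (inv f) := by
  refine ⟨isRel_inv, fun x y y' h1 h2 => ?_⟩
  rw [op_mem_inv] at h1 h2
  refine h y (mem_dom.2 ⟨x, h1⟩) y' (mem_dom.2 ⟨x, h2⟩) ?_
  rw [hf.ap_eq h1, hf.ap_eq h2]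

theorem IsFun.ap_inv_ap {f x : M} (hf : IsFun f) (h : Inj f) (hx : x ∈ dom f) :
    ap (inv f) (ap f x) = x :=
  (hf.isFun_inv h).ap_eq (op_mem_inv.2 (hf.op_ap_mem hx))

theorem IsFun.ap_ap_inv {f y : M} (hf : IsFun f) (h : Inj f) (hy : y ∈ ran f) :
    ap f (ap (inv f) y) = y := by
  obtain ⟨x, hx, rfl⟩ := hf.mem_ran_iff.1 hy
  rw [hf.ap_inv_ap h hx]

theorem Bij.inv {f a b : M} (h : Bij f a b) : Bij (IST.inv f) b a := by
  obtain ⟨h1, h2, h3⟩ := h
  have hi := h1.isFun.isFun_inv h2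
  refine ⟨⟨hi, by rw [dom_inv, h3], fun x hx => ?_⟩, fun x hx y hy e => ?_, by rw [ran_inv, h1.dom_eq]⟩
  · rw [← h1.dom_eq, ← ran_inv]
    exact hi.ap_mem_ran (by rw [dom_inv, h3]; exact hx)
  · rw [dom_inv] at hx hy
    rw [← h1.isFun.ap_ap_inv h2 hx, ← h1.isFun.ap_ap_inv h2 hy, e]

/-- composition `g ∘ f` -/
noncomputable def cmp (g f : M) : M := lam (dom f) fun x => ap g (ap f x)

instance cmp.dff {f g : Γ → M} [Dff f] [Dff g] : Dff fun γ => cmp (f γ) (g γ) := by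
  unfold cmp; infer_instance

theorem isFun_cmp {f g : M} : IsFun (cmp g f) := isFun_lam

@[simp] theorem dom_cmp {f g : M} : dom (cmp g f) = dom f := dom_lam

theorem ap_cmp {f g x : M} (hx : x ∈ dom f) : ap (cmp g f) x = ap g (ap f x) := ap_lam hx

theorem Maps.cmp {f g a b c : M} (hf : Maps f a b) (hg : Maps g b c) : Maps (IST.cmp g f) a c := by
  refine ⟨isFun_cmp, by rw [dom_cmp, hf.dom_eq], fun x hx => ?_⟩
  rw [ap_cmp (hf.dom_eq.symm ▸ hx)]
  exact hg.ap_mem (hf.ap_mem hx)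

theorem Bij.cmp {f g a b c : M} (hf : Bij f a b) (hg : Bij g b c) : Bij (IST.cmp g f) a c := by
  refine ⟨hf.1.cmp hg.1, fun x hx y hy e => ?_, ?_⟩
  · rw [dom_cmp] at hx hy
    rw [ap_cmp hx, ap_cmp hy] at e
    refine hf.2.1 _ hx _ hy (hg.2.1 _ ?_ _ ?_ e)
    · rw [hg.1.dom_eq]; exact hf.1.ap_mem (hf.1.dom_eq ▸ hx)
    · rw [hg.1.dom_eq]; exact hf.1.ap_mem (hf.1.dom_eq ▸ hy)
  · apply Sub.antisymm
    · exact (hf.1.cmp hg.1).ran_sub
    · intro z hz
      rw [← hg.2.2] at hz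
      obtain ⟨y, hy, rfl⟩ := hg.1.isFun.mem_ran_iff.1 hz
      rw [hg.1.dom_eq, ← hf.2.2] at hy
      obtain ⟨x, hx, rfl⟩ := hf.1.isFun.mem_ran_iff.1 hy
      exact isFun_cmp.mem_ran_iff.2 ⟨x, by rw [dom_cmp]; exact hx, (ap_cmp hx).symm⟩

/-- identity -/
noncomputable def idf (a : M) : M := lam a fun x => x

instance idf.dff {f : Γ → M} [Dff f] : Dff fun γ => idf (f γ) := by
  unfold idf; infer_instance

theorem bij_idf (a : M) : Bij (idf a) a a := by
  refine ⟨maps_lam fun _ h => h, fun x hx y hy e => ?_, ?_⟩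
  · unfold idf at hx hy e
    rw [dom_lam] at hx hy
    rwa [ap_lam hx, ap_lam hy] at e
  · unfold idf
    rw [ran_lam]
    apply ext; intro x
    rw [mem_img]
    simp

end

end Pool.Agent.IST
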