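import Pool.Agent.IST.Rank

/-!
# Definable choice functions for all sets
-/

set_option synthInstance.maxSize 100000

namespace Pool.Agent.IST

open Pool.Agent.BVM

/-- there is a definable choice function for all sets -/
class GCh (M : Type) [SetModel M] : Prop where
  out : ∃ ch : M → M, (Dff fun γ : E0 M × M => ch γ.2) ∧ ∀ x, x ≠ ∅ → ch x ∈ x

/-- the definable choice function -/
noncomputable def gch {M : Type} [SetModel M] [GCh M] (x : M) : M :=
  (GCh.out (M := M)).choose x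

/-- a definable element of a class -/
noncomputable def pick {M : Type} [SetModel M] [GCh M] (P : M → Prop) : M :=
  gch (the fun w => ∃ α, IsOrd α ∧ w = sep (Vr α) P ∧ w ≠ ∅ ∧ ∀ β ∈ α, sep (Vr β) P = ∅)

section

variable {M : Type} [SetModel M] {Γ : Type} [IsCtx Γ M] [GCh M]

theorem gch_mem {x : M} (h : x ≠ ∅) : gch x ∈ x := (GCh.out (M := M)).choose_spec.2 x h

instance gch.dff {f : Γ → M} [Dff f] : Dff fun γ => gch (f γ) := by
  have h : Dff fun γ : E0 M × M => gch γ.2 := (GCh.out (M := M)).choose_spec.1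
  exact Dff.lift1 (F := fun _ : E0 M => gch) (c := fun _ => ⟨⟩)

theorem pick_spec {P : M → Prop} [Dfp fun γ : E0 M × M => P γ.2] (h : ∃ x, P x) :
    P (pick P) := by
  obtain ⟨x, hx⟩ := h
  have hd : Dfp fun γ : (E0 M × M) × M => P γ.2 := Dfp.drop (R := fun (_ : E0 M) x => P x)
  obtain ⟨α₀, hα₀, hx'⟩ := exists_mem_Vr x
  obtain ⟨α, hα, h1, h2⟩ := exists_min (fun α : M => sep (Vr α) P ≠ ∅) hα₀
    (ne_empty_iff.2 ⟨x, mem_sep.2 ⟨hx', hx⟩⟩)
  have he : (the fun w : M => ∃ α, IsOrd α ∧ w = sep (Vr α) P ∧ w ≠ ∅ ∧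
      ∀ β ∈ α, sep (Vr β) P = ∅) = sep (Vr α) P := by
    refine the_eq ⟨α, hα, rfl, h1, fun β hβ => by simpa using h2 β hβ⟩ ?_
    rintro y ⟨β, hβ, rfl, h3, h4⟩
    rcases hβ.cmp hα with h5 | rfl | h5
    · exact absurd h3 (h2 β h5)
    · rfl
    · exact absurd (h4 α h5) h1
  have h3 : pick P = gch (sep (Vr α) P) := by
    unfold pick
    rw [he]
  rw [h3]
  exact (mem_sep.1 (gch_mem h1)).2

instance pick.dff {P : Γ → M → Prop} [h : Dfp fun γ : Γ × M => P γ.1 γ.2] :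
    Dff fun γ => pick (P γ) := by
  unfold pick
  have h1 : Dfp fun γ : (Γ × M) × M => P γ.1.1 γ.2 := Dfp.drop (R := P)
  have h2 : Dff fun γ : (Γ × M) × M => sep (Vr γ.2) (P γ.1.1) := by
    have : Dfp fun γ : ((Γ × M) × M) × M => P γ.1.1.1 γ.2 :=
      Dfp.drop (R := fun (γ : Γ × M) x => P γ.1 x)
    infer_instance
  have h3 : Dff fun γ : ((Γ × M) × M) × M => sep (Vr γ.2) (P γ.1.1.1) :=
    Dff.drop (R := fun (γ : Γ × M) x => sep (Vr x) (P γ.1))
  infer_instance

end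

end Pool.Agent.IST
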