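import Pool.Agent.IST.Choice
import Pool.Agent.IST.Rank
import Pool.Agent.IST.Subst

/-!
# Functions on ordinals as conditions

The class poset of all functions whose domain is an ordinal, ordered by inclusion, is closed under
sequences of any length: every condition has an extension in all members of a set-indexed
definable family of open dense classes.
-/

set_option synthInstance.maxSize 100000

namespace Pool.Agent.IST

open Pool.Agent.BVM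

section

variable {M : Type} [SetModel M] {Γ : Type} [IsCtx Γ M]

/-- functions whose domain is an ordinal -/
def Cn (p : M) : Prop := IsFun p ∧ IsOrd (dom p)

instance Cn.dfp {f : Γ → M} [Dff f] : Dfp fun γ => Cn (f γ) := by
  unfold Cn; infer_instance

theorem dom_empty : dom (∅ : M) = ∅ := by
  refine eq_empty_iff.2 fun x hx => ?_
  obtain ⟨y, hy⟩ := mem_dom.1 hx
  exact notMem_empty _ hy

theorem isFun_empty : IsFun (∅ : M) :=
  ⟨fun p hp => absurd hp (notMem_empty p), fun x y y' h => absurd h (notMem_empty _)⟩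

theorem cn_empty : Cn (∅ : M) := ⟨isFun_empty, by rw [dom_empty]; exact isOrd_empty⟩

theorem dom_bigU {s x : M} : x ∈ dom (bigU s) ↔ ∃ p ∈ s, x ∈ dom p := by
  rw [mem_dom]
  constructor
  · rintro ⟨y, hy⟩
    obtain ⟨p, hp, hy⟩ := mem_bigU.1 hy
    exact ⟨p, hp, mem_dom.2 ⟨y, hy⟩⟩
  · rintro ⟨p, hp, hx⟩
    obtain ⟨y, hy⟩ := mem_dom.1 hx
    exact ⟨y, mem_bigU.2 ⟨p, hp, hy⟩⟩

theorem cn_bigU {s : M} (h : ∀ p ∈ s, Cn p) (hc : ∀ p ∈ s, ∀ q ∈ s, p ⊆ q ∨ q ⊆ p) :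
    Cn (bigU s) := by
  refine ⟨⟨fun z hz => ?_, fun x y y' hy hy' => ?_⟩, ?_⟩
  · obtain ⟨p, hp, hz⟩ := mem_bigU.1 hz
    exact (h p hp).1.1 z hz
  · obtain ⟨p, hp, hy⟩ := mem_bigU.1 hy
    obtain ⟨q, hq, hy'⟩ := mem_bigU.1 hy'
    rcases hc p hp q hq with h1 | h1
    · exact (h q hq).1.2 x y y' (h1 _ hy) hy'
    · exact (h p hp).1.2 x y y' hy (h1 _ hy')
  · refine isOrd_of_trans (fun y hy z hz => ?_) fun y hy => ?_
    · obtain ⟨p, hp, hy⟩ := dom_bigU.1 hy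
      exact dom_bigU.2 ⟨p, hp, (h p hp).2.trans hz hy⟩
    · obtain ⟨p, hp, hy⟩ := dom_bigU.1 hy
      exact (h p hp).2.mem hy

theorem sub_union_left {x y : M} : x ⊆ x ∪ y := fun _ h => mem_union.2 (Or.inl h)

theorem sub_union_right {x y : M} : y ⊆ x ∪ y := fun _ h => mem_union.2 (Or.inr h)

/-- the union of a condition and a chain of stronger conditions -/
theorem cn_union_bigU {p s : M} (hp : Cn p) (h : ∀ q ∈ s, Cn q ∧ p ⊆ q)
    (hc : ∀ q ∈ s, ∀ r ∈ s, q ⊆ r ∨ r ⊆ q) : Cn (p ∪ bigU s) := by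
  have e : p ∪ bigU s = bigU (sing p ∪ s) := by
    apply ext; intro z
    simp only [mem_union, mem_bigU, mem_sing]
    constructor
    · rintro (h1 | ⟨y, hy, hz⟩)
      · exact ⟨p, Or.inl rfl, h1⟩
      · exact ⟨y, Or.inr hy, hz⟩
    · rintro ⟨y, rfl | hy, hz⟩
      · exact Or.inl hz
      · exact Or.inr ⟨y, hy, hz⟩
  rw [e]
  refine cn_bigU (fun q hq => ?_) fun q hq r hr => ?_
  · rcases mem_union.1 hq with h1 | h1
    · rw [mem_sing.1 h1]; exact hp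
    · exact (h q h1).1
  · rcases mem_union.1 hq with h1 | h1 <;> rcases mem_union.1 hr with h2 | h2
    · rw [mem_sing.1 h1, mem_sing.1 h2]; exact Or.inl (Sub.refl p)
    · rw [mem_sing.1 h1]; exact Or.inl (h r h2).2
    · rw [mem_sing.1 h2]; exact Or.inr (h q h1).2
    · exact hc q h1 r h2

/-- a set containing extensions of the members of `X` in the classes `D y`, `y ∈ x` -/
noncomputable def cnT (D : M → M → Prop) (x X : M) : M :=
  Vr (lst fun α => ∀ p ∈ X, Cn p → ∀ y ∈ x, (∃ q, Cn q ∧ p ⊆ q ∧ D y q) →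
    ∃ q ∈ Vr α, Cn q ∧ p ⊆ q ∧ D y q)

section

variable {D : M → M → Prop} [hD : DP2 D]

instance cnT.dff {f g : Γ → M} [Dff f] [Dff g] : Dff fun γ => cnT D (f γ) (g γ) := by
  unfold cnT; infer_instance

theorem cnT_spec {x X p y : M} (hp : p ∈ X) (hc : Cn p) (hy : y ∈ x)
    (h : ∃ q, Cn q ∧ p ⊆ q ∧ D y q) : ∃ q ∈ cnT D x X, Cn q ∧ p ⊆ q ∧ D y q := by
  have key : ∃ α : M, IsOrd α ∧ ∀ p ∈ X, Cn p → ∀ y ∈ x, (∃ q, Cn q ∧ p ⊆ q ∧ D y q) →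
      ∃ q ∈ Vr α, Cn q ∧ p ⊆ q ∧ D y q := by
    obtain ⟨b, hb⟩ := collection (prod X x) (fun w q => (∃ q, Cn q ∧ p1 w ⊆ q ∧ D (p2 w) q) →
      Cn q ∧ p1 w ⊆ q ∧ D (p2 w) q) (fun w _ => by
        by_cases h : ∃ q, Cn q ∧ p1 w ⊆ q ∧ D (p2 w) q
        · obtain ⟨q, hq⟩ := h
          exact ⟨q, fun _ => hq⟩
        · exact ⟨∅, fun h' => absurd h' h⟩)
    obtain ⟨α, hα, hbα⟩ := exists_mem_Vr b
    refine ⟨α, hα, fun p hp hc y hy h => ?_⟩
    obtain ⟨q, hq, h1⟩ := hb (op p y) (op_mem_prod.2 ⟨hp, hy⟩)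
    rw [p1_op, p2_op] at h1
    exact ⟨q, isTrans_Vr α b hbα q hq, h1 h⟩
  obtain ⟨α, hα, h1⟩ := key
  exact (lst_spec (P := fun α => ∀ p ∈ X, Cn p → ∀ y ∈ x, (∃ q, Cn q ∧ p ⊆ q ∧ D y q) →
    ∃ q ∈ Vr α, Cn q ∧ p ⊆ q ∧ D y q) hα h1).2.1 p hp hc y hy h

/-- closing off -/
noncomputable def cnK (D : M → M → Prop) (x p β : M) : M :=
  erec (fun _ f => cnT D x (img (pw (bigU (ran f))) fun s => p ∪ bigU s)) β

instance cnK.dff {f g h : Γ → M} [Dff f] [Dff g] [Dff h] :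
    Dff fun γ => cnK D (f γ) (g γ) (h γ) := by
  unfold cnK; infer_instance

theorem cnK_eq {x p β : M} : cnK D x p β =
    cnT D x (img (pw (iU β fun γ => cnK D x p γ)) fun s => p ∪ bigU s) := by
  unfold cnK
  rw [erec_eq, ran_lam]
  rfl

/-- the sequence of conditions -/
noncomputable def cnS (D : M → M → Prop) (x p c e β : M) : M :=
  erec (fun β f => ap c (sep (cnK D x p β) fun q => Cn q ∧ (p ∪ bigU (ran f)) ⊆ q ∧
    D (ap e β) q)) β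

instance cnS.dff {f g h k l : Γ → M} [Dff f] [Dff g] [Dff h] [Dff k] [Dff l] :
    Dff fun γ => cnS D (f γ) (g γ) (h γ) (k γ) (l γ) := by
  unfold cnS; infer_instance

/-- **distributivity** -/
theorem exists_meet (D : M → M → Prop) [hD : DP2 D] (x : M) {p : M} (hp : Cn p)
    (h1 : ∀ y ∈ x, ∀ q, Cn q → p ⊆ q → ∃ r, Cn r ∧ q ⊆ r ∧ D y r)
    (h2 : ∀ y ∈ x, ∀ q r, D y q → q ⊆ r → Cn r → D y r) :
    ∃ q, Cn q ∧ p ⊆ q ∧ ∀ y ∈ x, D y q := by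
  obtain ⟨α, hα, e, he⟩ := exists_eqn_ord x
  obtain ⟨c, -, -, hc⟩ := exists_choice (sep (pw (iU α fun β => cnK D x p β)) fun s => s ≠ ∅)
    fun s hs => (mem_sep.1 hs).2
  have hrec : ∀ β : M, cnS D x p c e β = ap c (sep (cnK D x p β) fun q => Cn q ∧
      (p ∪ bigU (img β fun γ => cnS D x p c e γ)) ⊆ q ∧ D (ap e β) q) := by
    intro β
    have := erec_eq (G := fun β f => ap c (sep (cnK D x p β) fun q => Cn q ∧
      (p ∪ bigU (ran f)) ⊆ q ∧ D (ap e β) q)) β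
    rw [ran_lam] at this
    exact this
  have key : ∀ β : M, IsOrd β → β ∈ α → cnS D x p c e β ∈ cnK D x p β ∧ Cn (cnS D x p c e β) ∧
      p ⊆ cnS D x p c e β ∧ (∀ γ ∈ β, cnS D x p c e γ ⊆ cnS D x p c e β) ∧
      D (ap e β) (cnS D x p c e β) := by
    refine ord_ind (fun β => β ∈ α → cnS D x p c e β ∈ cnK D x p β ∧ Cn (cnS D x p c e β) ∧
      p ⊆ cnS D x p c e β ∧ (∀ γ ∈ β, cnS D x p c e γ ⊆ cnS D x p c e β) ∧
      D (ap e β) (cnS D x p c e β)) fun β hβ ih hβα => ?_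
    have ih' : ∀ γ ∈ β, _ := fun γ hγ => ih γ hγ (hα.trans hγ hβα)
    have hr : Cn (p ∪ bigU (img β fun γ => cnS D x p c e γ)) := by
      refine cn_union_bigU hp (fun q hq => ?_) fun q hq r hr => ?_
      · obtain ⟨γ, hγ, rfl⟩ := mem_img.1 hq
        exact ⟨(ih' γ hγ).2.1, (ih' γ hγ).2.2.1⟩
      · obtain ⟨γ, hγ, rfl⟩ := mem_img.1 hq
        obtain ⟨δ, hδ, rfl⟩ := mem_img.1 hr
        rcases (hβ.mem hγ).cmp (hβ.mem hδ) with h | rfl | h
        · exact Or.inl ((ih' δ hδ).2.2.2.1 γ h)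
        · exact Or.inl (Sub.refl _)
        · exact Or.inr ((ih' γ hγ).2.2.2.1 δ h)
    have hex : ap e β ∈ x := he.1.ap_mem hβα
    obtain ⟨q, hq1, hq2, hq3, hq4⟩ := cnT_spec (D := D) (x := x)
      (X := img (pw (iU β fun γ => cnK D x p γ)) fun s => p ∪ bigU s)
      (p := p ∪ bigU (img β fun γ => cnS D x p c e γ)) (y := ap e β)
      (mem_img.2 ⟨img β fun γ => cnS D x p c e γ, mem_pw.2 (fun z hz => by
        obtain ⟨γ, hγ, rfl⟩ := mem_img.1 hz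
        exact mem_iU.2 ⟨γ, hγ, (ih' γ hγ).1⟩), rfl⟩) hr hex (h1 _ hex _ hr sub_union_left)
    rw [← cnK_eq] at hq1
    have hne : sep (cnK D x p β) (fun q => Cn q ∧
      (p ∪ bigU (img β fun γ => cnS D x p c e γ)) ⊆ q ∧ D (ap e β) q) ≠ ∅ :=
      ne_empty_iff.2 ⟨q, mem_sep.2 ⟨hq1, hq2, hq3, hq4⟩⟩
    have hmem := hc (sep (cnK D x p β) (fun q => Cn q ∧
      (p ∪ bigU (img β fun γ => cnS D x p c e γ)) ⊆ q ∧ D (ap e β) q))
      (mem_sep.2 ⟨mem_pw.2 fun z hz => mem_iU.2 ⟨β, hβα, (mem_sep.1 hz).1⟩, hne⟩)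
    rw [← hrec] at hmem
    obtain ⟨g1, g2, g3, g4⟩ := mem_sep.1 hmem
    refine ⟨g1, g2, Sub.trans sub_union_left g3, fun γ hγ z hz => g3 z ?_, g4⟩
    exact mem_union.2 (Or.inr (mem_bigU.2 ⟨_, mem_img.2 ⟨γ, hγ, rfl⟩, hz⟩))
  have key' : ∀ β ∈ α, _ := fun β hβ => key β (hα.mem hβ) hβ
  refine ⟨p ∪ bigU (img α fun γ => cnS D x p c e γ), ?_, sub_union_left, fun y hy => ?_⟩
  · refine cn_union_bigU hp (fun q hq => ?_) fun q hq r hr => ?_
    · obtain ⟨γ, hγ, rfl⟩ := mem_img.1 hq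
      exact ⟨(key' γ hγ).2.1, (key' γ hγ).2.2.1⟩
    · obtain ⟨γ, hγ, rfl⟩ := mem_img.1 hq
      obtain ⟨δ, hδ, rfl⟩ := mem_img.1 hr
      rcases (hα.mem hγ).cmp (hα.mem hδ) with h | rfl | h
      · exact Or.inl ((key' δ hδ).2.2.2.1 γ h)
      · exact Or.inl (Sub.refl _)
      · exact Or.inr ((key' γ hγ).2.2.2.1 δ h)
  · obtain ⟨β, hβ, rfl⟩ := he.surj hy
    refine h2 _ hy _ _ (key' β hβ).2.2.2.2 (fun z hz => ?_) ?_
    · exact mem_union.2 (Or.inr (mem_bigU.2 ⟨_, mem_img.2 ⟨β, hβ, rfl⟩, hz⟩))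
    · refine cn_union_bigU hp (fun q hq => ?_) fun q hq r hr => ?_
      · obtain ⟨γ, hγ, rfl⟩ := mem_img.1 hq
        exact ⟨(key' γ hγ).2.1, (key' γ hγ).2.2.1⟩
      · obtain ⟨γ, hγ, rfl⟩ := mem_img.1 hq
        obtain ⟨δ, hδ, rfl⟩ := mem_img.1 hr
        rcases (hα.mem hγ).cmp (hα.mem hδ) with h | rfl | h
        · exact Or.inl ((key' δ hδ).2.2.2.1 γ h)
        · exact Or.inl (Sub.refl _)
        · exact Or.inr ((key' γ hγ).2.2.2.1 δ h)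

end

end

end Pool.Agent.IST
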