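import Pool.Agent.IST.GenA
import Pool.Agent.IST.Cnt

/-!
# A generic class

Over a countable model of ZFC there is a class `U` of ordered pairs such that the model with this
class satisfies ZFC, `U` is a class function from the ordinals onto the universe, and more
generally `U` meets all definable dense classes of conditions.
-/

set_option synthInstance.maxSize 100000

namespace Pool.Agent.IST

open Pool.Agent.BVM

/-- formulas with few connectives -/
inductive FmlC : Type
  | mem (i j : ℕ)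
  | eq (i j : ℕ)
  | cl (i : ℕ)
  | neg (a : FmlC)
  | and (a b : FmlC)
  | all (a : FmlC)

/-- satisfaction -/
def SatC {M : Type*} (E : M → M → Prop) (U : M → Prop) : FmlC → (ℕ → M) → Prop
  | .mem i j, v => E (v i) (v j)
  | .eq i j, v => v i = v j
  | .cl i, v => U (v i)
  | .neg a, v => ¬ SatC E U a v
  | .and a b, v => SatC E U a v ∧ SatC E U b v
  | .all a, v => ∀ x, SatC E U a (cons x v)

/-- translation -/
def corU : FmlU → FmlC
  | .mem i j => .mem i j
  | .eq i j => .eq i j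
  | .cl i => .cl i
  | .neg a => .neg (corU a)
  | .and a b => .and (corU a) (corU b)
  | .or a b => .neg (.and (.neg (corU a)) (.neg (corU b)))
  | .imp a b => .neg (.and (corU a) (.neg (corU b)))
  | .iff a b => .and (.neg (.and (corU a) (.neg (corU b)))) (.neg (.and (corU b) (.neg (corU a))))
  | .all a => .all (corU a)
  | .ex a => .neg (.all (.neg (corU a)))

theorem satC_corU {M : Type*} (E : M → M → Prop) (U : M → Prop) (φ : FmlU) (v : ℕ → M) :
    SatC E U (corU φ) v ↔ SatU E U φ v := by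
  induction φ generalizing v with
  | mem i j => rfl
  | eq i j => rfl
  | cl i => rfl
  | neg a ih => simp only [corU, SatU, SatC, ih]
  | and a b iha ihb => simp only [corU, SatU, SatC, iha, ihb]
  | or a b iha ihb => simp only [corU, SatU, SatC, iha, ihb]; tauto
  | imp a b iha ihb => simp only [corU, SatU, SatC, iha, ihb]; tauto
  | iff a b iha ihb => simp only [corU, SatU, SatC, iha, ihb]; tauto
  | all a ih => simp only [corU, SatU, SatC, ih]
  | ex a ih => simp only [corU, SatU, SatC, ih]; simp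

section

variable {M : Type} [SetModel M] {Γ : Type} [IsCtx Γ M]

/-- stronger conditions -/
def Sg (q p : M) : Prop := Cn q ∧ p ⊆ q

instance Sg.dfp {f g : Γ → M} [Dff f] [Dff g] : Dfp fun γ => Sg (f γ) (g γ) := by
  unfold Sg; infer_instance

theorem Sg.trans {p q r : M} (h : Sg q p) (h' : Sg r q) : Sg r p := ⟨h'.1, Sub.trans h.2 h'.2⟩

theorem Sg.refl {p : M} (h : Cn p) : Sg p p := ⟨h, Sub.refl p⟩

/-- the forcing relation -/
def Fc : FmlC → M → (ℕ → M) → Prop
  | .mem i j, _, v => v i ∈ v j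
  | .eq i j, _, v => v i = v j
  | .cl i, p, v => v i ∈ p
  | .neg a, p, v => ∀ q, Sg q p → ¬ Fc a q v
  | .and a b, p, v => Fc a p v ∧ Fc b p v
  | .all a, p, v => ∀ x, ∀ q, Sg q p → ∃ r, Sg r q ∧ Fc a r (cons x v)

theorem Fc.mono {φ : FmlC} {p q : M} {v : ℕ → M} (h : Fc φ p v) (hq : Sg q p) : Fc φ q v := by
  induction φ generalizing p q v with
  | mem i j => exact h
  | eq i j => exact h
  | cl i => exact hq.2 _ h
  | neg a ih => exact fun r hr => h r (hq.trans hr)
  | and a b iha ihb => exact ⟨iha h.1 hq, ihb h.2 hq⟩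
  | all a ih => exact fun x r hr => h x r (hq.trans hr)

/-- the forcing relation is definable -/
theorem fc_dfp (φ : FmlC) : ∀ {Γ : Type} [IsCtx Γ M] (f : Γ → M) (s : ℕ → Γ → M), Dff f →
    (∀ i, Dff (s i)) → Dfp fun γ => Fc φ (f γ) fun i => s i γ := by
  induction φ with
  | mem i j =>
    intro Γ _ f s hf hs
    have h1 := hs i
    have h2 := hs j
    exact Dfp.mem
  | eq i j =>
    intro Γ _ f s hf hs
    have h1 := hs i
    have h2 := hs j
    exact Dfp.eq
  | cl i =>
    intro Γ _ f s hf hs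
    have h1 := hs i
    exact Dfp.mem
  | neg a ih =>
    intro Γ _ f s hf hs
    have h1 : Dfp fun γ : Γ × M => Fc a γ.2 fun i => s i γ.1 :=
      ih (fun γ : Γ × M => γ.2) (fun i γ => s i γ.1) inferInstance fun i => by
        have := hs i
        exact Dff.comp
    have h2 : Dfp fun γ : Γ => ∀ q, Sg q (f γ) → ¬ Fc a q fun i => s i γ := inferInstance
    exact h2
  | and a b iha ihb =>
    intro Γ _ f s hf hs
    have h1 := iha f s hf hs
    have h2 := ihb f s hf hs
    exact Dfp.and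
  | all a ih =>
    intro Γ _ f s hf hs
    have h1 : Dfp fun γ : ((Γ × M) × M) × M => Fc a γ.2 (cons γ.1.1.2 fun i => s i γ.1.1.1) := by
      have := ih (fun γ : ((Γ × M) × M) × M => γ.2)
        (fun i γ => cons γ.1.1.2 (fun i => s i γ.1.1.1) i) inferInstance fun i => by
          cases i with
          | zero => exact (inferInstance : Dff fun γ : ((Γ × M) × M) × M => γ.1.1.2)
          | succ i =>
            have := hs i
            exact (inferInstance : Dff fun γ : ((Γ × M) × M) × M => s i γ.1.1.1)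
      exact this
    have h2 : Dfp fun γ : Γ => ∀ x, ∀ q, Sg q (f γ) → ∃ r, Sg r q ∧ Fc a r (cons x fun i => s i γ) :=
      inferInstance
    exact h2

/-- the forcing relation with one varying parameter -/
theorem fc_dfp1 (φ : FmlC) (v : ℕ → M) {f g : Γ → M} [hf : Dff f] [hg : Dff g] :
    Dfp fun γ => Fc φ (f γ) (cons (g γ) v) := by
  have := fc_dfp φ f (fun i γ => cons (g γ) v i) hf fun i => by
    cases i with
    | zero => exact hg
    | succ i => exact (inferInstance : Dff fun _ : Γ => v i)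
  exact this

theorem fc_dfp2 (φ : FmlC) (v : ℕ → M) {f g h : Γ → M} [hf : Dff f] [hg : Dff g] [hh : Dff h] :
    Dfp fun γ => Fc φ (f γ) (cons (h γ) (cons (g γ) v)) := by
  have := fc_dfp φ f (fun i γ => cons (h γ) (cons (g γ) v) i) hf fun i => by
    cases i with
    | zero => exact hh
    | succ i =>
      cases i with
      | zero => exact hg
      | succ i => exact (inferInstance : Dff fun _ : Γ => v i)
  exact this

theorem fc_dfp0 (φ : FmlC) (v : ℕ → M) {f : Γ → M} [hf : Dff f] :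
    Dfp fun γ => Fc φ (f γ) v := fc_dfp φ f (fun i _ => v i) hf fun i => inferInstance

end

/-- a generic sequence of conditions -/
structure GSeq (M : Type) [SetModel M] where
  /-- the conditions -/
  s : ℕ → M
  cn : ∀ n, Cn (s n)
  mono : ∀ n, s n ⊆ s (n + 1)
  meets : ∀ D : M → Prop, (Dfp fun γ : E0 M × M => D γ.2) →
    (∀ p, Cn p → ∃ q, Sg q p ∧ D q) → ∃ n, D (s n)

section

variable {M : Type} [SetModel M]

theorem exists_gseq [Countable M] : Nonempty (GSeq M) := by
  classical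
  obtain ⟨D, hD, hs⟩ := exists_enum_dfp (M := M)
  have hstep : ∀ (n : ℕ) (p : {p : M // Cn p}), ∃ q : {q : M // Cn q}, p.1 ⊆ q.1 ∧
      ((∃ r, Sg r p.1 ∧ D n r) → D n q.1) := by
    intro n p
    by_cases h : ∃ r, Sg r p.1 ∧ D n r
    · obtain ⟨r, h1, h2⟩ := h
      exact ⟨⟨r, h1.1⟩, h1.2, fun _ => h2⟩
    · exact ⟨p, Sub.refl _, fun h' => absurd h' h⟩
  choose nx hn1 hn2 using hstep
  let t : ℕ → {p : M // Cn p} := fun n => Nat.rec ⟨∅, cn_empty⟩ (fun n p => nx n p) n
  refine ⟨⟨fun n => (t n).1, fun n => (t n).2, fun n => hn1 n (t n), fun P hP hd => ?_⟩⟩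
  obtain ⟨n, hn⟩ := hs P hP
  refine ⟨n + 1, ?_⟩
  subst hn
  exact hn2 n (t n) (hd _ (t n).2)

namespace GSeq

variable (G : GSeq M)

theorem mono' {n m : ℕ} (h : n ≤ m) : G.s n ⊆ G.s m := by
  induction h with
  | refl => exact Sub.refl _
  | step _ ih => exact Sub.trans ih (G.mono _)

theorem sg {n m : ℕ} (h : n ≤ m) : Sg (G.s m) (G.s n) := ⟨G.cn m, G.mono' h⟩

/-- the generic class -/
def U (x : M) : Prop := ∃ n, x ∈ G.s n

/-- the generic sequence meets classes which are dense above a member -/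
theorem meets_above (n : ℕ) (D : M → Prop) [hD : Dfp fun γ : E0 M × M => D γ.2]
    (ho : ∀ p q, D p → Sg q p → D q) (h : ∀ p, Sg p (G.s n) → ∃ q, Sg q p ∧ D q) :
    ∃ m, n ≤ m ∧ D (G.s m) := by
  obtain ⟨m, hm⟩ := G.meets (fun q => D q ∨ ¬ ∃ r, Sg r q ∧ Sg r (G.s n))
    (by
      have hd : Dfp fun γ : E0 M × M => ¬ ∃ r, Sg r γ.2 ∧ Sg r (G.s n) := inferInstance
      exact Dfp.or) (by
    intro p hp
    by_cases hc : ∃ r, Sg r p ∧ Sg r (G.s n)
    · obtain ⟨r, h1, h2⟩ := hc
      obtain ⟨q, h3, h4⟩ := h r h2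
      exact ⟨q, h1.trans h3, Or.inl h4⟩
    · exact ⟨p, Sg.refl hp, Or.inr hc⟩)
  refine ⟨max n m, le_max_left _ _, ?_⟩
  have h1 : Sg (G.s (max n m)) (G.s m) := G.sg (le_max_right _ _)
  rcases hm with hm | hm
  · exact ho _ _ hm h1
  · exact absurd ⟨_, h1, G.sg (le_max_left _ _)⟩ hm

/-- the truth lemma -/
theorem truth (φ : FmlC) (v : ℕ → M) :
    SatC SetModel.E G.U φ v ↔ ∃ n, Fc φ (G.s n) v := by
  induction φ generalizing v with
  | mem i j => exact ⟨fun h => ⟨0, h⟩, fun ⟨_, h⟩ => h⟩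
  | eq i j => exact ⟨fun h => ⟨0, h⟩, fun ⟨_, h⟩ => h⟩
  | cl i => exact Iff.rfl
  | neg a ih =>
    change ¬ SatC SetModel.E G.U a v ↔ _
    rw [ih]
    constructor
    · intro h
      have h0 := fc_dfp0 a v (f := fun γ : E0 M × M => γ.2)
      have h1 := fc_dfp0 (.neg a) v (f := fun γ : E0 M × M => γ.2)
      obtain ⟨n, hn⟩ := G.meets (fun q => Fc a q v ∨ Fc (.neg a) q v) Dfp.or (by
        intro p hp
        by_cases hc : ∃ q, Sg q p ∧ Fc a q v
        · obtain ⟨q, h1, h2⟩ := hc
          exact ⟨q, h1, Or.inl h2⟩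
        · exact ⟨p, Sg.refl hp, Or.inr fun q hq h => hc ⟨q, hq, h⟩⟩)
      rcases hn with hn | hn
      · exact absurd ⟨n, hn⟩ h
      · exact ⟨n, hn⟩
    · rintro ⟨n, hn⟩ ⟨m, hm⟩
      exact hn _ (G.sg (le_max_left n m)) (hm.mono (G.sg (le_max_right n m)))
  | and a b iha ihb =>
    change SatC SetModel.E G.U a v ∧ SatC SetModel.E G.U b v ↔ _
    rw [iha, ihb]
    constructor
    · rintro ⟨⟨n, hn⟩, m, hm⟩
      exact ⟨max n m, hn.mono (G.sg (le_max_left n m)), hm.mono (G.sg (le_max_right n m))⟩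
    · rintro ⟨n, h1, h2⟩
      exact ⟨⟨n, h1⟩, n, h2⟩
  | all a ih =>
    change (∀ x, SatC SetModel.E G.U a (cons x v)) ↔ _
    constructor
    · intro h
      have h0 : Dfp fun γ : (E0 M × M) × M => Fc (.neg a) γ.1.2 (cons γ.2 v) :=
        fc_dfp1 (.neg a) v (f := fun γ : (E0 M × M) × M => γ.1.2)
          (g := fun γ : (E0 M × M) × M => γ.2)
      have h1 := fc_dfp0 (.all a) v (f := fun γ : E0 M × M => γ.2)
      obtain ⟨n, hn⟩ := G.meets (fun q => Fc (.all a) q v ∨ ∃ x, Fc (.neg a) q (cons x v))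
        Dfp.or (by
        intro p hp
        by_cases hc : Fc (.all a) p v
        · exact ⟨p, Sg.refl hp, Or.inl hc⟩
        · unfold Fc at hc
          push Not at hc
          obtain ⟨x, q, h1, h2⟩ := hc
          exact ⟨q, h1, Or.inr ⟨x, h2⟩⟩)
      rcases hn with hn | ⟨x, hx⟩
      · exact ⟨n, hn⟩
      · obtain ⟨m, hm⟩ := (ih _).1 (h x)
        exact absurd (hm.mono (G.sg (le_max_right n m))) (hx _ (G.sg (le_max_left n m)))
    · rintro ⟨n, hn⟩ x
      rw [ih]
      have h0 := fc_dfp1 a v (f := fun γ : E0 M × M => γ.2) (g := fun _ : E0 M × M => x)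
      obtain ⟨m, -, hm⟩ := G.meets_above n (fun q => Fc a q (cons x v))
        (fun p q h1 h2 => h1.mono h2) (fun p hp => hn x p hp)
      exact ⟨m, hm⟩

/-- set-indexed families of open dense classes -/
theorem meets_all (x : M) (D : M → M → Prop) (hD : DP2 D)
    (h1 : ∀ y ∈ x, ∀ q, Cn q → ∃ r, Sg r q ∧ D y r)
    (h2 : ∀ y ∈ x, ∀ q r, D y q → Sg r q → D y r) : ∃ n, ∀ y ∈ x, D y (G.s n) := by
  refine G.meets (fun q => ∀ y ∈ x, D y q) inferInstance fun p hp => ?_
  obtain ⟨q, h3, h4, h5⟩ := exists_meet D x hp (fun y hy q hq _ => by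
    obtain ⟨r, hr, hr'⟩ := h1 y hy q hq
    exact ⟨r, hr.1, hr.2, hr'⟩) (fun y hy q r h h' hr => h2 y hy q r h ⟨hr, h'⟩)
  exact ⟨q, ⟨h3, h4⟩, h5⟩

/-- **ZFC with the generic class** -/
theorem zfcu : ZFCU (SetModel.E : M → M → Prop) G.U where
  ext := SetModel.zfc.ext
  found := SetModel.zfc.found
  pair := SetModel.zfc.pair
  union := SetModel.zfc.union
  power := SetModel.zfc.power
  infinity := SetModel.zfc.infinity
  choice := SetModel.zfc.choice
  sep φ v x := by
    have h1 : DP2 fun z q : M => Fc (corU φ) q (cons z v) ∨ Fc (.neg (corU φ)) q (cons z v) :=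
      ⟨by
        have h1 := fc_dfp1 (corU φ) v (f := fun γ : (E0 M × M) × M => γ.2)
          (g := fun γ : (E0 M × M) × M => γ.1.2)
        have h2 := fc_dfp1 (.neg (corU φ)) v (f := fun γ : (E0 M × M) × M => γ.2)
          (g := fun γ : (E0 M × M) × M => γ.1.2)
        exact Dfp.or⟩
    obtain ⟨n, hn⟩ := G.meets_all x _ h1 (fun z _ q hq => by
        by_cases hc : ∃ r, Sg r q ∧ Fc (corU φ) r (cons z v)
        · obtain ⟨r, h2, h3⟩ := hc
          exact ⟨r, h2, Or.inl h3⟩
        · exact ⟨q, Sg.refl hq, Or.inr fun r hr h => hc ⟨r, hr, h⟩⟩) (fun z _ q r h hr => by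
        rcases h with h | h
        · exact Or.inl (h.mono hr)
        · exact Or.inr (h.mono hr))
    have h2 := fc_dfp1 (corU φ) v (f := fun _ : E0 M × M => G.s n) (g := fun γ : E0 M × M => γ.2)
    refine ⟨sep x fun z => Fc (corU φ) (G.s n) (cons z v), fun z => ?_⟩
    refine (mem_sep (P := fun z => Fc (corU φ) (G.s n) (cons z v))).trans ?_
    refine and_congr_right fun hz => ?_
    rw [← satC_corU, G.truth]
    refine ⟨fun h => ⟨n, h⟩, fun h => ?_⟩
    rcases hn z hz with h3 | h3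
    · exact h3
    · have h4 := (G.truth (.neg (corU φ)) (cons z v)).2 ⟨n, h3⟩
      exact absurd ((G.truth _ _).2 h) h4
  repl φ v x hx := by
    have h1 : DP2 fun z q : M => (∃ b, Fc (corU φ) q (cons b (cons z v))) ∨
        ∀ b, Fc (.neg (corU φ)) q (cons b (cons z v)) :=
      ⟨by
        have h1 := fc_dfp2 (corU φ) v (f := fun γ : ((E0 M × M) × M) × M => γ.1.2)
          (g := fun γ : ((E0 M × M) × M) × M => γ.1.1.2)
          (h := fun γ : ((E0 M × M) × M) × M => γ.2)
        have h2 := fc_dfp2 (.neg (corU φ)) v (f := fun γ : ((E0 M × M) × M) × M => γ.1.2)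
          (g := fun γ : ((E0 M × M) × M) × M => γ.1.1.2)
          (h := fun γ : ((E0 M × M) × M) × M => γ.2)
        exact Dfp.or⟩
    obtain ⟨n, hn⟩ := G.meets_all x _ h1 (fun z _ q hq => by
        by_cases hc : ∃ r, Sg r q ∧ ∃ b, Fc (corU φ) r (cons b (cons z v))
        · obtain ⟨r, h2, h3⟩ := hc
          exact ⟨r, h2, Or.inl h3⟩
        · exact ⟨q, Sg.refl hq, Or.inr fun b r hr h => hc ⟨r, hr, b, h⟩⟩) (fun z _ q r h hr => by
        rcases h with ⟨b, h⟩ | h
        · exact Or.inl ⟨b, h.mono hr⟩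
        · exact Or.inr fun b => (h b).mono hr)
    have key : ∀ a ∈ x, ∃! b, Fc (corU φ) (G.s n) (cons b (cons a v)) := by
      intro a ha
      obtain ⟨b, hb, hu⟩ := hx a ha
      have huq : ∀ b', Fc (corU φ) (G.s n) (cons b' (cons a v)) → b' = b := fun b' h' =>
        hu b' ((satC_corU _ _ _ _).1 ((G.truth _ _).2 ⟨n, h'⟩))
      rcases hn a ha with ⟨b', h3⟩ | h3
      · exact ⟨b', h3, fun b'' h'' => (huq _ h'').trans (huq _ h3).symm⟩
      · have h4 := (G.truth (.neg (corU φ)) (cons b (cons a v))).2 ⟨n, h3 b⟩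
        exact absurd ((satC_corU _ _ _ _).2 hb) h4
    have h2 := fc_dfp2 (corU φ) v (f := fun _ : (E0 M × M) × M => G.s n)
      (g := fun γ : (E0 M × M) × M => γ.1.2) (h := fun γ : (E0 M × M) × M => γ.2)
    refine ⟨img x fun a => the fun b => Fc (corU φ) (G.s n) (cons b (cons a v)), fun b => ?_⟩
    refine (mem_img (F := fun a => the fun b => Fc (corU φ) (G.s n) (cons b (cons a v)))).trans ?_
    refine exists_congr fun a => and_congr_right fun ha => ?_
    have h3 := the_spec (key a ha)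
    rw [← satC_corU, G.truth]
    constructor
    · rintro rfl
      exact ⟨n, h3⟩
    · intro h
      obtain ⟨b', hb', hu⟩ := hx a ha
      have e1 := hu _ ((satC_corU _ _ _ _).1 ((G.truth _ _).2 h))
      have e2 := hu _ ((satC_corU _ _ _ _).1 ((G.truth _ _).2 ⟨n, h3⟩))
      exact e1.trans e2.symm

end GSeq

end

end Pool.Agent.IST
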