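import Pool.Agent.IST.GenU
import Pool.Agent.IST.Cod
import Pool.Agent.IST.GCh

/-!
# The generic class codes and chooses
-/

set_option synthInstance.maxSize 100000

namespace Pool.Agent.IST

open Pool.Agent.BVM

section

variable {M : Type} [SetModel M] {Γ : Type} [IsCtx Γ M]

/-! ### changing the class -/

/-- formulas about a definable class -/
theorem dfp_satU' {U' : M → Prop} (hU : DP1 U') (φ : FmlU) : ∀ {Γ : Type} [IsCtx Γ M]
    (s : ℕ → Γ → M), (∀ i, Dff (s i)) → Dfp fun γ => SatU SetModel.E U' φ fun i => s i γ := by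
  induction φ with
  | mem i j =>
    intro Γ _ s hs
    have h1 := hs i
    have h2 := hs j
    exact (inferInstance : Dfp fun γ => s i γ ∈ s j γ)
  | eq i j =>
    intro Γ _ s hs
    have h1 := hs i
    have h2 := hs j
    exact (inferInstance : Dfp fun γ => s i γ = s j γ)
  | cl i =>
    intro Γ _ s hs
    have h1 := hs i
    exact (inferInstance : Dfp fun γ => U' (s i γ))
  | neg a ih =>
    intro Γ _ s hs
    have h1 := ih s hs
    exact Dfp.not
  | and a b iha ihb =>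
    intro Γ _ s hs
    have h1 := iha s hs
    have h2 := ihb s hs
    exact Dfp.and
  | or a b iha ihb =>
    intro Γ _ s hs
    have h1 := iha s hs
    have h2 := ihb s hs
    exact Dfp.or
  | imp a b iha ihb =>
    intro Γ _ s hs
    have h1 := iha s hs
    have h2 := ihb s hs
    exact Dfp.imp
  | iff a b iha ihb =>
    intro Γ _ s hs
    have h1 := iha s hs
    have h2 := ihb s hs
    exact Dfp.iff
  | all a ih =>
    intro Γ _ s hs
    have h1 : Dfp fun γ : Γ × M => SatU SetModel.E U' a (cons γ.2 fun i => s i γ.1) := by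
      have := ih (fun i (γ : Γ × M) => cons γ.2 (fun i => s i γ.1) i) fun i => by
        cases i with
        | zero => exact (inferInstance : Dff fun γ : Γ × M => γ.2)
        | succ i =>
          have := hs i
          exact (inferInstance : Dff fun γ : Γ × M => s i γ.1)
      exact this
    exact Dfp.all
  | ex a ih =>
    intro Γ _ s hs
    have h1 : Dfp fun γ : Γ × M => SatU SetModel.E U' a (cons γ.2 fun i => s i γ.1) := by
      have := ih (fun i (γ : Γ × M) => cons γ.2 (fun i => s i γ.1) i) fun i => by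
        cases i with
        | zero => exact (inferInstance : Dff fun γ : Γ × M => γ.2)
        | succ i =>
          have := hs i
          exact (inferInstance : Dff fun γ : Γ × M => s i γ.1)
      exact this
    exact Dfp.ex

/-- ZFC with another definable class -/
theorem zfcu_of_dfp {U' : M → Prop} (hU : DP1 U') : ZFCU (SetModel.E : M → M → Prop) U' where
  ext := SetModel.zfc.ext
  found := SetModel.zfc.found
  pair := SetModel.zfc.pair
  union := SetModel.zfc.union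
  power := SetModel.zfc.power
  infinity := SetModel.zfc.infinity
  choice := SetModel.zfc.choice
  sep φ v x := by
    have h1 : Dfp fun γ : E0 M × M => SatU SetModel.E U' φ (cons γ.2 v) := by
      have := dfp_satU' hU φ (fun i (γ : E0 M × M) => cons γ.2 v i) fun i => by
        cases i with
        | zero => exact (inferInstance : Dff fun γ : E0 M × M => γ.2)
        | succ i => exact (inferInstance : Dff fun _ : E0 M × M => v i)
      exact this
    exact ⟨sep x fun z => SatU SetModel.E U' φ (cons z v), fun z =>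
      mem_sep (P := fun z => SatU SetModel.E U' φ (cons z v))⟩
  repl φ v x hx := by
    have h1 : Dfp fun γ : (E0 M × M) × M => SatU SetModel.E U' φ (cons γ.2 (cons γ.1.2 v)) := by
      have := dfp_satU' hU φ (fun i (γ : (E0 M × M) × M) => cons γ.2 (cons γ.1.2 v) i) fun i => by
        cases i with
        | zero => exact (inferInstance : Dff fun γ : (E0 M × M) × M => γ.2)
        | succ i =>
          cases i with
          | zero => exact (inferInstance : Dff fun γ : (E0 M × M) × M => γ.1.2)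
          | succ i => exact (inferInstance : Dff fun _ : (E0 M × M) × M => v i)
      exact this
    refine ⟨img x fun a => the fun b => SatU SetModel.E U' φ (cons b (cons a v)), fun b => ?_⟩
    refine (mem_img (F := fun a => the fun b => SatU SetModel.E U' φ (cons b (cons a v)))).trans ?_
    refine exists_congr fun a => and_congr_right fun ha => ?_
    have h3 := the_spec (hx a ha)
    constructor
    · rintro rfl
      exact h3
    · intro h
      exact (hx a ha).unique h h3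

namespace GSeq

variable (G : GSeq M)

theorem exists_op {z : M} (h : G.U z) : ∃ α x, IsOrd α ∧ z = op α x := by
  obtain ⟨n, hn⟩ := h
  obtain ⟨α, x, rfl⟩ := (G.cn n).1.1 z hn
  exact ⟨α, x, (G.cn n).2.mem (mem_dom.2 ⟨x, hn⟩), rfl⟩

theorem unique {α x y : M} (h : G.U (op α x)) (h' : G.U (op α y)) : x = y := by
  obtain ⟨n, hn⟩ := h
  obtain ⟨m, hm⟩ := h'
  exact (G.cn (max n m)).1.2 α x y (G.mono' (le_max_left n m) _ hn)
    (G.mono' (le_max_right n m) _ hm)

/-- values of the generic function are given by the conditions -/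
theorem op_iff {n : ℕ} {α x : M} (h : α ∈ dom (G.s n)) : G.U (op α x) ↔ op α x ∈ G.s n := by
  refine ⟨fun h' => ?_, fun h' => ⟨n, h'⟩⟩
  obtain ⟨y, hy⟩ := mem_dom.1 h
  rw [G.unique h' ⟨n, hy⟩]
  exact hy

/-- the generic function is onto -/
theorem onto (x : M) : ∃ α, IsOrd α ∧ G.U (op α x) := by
  obtain ⟨n, α, hn⟩ := G.meets (fun q => ∃ α, op α x ∈ q) inferInstance (by
    intro p hp
    have hn : dom p ∉ dom p := mem_irrefl _
    refine ⟨p ∪ sing (op (dom p) x), ⟨⟨⟨fun z hz => ?_, fun a b b' h1 h2 => ?_⟩, ?_⟩,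
      sub_union_left⟩, dom p, mem_union.2 (Or.inr (mem_sing.2 rfl))⟩
    · rcases mem_union.1 hz with h | h
      · exact hp.1.1 z h
      · exact ⟨_, _, mem_sing.1 h⟩
    · rw [mem_union, mem_sing] at h1 h2
      rcases h1 with h1 | h1 <;> rcases h2 with h2 | h2
      · exact hp.1.2 a b b' h1 h2
      · exact absurd (mem_dom.2 ⟨b, h1⟩) ((op_inj.1 h2).1 ▸ hn)
      · exact absurd (mem_dom.2 ⟨b', h2⟩) ((op_inj.1 h1).1 ▸ hn)
      · rw [(op_inj.1 h1).2, (op_inj.1 h2).2]
    · have e : dom (p ∪ sing (op (dom p) x)) = sc (dom p) := by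
        apply ext; intro z
        rw [mem_sc, mem_dom]
        constructor
        · rintro ⟨y, hy⟩
          rcases mem_union.1 hy with h | h
          · exact Or.inl (mem_dom.2 ⟨y, h⟩)
          · exact Or.inr (op_inj.1 (mem_sing.1 h)).1
        · rintro (h | h)
          · obtain ⟨y, hy⟩ := mem_dom.1 h
            exact ⟨y, mem_union.2 (Or.inl hy)⟩
          · exact ⟨x, mem_union.2 (Or.inr (mem_sing.2 (by rw [h])))⟩
      rw [e]
      exact hp.2.sc)
  exact ⟨α, (G.cn n).2.mem (mem_dom.2 ⟨x, hn⟩), n, hn⟩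

/-- the generic function codes -/
theorem codes {θ x l₀ : M} (hθ : IsOrd θ) (hl₀ : IsOrd l₀) (hx : x ⊆ θ) :
    ∃ l, IsLim l ∧ l₀ ∈ l ∧ ∀ b ∈ θ, (G.U (op (lmf l b) ∅) ↔ b ∈ x) := by
  obtain ⟨n, l, hl, hl', hn⟩ := G.meets (fun q => ∃ l, IsLim l ∧ l₀ ∈ l ∧
    ∀ b ∈ θ, lmf l b ∈ dom q ∧ (op (lmf l b) ∅ ∈ q ↔ b ∈ x)) inferInstance (by
    classical
    intro p hp
    obtain ⟨l, hl, hl'⟩ := exists_lim_above (isOrd_union hl₀ hp.2)
    have h1 : l₀ ∈ l := (hl₀.mem_of_sub_of_mem hl.1 sub_union_left hl')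
    have h2 : dom p ∈ l := (hp.2.mem_of_sub_of_mem hl.1 sub_union_right hl')
    have hsub : dom p ⊆ lmf l θ := fun z hz => sub_lmf hl.1 z (hl.1.trans hz h2)
    refine ⟨lam (lmf l θ) fun ξ => if ξ ∈ dom p then ap p ξ else
      if ∃ b ∈ x, ξ = lmf l b then ∅ else sing ∅, ⟨⟨isFun_lam, ?_⟩, fun z hz => ?_⟩, l, hl, h1,
      fun b hb => ⟨?_, ?_⟩⟩
    · rw [dom_lam]
      exact (isLim_lmf hl.1).1
    · obtain ⟨ξ, hξ, rfl⟩ := hp.1.mem_iff.1 hz
      refine op_mem_lam.2 ⟨hsub ξ hξ, ?_⟩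
      rw [if_pos hξ]
    · rw [dom_lam]
      exact lmf_mem hl.1 hb
    · rw [op_mem_lam]
      have h3 : lmf l b ∉ dom p := fun h => mem_irrefl _ (sub_lmf hl.1 _ (hl.1.trans h h2))
      rw [if_neg h3]
      constructor
      · rintro ⟨-, h4⟩
        by_contra h5
        rw [if_neg] at h4
        · exact notMem_empty ∅ (h4 ▸ mem_sing.2 rfl)
        · rintro ⟨c, hc, h6⟩
          rw [lmf_inj hl.1 (hθ.mem hb) (hθ.mem (hx c hc)) h6] at h5
          exact h5 hc
      · intro h4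
        refine ⟨lmf_mem hl.1 hb, ?_⟩
        rw [if_pos ⟨b, h4, rfl⟩])
  refine ⟨l, hl, hl', fun b hb => ?_⟩
  rw [G.op_iff (hn b hb).1]
  exact (hn b hb).2

end GSeq

/-! ### the final class -/

/-- a class function from the ordinals onto the universe gives definable choice -/
theorem gch_of (h1 : ∀ α x y : M, SetModel.U (op α x) → SetModel.U (op α y) → x = y)
    (h2 : ∀ x : M, ∃ α, IsOrd α ∧ SetModel.U (op α x)) : GCh M := by
  refine ⟨fun x => the fun y => ∃ α, IsOrd α ∧ y ∈ x ∧ SetModel.U (op α y) ∧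
    ∀ β ∈ α, ∀ z ∈ x, ¬ SetModel.U (op β z), inferInstance, fun x hx => ?_⟩
  obtain ⟨y, hy⟩ := ne_empty_iff.1 hx
  obtain ⟨α₀, hα₀, hu⟩ := h2 y
  obtain ⟨α, hα, ⟨z, hz, hzu⟩, hm⟩ := exists_min (fun α => ∃ z ∈ x, SetModel.U (op α z)) hα₀
    ⟨y, hy, hu⟩
  have : ∃! y, ∃ α, IsOrd α ∧ y ∈ x ∧ SetModel.U (op α y) ∧
      ∀ β ∈ α, ∀ z ∈ x, ¬ SetModel.U (op β z) := by
    refine ⟨z, ⟨α, hα, hz, hzu, fun β hβ w hw hwu => hm β hβ ⟨w, hw, hwu⟩⟩, ?_⟩
    rintro w ⟨β, hβ, hw, hwu, hβm⟩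
    rcases hβ.cmp hα with h | h | h
    · exact absurd ⟨w, hw, hwu⟩ (hm β h)
    · subst h
      exact h1 _ _ _ hwu hzu
    · exact absurd hzu (hβm α h z hz)
  obtain ⟨α', -, h3, -⟩ := the_spec this
  exact h3

theorem op_ne_empty {x y : M} : op x y ≠ ∅ := ne_empty_iff.2 ⟨_, mem_op.2 (Or.inl rfl)⟩

theorem not_isLim_op {x y : M} : ¬ IsLim (op x y) := fun h => by
  rcases mem_op.1 (empty_mem_of_isLim h) with h1 | h1
  · exact notMem_empty x (h1 ▸ mem_sing.2 rfl)
  · exact notMem_empty x (h1 ▸ mem_upair.2 (Or.inl rfl))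

/-- the final class: bits at limit indices, and the generic function -/
def finU (κ B z : M) : Prop :=
  ((z = ∅ ∨ IsLim z) ∧ (z ∈ κ → z ∈ B) ∧ (z ∉ κ → SetModel.U (op z ∅))) ∨
    ∃ α x, IsOrd α ∧ z = op α x ∧ SetModel.U z

instance finU.dp1 {κ B : M} : DP1 (finU κ B) := ⟨by unfold finU; infer_instance⟩

theorem finU_op {κ B α x : M} (hα : IsOrd α) : finU κ B (op α x) ↔ SetModel.U (op α x) := by
  constructor
  · rintro (⟨h | h, -⟩ | ⟨_, _, -, -, h⟩)
    · exact absurd h op_ne_empty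
    · exact absurd h not_isLim_op
    · exact h
  · intro h
    exact Or.inr ⟨α, x, hα, rfl, h⟩

theorem finU_low {κ B z : M} (hz : z = ∅ ∨ IsLim z) (h : z ∈ κ) : finU κ B z ↔ z ∈ B := by
  constructor
  · rintro (⟨-, h1, -⟩ | ⟨α, x, -, h1, -⟩)
    · exact h1 h
    · subst h1
      rcases hz with h2 | h2
      · exact absurd h2 op_ne_empty
      · exact absurd h2 not_isLim_op
  · intro h1
    exact Or.inl ⟨hz, fun _ => h1, fun h2 => absurd h h2⟩

theorem finU_high {κ B z : M} (hz : z = ∅ ∨ IsLim z) (h : z ∉ κ) :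
    finU κ B z ↔ SetModel.U (op z ∅) := by
  constructor
  · rintro (⟨-, -, h1⟩ | ⟨α, x, -, h1, -⟩)
    · exact h1 h
    · subst h1
      rcases hz with h2 | h2
      · exact absurd h2 op_ne_empty
      · exact absurd h2 not_isLim_op
  · intro h1
    exact Or.inl ⟨hz, fun h2 => absurd h2 h, fun _ => h1⟩

/-- the model with the final class -/
theorem exists_final (κ B : M)
    (h0 : ∀ z : M, SetModel.U z → ∃ α x, IsOrd α ∧ z = op α x)
    (h1 : ∀ α x y : M, SetModel.U (op α x) → SetModel.U (op α y) → x = y)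
    (h2 : ∀ x : M, ∃ α, IsOrd α ∧ SetModel.U (op α x))
    (h3 : ∀ θ x l₀ : M, IsOrd θ → IsOrd l₀ → x ⊆ θ → ∃ l, IsLim l ∧ l₀ ∈ l ∧
      ∀ b ∈ θ, (SetModel.U (op (lmf l b) ∅) ↔ b ∈ x)) :
    ∃ (U' : M → Prop) (hU : ZFCU (SetModel.E : M → M → Prop) U'),
      @GCh M ⟨SetModel.E, U', hU⟩ ∧ @Cod M ⟨SetModel.E, U', hU⟩ ∧
      ∀ l ∈ κ, l = ∅ ∨ IsLim l → (U' l ↔ l ∈ B) := by
  have hop : ∀ α x : M, finU κ B (op α x) → IsOrd α ∧ SetModel.U (op α x) := by
    rintro α x (⟨h | h, -⟩ | ⟨β, y, hβ, h, h'⟩)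
    · exact absurd h op_ne_empty
    · exact absurd h not_isLim_op
    · exact ⟨(op_inj.1 h).1 ▸ hβ, h'⟩
  have g1 : ∀ α x y : M, finU κ B (op α x) → finU κ B (op α y) → x = y := fun α x y hx hy =>
    h1 α x y (hop α x hx).2 (hop α y hy).2
  have g2 : ∀ x : M, ∃ α, IsOrd α ∧ finU κ B (op α x) := fun x => by
    obtain ⟨α, hα, h⟩ := h2 x
    exact ⟨α, hα, (finU_op hα).2 h⟩
  have g3 : ∀ θ x l₀ : M, IsOrd θ → IsOrd l₀ → x ⊆ θ → ∃ l, IsLim l ∧ l₀ ∈ l ∧
      ∀ b ∈ θ, (finU κ B (lmf l b) ↔ b ∈ x) := by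
    intro θ x l₀ hθ hl₀ hx
    obtain ⟨γ, hγ, hγ'⟩ := exists_ord_above κ
    obtain ⟨l, hl, hl', h⟩ := h3 θ x (l₀ ∪ γ) hθ (isOrd_union hl₀ hγ) hx
    refine ⟨l, hl, hl₀.mem_of_sub_of_mem hl.1 sub_union_left hl', fun b hb => ?_⟩
    have h4 : γ ∈ l := hγ.mem_of_sub_of_mem hl.1 sub_union_right hl'
    rw [finU_high (Or.inr (isLim_lmf hl.1)), h b hb]
    intro h5
    exact mem_asymm (hγ' _ h5 (isLim_lmf hl.1).1) (sub_lmf hl.1 γ h4)
  refine ⟨finU κ B, zfcu_of_dfp finU.dp1, ?_, ?_, fun l hl hl' => finU_low hl' hl⟩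
  · exact @gch_of M ⟨SetModel.E, finU κ B, zfcu_of_dfp finU.dp1⟩ g1 g2
  · exact @cod_of_lmf M ⟨SetModel.E, finU κ B, zfcu_of_dfp finU.dp1⟩ g3

/-- **over every countable model of ZFC there is a coding class** with given bits below `κ` -/
theorem exists_class [Countable M] (κ B : M) :
    ∃ (U' : M → Prop) (hU : ZFCU (SetModel.E : M → M → Prop) U'),
      @GCh M ⟨SetModel.E, U', hU⟩ ∧ @Cod M ⟨SetModel.E, U', hU⟩ ∧
      ∀ l ∈ κ, l = ∅ ∨ IsLim l → (U' l ↔ l ∈ B) := by
  obtain ⟨G⟩ := exists_gseq (M := M)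
  exact @exists_final M ⟨SetModel.E, G.U, G.zfcu⟩ κ B (fun z h => G.exists_op h)
    (fun α x y h h' => G.unique h h') G.onto fun θ x l₀ h h' h'' => G.codes h h' h''

end

end Pool.Agent.IST
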