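import Pool.Agent.IST.GenV

/-!
# The generic class and the bits

The bits: those of the set `B` below `κ`, and generic above.
-/

set_option synthInstance.maxSize 100000

namespace Pool.Agent.IST

open Pool.Agent.BVM

section

variable {M : Type} [SetModel M] {Γ : Type} [IsCtx Γ M]

/-- the coding property of a class of bits, with the enumeration `lmf` -/
def LCod (b : M → Prop) : Prop := ∀ θ x l₀ : M, IsOrd θ → IsOrd l₀ → x ⊆ θ → ∃ l, IsLim l ∧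
  l₀ ∈ l ∧ ∀ ξ ∈ θ, (b (lmf l ξ) ↔ ξ ∈ x)

/-- the coding property, relational form -/
theorem LCod.rel {b : M → Prop} (h : LCod b) (t x l0 : M) (ht : IsOrd t) (hl : IsOrd l0)
    (hx : x ⊆ t) : ∃ l l' g : M, l0 ∈ l ∧ IsLim l ∧ IsOrd l' ∧
    Maps g t l' ∧ (∀ ξ ∈ t, IsLim (ap g ξ) ∧ l ⊆ ap g ξ) ∧
    (∀ ξ ∈ t, ∀ ζ ∈ ξ, ap g ζ ∈ ap g ξ) ∧
    (∀ m ∈ l', IsLim m → l ⊆ m → ∃ ξ ∈ t, m = ap g ξ) ∧
    ∀ ξ ∈ t, (b (ap g ξ) ↔ ξ ∈ x) := by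
  obtain ⟨l, hl1, hl2, h1⟩ := h t x l0 ht hl hx
  refine ⟨l, lmf l t, lam t fun ξ => lmf l ξ, hl2, hl1, (isLim_lmf hl1.1).1,
    maps_lam fun ξ hξ => lmf_mem hl1.1 hξ, fun ξ hξ => ?_, fun ξ hξ ζ hζ => ?_,
    fun m hm h2 h3 => ?_, fun ξ hξ => ?_⟩
  · rw [ap_lam hξ]
    exact ⟨isLim_lmf hl1.1, sub_lmf hl1.1⟩
  · rw [ap_lam hξ, ap_lam (ht.trans hζ hξ)]
    exact lmf_mem hl1.1 hζ
  · obtain ⟨ξ, hξ, e⟩ := exists_lmf hl1.1 h2 h3 t ht hm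
    exact ⟨ξ, hξ, by rw [ap_lam hξ, e]⟩
  · rw [ap_lam hξ]
    exact h1 ξ hξ

/-- the bits -/
def bitU (κ B z : M) : Prop := (z ∈ κ → z ∈ B) ∧ (z ∉ κ → SetModel.U (op z ∅))

instance bitU.dp1 {κ B : M} : DP1 (bitU κ B) := ⟨by unfold bitU; infer_instance⟩

theorem bitU_low {κ B z : M} (h : z ∈ κ) : bitU κ B z ↔ z ∈ B :=
  ⟨fun h1 => h1.1 h, fun h1 => ⟨fun _ => h1, fun h2 => absurd h h2⟩⟩

theorem bitU_high {κ B z : M} (h : z ∉ κ) : bitU κ B z ↔ SetModel.U (op z ∅) :=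
  ⟨fun h1 => h1.2 h, fun h1 => ⟨fun h2 => absurd h2 h, fun _ => h1⟩⟩

theorem lcod_bitU (κ B : M)
    (h3 : ∀ θ x l₀ : M, IsOrd θ → IsOrd l₀ → x ⊆ θ → ∃ l, IsLim l ∧ l₀ ∈ l ∧
      ∀ b ∈ θ, (SetModel.U (op (lmf l b) ∅) ↔ b ∈ x)) : LCod (bitU κ B) := by
  intro θ x l₀ hθ hl₀ hx
  obtain ⟨γ, hγ, hγ'⟩ := exists_ord_above κ
  obtain ⟨l, hl, hl', h⟩ := h3 θ x (l₀ ∪ γ) hθ (isOrd_union hl₀ hγ) hx
  refine ⟨l, hl, hl₀.mem_of_sub_of_mem hl.1 sub_union_left hl', fun b hb => ?_⟩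
  have h4 : γ ∈ l := hγ.mem_of_sub_of_mem hl.1 sub_union_right hl'
  rw [bitU_high, h b hb]
  intro h5
  exact mem_asymm (hγ' _ h5 (isLim_lmf hl.1).1) (sub_lmf hl.1 γ h4)

/-- **over every countable model of ZFC** there is a class `U'` with definable choice and a
definable class of bits which has the coding property and is given by `B` below `κ` -/
theorem exists_bits_class [Countable M] (κ B : M) :
    ∃ (U' : M → Prop) (hU : ZFCU (SetModel.E : M → M → Prop) U'),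
      @GCh M ⟨SetModel.E, U', hU⟩ ∧ ∃ b : M → Prop, @DP1 M ⟨SetModel.E, U', hU⟩ b ∧
        @LCod M ⟨SetModel.E, U', hU⟩ b ∧ ∀ z ∈ κ, (b z ↔ z ∈ B) := by
  obtain ⟨G⟩ := exists_gseq (M := M)
  refine ⟨G.U, G.zfcu, ?_, @bitU M ⟨SetModel.E, G.U, G.zfcu⟩ κ B, ?_, ?_, ?_⟩
  · exact @gch_of M ⟨SetModel.E, G.U, G.zfcu⟩ (fun α x y h h' => G.unique h h') G.onto
  · exact @bitU.dp1 M ⟨SetModel.E, G.U, G.zfcu⟩ κ B
  · exact @lcod_bitU M ⟨SetModel.E, G.U, G.zfcu⟩ κ B fun θ x l₀ h h' h'' => G.codes h h' h''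
  · exact fun z hz => @bitU_low M ⟨SetModel.E, G.U, G.zfcu⟩ κ B z hz

end

end Pool.Agent.IST
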