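import Pool.Agent.IST.Nfu
import Pool.Agent.IST.Rank

/-!
# From ineffability to normal fine ultrafilters

`e` enumerates the subsets of `D = pws κ lam` with indices in the ordinal `l1`, and `S ⊆ l1` is a
set of indices which agrees, on the elements of suitable `a ⊆ l1`, with the set of all `ξ` such
that `a ∩ lam ∈ e ξ`.  Then the set of all `e ξ`, `ξ ∈ S`, is a `κ`-complete normal fine
ultrafilter.

Paper proof.  Every property of the ultrafilter concerns finitely many indices and a function `h`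
of indices; take `a` which contains these indices and is closed under `h`.
-/

set_option synthInstance.maxSize 100000

namespace Pool.Agent.IST

open Pool.Agent.BVM

section

variable {M : Type} [SetModel M] {Γ : Type} [IsCtx Γ M]

/-- `S` is an ineffable branch of the list `a ↦ {ξ ∈ a : a ∩ lam ∈ e ξ}` -/
structure Ineff (κ lam l1 e S : M) : Prop where
  ordk : IsOrd κ
  omk : om ⊆ κ
  ordl : IsOrd lam
  kl : κ ⊆ lam
  ord1 : IsOrd l1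
  l1l : lam ⊆ l1
  sub : ∀ ξ ∈ l1, ap e ξ ⊆ pws κ lam
  onto : ∀ X, X ⊆ pws κ lam → ∃ ξ ∈ l1, ap e ξ = X
  Sl : S ⊆ l1
  br : ∀ g, Maps g (prod om l1) l1 → ∃ a, ∅ ∈ a ∧ a ⊆ l1 ∧ a ∩ lam ∈ pws κ lam ∧ a ∩ κ ∈ κ ∧
    (∀ n ∈ (om : M), ∀ ξ ∈ a, ap g (op n ξ) ∈ a) ∧ ∀ ξ ∈ a, (ξ ∈ S ↔ a ∩ lam ∈ ap e ξ)

namespace Ineff

variable {κ lam l1 e S : M}

theorem br' (H : Ineff κ lam l1 e S) {h c1 c2 c3 : M} (hh : Maps h l1 l1) (h1 : c1 ∈ l1)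
    (h2 : c2 ∈ l1) (h3 : c3 ∈ l1) : ∃ a, a ⊆ l1 ∧ c1 ∈ a ∧ c2 ∈ a ∧ c3 ∈ a ∧
      a ∩ lam ∈ pws κ lam ∧ a ∩ κ ∈ κ ∧ (∀ ξ ∈ a, ap h ξ ∈ a) ∧
      ∀ ξ ∈ a, (ξ ∈ S ↔ a ∩ lam ∈ ap e ξ) := by
  classical
  have hF : Dff fun γ : E0 M × M => (if p1 γ.2 = ∅ then ap h (p2 γ.2) else
    if p1 γ.2 = sc ∅ then c1 else if p1 γ.2 = sc (sc ∅) then c2 else c3) := inferInstance
  have hg : Maps (IST.lam (prod om l1) fun p => if p1 p = ∅ then ap h (p2 p) else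
      if p1 p = sc ∅ then c1 else if p1 p = sc (sc ∅) then c2 else c3) (prod om l1) l1 := by
    refine maps_lam fun p hp => ?_
    obtain ⟨n, -, ξ, hξ, rfl⟩ := mem_prod.1 hp
    rw [p1_op, p2_op]
    split_ifs
    · exact hh.ap_mem hξ
    · exact h1
    · exact h2
    · exact h3
  obtain ⟨a, h0, ha, hal, hak, hcl, hS⟩ := H.br _ hg
  have o0 : (∅ : M) ∈ (om : M) := mem_om.2 isNat_empty
  have o1 : sc (∅ : M) ∈ (om : M) := isLim_om.2.2 _ o0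
  have o2 : sc (sc (∅ : M)) ∈ (om : M) := isLim_om.2.2 _ o1
  have o3 : sc (sc (sc (∅ : M))) ∈ (om : M) := isLim_om.2.2 _ o2
  have n0 : ∀ x : M, sc x ≠ ∅ := by
    intro x h
    have h1 : x ∈ sc x := self_mem_sc x
    rw [h] at h1
    exact notMem_empty _ h1
  have n1 : sc (∅ : M) ≠ ∅ := n0 _
  have n2 : sc (sc (∅ : M)) ≠ ∅ := n0 _
  have n3 : sc (sc (sc (∅ : M))) ≠ ∅ := n0 _
  have n21 : sc (sc (∅ : M)) ≠ sc ∅ := fun h => n1 (sc_inj h)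
  have n31 : sc (sc (sc (∅ : M))) ≠ sc ∅ := fun h => n2 (sc_inj h)
  have n32 : sc (sc (sc (∅ : M))) ≠ sc (sc ∅) := fun h => n21 (sc_inj h)
  have hap : ∀ n ∈ (om : M), ∀ ξ ∈ a, ap (IST.lam (prod om l1) fun p =>
      if p1 p = ∅ then ap h (p2 p) else
      if p1 p = sc ∅ then c1 else if p1 p = sc (sc ∅) then c2 else c3) (op n ξ) =
      if n = ∅ then ap h ξ else if n = sc ∅ then c1 else if n = sc (sc ∅) then c2 else c3 := by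
    intro n hn ξ hξ
    rw [ap_lam (op_mem_prod.2 ⟨hn, ha ξ hξ⟩), p1_op, p2_op]
  refine ⟨a, ha, ?_, ?_, ?_, hal, hak, fun ξ hξ => ?_, hS⟩
  · have := hcl _ o1 _ h0
    rwa [hap _ o1 _ h0, if_neg n1, if_pos rfl] at this
  · have := hcl _ o2 _ h0
    rwa [hap _ o2 _ h0, if_neg n2, if_neg n21, if_pos rfl] at this
  · have := hcl _ o3 _ h0
    rwa [hap _ o3 _ h0, if_neg n3, if_neg n31, if_neg n32] at this
  · have := hcl _ o0 _ hξ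
    rwa [hap _ o0 _ hξ, if_pos rfl] at this

/-- three indices -/
theorem br3 (H : Ineff κ lam l1 e S) {c1 c2 c3 : M} (h1 : c1 ∈ l1)
    (h2 : c2 ∈ l1) (h3 : c3 ∈ l1) : ∃ x ∈ pws κ lam, (c1 ∈ S ↔ x ∈ ap e c1) ∧
      (c2 ∈ S ↔ x ∈ ap e c2) ∧ (c3 ∈ S ↔ x ∈ ap e c3) := by
  obtain ⟨a, -, a1, a2, a3, a4, -, -, a5⟩ := H.br' (h := idf l1) (bij_idf l1).1 h1 h2 h3
  exact ⟨_, a4, a5 _ a1, a5 _ a2, a5 _ a3⟩

theorem mem_iff (H : Ineff κ lam l1 e S) {ξ : M} (h : ξ ∈ l1) :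
    ap e ξ ∈ img S (fun ξ => ap e ξ) ↔ ξ ∈ S := by
  rw [mem_img]
  constructor
  · rintro ⟨ζ, hζ, he⟩
    obtain ⟨x, -, h1, h2, -⟩ := H.br3 h (H.Sl ζ hζ) h
    rw [h1, he]
    exact h2.1 hζ
  · intro h1
    exact ⟨ξ, h1, rfl⟩

/-- indices of the values of a function -/
noncomputable def idx (e F z : M) : M := lst fun ξ => ap e ξ = ap F z

instance idx.dff {f g h : Γ → M} [Dff f] [Dff g] [Dff h] :
    Dff fun γ => idx (f γ) (g γ) (h γ) := by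
  unfold idx; infer_instance

theorem idx_spec (H : Ineff κ lam l1 e S) {F z : M} (h : ap F z ∈ img S fun ξ => ap e ξ) :
    idx e F z ∈ l1 ∧ ap e (idx e F z) = ap F z := by
  obtain ⟨ξ, hξ, he⟩ := mem_img.1 h
  have hl := H.Sl ξ hξ
  have ho := H.ord1.mem hl
  have h1 := lst_spec (P := fun ξ => ap e ξ = ap F z) ho he.symm
  have h2 := lst_sub (P := fun ξ => ap e ξ = ap F z) ho he.symm
  exact ⟨h1.1.mem_of_sub_of_mem H.ord1 h2 hl, h1.2.1⟩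

/-- the index function -/
noncomputable def ixf (l1 e F d : M) : M := by
  classical
  exact IST.lam l1 fun z => if z ∈ d then idx e F z else ∅

theorem ixf_spec (H : Ineff κ lam l1 e S) {F d : M} (hd : d ⊆ l1)
    (h : ∀ z ∈ d, ap F z ∈ img S fun ξ => ap e ξ) :
    Maps (ixf l1 e F d) l1 l1 ∧ ∀ z ∈ d, ap (ixf l1 e F d) z ∈ l1 ∧
      ap e (ap (ixf l1 e F d) z) = ap F z := by
  classical
  have hF : Dff fun γ : E0 M × M => if γ.2 ∈ d then idx e F γ.2 else ∅ := inferInstance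
  have h0 : (∅ : M) ∈ l1 := by
    refine empty_mem_of_ne H.ord1 (ne_empty_iff.2 ⟨∅, ?_⟩)
    exact H.l1l _ (H.kl _ (H.omk _ (mem_om.2 isNat_empty)))
  have h1 : ∀ z ∈ l1, (if z ∈ d then idx e F z else ∅) ∈ l1 := by
    intro z hz
    split_ifs with h2
    · exact (H.idx_spec (h z h2)).1
    · exact h0
  refine ⟨?_, fun z hz => ?_⟩
  · unfold ixf
    exact maps_lam h1
  · have h2 : ap (ixf l1 e F d) z = idx e F z := by
      unfold ixf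
      rw [ap_lam (hd z hz), if_pos hz]
    rw [h2]
    exact H.idx_spec (h z hz)

theorem nfu (H : Ineff κ lam l1 e S) :
    Nfu κ lam (pws κ lam) (img S fun ξ => ap e ξ) := by
  have hex : ∀ X ∈ img S (fun ξ => ap e ξ), ∃ ξ ∈ l1, ξ ∈ S ∧ ap e ξ = X := by
    intro X hX
    obtain ⟨ξ, hξ, rfl⟩ := mem_img.1 hX
    exact ⟨ξ, H.Sl ξ hξ, hξ, rfl⟩
  have sepsub : ∀ (P : M → Prop) [Dfp fun γ : E0 M × M => P γ.2],
      sep (pws κ lam) P ⊆ pws κ lam := fun P _ x hx => (mem_sep.1 hx).1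
  refine ⟨fun x hx => (mem_pws.1 hx).1, fun X hX => ?_, fun X hX Y hXY hY => ?_,
    fun X hX Y hY => ?_, fun X hX => ?_, fun z hz => ?_, fun F hF hd h => ?_, fun F hF hd h => ?_⟩
  · obtain ⟨ξ, h1, -, rfl⟩ := hex X hX
    exact H.sub ξ h1
  · obtain ⟨ξ, h1, h2, rfl⟩ := hex X hX
    obtain ⟨ζ, h3, rfl⟩ := H.onto Y hY
    obtain ⟨x, -, h4, h5, -⟩ := H.br3 h1 h3 h1
    rw [H.mem_iff h3, h5]
    exact hXY x (h4.1 h2)
  · obtain ⟨ξ, h1, h2, rfl⟩ := hex X hX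
    obtain ⟨ζ, h3, h4, rfl⟩ := hex Y hY
    obtain ⟨η, h5, h6⟩ := H.onto (ap e ξ ∩ ap e ζ) fun x hx => H.sub ξ h1 x (mem_inter.1 hx).1
    rw [← h6, H.mem_iff h5]
    obtain ⟨x, -, h7, h8, h9⟩ := H.br3 h1 h3 h5
    rw [h9, h6, mem_inter]
    exact ⟨h7.1 h2, h8.1 h4⟩
  · obtain ⟨ξ, h1, rfl⟩ := H.onto X hX
    obtain ⟨ζ, h3, h4⟩ := H.onto (pws κ lam \ ap e ξ) fun x hx => (mem_diff.1 hx).1
    rw [← h4, H.mem_iff h3, H.mem_iff h1]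
    obtain ⟨x, hx, h7, h8, -⟩ := H.br3 h1 h3 h1
    rw [h8, h4, mem_diff, h7]
    exact ⟨fun h => h.2, fun h => ⟨hx, h⟩⟩
  · obtain ⟨ζ, h3, h4⟩ := H.onto (sep (pws κ lam) fun x => z ∈ x) (sepsub _)
    have hz1 := H.l1l z hz
    obtain ⟨a, -, a1, a2, -, a4, -, -, a5⟩ := H.br' (h := idf l1) (bij_idf l1).1 hz1 h3 h3
    rw [← h4, H.mem_iff h3, a5 ζ a2, h4]
    exact mem_sep.2 ⟨a4, mem_inter.2 ⟨a1, hz⟩⟩
  · have hdk : dom F ⊆ κ := H.ordk.sub_of_mem hd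
    have hdl : dom F ⊆ l1 := fun z hz => H.l1l z (H.kl z (hdk z hz))
    obtain ⟨h1, h2⟩ := H.ixf_spec hdl h
    obtain ⟨ζ, h3, h4⟩ := H.onto (sep (pws κ lam) fun x => ∀ z ∈ dom F, x ∈ ap F z) (sepsub _)
    obtain ⟨a, -, a1, a2, -, a4, a6, a7, a5⟩ := H.br' h1 (H.l1l _ (H.kl _ hd)) h3 h3
    rw [← h4, H.mem_iff h3, a5 ζ a2, h4]
    refine mem_sep.2 ⟨a4, fun z hz => ?_⟩
    have hza : z ∈ a := by
      have h5 : IsOrd (a ∩ κ) := H.ordk.mem a6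
      have h6 : dom F ∈ a ∩ κ := mem_inter.2 ⟨a1, hd⟩
      exact (mem_inter.1 (h5.trans hz h6)).1
    obtain ⟨h5, h6⟩ := h2 z hz
    have h7 := a5 _ (a7 z hza)
    rw [h6, ← H.mem_iff h5, h6] at h7
    exact h7.1 (h z hz)
  · have hdl : dom F ⊆ l1 := hd ▸ H.l1l
    obtain ⟨h1, h2⟩ := H.ixf_spec hdl (hd.symm ▸ h)
    obtain ⟨ζ, h3, h4⟩ := H.onto (sep (pws κ lam) fun x => ∀ z ∈ x, x ∈ ap F z) (sepsub _)
    obtain ⟨a, -, -, a2, -, a4, a6, a7, a5⟩ := H.br' h1 h3 h3 h3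
    rw [← h4, H.mem_iff h3, a5 ζ a2, h4]
    refine mem_sep.2 ⟨a4, fun z hz => ?_⟩
    obtain ⟨hza, hzl⟩ := mem_inter.1 hz
    obtain ⟨h5, h6⟩ := h2 z (hd.symm ▸ hzl)
    have h7 := a5 _ (a7 z hza)
    rw [h6, ← H.mem_iff h5, h6] at h7
    exact h7.1 (h z hzl)

end Ineff

end

end Pool.Agent.IST
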