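import Pool.Agent.IST.AmpP

/-!
# Laver functions
-/

set_option synthInstance.maxSize 100000

namespace Pool.Agent.IST

open Pool.Agent.BVM CMap Amp

section

variable {M : Type} [SetModel M] {Γ : Type} [IsCtx Γ M]

/-- there are arbitrarily large `η` such that `V_η` is closed under cardinalities -/
theorem exists_closed_card {β : M} (hβ : IsOrd β) :
    ∃ η : M, IsLim η ∧ β ∈ η ∧ ∀ a ∈ Vr η, card a ∈ Vr η := by
  obtain ⟨η, h1, h2, h3⟩ := exists_closed_ord (fun α => card (Vr α)) (fun _ _ => isOrd_card _) β hβ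
  refine ⟨η, h1, h2, fun a ha => ?_⟩
  obtain ⟨α, hα, h4⟩ := mem_Vr.1 ha
  rw [ord_mem_Vr_iff (isOrd_card a) h1.1]
  exact (isOrd_card a).mem_of_sub_of_mem h1.1 (card_sub_iff.2 (leq_of_sub h4)) (h3 α hα)

/-- `x ∈ V_θ` is guessed by `l` at `κ` -/
def LGood (κ l θ x : M) : Prop :=
  ∃ U, IsAmp κ θ U ∧ Aa U (pws κ (Vr θ)) fun t => ap l (t ∩ κ) = mc t x

instance LGood.dfp {f g h k : Γ → M} [Dff f] [Dff g] [Dff h] [Dff k] :
    Dfp fun γ => LGood (f γ) (g γ) (h γ) (k γ) := by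
  unfold LGood; infer_instance

/-- `x ∈ V_θ` is not guessed by `l` at `κ` -/
def LCE (κ l θ x : M) : Prop := (IsLim θ ∧ κ ∈ θ ∧ x ∈ Vr θ) ∧ ¬ LGood κ l θ x

instance LCE.dfp {f g h k : Γ → M} [Dff f] [Dff g] [Dff h] [Dff k] :
    Dfp fun γ => LCE (f γ) (g γ) (h γ) (k γ) := by
  unfold LCE; infer_instance

section

variable {A : Amp M} [CMap Γ] {f g h k : Γ → M} [Dff f] [Dff g] [Dff h] [Dff k] [ClCard A]

instance LGood.lp [Lf A f] [Lf A g] [Lf A h] [Lf A k] :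
    Lp A fun γ => LGood (f γ) (g γ) (h γ) (k γ) := by
  unfold LGood
  refine Lp.ex_of (fun γ => pw (pw (pws (f γ) (Vr (h γ))))) fun γ U h => ?_
  exact mem_pw.2 fun X hX => mem_pw.2 (h.1.2.2.1 X hX)

instance LCE.lp [Lf A f] [Lf A g] [Lf A h] [Lf A k] :
    Lp A fun γ => LCE (f γ) (g γ) (h γ) (k γ) := by
  unfold LCE; infer_instance

end

/-- the least height of a set which is not guessed -/
noncomputable def lavT (γ f : M) : M := lst fun θ => ∃ x ∈ Vr θ, LCE γ f θ x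

instance lavT.dff {f g : Γ → M} [Dff f] [Dff g] : Dff fun γ => lavT (f γ) (g γ) := by
  unfold lavT; infer_instance

/-- the recursion step -/
noncomputable def lavG (c γ f : M) : M := ap c (sep (Vr (lavT γ f)) fun x => LCE γ f (lavT γ f) x)

instance lavG.dff {f g h : Γ → M} [Dff f] [Dff g] [Dff h] :
    Dff fun γ => lavG (f γ) (g γ) (h γ) := by
  unfold lavG; infer_instance

/-- Laver function; `c` is a choice function -/
noncomputable def lav (κ c : M) : M := lam κ fun γ => erec (fun x f => lavG c x f) γ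

theorem ap_lav {κ c γ : M} (hκ : IsOrd κ) (h : γ ∈ κ) :
    ap (lav κ c) γ = lavG c γ (res (lav κ c) γ) := by
  have hd : Dff fun γ : E0 M × M => erec (fun x f => lavG c x f) γ.2 := inferInstance
  have h1 : res (lav κ c) γ = lam γ fun γ => erec (fun x f => lavG c x f) γ := by
    refine isFun_lam.res.ext isFun_lam ?_ fun x hx => ?_
    · rw [dom_res, dom_lam, dom_lam]
      apply ext; intro z
      rw [mem_inter]
      exact ⟨fun h => h.2, fun h' => ⟨hκ.trans h' h, h'⟩⟩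
    · rw [dom_res, dom_lam, mem_inter] at hx
      rw [isFun_lam.ap_res hx.2, ap_lam hx.1, ap_lam hx.2]
  unfold lav at h1 ⊢
  rw [h1, ap_lam h, erec_eq]

theorem Amp.aa_mc_fun {A : Amp M} {l : M} (hl : Maps l A.κ (Vr A.κ)) :
    A.aa fun s => mc s l = res l (s ∩ A.κ) := by
  have hop : ∀ ξ ∈ A.κ, op ξ (ap l ξ) ∈ Vr A.κ := fun ξ hξ =>
    op_mem_Vr (isLim_of_reg reg_κ) ((ord_mem_Vr_iff (A.ord_κ.mem hξ) A.ord_κ).2 hξ) (hl.ap_mem hξ)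
  have h1 : l ⊆ Vr A.κ := by
    intro p hp
    obtain ⟨x, hx, rfl⟩ := hl.isFun.mem_iff.1 hp
    exact hop x (hl.dom_eq ▸ hx)
  have h2 : A.aa fun s => ∀ ξ ∈ s, ξ ∈ A.κ → op ξ (ap l ξ) ∈ s := by
    refine aa_all.2 fun ξ _ => ?_
    by_cases h : ξ ∈ A.κ
    · exact aa_mono (aa_fine (Vκ_sub _ (hop ξ h))) fun s _ h _ => h
    · exact aa_of_all fun s _ h' => absurd h' h
  refine aa_mono (aa_and (aa_and (aa_mc_sub h1) h2) (aa_and aa_inter_Vκ aa_inter_κ))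
    fun s _ ⟨⟨h3, h4⟩, h5, h6⟩ => ?_
  have ho := A.ord_κ.mem h6
  rw [h3]
  apply ext; intro p
  rw [mem_inter]
  constructor
  · rintro ⟨h7, h8⟩
    obtain ⟨ξ, hξ, rfl⟩ := hl.isFun.mem_iff.1 h7
    rw [hl.dom_eq] at hξ
    refine op_mem_res.2 ⟨h7, ?_⟩
    exact (ord_mem_Vr_iff (A.ord_κ.mem hξ) ho).1 (op_left_mem_Vr h8)
  · intro h7
    have h8 := res_sub _ h7
    obtain ⟨ξ, hξ, rfl⟩ := hl.isFun.mem_iff.1 h8
    refine ⟨h8, ?_⟩
    rw [← h5, mem_inter]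
    have h9 := (op_mem_res.1 h7).2
    rw [mem_inter] at h9
    exact ⟨h4 ξ h9.1 h9.2, hop ξ h9.2⟩

/-- existence of Laver functions -/
theorem exists_laver {κ : M} (h1 : IsCard κ) (h2 : om ∈ κ)
    (h3 : ∀ l, IsOrd l → κ ⊆ l → ∃ W, Nfu κ l (pws κ l) W) :
    ∃ l, Maps l κ (Vr κ) ∧ ∀ θ, IsLim θ → κ ∈ θ → ∀ x ∈ Vr θ, LGood κ l θ x := by
  obtain ⟨c, hc1, hc2, hc3⟩ := exists_choice (pw (Vr κ) \ sing ∅) fun x hx => by
    rw [mem_diff, mem_sing] at hx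
    exact hx.2
  have hcm : ∀ x, ap c x ∈ Vr κ := by
    intro x
    by_cases hx : x ∈ dom c
    · rw [hc2] at hx
      exact mem_pw.1 (mem_diff.1 hx).1 _ (hc3 x hx)
    · rw [ap_of_notMem hx]
      exact mem_Vr.2 ⟨om, h2, empty_sub _⟩
  have hl : Maps (lav κ c) κ (Vr κ) := by
    refine ⟨isFun_lam, dom_lam, fun γ hγ => ?_⟩
    rw [ap_lav h1.1 hγ]
    exact hcm _
  refine ⟨lav κ c, hl, ?_⟩
  generalize hle : lav κ c = l at hl ⊢
  by_contra hne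
  push Not at hne
  obtain ⟨θ0, hθ0, hκθ0, x0, hx0, hx0'⟩ := hne
  have hP : ∃ x ∈ Vr θ0, LCE κ l θ0 x := ⟨x0, hx0, ⟨hθ0, hκθ0, hx0⟩, hx0'⟩
  obtain ⟨hT1, hT2, hT3⟩ := lst_spec (P := fun θ => ∃ x ∈ Vr θ, LCE κ l θ x) hθ0.1 hP
  generalize hθ : (lst fun θ => ∃ x ∈ Vr θ, LCE κ l θ x) = θ at hT1 hT2 hT3
  obtain ⟨x1, hx1, ⟨⟨hθl, hκθ, -⟩, hx1'⟩⟩ := hT2
  obtain ⟨η, hη1, hη2, hη3⟩ := exists_closed_card hT1
  have hκη : κ ∈ η := hη1.1.trans hκθ hη2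
  obtain ⟨U, hU⟩ := exists_amp h1 h2 h3 hη1 hκη
  let A : Amp M := ⟨κ, η, U, hU⟩
  have hcl : ClCard A := ⟨hη3⟩
  have hκm : κ ∈ Vr A.η := κ_mem_Vr_η (A := A)
  have hθm : θ ∈ Vr A.η := (ord_mem_Vr_iff hT1 A.lim.1).2 hη2
  have hlm : l ∈ Vr A.η := fun_mem_Vr A.lim hl hκm (Vr_mem_Vr A.lim.1 hκm)
  -- the least counterexample is reflected
  have k1 := (Lp.ap3 (A := A) (P := fun κ l θ => (∃ x, x ∈ Vr θ ∧ LCE κ l θ x) ∧
    ∀ θ', θ' ∈ θ → ¬ ∃ x, x ∈ Vr θ' ∧ LCE κ l θ' x) hκm hlm hθm).1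
    ⟨⟨x1, hx1, ⟨hθl, hκθ, hx1⟩, hx1'⟩, hT3⟩
  have k2 : A.aa fun s => mc s (Vr θ) = Vr (mc s θ) :=
    aa_mono (Lf.ap1 (A := A) (F := fun θ => Vr θ) hθm) fun s _ h => h.symm
  have k3 : A.aa fun s => ∃ w ∈ mc s (Vr θ), ap l (s ∩ κ) = w ∧
      LCE (mc s κ) (mc s l) (mc s θ) w := by
    refine aa_mono (aa_and (aa_and k1 k2) (aa_and (aa_and (aa_mc_κ (A := A)) aa_inter_κ)
      (aa_mc_fun (A := A) hl))) fun s hs ⟨⟨⟨e1, e2⟩, e3⟩, ⟨e4, e5⟩, e6⟩ => ?_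
    change mc s κ = s ∩ κ at e4
    change s ∩ κ ∈ κ at e5
    change mc s l = res l (s ∩ κ) at e6
    have hos : IsOrd (mc s θ) := isOrd_mc hT1
    have e7 : lavT (s ∩ κ) (res l (s ∩ κ)) = mc s θ := by
      unfold lavT
      rw [← e4, ← e6] at *
      refine the_eq ⟨hos, e1, e2⟩ fun β ⟨b1, b2, b3⟩ => ?_
      rcases b1.cmp hos with b4 | b4 | b4
      · exact absurd b2 (e2 β b4)
      · exact b4
      · exact absurd e1 (b3 _ b4)
    have e8 := ap_lav (c := c) h1.1 e5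
    rw [hle] at e8
    unfold lavG at e8
    rw [e7] at e8
    obtain ⟨y, hy, hy'⟩ := e1
    rw [e4, e6] at hy'
    have e9 : sep (Vr (mc s θ)) (fun x => LCE (s ∩ κ) (res l (s ∩ κ)) (mc s θ) x) ∈
        pw (Vr κ) \ sing ∅ := by
      rw [mem_diff, mem_sing, mem_pw]
      constructor
      · intro z hz
        have := (mem_sep.1 hz).1
        refine Vr_mono ?_ z this
        have e10 : mc s θ ∈ Vr A.κ := mc_mem_Vκ (A := A) hs
        exact h1.1.sub_of_mem ((ord_mem_Vr_iff hos h1.1).1 e10)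
      · exact ne_empty_iff.2 ⟨y, mem_sep.2 ⟨hy, hy'⟩⟩
    have e10 := mem_sep.1 (hc3 _ e9)
    rw [← e8] at e10
    refine ⟨_, ?_, rfl, ?_⟩
    · rw [e3]; exact e10.1
    · rw [e4, e6]; exact e10.2
  have hθm' : Vr θ ∈ Vr A.η := Vr_mem_Vr A.lim.1 hθm
  obtain ⟨x, hx, hx'⟩ := (aa_bex (A := A) (a := Vr θ) hθm' (ψ := fun w s => ap l (s ∩ κ) = w ∧
      LCE (mc s κ) (mc s l) (mc s θ) w)).1 k3
  have hxm : x ∈ Vr A.η := A.trans_Z hx hθm'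
  have k4 : LCE κ l θ x := (Lp.ap4 (A := A) (P := LCE) hκm hlm hθm hxm).2
    (aa_mono hx' fun s _ h => h.2)
  refine k4.2 ⟨A.pr θ, A.pr_isAmp hθl hκθ (A.lim.1.sub_of_mem hη2), ?_⟩
  refine (aa_pr (A := A)).2 ?_
  refine aa_mono hx' fun s _ h => ?_
  have e1 : s ∩ Vr θ ∩ κ = s ∩ κ := by
    apply ext; intro z
    rw [mem_inter, mem_inter, mem_inter]
    refine ⟨fun h => ⟨h.1.1, h.2⟩, fun h => ⟨⟨h.1, ?_⟩, h.2⟩⟩
    exact isTrans_Vr _ κ ((ord_mem_Vr_iff h1.1 hT1).2 hκθ) z h.2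
  rw [e1, mc_inter (isTrans_Vr θ) (fun z hz => isTrans_Vr θ x hx z hz)]
  exact h.1

end

end Pool.Agent.IST
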