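import Pool.Agent.IST.Rec

/-!
# Simultaneous substitution of definable functions
-/

set_option synthInstance.maxSize 100000

namespace Pool.Agent.IST

open Pool.Agent.BVM

/-- formulas use finitely many variables -/
theorem satU_fin {M : Type*} (E : M → M → Prop) (U : M → Prop) (φ : FmlU) :
    ∃ N : ℕ, ∀ v w : ℕ → M, (∀ i < N, v i = w i) → (SatU E U φ v ↔ SatU E U φ w) := by
  induction φ with
  | mem i j =>
    refine ⟨max i j + 1, fun v w h => ?_⟩
    simp only [SatU]
    rw [h i (by omega), h j (by omega)]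
  | eq i j =>
    refine ⟨max i j + 1, fun v w h => ?_⟩
    simp only [SatU]
    rw [h i (by omega), h j (by omega)]
  | cl i =>
    refine ⟨i + 1, fun v w h => ?_⟩
    simp only [SatU]
    rw [h i (by omega)]
  | neg a ih =>
    obtain ⟨N, hN⟩ := ih
    exact ⟨N, fun v w h => not_congr (hN v w h)⟩
  | and a b iha ihb =>
    obtain ⟨N, hN⟩ := iha
    obtain ⟨K, hK⟩ := ihb
    exact ⟨max N K, fun v w h => and_congr (hN v w fun i hi => h i (by omega))
      (hK v w fun i hi => h i (by omega))⟩
  | or a b iha ihb =>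
    obtain ⟨N, hN⟩ := iha
    obtain ⟨K, hK⟩ := ihb
    exact ⟨max N K, fun v w h => or_congr (hN v w fun i hi => h i (by omega))
      (hK v w fun i hi => h i (by omega))⟩
  | imp a b iha ihb =>
    obtain ⟨N, hN⟩ := iha
    obtain ⟨K, hK⟩ := ihb
    exact ⟨max N K, fun v w h => imp_congr (hN v w fun i hi => h i (by omega))
      (hK v w fun i hi => h i (by omega))⟩
  | iff a b iha ihb =>
    obtain ⟨N, hN⟩ := iha
    obtain ⟨K, hK⟩ := ihb
    exact ⟨max N K, fun v w h => iff_congr (hN v w fun i hi => h i (by omega))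
      (hK v w fun i hi => h i (by omega))⟩
  | all a ih =>
    obtain ⟨N, hN⟩ := ih
    refine ⟨N, fun v w h => forall_congr' fun x => hN _ _ fun i hi => ?_⟩
    cases i with
    | zero => rfl
    | succ i => exact h i (by omega)
  | ex a ih =>
    obtain ⟨N, hN⟩ := ih
    refine ⟨N, fun v w h => exists_congr fun x => hN _ _ fun i hi => ?_⟩
    cases i with
    | zero => rfl
    | succ i => exact h i (by omega)

section

variable {M : Type} [SetModel M]

theorem dfp_satU (φ : FmlU) (n : ℕ) : ∀ {Δ : Type} [IsCtx Δ M] (t : ℕ → Δ → M),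
    (∀ i < n, Dff (t i)) → (∀ i, n ≤ i → IsCtx.simple (t i)) →
    Dfp fun δ : Δ => SatU (SetModel.E : M → M → Prop) SetModel.U φ (fun i => t i δ) := by
  induction n with
  | zero =>
    intro Δ _ t _ h
    exact ⟨φ, t, fun i => h i (Nat.zero_le _), fun _ => Iff.rfl⟩
  | succ n ih =>
    intro Δ _ t h1 h2
    have h3 := ih (Δ := Δ × M) (fun i δ => if i = n then δ.2 else t i δ.1) (fun i hi => by
      have : i ≠ n := by omega
      simp only [this, if_false]
      have := h1 i (by omega)
      infer_instance) (fun i hi => by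
      by_cases h : i = n
      · simp only [h, if_true]
        exact simple_snd
      · simp only [h, if_false]
        exact simple_fst (h2 i (by omega)))
    have := h1 n (by omega)
    have h4 := Dfp.sub1' (P := fun (δ : Δ) x => SatU (SetModel.E : M → M → Prop) SetModel.U φ
      (fun i => if i = n then x else t i δ)) (h := h3) (f := t n)
    refine h4.congr fun δ => iff_of_eq ?_
    congr 1
    funext i
    by_cases h : i = n
    · subst h; simp
    · simp [h]

variable {Γ Δ : Type} [IsCtx Γ M] [IsCtx Δ M]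

/-- substitution of definable functions in a definable predicate -/
theorem Dfp.subst {P : Γ → Prop} [h : Dfp P] {σ : Δ → Γ}
    (hσ : ∀ f : Γ → M, IsCtx.simple f → Dff fun δ => f (σ δ)) : Dfp fun δ => P (σ δ) := by
  obtain ⟨φ, s, hs, hP⟩ := h.out
  obtain ⟨c⟩ := nonempty_model (M := M)
  obtain ⟨N, hN⟩ := satU_fin (SetModel.E : M → M → Prop) SetModel.U φ
  have := dfp_satU φ N (fun i δ => if i < N then s i (σ δ) else c) (fun i hi => by
    simp only [hi, if_true]
    exact hσ _ (hs i)) (fun i hi => by
    have : ¬ i < N := by omega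
    simp only [this, if_false]
    exact IsCtx.const c)
  refine this.congr fun δ => ?_
  rw [hP]
  exact hN _ _ fun i hi => by simp [hi]

theorem Dff.subst {F : Γ → M} [h : Dff F] {σ : Δ → Γ}
    (hσ : ∀ f : Γ → M, IsCtx.simple f → Dff fun δ => f (σ δ)) : Dff fun δ => F (σ δ) := by
  refine ⟨Dfp.subst (P := fun γ : Γ × M => γ.2 = F γ.1) (h := h.out)
    (σ := fun δ : Δ × M => (σ δ.1, δ.2)) ?_⟩
  rintro f (⟨g, hg, rfl⟩ | rfl)
  · have := hσ g hg
    exact Dff.comp (g := fun δ : Δ × M => δ.1) (F := fun δ => g (σ δ))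
  · exact inferInstanceAs (Dff fun δ : Δ × M => δ.2)

end

end Pool.Agent.IST
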