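import Pool.Agent.IST.Nfu
import Pool.Agent.IST.Collapse
import Pool.Agent.IST.SubstC

/-!
# Transitive collapses of the elements of a normal ultrafilter: the theorem of Łoś

`IsAmp κ η U`: `U` is a `κ`-complete normal fine ultrafilter on `A.D = P_κ(V_η)`, where `κ` is an
uncountable cardinal and `η > κ` a limit ordinal; `A : Amp M` is a bundled such triple.
`Lp A P`: the predicate `P` on a context satisfies the theorem of Łoś.
`Lf A F`: the function `F` commutes with almost all collapses.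
-/

set_option synthInstance.maxSize 100000

namespace Pool.Agent.IST

open Pool.Agent.BVM

section

variable {M : Type} [SetModel M] {Γ Δ : Type} [IsCtx Γ M] [IsCtx Δ M]

/-- `U` is a `κ`-complete normal fine ultrafilter on `P_κ(V_η)`, `κ` an uncountable cardinal,
`η > κ` a limit ordinal -/
def IsAmp (κ η U : M) : Prop :=
  ((IsCard κ ∧ om ∈ κ) ∧ (κ ∈ η ∧ IsLim η)) ∧ Nfu κ (Vr η) (pws κ (Vr η)) U

instance IsAmp.dfp {f g h : Γ → M} [Dff f] [Dff g] [Dff h] :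
    Dfp fun γ => IsAmp (f γ) (g γ) (h γ) := by
  unfold IsAmp; infer_instance

/-- a `κ`-complete normal fine ultrafilter on `P_κ(V_η)` -/
structure Amp (M : Type) [SetModel M] where
  /-- the completeness -/
  κ : M
  /-- the height -/
  η : M
  /-- the ultrafilter -/
  U : M
  isAmp : IsAmp κ η U

namespace Amp

variable (A : Amp M)

/-- the domain of the ultrafilter -/
noncomputable def D : M := pws A.κ (Vr A.η)

theorem nfu : Nfu A.κ (Vr A.η) A.D A.U := A.isAmp.2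

theorem lim : IsLim A.η := A.isAmp.1.2.2

theorem κ_mem : A.κ ∈ A.η := A.isAmp.1.2.1

theorem om_mem : om ∈ A.κ := A.isAmp.1.1.2

theorem card_κ : IsCard A.κ := A.isAmp.1.1.1

theorem ord_κ : IsOrd A.κ := A.card_κ.1

end Amp

/-- contexts with the action of the collapses -/
class CMap (Γ : Type) {M : outParam Type} [SetModel M] [IsCtx Γ M] where
  /-- the collapse of a tuple -/
  cmap : M → Γ → Γ
  /-- all coordinates are in a set -/
  inZ : M → Γ → Prop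
  dff : ∀ f : Γ → M, IsCtx.simple f → Dff fun δ : Γ × M => f (cmap δ.2 δ.1)

open CMap

instance CMap.e0 : CMap (E0 M) :=
  ⟨fun _ γ => γ, fun _ _ => True, fun f hf => Dff.of_simple (simple_fst hf)⟩

noncomputable instance CMap.prod [CMap Γ] : CMap (Γ × M) :=
  ⟨fun s γ => (cmap s γ.1, mc s γ.2), fun Z γ => inZ Z γ.1 ∧ γ.2 ∈ Z, by
    rintro f (⟨g, hg, rfl⟩ | rfl)
    · have := CMap.dff g hg
      exact Dff.comp (g := fun δ : (Γ × M) × M => ((δ.1.1, δ.2) : Γ × M))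
        (F := fun δ : Γ × M => g (cmap δ.2 δ.1))
    · exact inferInstanceAs (Dff fun δ : (Γ × M) × M => mc δ.2 δ.1.2)⟩

theorem cmap_dfp [CMap Γ] {P : Γ → Prop} [Dfp P] : Dfp fun δ : Γ × M => P (cmap δ.2 δ.1) :=
  Dfp.subst CMap.dff

theorem cmap_dff [CMap Γ] {F : Γ → M} [Dff F] : Dff fun δ : Γ × M => F (cmap δ.2 δ.1) :=
  Dff.subst CMap.dff

theorem cmap_dfp2 [CMap Γ] {P : Γ → M → Prop} [Dfp fun γ : Γ × M => P γ.1 γ.2] :
    Dfp fun δ : (Γ × M) × M => P (cmap δ.2 δ.1.1) δ.1.2 := by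
  refine Dfp.subst (P := fun γ : Γ × M => P γ.1 γ.2)
    (σ := fun δ : (Γ × M) × M => (cmap δ.2 δ.1.1, δ.1.2)) ?_
  rintro f (⟨g, hg, rfl⟩ | rfl)
  · have := CMap.dff g hg
    exact Dff.comp (g := fun δ : (Γ × M) × M => ((δ.1.1, δ.2) : Γ × M))
      (F := fun δ : Γ × M => g (cmap δ.2 δ.1))
  · exact inferInstanceAs (Dff fun δ : (Γ × M) × M => δ.1.2)

/-- slices -/
theorem cs_dfp [CMap Γ] {P : Γ → Prop} [Dfp P] (γ : Γ) :
    Dfp fun δ : E0 M × M => P (cmap δ.2 γ) :=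
  dfp_slice (P := fun γ s => P (cmap s γ)) (h := cmap_dfp) γ

theorem cs_dff [CMap Γ] {F : Γ → M} [Dff F] (γ : Γ) :
    Dff fun δ : E0 M × M => F (cmap δ.2 γ) :=
  dff_slice (F := fun γ s => F (cmap s γ)) (h := cmap_dff) γ

theorem cs_dfp2 [CMap Γ] {P : Γ → M → Prop} [Dfp fun γ : Γ × M => P γ.1 γ.2] (γ : Γ) :
    Dfp fun δ : (E0 M × M) × M => P (cmap δ.2 γ) δ.1.2 :=
  dfp_slice2 (P := fun γ z s => P (cmap s γ) z) (h := cmap_dfp2) γ

/-- a binary definable predicate in any context -/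
theorem dfp_bin {ψ : M → M → Prop} (hψ : Dfp fun γ : (E0 M × M) × M => ψ γ.1.2 γ.2)
    {f g : Γ → M} [Dff f] [Dff g] : Dfp fun δ => ψ (f δ) (g δ) :=
  Dfp.lift2 (Γ := E0 M) (P := fun _ x y => ψ x y) (h := hψ) (c := fun _ => ⟨⟩)
    (hc := ⟨fun f _ => (IsCtx.const (f ⟨⟩) : IsCtx.simple fun _ : Γ => f ⟨⟩)⟩)

theorem dfp_un {ψ : M → Prop} (hψ : Dfp fun γ : E0 M × M => ψ γ.2) {f : Γ → M} [Dff f] :
    Dfp fun δ => ψ (f δ) :=
  Dfp.lift1 (Γ := E0 M) (P := fun _ x => ψ x) (h := hψ) (c := fun _ => ⟨⟩)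
    (hc := ⟨fun f _ => (IsCtx.const (f ⟨⟩) : IsCtx.simple fun _ : Γ => f ⟨⟩)⟩)

theorem dff_un {F : M → M} (hF : Dff fun γ : E0 M × M => F γ.2) {f : Γ → M} [Dff f] :
    Dff fun δ => F (f δ) :=
  Dff.lift1 (Γ := E0 M) (F := fun _ x => F x) (h := hF) (c := fun _ => ⟨⟩)
    (hc := ⟨fun f _ => (IsCtx.const (f ⟨⟩) : IsCtx.simple fun _ : Γ => f ⟨⟩)⟩)

theorem dff_bin {F : M → M → M} (hF : Dff fun γ : (E0 M × M) × M => F γ.1.2 γ.2)
    {f g : Γ → M} [Dff f] [Dff g] : Dff fun δ => F (f δ) (g δ) :=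
  Dff.lift2 (Γ := E0 M) (F := fun _ x y => F x y) (h := hF) (c := fun _ => ⟨⟩)
    (hc := ⟨fun f _ => (IsCtx.const (f ⟨⟩) : IsCtx.simple fun _ : Γ => f ⟨⟩)⟩)

namespace Amp

variable (A : Amp M)

theorem trans_Z {x y : M} (h : x ∈ y) (h' : y ∈ Vr A.η) : x ∈ Vr A.η := isTrans_Vr _ y h' x h

/-- almost all -/
def aa (φ : M → Prop) : Prop := Aa A.U A.D φ

instance aa.dfp {φ : Γ → M → Prop} [Dfp fun γ : Γ × M => φ γ.1 γ.2] :
    Dfp fun γ => A.aa (φ γ) := by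
  unfold aa; infer_instance

variable {A}

section

variable {φ ψ : M → Prop} [Dfp fun γ : E0 M × M => φ γ.2] [Dfp fun γ : E0 M × M => ψ γ.2]

theorem aa_mono (h1 : A.aa φ) (h2 : ∀ x ∈ A.D, φ x → ψ x) : A.aa ψ := A.nfu.aa_mono h1 h2

theorem aa_and (h1 : A.aa φ) (h2 : A.aa ψ) : A.aa fun x => φ x ∧ ψ x := A.nfu.aa_and h1 h2

theorem aa_not : (A.aa fun x => ¬ φ x) ↔ ¬ A.aa φ := A.nfu.aa_not

theorem aa_of_all (h1 : ∀ x ∈ A.D, φ x) : A.aa φ := A.nfu.aa_of_all h1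

theorem aa_ex (h1 : A.aa φ) : ∃ x ∈ A.D, φ x := A.nfu.aa_ex h1

theorem aa_const {p : Prop} [Dfp fun _ : E0 M × M => p] : (A.aa fun _ => p) ↔ p := A.nfu.aa_const

theorem aa_congr (h : A.aa fun x => (φ x ↔ ψ x)) : A.aa φ ↔ A.aa ψ := A.nfu.aa_iff_iff.1 h

theorem aa_mp (h1 : A.aa φ) (h2 : A.aa fun x => φ x → ψ x) : A.aa ψ :=
  aa_mono (aa_and h1 h2) fun _ _ h3 => h3.2 h3.1

end

theorem aa_fine {z : M} (hz : z ∈ Vr A.η) : A.aa fun s => z ∈ s := A.nfu.aa_fine hz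

/-- normality -/
theorem aa_all {χ : M → M → Prop} [hχ : Dfp fun γ : (E0 M × M) × M => χ γ.1.2 γ.2] :
    (A.aa fun s => ∀ z ∈ s, χ z s) ↔ ∀ z ∈ Vr A.η, A.aa fun s => χ z s := A.nfu.aa_all

theorem aa_exists {χ : M → M → Prop} [hχ : Dfp fun γ : (E0 M × M) × M => χ γ.1.2 γ.2] :
    (A.aa fun s => ∃ z ∈ s, χ z s) ↔ ∃ z ∈ Vr A.η, A.aa fun s => χ z s := A.nfu.aa_exists

/-- almost all elements are extensional -/
theorem aa_extl : A.aa fun s => ∀ x ∈ s, ∀ y ∈ s, x ∩ s = y ∩ s → x = y := by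
  refine aa_all.2 fun x hx => ?_
  refine aa_all.2 fun y hy => ?_
  by_cases h : x = y
  · exact aa_of_all fun _ _ _ => h
  have h1 : ∃ z ∈ Vr A.η, ¬ (z ∈ x ↔ z ∈ y) := by
    by_contra hc
    push Not at hc
    refine h (ext fun z => ?_)
    by_cases hz : z ∈ Vr A.η
    · exact hc z hz
    · exact ⟨fun h1 => absurd (A.trans_Z h1 hx) hz, fun h1 => absurd (A.trans_Z h1 hy) hz⟩
  obtain ⟨z, hz, h2⟩ := h1
  refine aa_mono (aa_fine hz) fun s _ hzs he => absurd ?_ h2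
  have h3 : z ∈ x ∩ s ↔ z ∈ y ∩ s := by rw [he]
  rw [mem_inter, mem_inter] at h3
  exact ⟨fun h4 => (h3.1 ⟨h4, hzs⟩).1, fun h4 => (h3.2 ⟨h4, hzs⟩).1⟩

theorem los_mem {a b : M} (ha : a ∈ Vr A.η) (hb : b ∈ Vr A.η) :
    a ∈ b ↔ A.aa fun s => mc s a ∈ mc s b := by
  have h1 : A.aa fun s => (a ∈ b ↔ mc s a ∈ mc s b) :=
    aa_mono (aa_and (aa_and (aa_fine ha) (aa_fine hb)) aa_extl) fun s _ ⟨⟨h1, h2⟩, h3⟩ =>
      (mc_mem_iff h3 h1 h2).symm
  exact aa_const.symm.trans (aa_congr h1)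

theorem los_eq {a b : M} (ha : a ∈ Vr A.η) (hb : b ∈ Vr A.η) :
    a = b ↔ A.aa fun s => mc s a = mc s b := by
  have h1 : A.aa fun s => (a = b ↔ mc s a = mc s b) :=
    aa_mono (aa_and (aa_and (aa_fine ha) (aa_fine hb)) aa_extl) fun s _ ⟨⟨h1, h2⟩, h3⟩ =>
      ⟨fun h => by rw [h], fun h => mc_inj h3 h1 h2 h⟩
  exact aa_const.symm.trans (aa_congr h1)

/-- bounded quantifiers -/
theorem aa_ball {a : M} (ha : a ∈ Vr A.η) {ψ : M → M → Prop}
    [hψ : Dfp fun γ : (E0 M × M) × M => ψ γ.1.2 γ.2] :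
    (A.aa fun s => ∀ w ∈ mc s a, ψ w s) ↔ ∀ z ∈ a, A.aa fun s => ψ (mc s z) s := by
  have hb : ∀ {Δ : Type} [IsCtx Δ M] {f g : Δ → M} [Dff f] [Dff g],
    Dfp fun δ => ψ (f δ) (g δ) := fun {_ _ _ _ _ _} => dfp_bin hψ
  have h1 : (A.aa fun s => ∀ w ∈ mc s a, ψ w s) ↔
      A.aa fun s => ∀ z ∈ s, (z ∈ a → ψ (mc s z) s) := by
    refine aa_congr (aa_of_all fun s _ => ?_)
    constructor
    · intro h z hz hza
      exact h _ (mem_mc.2 ⟨z, hz, hza, rfl⟩)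
    · intro h w hw
      obtain ⟨z, hz, hza, rfl⟩ := mem_mc.1 hw
      exact h z hz hza
  rw [h1, aa_all]
  constructor
  · intro h z hz
    exact aa_mono (h z (A.trans_Z hz ha)) fun s _ h2 => h2 hz
  · intro h z _
    by_cases hz' : z ∈ a
    · exact aa_mono (h z hz') fun s _ h2 _ => h2
    · exact aa_of_all fun s _ h2 => absurd h2 hz'

theorem aa_bex {a : M} (ha : a ∈ Vr A.η) {ψ : M → M → Prop}
    [hψ : Dfp fun γ : (E0 M × M) × M => ψ γ.1.2 γ.2] :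
    (A.aa fun s => ∃ w ∈ mc s a, ψ w s) ↔ ∃ z ∈ a, A.aa fun s => ψ (mc s z) s := by
  have hb : ∀ {Δ : Type} [IsCtx Δ M] {f g : Δ → M} [Dff f] [Dff g],
    Dfp fun δ => ψ (f δ) (g δ) := fun {_ _ _ _ _ _} => dfp_bin hψ
  have h1 := aa_ball (A := A) ha (ψ := fun w s => ¬ ψ w s)
  constructor
  · intro h2
    by_contra h3
    push Not at h3
    have h4 := h1.2 fun z hz => by
      exact aa_not.2 (h3 z hz)
    obtain ⟨s, -, h5, z, hz, h6⟩ := aa_ex (aa_and h4 h2)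
    exact h5 z hz h6
  · rintro ⟨z, hz, h2⟩
    exact aa_mono (aa_and h2 (aa_fine (A.trans_Z hz ha))) fun s _ h3 =>
      ⟨mc s z, mem_mc.2 ⟨z, h3.2, hz, rfl⟩, h3.1⟩

end Amp

/-! ### predicates and functions satisfying the theorem of Łoś -/

/-- the predicate `P` satisfies the theorem of Łoś -/
class Lp (A : Amp M) [CMap Γ] (P : Γ → Prop) : Prop where
  out : ∀ γ, inZ (Vr A.η) γ → (P γ ↔ A.aa fun s => P (cmap s γ))

/-- the function `F` commutes with almost all collapses -/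
class Lf (A : Amp M) [CMap Γ] (F : Γ → M) : Prop where
  mem : ∀ γ, inZ (Vr A.η) γ → F γ ∈ Vr A.η
  out : ∀ γ, inZ (Vr A.η) γ → A.aa fun s => F (cmap s γ) = mc s (F γ)

/-- projections of contexts compatible with the collapses -/
class LCor [CMap Γ] [CMap Δ] (g : Γ → Δ) : Prop where
  cor : Cor g
  nat : ∀ s γ, g (cmap s γ) = cmap s (g γ)
  inz : ∀ Z γ, inZ Z γ → inZ Z (g γ)

section

variable {A : Amp M} [CMap Γ] [CMap Δ]

open Amp

instance (priority := 2000) LCor.id : LCor fun γ : Γ => γ := ⟨inferInstance, fun _ _ => rfl, fun _ _ h => h⟩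

instance (priority := 2000) LCor.fst {g : Γ → Δ × M} [h : LCor g] : LCor fun γ => (g γ).1 :=
  ⟨have := h.cor; inferInstance, fun s γ => by rw [h.nat]; rfl, fun Z γ h1 => (h.inz Z γ h1).1⟩

instance (priority := 400) LCor.drop : LCor fun γ : (Γ × M) × M => ((γ.1.1, γ.2) : Γ × M) :=
  ⟨inferInstance, fun _ _ => rfl, fun _ _ h => ⟨h.1.1, h.2⟩⟩

theorem LCor.prod {g : Γ → Δ} [h : LCor g] : LCor fun γ : Γ × M => ((g γ.1, γ.2) : Δ × M) :=
  ⟨have := h.cor; Cor.prod, fun s γ => by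
    change (g (cmap s γ.1), mc s γ.2) = (cmap s (g γ.1), mc s γ.2)
    rw [h.nat], fun Z γ h1 => ⟨h.inz Z γ.1 h1.1, h1.2⟩⟩

instance (priority := 2000) Lf.snd {g : Γ → Δ × M} [h : LCor g] : Lf A fun γ => (g γ).2 :=
  ⟨fun γ hγ => (h.inz _ γ hγ).2, fun γ _ => by
    have h1 := h.cor
    have h2 : ∀ s, (g (cmap s γ)).2 = mc s (g γ).2 := fun s => by rw [h.nat]; rfl
    have h3 := cs_dff (F := fun γ => (g γ).2) γ
    exact aa_of_all fun s _ => h2 s⟩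

instance (priority := 500) Lp.comp {g : Γ → Δ} [hg : LCor g] {P : Δ → Prop} [Dfp P] [h : Lp A P] :
    Lp A fun γ => P (g γ) :=
  ⟨fun γ hγ => by
    have h1 := h.out (g γ) (hg.inz _ γ hγ)
    rw [h1]
    have h2 : (fun s => P (cmap s (g γ))) = fun s => P (g (cmap s γ)) := by
      funext s
      rw [hg.nat]
    rw [h2]⟩

instance (priority := 1500) Lf.comp {g : Γ → Δ} [hg : LCor g] {F : Δ → M} [Dff F] [h : Lf A F] :
    Lf A fun γ => F (g γ) :=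
  ⟨fun γ hγ => h.mem (g γ) (hg.inz _ γ hγ), fun γ hγ => by
    have h1 := h.out (g γ) (hg.inz _ γ hγ)
    have h2 : (fun s => F (cmap s (g γ)) = mc s (F (g γ))) =
        fun s => F (g (cmap s γ)) = mc s (F (g γ)) := by
      funext s
      rw [hg.nat]
    rwa [h2] at h1⟩

section

variable {P Q : Γ → Prop} [Dfp P] [Dfp Q]

omit [Dfp P] [Dfp Q] in
theorem Lp.congr [h : Lp A P] (h' : ∀ γ, Q γ ↔ P γ) : Lp A Q := by
  have : Q = P := funext fun γ => propext (h' γ)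
  rw [this]
  exact h

instance (priority := 2000) Lp.and [hP : Lp A P] [hQ : Lp A Q] : Lp A fun γ => P γ ∧ Q γ :=
  ⟨fun γ hγ => by
    have h1 := cs_dfp (P := P) γ
    have h2 := cs_dfp (P := Q) γ
    exact (and_congr (hP.out γ hγ) (hQ.out γ hγ)).trans A.nfu.aa_and_iff.symm⟩

instance (priority := 2000) Lp.or [hP : Lp A P] [hQ : Lp A Q] : Lp A fun γ => P γ ∨ Q γ :=
  ⟨fun γ hγ => by
    have h1 := cs_dfp (P := P) γ
    have h2 := cs_dfp (P := Q) γ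
    exact (or_congr (hP.out γ hγ) (hQ.out γ hγ)).trans A.nfu.aa_or_iff.symm⟩

instance (priority := 2000) Lp.imp [hP : Lp A P] [hQ : Lp A Q] : Lp A fun γ => P γ → Q γ :=
  ⟨fun γ hγ => by
    have h1 := cs_dfp (P := P) γ
    have h2 := cs_dfp (P := Q) γ
    exact (imp_congr (hP.out γ hγ) (hQ.out γ hγ)).trans A.nfu.aa_imp_iff.symm⟩

instance (priority := 2000) Lp.iff [hP : Lp A P] [hQ : Lp A Q] : Lp A fun γ => P γ ↔ Q γ :=
  ⟨fun γ hγ => by
    have h1 := cs_dfp (P := P) γ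
    have h2 := cs_dfp (P := Q) γ
    exact (iff_congr (hP.out γ hγ) (hQ.out γ hγ)).trans A.nfu.aa_iff_iff.symm⟩

instance (priority := 2000) Lp.not [hP : Lp A P] : Lp A fun γ => ¬ P γ :=
  ⟨fun γ hγ => by
    have h1 := cs_dfp (P := P) γ
    exact (not_congr (hP.out γ hγ)).trans A.nfu.aa_not.symm⟩

end

instance (priority := 2000) Lp.true : Lp A fun _ : Γ => True := ⟨fun _ _ => A.nfu.aa_const.symm⟩

instance (priority := 2000) Lp.false : Lp A fun _ : Γ => False :=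
  ⟨fun _ _ => A.nfu.aa_const.symm⟩

section

variable {f g : Γ → M} [Dff f] [Dff g]

instance (priority := 2000) Lp.mem [hf : Lf A f] [hg : Lf A g] : Lp A fun γ => f γ ∈ g γ :=
  ⟨fun γ hγ => by
    have h1 := cs_dff (F := f) γ
    have h2 := cs_dff (F := g) γ
    rw [los_mem (hf.mem γ hγ) (hg.mem γ hγ)]
    exact aa_congr (aa_mono (aa_and (hf.out γ hγ) (hg.out γ hγ)) fun s _ h3 => by rw [h3.1, h3.2])⟩

instance (priority := 2000) Lp.eq [hf : Lf A f] [hg : Lf A g] : Lp A fun γ => f γ = g γ :=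
  ⟨fun γ hγ => by
    have h1 := cs_dff (F := f) γ
    have h2 := cs_dff (F := g) γ
    rw [los_eq (hf.mem γ hγ) (hg.mem γ hγ)]
    exact aa_congr (aa_mono (aa_and (hf.out γ hγ) (hg.out γ hγ)) fun s _ h3 => by rw [h3.1, h3.2])⟩

instance (priority := 2000) Lp.ne [hf : Lf A f] [hg : Lf A g] : Lp A fun γ => f γ ≠ g γ :=
  inferInstanceAs (Lp A fun γ => ¬ (f γ = g γ))

end

instance (priority := 2000) Lp.ball {f : Γ → M} {P : Γ → M → Prop} [Dff f]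
    [Dfp fun γ : Γ × M => P γ.1 γ.2] [hf : Lf A f] [hP : Lp A fun γ : Γ × M => P γ.1 γ.2] :
    Lp A fun γ => ∀ z, z ∈ f γ → P γ z :=
  ⟨fun γ hγ => by
    have hf' : ∀ {Δ : Type} [IsCtx Δ M] {v : Δ → M} [Dff v], Dff fun δ => f (cmap (v δ) γ) :=
      fun {_ _ _ _} => dff_un (F := fun s => f (cmap s γ)) (cs_dff (F := f) γ)
    have h2 := cs_dfp2 (P := P) γ
    have hb : ∀ {Δ : Type} [IsCtx Δ M] {u v : Δ → M} [Dff u] [Dff v],
      Dfp fun δ => P (cmap (v δ) γ) (u δ) :=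
        fun {_ _ _ _ _ _} => dfp_bin (ψ := fun z s => P (cmap s γ) z) h2
    have h3 : (A.aa fun s => ∀ z, z ∈ f (cmap s γ) → P (cmap s γ) z) ↔
        A.aa fun s => ∀ z ∈ mc s (f γ), P (cmap s γ) z :=
      aa_congr (aa_mono (hf.out γ hγ) fun s _ h3 => by rw [h3])
    rw [h3, aa_ball (hf.mem γ hγ) (ψ := fun z s => P (cmap s γ) z)]
    exact forall_congr' fun z => imp_congr_right fun hz =>
      hP.out (γ, z) ⟨hγ, A.trans_Z hz (hf.mem γ hγ)⟩⟩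

instance (priority := 2000) Lp.bex {f : Γ → M} {P : Γ → M → Prop} [Dff f]
    [Dfp fun γ : Γ × M => P γ.1 γ.2] [hf : Lf A f] [hP : Lp A fun γ : Γ × M => P γ.1 γ.2] :
    Lp A fun γ => ∃ z, z ∈ f γ ∧ P γ z :=
  ⟨fun γ hγ => by
    have hf' : ∀ {Δ : Type} [IsCtx Δ M] {v : Δ → M} [Dff v], Dff fun δ => f (cmap (v δ) γ) :=
      fun {_ _ _ _} => dff_un (F := fun s => f (cmap s γ)) (cs_dff (F := f) γ)
    have h2 := cs_dfp2 (P := P) γ
    have hb : ∀ {Δ : Type} [IsCtx Δ M] {u v : Δ → M} [Dff u] [Dff v],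
      Dfp fun δ => P (cmap (v δ) γ) (u δ) :=
        fun {_ _ _ _ _ _} => dfp_bin (ψ := fun z s => P (cmap s γ) z) h2
    have h3 : (A.aa fun s => ∃ z, z ∈ f (cmap s γ) ∧ P (cmap s γ) z) ↔
        A.aa fun s => ∃ z ∈ mc s (f γ), P (cmap s γ) z :=
      aa_congr (aa_mono (hf.out γ hγ) fun s _ h3 => by rw [h3])
    rw [h3, aa_bex (hf.mem γ hγ) (ψ := fun z s => P (cmap s γ) z)]
    exact exists_congr fun z => and_congr_right fun hz =>
      hP.out (γ, z) ⟨hγ, A.trans_Z hz (hf.mem γ hγ)⟩⟩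

/-- functions with a graph satisfying the theorem of Łoś -/
theorem Lf.of_graph {F : Γ → M} [Dff F] {R : Γ → M → Prop} [Dfp fun γ : Γ × M => R γ.1 γ.2]
    [hR : Lp A fun γ : Γ × M => R γ.1 γ.2] (hm : ∀ γ, inZ (Vr A.η) γ → F γ ∈ Vr A.η)
    (h : ∀ γ z, z = F γ ↔ R γ z) : Lf A F :=
  ⟨hm, fun γ hγ => by
    have h1 := cs_dff (F := F) γ
    have h2 := (hR.out (γ, F γ) ⟨hγ, hm γ hγ⟩).1 ((h _ _).1 rfl)
    have h3 := cs_dfp (P := fun γ : Γ × M => R γ.1 γ.2) (γ, F γ)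
    exact aa_mono h2 fun s _ h4 => ((h _ _).2 h4).symm⟩

end

end

end Pool.Agent.IST
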