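import Pool.Agent.IST.Los
import Pool.Agent.IST.Choice

/-!
# The theorem of Łoś: basic operations, fullness
-/

set_option synthInstance.maxSize 100000

namespace Pool.Agent.IST

open Pool.Agent.BVM CMap Amp

section

variable {M : Type} [SetModel M]

/-! ### closure of `V_η` -/

section

variable {η : M}

theorem mem_Vr_of_sub_Vr {x β : M} (hβ : β ∈ η) (h : x ⊆ Vr β) : x ∈ Vr η :=
  mem_Vr.2 ⟨β, hβ, h⟩

theorem empty_mem_Vr (hη : IsLim η) : ∅ ∈ Vr η :=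
  mem_Vr_of_sub_Vr (empty_mem_of_isLim hη) (empty_sub _)

theorem sc_mem_Vr (hη : IsLim η) {x : M} (hx : x ∈ Vr η) : sc x ∈ Vr η :=
  union_mem_Vr hη.1 hx (sing_mem_Vr hη hx)

theorem dom_mem_Vr (hη : IsLim η) {f : M} (hf : f ∈ Vr η) : dom f ∈ Vr η :=
  mem_Vr_of_sub (bigU_mem_Vr hη.1 (bigU_mem_Vr hη.1 hf)) fun _ h => (mem_sep.1 h).1

theorem ran_mem_Vr (hη : IsLim η) {f : M} (hf : f ∈ Vr η) : ran f ∈ Vr η :=
  mem_Vr_of_sub (bigU_mem_Vr hη.1 (bigU_mem_Vr hη.1 hf)) fun _ h => (mem_sep.1 h).1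

theorem fns_mem_Vr (hη : IsLim η) {x y : M} (hx : x ∈ Vr η) (hy : y ∈ Vr η) :
    fns x y ∈ Vr η :=
  mem_Vr_of_sub (pw_mem_Vr hη (prod_mem_Vr hη hx hy)) fun _ h => (mem_sep.1 h).1

theorem the_mem_Vr (hη : IsLim η) {P : M → Prop} (h : ∀ x, P x → x ∈ Vr η) : the P ∈ Vr η := by
  by_cases h1 : ∃! x, P x
  · exact h _ (the_spec h1)
  · unfold the
    rw [dif_neg h1]
    exact empty_mem_Vr hη

theorem op_left_mem_Vr {x y : M} (h : op x y ∈ Vr η) : x ∈ Vr η :=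
  isTrans_Vr η _ (isTrans_Vr η _ h (sing x) (mem_op.2 (Or.inl rfl))) x (mem_sing.2 rfl)

theorem op_right_mem_Vr {x y : M} (h : op x y ∈ Vr η) : y ∈ Vr η :=
  isTrans_Vr η _ (isTrans_Vr η _ h (upair x y) (mem_op.2 (Or.inr rfl))) y
    (mem_upair.2 (Or.inr rfl))

end

theorem op_left_mem_bigU {x y p : M} (h : p = op x y) : x ∈ bigU p :=
  mem_bigU.2 ⟨sing x, h ▸ mem_op.2 (Or.inl rfl), mem_sing.2 rfl⟩

theorem op_right_mem_bigU {x y p : M} (h : p = op x y) : y ∈ bigU p :=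
  mem_bigU.2 ⟨upair x y, h ▸ mem_op.2 (Or.inr rfl), mem_upair.2 (Or.inr rfl)⟩

variable {Γ : Type} [IsCtx Γ M] {A : Amp M}

theorem Dfp.drop2 {R : Γ → M → Prop} [h : Dfp fun γ : Γ × M => R γ.1 γ.2] :
    Dfp fun γ : ((Γ × M) × M) × M => R γ.1.1.1 γ.2 :=
  Dfp.comp (g := fun γ : ((Γ × M) × M) × M => ((γ.1.1, γ.2) : (Γ × M) × M))
    (P := fun δ : (Γ × M) × M => R δ.1.1 δ.2) (h := Dfp.drop)

theorem Dff.drop2 {R : Γ → M → M} [h : Dff fun γ : Γ × M => R γ.1 γ.2] :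
    Dff fun γ : ((Γ × M) × M) × M => R γ.1.1.1 γ.2 :=
  Dff.comp (g := fun γ : ((Γ × M) × M) × M => ((γ.1.1, γ.2) : (Γ × M) × M))
    (F := fun δ : (Γ × M) × M => R δ.1.1 δ.2) (h := Dff.drop)

variable [CMap Γ]

instance (priority := 2000) Lp.sub {f g : Γ → M} [Dff f] [Dff g] [Lf A f] [Lf A g] :
    Lp A fun γ => f γ ⊆ g γ := by
  simp only [sub_iff]; infer_instance

theorem Lp.drop {R : Γ → M → Prop} [Dfp fun γ : Γ × M => R γ.1 γ.2]
    [h : Lp A fun γ : Γ × M => R γ.1 γ.2] : Lp A fun γ : (Γ × M) × M => R γ.1.1 γ.2 :=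
  Lp.comp (g := fun γ : (Γ × M) × M => ((γ.1.1, γ.2) : Γ × M)) (P := fun δ : Γ × M => R δ.1 δ.2)

theorem Lf.drop {R : Γ → M → M} [Dff fun γ : Γ × M => R γ.1 γ.2]
    [h : Lf A fun γ : Γ × M => R γ.1 γ.2] : Lf A fun γ : (Γ × M) × M => R γ.1.1 γ.2 :=
  Lf.comp (g := fun γ : (Γ × M) × M => ((γ.1.1, γ.2) : Γ × M)) (F := fun δ : Γ × M => R δ.1 δ.2)

theorem Lp.drop2 {R : Γ → M → Prop} [Dfp fun γ : Γ × M => R γ.1 γ.2]
    [h : Lp A fun γ : Γ × M => R γ.1 γ.2] : Lp A fun γ : ((Γ × M) × M) × M => R γ.1.1.1 γ.2 := by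
  have := Dfp.drop (R := R)
  have := Lp.drop (A := A) (R := R)
  exact Lp.comp (g := fun γ : ((Γ × M) × M) × M => ((γ.1.1, γ.2) : (Γ × M) × M))
    (P := fun δ : (Γ × M) × M => R δ.1.1 δ.2)

theorem Lf.drop2 {R : Γ → M → M} [Dff fun γ : Γ × M => R γ.1 γ.2]
    [h : Lf A fun γ : Γ × M => R γ.1 γ.2] : Lf A fun γ : ((Γ × M) × M) × M => R γ.1.1.1 γ.2 := by
  have := Dff.drop (R := R)
  have := Lf.drop (A := A) (R := R)
  exact Lf.comp (g := fun γ : ((Γ × M) × M) × M => ((γ.1.1, γ.2) : (Γ × M) × M))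
    (F := fun δ : (Γ × M) × M => R δ.1.1 δ.2)

/-! ### unbounded quantifiers which are bounded -/

theorem Lp.all_of {P : Γ → M → Prop} [Dfp fun γ : Γ × M => P γ.1 γ.2]
    [Lp A fun γ : Γ × M => P γ.1 γ.2] (B : Γ → M) [Dff B] [Lf A B]
    (h : ∀ γ y, y ∉ B γ → P γ y) : Lp A fun γ => ∀ y, P γ y := by
  have h1 : Lp A fun γ => ∀ y, y ∈ B γ → P γ y := inferInstance
  refine Lp.congr (h := h1) fun γ => ⟨fun h2 y _ => h2 y, fun h2 y => ?_⟩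
  by_cases hy : y ∈ B γ
  · exact h2 y hy
  · exact h γ y hy

theorem Lp.ex_of {P : Γ → M → Prop} [Dfp fun γ : Γ × M => P γ.1 γ.2]
    [Lp A fun γ : Γ × M => P γ.1 γ.2] (B : Γ → M) [Dff B] [Lf A B]
    (h : ∀ γ y, P γ y → y ∈ B γ) : Lp A fun γ => ∃ y, P γ y := by
  have h1 : Lp A fun γ => ∃ y, y ∈ B γ ∧ P γ y := inferInstance
  exact Lp.congr (h := h1) fun γ => ⟨fun ⟨y, hy⟩ => ⟨y, h γ y hy, hy⟩, fun ⟨y, _, hy⟩ => ⟨y, hy⟩⟩

/-! ### functions -/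

section

variable {f g h k : Γ → M} [Dff f] [Dff g] [Dff h] [Dff k]

instance (priority := 2000) empty.lf : Lf A fun _ : Γ => (∅ : M) := by
  refine Lf.of_graph (R := fun _ z => ∀ t, t ∈ z → False) (fun _ _ => empty_mem_Vr A.lim)
    fun γ z => ?_
  rw [eq_empty_iff]

instance upair.lf [hf : Lf A f] [hg : Lf A g] : Lf A fun γ => upair (f γ) (g γ) := by
  refine Lf.of_graph (R := fun γ z => f γ ∈ z ∧ g γ ∈ z ∧ ∀ t, t ∈ z → t = f γ ∨ t = g γ)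
    (fun γ hγ => upair_mem_Vr A.lim (hf.mem γ hγ) (hg.mem γ hγ)) fun γ z => ?_
  constructor
  · rintro rfl
    simp
  · rintro ⟨h1, h2, h3⟩
    apply ext; intro t
    rw [mem_upair]
    refine ⟨h3 t, ?_⟩
    rintro (rfl | rfl)
    · exact h1
    · exact h2

instance sing.lf [hf : Lf A f] : Lf A fun γ => sing (f γ) :=
  inferInstanceAs (Lf A fun γ => upair (f γ) (f γ))

instance op.lf [hf : Lf A f] [hg : Lf A g] : Lf A fun γ => op (f γ) (g γ) :=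
  inferInstanceAs (Lf A fun γ => upair (sing (f γ)) (upair (f γ) (g γ)))

instance bigU.lf [hf : Lf A f] : Lf A fun γ => bigU (f γ) := by
  refine Lf.of_graph (R := fun γ z => (∀ t, t ∈ z → ∃ y, y ∈ f γ ∧ t ∈ y) ∧
    ∀ y, y ∈ f γ → ∀ t, t ∈ y → t ∈ z)
    (fun γ hγ => bigU_mem_Vr A.lim.1 (hf.mem γ hγ)) fun γ z => ?_
  constructor
  · rintro rfl
    exact ⟨fun t ht => mem_bigU.1 ht, fun y hy t ht => mem_bigU.2 ⟨y, hy, ht⟩⟩
  · rintro ⟨h1, h2⟩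
    apply ext; intro t
    rw [mem_bigU]
    exact ⟨h1 t, fun ⟨y, hy, ht⟩ => h2 y hy t ht⟩

instance union.lf [hf : Lf A f] [hg : Lf A g] : Lf A fun γ => f γ ∪ g γ :=
  inferInstanceAs (Lf A fun γ => bigU (upair (f γ) (g γ)))

instance sep.lf {P : Γ → M → Prop} [Dfp fun γ : Γ × M => P γ.1 γ.2] [hf : Lf A f]
    [hP : Lp A fun γ : Γ × M => P γ.1 γ.2] : Lf A fun γ => sep (f γ) (P γ) := by
  have := Dfp.drop (R := P)
  have := Lp.drop (A := A) (R := P)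
  refine Lf.of_graph (R := fun γ z => (∀ t, t ∈ z → t ∈ f γ ∧ P γ t) ∧
    ∀ t, t ∈ f γ → P γ t → t ∈ z) (fun γ hγ => mem_Vr_of_sub (hf.mem γ hγ) fun z hz => ?_)
    fun γ z => ?_
  · have := dfp_slice (P := P) γ
    exact (mem_sep.1 hz).1
  · have := dfp_slice (P := P) γ
    constructor
    · rintro rfl
      exact ⟨fun t ht => mem_sep.1 ht, fun t h1 h2 => mem_sep.2 ⟨h1, h2⟩⟩
    · rintro ⟨h1, h2⟩
      apply ext; intro t
      rw [mem_sep]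
      exact ⟨h1 t, fun h3 => h2 t h3.1 h3.2⟩

instance inter.lf [hf : Lf A f] [hg : Lf A g] : Lf A fun γ => f γ ∩ g γ :=
  inferInstanceAs (Lf A fun γ => sep (f γ) fun t => t ∈ g γ)

instance diff.lf [hf : Lf A f] [hg : Lf A g] : Lf A fun γ => f γ \ g γ :=
  inferInstanceAs (Lf A fun γ => sep (f γ) fun t => t ∉ g γ)

instance sc.lf [hf : Lf A f] : Lf A fun γ => sc (f γ) :=
  inferInstanceAs (Lf A fun γ => f γ ∪ sing (f γ))

/-- functions given by a definite description -/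
theorem the.lf {P : Γ → M → Prop} [Dfp fun γ : Γ × M => P γ.1 γ.2]
    [hP : Lp A fun γ : Γ × M => P γ.1 γ.2] (B : Γ → M) [Dff B] [hB : Lf A B]
    (h : ∀ γ y, P γ y → y ∈ B γ) : Lf A fun γ => the (P γ) := by
  have := Dfp.drop (R := P)
  have h2 := Lp.drop (A := A) (R := P)
  have h2 := Dfp.drop2 (R := P)
  have h2 := Lp.drop2 (A := A) (R := P)
  have h3 : ∀ γ, (∃! x, P γ x) ↔ ∃ x, x ∈ B γ ∧ (P γ x ∧ ∀ y, y ∈ B γ → P γ y → y = x) := by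
    intro γ
    constructor
    · rintro ⟨x, hx, hx'⟩
      exact ⟨x, h γ x hx, hx, fun y _ hy => hx' y hy⟩
    · rintro ⟨x, _, hx, hx'⟩
      exact ⟨x, hx, fun y hy => hx' y (h γ y hy) hy⟩
  refine Lf.of_graph (R := fun γ z =>
    ((∃ x, x ∈ B γ ∧ (P γ x ∧ ∀ y, y ∈ B γ → P γ y → y = x)) ∧ P γ z) ∨
      (¬ (∃ x, x ∈ B γ ∧ (P γ x ∧ ∀ y, y ∈ B γ → P γ y → y = x)) ∧ z = ∅)) (fun γ hγ => ?_)
    fun γ z => ?_
  · exact the_mem_Vr A.lim fun x hx => A.trans_Z (h γ x hx) (hB.mem γ hγ)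
  · rw [← h3]
    by_cases h : ∃! x, P γ x
    · simp only [h, true_and, not_true_eq_false, false_and, or_false]
      exact ⟨fun e => e ▸ the_spec h, fun hz => h.unique hz (the_spec h)⟩
    · simp only [h, false_and, not_false_eq_true, true_and, false_or]
      unfold the
      rw [dif_neg h]

theorem prod_graph {a b z : M} : z = prod a b ↔
    (∀ t, t ∈ z → ∃ x, x ∈ a ∧ ∃ y, y ∈ b ∧ t = op x y) ∧
      ∀ x, x ∈ a → ∀ y, y ∈ b → op x y ∈ z := by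
  constructor
  · rintro rfl
    exact ⟨fun t ht => by simpa using ht, fun x hx y hy => op_mem_prod.2 ⟨hx, hy⟩⟩
  · rintro ⟨h1, h2⟩
    apply ext; intro t
    rw [mem_prod]
    refine ⟨fun ht => by simpa using h1 t ht, ?_⟩
    rintro ⟨x, hx, y, hy, rfl⟩
    exact h2 x hx y hy

instance prod.lf [hf : Lf A f] [hg : Lf A g] : Lf A fun γ => prod (f γ) (g γ) :=
  Lf.of_graph (fun γ hγ => prod_mem_Vr A.lim (hf.mem γ hγ) (hg.mem γ hγ))
    fun _ _ => prod_graph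

instance dom.lf [hf : Lf A f] : Lf A fun γ => dom (f γ) := by
  have : Lp A fun γ : Γ × M => ∃ y, op γ.2 y ∈ f γ.1 :=
    Lp.ex_of (fun γ : Γ × M => bigU (bigU (f γ.1))) fun γ y h => mem_bigU_bigU_right h
  unfold dom
  infer_instance

instance ran.lf [hf : Lf A f] : Lf A fun γ => ran (f γ) := by
  have : Lp A fun γ : Γ × M => ∃ x, op x γ.2 ∈ f γ.1 :=
    Lp.ex_of (fun γ : Γ × M => bigU (bigU (f γ.1))) fun γ y h => mem_bigU_bigU_left h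
  unfold ran
  infer_instance

instance ap.lf [hf : Lf A f] [hg : Lf A g] : Lf A fun γ => ap (f γ) (g γ) := by
  unfold ap
  exact the.lf (fun γ => ran (f γ)) fun γ y h => mem_ran.2 ⟨_, h⟩

instance p1.lf [hf : Lf A f] : Lf A fun γ => p1 (f γ) := by
  have : Lp A fun γ : Γ × M => ∃ y, f γ.1 = op γ.2 y :=
    Lp.ex_of (fun γ : Γ × M => bigU (f γ.1)) fun γ y h => op_right_mem_bigU h
  unfold p1
  exact the.lf (fun γ => bigU (f γ)) fun γ y ⟨x, h⟩ => op_left_mem_bigU h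

instance p2.lf [hf : Lf A f] : Lf A fun γ => p2 (f γ) := by
  have : Lp A fun γ : Γ × M => ∃ x, f γ.1 = op x γ.2 :=
    Lp.ex_of (fun γ : Γ × M => bigU (f γ.1)) fun γ y h => op_left_mem_bigU h
  unfold p2
  exact the.lf (fun γ => bigU (f γ)) fun γ y ⟨x, h⟩ => op_right_mem_bigU h

end

/-! ### fullness: power sets -/

theorem mc_pw_sub {s a : M} : mc s (pw a) ⊆ pw (mc s a) := by
  intro z hz
  obtain ⟨b, -, hb, rfl⟩ := mem_mc.1 hz
  rw [mem_pw] at hb ⊢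
  intro w hw
  obtain ⟨v, hv, hvb, rfl⟩ := mem_mc.1 hw
  exact mem_mc.2 ⟨v, hv, hb v hvb, rfl⟩

theorem los_pw {a : M} (ha : a ∈ Vr A.η) : A.aa fun s => pw (mc s a) = mc s (pw a) := by
  by_contra hc
  have h1 : A.aa fun s => ∃ y, y ⊆ mc s a ∧ y ∉ mc s (pw a) := by
    refine aa_mono (aa_not.2 hc) fun s _ h => ?_
    by_contra h'
    push Not at h'
    exact h (Sub.antisymm (fun y hy => h' y (mem_pw.1 hy)) mc_pw_sub)
  obtain ⟨Y, -, -, hY⟩ := exists_choice_cls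
    (sep A.D fun s => ∃ y, y ⊆ mc s a ∧ y ∉ mc s (pw a))
    (fun s y => y ⊆ mc s a ∧ y ∉ mc s (pw a)) fun s hs => (mem_sep.1 hs).2
  have hb : sep a (fun v => A.aa fun s => mc s v ∈ ap Y s) ∈ Vr A.η :=
    mem_Vr_of_sub ha fun _ h => (mem_sep.1 h).1
  have h2 : A.aa fun s => ∀ v ∈ s, (v ∈ a → (v ∈ sep a (fun v => A.aa fun s => mc s v ∈ ap Y s) ↔
      mc s v ∈ ap Y s)) := by
    refine aa_all.2 fun v _ => ?_
    by_cases hv : v ∈ a
    · have h3 : A.aa fun s => (v ∈ sep a (fun v => A.aa fun s => mc s v ∈ ap Y s) ↔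
          mc s v ∈ ap Y s) := by
        refine A.nfu.aa_iff_iff.2 (A.nfu.aa_const.trans ?_)
        rw [mem_sep]
        exact ⟨fun h => h.2, fun h => ⟨hv, h⟩⟩
      exact aa_mono h3 fun s _ h _ => h
    · exact aa_of_all fun s _ h => absurd h hv
  obtain ⟨s, hs, ⟨h3, h4⟩, h5⟩ := aa_ex (aa_and (aa_and h1 h2) (aa_fine hb))
  obtain ⟨h6, h7⟩ := hY s (mem_sep.2 ⟨hs, h3⟩)
  refine h7 (mem_mc.2 ⟨_, h5, mem_pw.2 fun _ h => (mem_sep.1 h).1, ?_⟩)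
  apply ext; intro w
  rw [mem_mc]
  constructor
  · intro hw
    obtain ⟨v, hv, hva, rfl⟩ := mem_mc.1 (h6 w hw)
    exact ⟨v, hv, (h4 v hv hva).2 hw, rfl⟩
  · rintro ⟨v, hv, hvb, rfl⟩
    exact (h4 v hv (mem_sep.1 hvb).1).1 hvb

instance pw.lf {f : Γ → M} [Dff f] [hf : Lf A f] : Lf A fun γ => pw (f γ) :=
  ⟨fun γ hγ => pw_mem_Vr A.lim (hf.mem γ hγ), fun γ hγ => by
    have h1 := cs_dff (F := f) γ
    exact aa_mono (aa_and (hf.out γ hγ) (los_pw (hf.mem γ hγ))) fun s _ h => by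
      rw [h.1, h.2]⟩

/-! ### replacement, when the values are in `V_η` -/

/-- local form of the theorem for images -/
theorem los_img {a : M} (ha : a ∈ Vr A.η) {F : M → M} [hF : Dff fun γ : E0 M × M => F γ.2]
    {G : M → M → M} [hG : Dff fun γ : (E0 M × M) × M => G γ.1.2 γ.2]
    (h : ∀ x ∈ a, A.aa fun s => G s (mc s x) = mc s (F x)) (hm : img a F ∈ Vr A.η) :
    A.aa fun s => img (mc s a) (G s) = mc s (img a F) := by
  have hF' : ∀ {Δ : Type} [IsCtx Δ M] {v : Δ → M} [Dff v], Dff fun δ => F (v δ) :=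
    fun {_ _ _ _} => dff_un hF
  have hG' : ∀ {Δ : Type} [IsCtx Δ M] {u v : Δ → M} [Dff u] [Dff v], Dff fun δ => G (u δ) (v δ) :=
    fun {_ _ _ _ _ _} => dff_bin hG
  have hZ : ∀ x ∈ a, F x ∈ Vr A.η := fun x hx => A.trans_Z (mem_img.2 ⟨x, hx, rfl⟩) hm
  have h1 : A.aa fun s => ∀ x ∈ s, x ∈ a → F x ∈ s ∧ G s (mc s x) = mc s (F x) := by
    refine aa_all.2 fun x _ => ?_
    by_cases hx : x ∈ a
    · exact aa_mono (aa_and (aa_fine (hZ x hx)) (h x hx)) fun s _ h _ => h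
    · exact aa_of_all fun s _ h => absurd h hx
  have h2 : A.aa fun s => ∀ y ∈ s, y ∈ img a F → ∃ x ∈ s, x ∈ a ∧ y = F x := by
    refine aa_all.2 fun y _ => ?_
    by_cases hy : y ∈ img a F
    · obtain ⟨x, hx, rfl⟩ := mem_img.1 hy
      exact aa_mono (aa_fine (A.trans_Z hx ha)) fun s _ hs _ => ⟨x, hs, hx, rfl⟩
    · exact aa_of_all fun s _ h => absurd h hy
  refine aa_mono (aa_and h1 h2) fun s _ ⟨h1, h2⟩ => ext fun w => ?_
  rw [mem_mc, mem_img]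
  constructor
  · rintro ⟨u, hu, rfl⟩
    obtain ⟨x, hx, hxa, rfl⟩ := mem_mc.1 hu
    obtain ⟨h3, h4⟩ := h1 x hx hxa
    exact ⟨F x, h3, mem_img.2 ⟨x, hxa, rfl⟩, h4⟩
  · rintro ⟨y, hy, hya, rfl⟩
    obtain ⟨x, hx, hxa, rfl⟩ := h2 y hy hya
    exact ⟨mc s x, mem_mc.2 ⟨x, hx, hxa, rfl⟩, (h1 x hx hxa).2.symm⟩

end

end Pool.Agent.IST
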