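import Pool.Agent.IST.LosB
import Pool.Agent.IST.Subst

/-!
# The theorem of Łoś: images, recursion, functions
-/

set_option synthInstance.maxSize 100000

namespace Pool.Agent.IST

open Pool.Agent.BVM CMap Amp

section

variable {M : Type} [SetModel M] {Γ : Type} [IsCtx Γ M] {A : Amp M}

/-! ### application of the classes -/

theorem Lf.ap1 {F : M → M} [Dff fun γ : E0 M × M => F γ.2] [h : Lf A fun γ : E0 M × M => F γ.2]
    {x : M} (hx : x ∈ Vr A.η) : A.aa fun s => F (mc s x) = mc s (F x) :=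
  h.out (⟨⟩, x) ⟨trivial, hx⟩

theorem Lf.ap2 {F : M → M → M} [Dff fun γ : (E0 M × M) × M => F γ.1.2 γ.2]
    [h : Lf A fun γ : (E0 M × M) × M => F γ.1.2 γ.2]
    {x y : M} (hx : x ∈ Vr A.η) (hy : y ∈ Vr A.η) :
    A.aa fun s => F (mc s x) (mc s y) = mc s (F x y) :=
  h.out ((⟨⟩, x), y) ⟨⟨trivial, hx⟩, hy⟩

theorem Lf.ap3 {F : M → M → M → M} [Dff fun γ : ((E0 M × M) × M) × M => F γ.1.1.2 γ.1.2 γ.2]
    [h : Lf A fun γ : ((E0 M × M) × M) × M => F γ.1.1.2 γ.1.2 γ.2]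
    {x y z : M} (hx : x ∈ Vr A.η) (hy : y ∈ Vr A.η) (hz : z ∈ Vr A.η) :
    A.aa fun s => F (mc s x) (mc s y) (mc s z) = mc s (F x y z) :=
  h.out (((⟨⟩, x), y), z) ⟨⟨⟨trivial, hx⟩, hy⟩, hz⟩

theorem Lp.ap1 {P : M → Prop} [Dfp fun γ : E0 M × M => P γ.2] [h : Lp A fun γ : E0 M × M => P γ.2]
    {x : M} (hx : x ∈ Vr A.η) : P x ↔ A.aa fun s => P (mc s x) :=
  h.out (⟨⟩, x) ⟨trivial, hx⟩

theorem Lp.ap2 {P : M → M → Prop} [Dfp fun γ : (E0 M × M) × M => P γ.1.2 γ.2]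
    [h : Lp A fun γ : (E0 M × M) × M => P γ.1.2 γ.2]
    {x y : M} (hx : x ∈ Vr A.η) (hy : y ∈ Vr A.η) :
    P x y ↔ A.aa fun s => P (mc s x) (mc s y) :=
  h.out ((⟨⟩, x), y) ⟨⟨trivial, hx⟩, hy⟩

theorem Lp.ap3 {P : M → M → M → Prop} [Dfp fun γ : ((E0 M × M) × M) × M => P γ.1.1.2 γ.1.2 γ.2]
    [h : Lp A fun γ : ((E0 M × M) × M) × M => P γ.1.1.2 γ.1.2 γ.2]
    {x y z : M} (hx : x ∈ Vr A.η) (hy : y ∈ Vr A.η) (hz : z ∈ Vr A.η) :
    P x y z ↔ A.aa fun s => P (mc s x) (mc s y) (mc s z) :=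
  h.out (((⟨⟩, x), y), z) ⟨⟨⟨trivial, hx⟩, hy⟩, hz⟩

theorem Lp.ap4 {P : M → M → M → M → Prop}
    [Dfp fun γ : (((E0 M × M) × M) × M) × M => P γ.1.1.1.2 γ.1.1.2 γ.1.2 γ.2]
    [h : Lp A fun γ : (((E0 M × M) × M) × M) × M => P γ.1.1.1.2 γ.1.1.2 γ.1.2 γ.2]
    {x y z w : M} (hx : x ∈ Vr A.η) (hy : y ∈ Vr A.η) (hz : z ∈ Vr A.η) (hw : w ∈ Vr A.η) :
    P x y z w ↔ A.aa fun s => P (mc s x) (mc s y) (mc s z) (mc s w) :=
  h.out ((((⟨⟩, x), y), z), w) ⟨⟨⟨⟨trivial, hx⟩, hy⟩, hz⟩, hw⟩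

/-- local form of the theorem for functions -/
theorem los_lam {a : M} (ha : a ∈ Vr A.η) {F : M → M} [hF : Dff fun γ : E0 M × M => F γ.2]
    {G : M → M → M} [hG : Dff fun γ : (E0 M × M) × M => G γ.1.2 γ.2]
    (h : ∀ x ∈ a, A.aa fun s => G s (mc s x) = mc s (F x)) (hm : lam a F ∈ Vr A.η) :
    A.aa fun s => lam (mc s a) (G s) = mc s (lam a F) := by
  have hF' : ∀ {Δ : Type} [IsCtx Δ M] {v : Δ → M} [Dff v], Dff fun δ => F (v δ) :=
    fun {_ _ _ _} => dff_un hF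
  have hG' : ∀ {Δ : Type} [IsCtx Δ M] {u v : Δ → M} [Dff u] [Dff v], Dff fun δ => G (u δ) (v δ) :=
    fun {_ _ _ _ _ _} => dff_bin hG
  refine los_img ha (F := fun x => op x (F x)) (G := fun s x => op x (G s x)) (fun x hx => ?_) hm
  have hp : op x (F x) ∈ Vr A.η := A.trans_Z (mem_lam.2 ⟨x, hx, rfl⟩) hm
  have h1 := Lf.ap2 (A := A) (F := op) (op_left_mem_Vr hp) (op_right_mem_Vr hp)
  exact aa_mono (aa_and (h x hx) h1) fun s _ h2 => by rw [h2.1, h2.2]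

variable [CMap Γ]

/-- the values of `F` are in `V_η` -/
class Cl (A : Amp M) (F : Γ → M) : Prop where
  mem : ∀ γ, inZ (Vr A.η) γ → F γ ∈ Vr A.η

instance img.lf {f : Γ → M} {F : Γ → M → M} [Dff f] [hd : Dff fun γ : Γ × M => F γ.1 γ.2]
    [hf : Lf A f] [hF : Lf A fun γ : Γ × M => F γ.1 γ.2] [hm : Cl A fun γ => img (f γ) (F γ)] :
    Lf A fun γ => img (f γ) (F γ) := by
  refine ⟨hm.mem, fun γ hγ => ?_⟩
  have h1 := cs_dff (F := f) γ
  have h2 : Dff fun δ : (E0 M × M) × M => F (cmap δ.1.2 γ) δ.2 := by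
    refine Dff.subst (F := fun γ : Γ × M => F γ.1 γ.2)
      (σ := fun δ : (E0 M × M) × M => (cmap δ.1.2 γ, δ.2)) ?_
    rintro f (⟨g, hg, rfl⟩ | rfl)
    · have : Dff g := Dff.of_simple hg
      have := cs_dff (F := g) γ
      exact dff_un (F := fun s => g (cmap s γ)) this (f := fun δ : (E0 M × M) × M => δ.1.2)
    · exact inferInstanceAs (Dff fun δ : (E0 M × M) × M => δ.2)
  have h3 := dff_slice (F := F) γ
  have h4 := los_img (hf.mem γ hγ) (F := F γ) (G := fun s x => F (cmap s γ) x)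
    (fun x hx => hF.out (γ, x) ⟨hγ, A.trans_Z hx (hf.mem γ hγ)⟩) (hm.mem γ hγ)
  exact aa_mono (aa_and (hf.out γ hγ) h4) fun s _ h5 => by rw [h5.1, h5.2]

instance lam.lf {f : Γ → M} {F : Γ → M → M} [Dff f] [hd : Dff fun γ : Γ × M => F γ.1 γ.2]
    [hf : Lf A f] [hF : Lf A fun γ : Γ × M => F γ.1 γ.2] [hm : Cl A fun γ => lam (f γ) (F γ)] :
    Lf A fun γ => lam (f γ) (F γ) := by
  have : Cl A fun γ => img (f γ) fun x => op x (F γ x) := hm
  exact inferInstanceAs (Lf A fun γ => img (f γ) fun x => op x (F γ x))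

instance iU.lf {f : Γ → M} {F : Γ → M → M} [Dff f] [hd : Dff fun γ : Γ × M => F γ.1 γ.2]
    [hf : Lf A f] [hF : Lf A fun γ : Γ × M => F γ.1 γ.2] [hm : Cl A fun γ => img (f γ) (F γ)] :
    Lf A fun γ => iU (f γ) (F γ) :=
  inferInstanceAs (Lf A fun γ => bigU (img (f γ) (F γ)))

/-- recursion along membership -/
theorem erec.lf {G : Γ → M → M → M} [hG : Dff fun γ : (Γ × M) × M => G γ.1.1 γ.1.2 γ.2]
    [hL : Lf A fun γ : (Γ × M) × M => G γ.1.1 γ.1.2 γ.2] {f : Γ → M} [Dff f] [hf : Lf A f]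
    (hm : ∀ γ, inZ (Vr A.η) γ → ∀ x ∈ Vr A.η, lam x (fun y => erec (G γ) y) ∈ Vr A.η) :
    Lf A fun γ => erec (G γ) (f γ) := by
  have key : ∀ γ, inZ (Vr A.η) γ → ∀ x, x ∈ Vr A.η →
      A.aa fun s => erec (G (cmap s γ)) (mc s x) = mc s (erec (G γ) x) := by
    intro γ hγ
    have h1 : Dff fun δ : ((E0 M × M) × M) × M => G (cmap δ.1.1.2 γ) δ.1.2 δ.2 := by
      refine Dff.subst (F := fun γ : (Γ × M) × M => G γ.1.1 γ.1.2 γ.2)
        (σ := fun δ : ((E0 M × M) × M) × M => ((cmap δ.1.1.2 γ, δ.1.2), δ.2)) ?_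
      rintro f (⟨g, ⟨g', hg', rfl⟩ | rfl, rfl⟩ | rfl)
      · have : Dff g' := Dff.of_simple hg'
        have := cs_dff (F := g') γ
        exact dff_un (F := fun s => g' (cmap s γ)) this
          (f := fun δ : ((E0 M × M) × M) × M => δ.1.1.2)
      · exact inferInstanceAs (Dff fun δ : ((E0 M × M) × M) × M => δ.1.2)
      · exact inferInstanceAs (Dff fun δ : ((E0 M × M) × M) × M => δ.2)
    have h2 : Dff fun δ : (E0 M × M) × M => erec (G (cmap δ.1.2 γ)) δ.2 :=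
      erec.dff' (Γ := E0 M × M) (G := fun δ => G (cmap δ.2 γ)) (h := h1)
        (c := fun δ : (E0 M × M) × M => δ.1) (f := fun δ => δ.2)
    have h3 : ∀ {Δ : Type} [IsCtx Δ M] {u v : Δ → M} [Dff u] [Dff v],
        Dff fun δ => erec (G (cmap (u δ) γ)) (v δ) :=
      fun {_ _ _ _ _ _} => dff_bin (F := fun s x => erec (G (cmap s γ)) x) h2
    have h4 : ∀ γ, Dff fun δ : (E0 M × M) × M => G γ δ.1.2 δ.2 := fun γ => dff_slice2 γ
    have h5 := h4 γ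
    have h5' : ∀ {Δ : Type} [IsCtx Δ M] {v : Δ → M} [Dff v],
        Dff fun δ => erec (G γ) (v δ) :=
      fun {_ _ _ _} => dff_un (F := fun x => erec (G γ) x) erec_slice
    refine mem_ind (fun x => x ∈ Vr A.η →
      A.aa fun s => erec (G (cmap s γ)) (mc s x) = mc s (erec (G γ) x)) fun x ih hx => ?_
    have hLx := hm γ hγ x hx
    have h6 := los_lam hx (F := fun y => erec (G γ) y) (G := fun s y => erec (G (cmap s γ)) y)
      (fun y hy => ih y hy (A.trans_Z hy hx)) hLx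
    have h7 : A.aa fun s => G (cmap s γ) (mc s x) (mc s (lam x fun y => erec (G γ) y)) =
        mc s (G γ x (lam x fun y => erec (G γ) y)) :=
      hL.out ((γ, x), lam x fun y => erec (G γ) y) ⟨⟨hγ, hx⟩, hLx⟩
    have h8 : ∀ {Δ : Type} [IsCtx Δ M] {u v w : Δ → M} [Dff u] [Dff v] [Dff w],
        Dff fun δ => G (cmap (u δ) γ) (v δ) (w δ) := fun {_ _ _ _ _ _ _ _} =>
      Dff.lift3 (Γ := E0 M) (F := fun _ s x y => G (cmap s γ) x y) (h := h1) (c := fun _ => ⟨⟩)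
        (hc := ⟨fun f _ => (IsCtx.const (f ⟨⟩) : IsCtx.simple fun _ : _ => f ⟨⟩)⟩)
    refine aa_mono (aa_and h6 h7) fun s _ h9 => ?_
    have h10 := h4 (cmap s γ)
    rw [erec_eq (G := G (cmap s γ)), h9.1, h9.2, ← erec_eq (G := G γ)]
  refine ⟨fun γ hγ => ?_, fun γ hγ => ?_⟩
  · have h1 : Dff fun δ : (E0 M × M) × M => G γ δ.1.2 δ.2 := dff_slice2 γ
    rw [erec_eq]
    exact hL.mem ((γ, f γ), _) ⟨⟨hγ, hf.mem γ hγ⟩, hm γ hγ _ (hf.mem γ hγ)⟩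
  · have h1 := cs_dff (F := f) γ
    have h2 := cs_dff (F := fun γ => erec (G γ) (f γ)) γ
    have h3 := key γ hγ (f γ) (hf.mem γ hγ)
    have h4 : Dff fun δ : ((E0 M × M) × M) × M => G (cmap δ.1.1.2 γ) δ.1.2 δ.2 := by
      refine Dff.subst (F := fun γ : (Γ × M) × M => G γ.1.1 γ.1.2 γ.2)
        (σ := fun δ : ((E0 M × M) × M) × M => ((cmap δ.1.1.2 γ, δ.1.2), δ.2)) ?_
      rintro f (⟨g, ⟨g', hg', rfl⟩ | rfl, rfl⟩ | rfl)
      · have : Dff g' := Dff.of_simple hg'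
        have := cs_dff (F := g') γ
        exact dff_un (F := fun s => g' (cmap s γ)) this
          (f := fun δ : ((E0 M × M) × M) × M => δ.1.1.2)
      · exact inferInstanceAs (Dff fun δ : ((E0 M × M) × M) × M => δ.1.2)
      · exact inferInstanceAs (Dff fun δ : ((E0 M × M) × M) × M => δ.2)
    have h5 : Dff fun δ : (E0 M × M) × M => erec (G (cmap δ.1.2 γ)) δ.2 :=
      erec.dff' (Γ := E0 M × M) (G := fun δ => G (cmap δ.2 γ)) (h := h4)
        (c := fun δ : (E0 M × M) × M => δ.1) (f := fun δ => δ.2)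
    have h6 : ∀ {Δ : Type} [IsCtx Δ M] {u v : Δ → M} [Dff u] [Dff v],
        Dff fun δ => erec (G (cmap (u δ) γ)) (v δ) :=
      fun {_ _ _ _ _ _} => dff_bin (F := fun s x => erec (G (cmap s γ)) x) h5
    exact aa_mono (aa_and (hf.out γ hγ) h3) fun s _ h => by rw [h.1, h.2]

end

end Pool.Agent.IST
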