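import Pool.Agent.IST.LosC

/-!
# The theorem of Łoś: functions, ordinals, ranks, collapses
-/

set_option synthInstance.maxSize 100000

namespace Pool.Agent.IST

open Pool.Agent.BVM CMap Amp

section

variable {M : Type} [SetModel M]

/-! ### closure of `V_η` -/

theorem mc_sub_Vr {s x : M} : mc s x ⊆ Vr (rk x) := by
  refine mem_ind (fun x => mc s x ⊆ Vr (rk x)) (fun x ih z hz => ?_) x
  obtain ⟨y, -, hy, rfl⟩ := mem_mc.1 hz
  exact mem_Vr.2 ⟨rk y, rk_mem hy, ih y hy⟩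

theorem rk_mc_sub {s x : M} : rk (mc s x) ⊆ rk x := (sub_Vr_iff (isOrd_rk x)).1 mc_sub_Vr

theorem mc_mem_Vr {η s x : M} (hη : IsOrd η) (hx : x ∈ Vr η) : mc s x ∈ Vr η := by
  rw [mem_Vr_iff hη] at hx ⊢
  exact (isOrd_rk _).mem_of_sub_of_mem hη rk_mc_sub hx

theorem Vr_rk (x : M) : Vr (rk x) = Vr x := by
  refine mem_ind (fun x => Vr (rk x) = Vr x) (fun x ih => ext fun z => ?_) x
  rw [mem_Vr, mem_Vr]
  constructor
  · rintro ⟨β, hβ, hz⟩
    obtain ⟨y, hy, h⟩ := mem_rk.1 hβ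
    refine ⟨y, hy, ?_⟩
    rw [← ih y hy]
    refine Sub.trans hz (Vr_mono ?_)
    rcases mem_sc.1 h with h | rfl
    · exact (isOrd_rk y).sub_of_mem h
    · exact Sub.refl _
  · rintro ⟨y, hy, hz⟩
    exact ⟨rk y, rk_mem hy, by rw [ih y hy]; exact hz⟩

theorem rk_mem_Vr {η x : M} (hη : IsOrd η) (hx : x ∈ Vr η) : rk x ∈ Vr η := by
  rw [mem_Vr_iff hη] at hx ⊢
  rwa [rk_ord (isOrd_rk x)]

theorem rk_Vr_sub {α : M} (h : IsOrd α) : rk (Vr α) ⊆ α := (sub_Vr_iff h).1 (Sub.refl _)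

theorem Vr_mem_Vr {η x : M} (hη : IsOrd η) (hx : x ∈ Vr η) : Vr x ∈ Vr η := by
  rw [mem_Vr_iff hη] at hx ⊢
  rw [← Vr_rk]
  exact (isOrd_rk _).mem_of_sub_of_mem hη (rk_Vr_sub (isOrd_rk x)) hx

theorem rk_sc {x : M} : rk (sc x) = sc (rk x) := by
  refine ord_eq_ext (isOrd_rk _) (isOrd_rk _).sc fun γ hγ => ?_
  rw [rk_sub_iff hγ, hγ.sc_sub_iff]
  constructor
  · exact fun h => h x (self_mem_sc x)
  · intro h y hy
    rcases mem_sc.1 hy with h1 | rfl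
    · exact hγ.trans (rk_mem h1) h
    · exact h

/-- images with bounded increase of rank -/
theorem img_mem_Vr {η a : M} (hη : IsLim η) (ha : a ∈ Vr η) (F : M → M)
    [Dff fun γ : E0 M × M => F γ.2] (h : ∀ x ∈ a, F x ⊆ Vr (sc (rk x))) : img a F ∈ Vr η := by
  have h1 := (mem_Vr_iff hη.1).1 ha
  have h2 : img a F ⊆ Vr (sc (rk a)) := by
    intro z hz
    obtain ⟨x, hx, rfl⟩ := mem_img.1 hz
    rw [Vr_sc (isOrd_rk a), mem_pw]
    refine Sub.trans (h x hx) (Vr_mono ?_)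
    rw [(isOrd_rk a).sc_sub_iff]
    exact rk_mem hx
  exact mem_Vr_of_sub_Vr (hη.2.2 _ h1) h2

variable {Γ : Type} [IsCtx Γ M] {A : Amp M} [CMap Γ]

section

variable {f g h k : Γ → M} [Dff f] [Dff g] [Dff h] [Dff k]

/-! ### relations and functions -/

instance IsRel.lp [hf : Lf A f] : Lp A fun γ => IsRel (f γ) := by
  have h1 : Lp A fun γ : (Γ × M) × M => ∃ y, γ.1.2 = op γ.2 y :=
    Lp.ex_of (fun γ : (Γ × M) × M => bigU γ.1.2) fun γ y h => op_right_mem_bigU h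
  have h2 : Lp A fun γ : Γ × M => ∃ x, ∃ y, γ.2 = op x y :=
    Lp.ex_of (fun γ : Γ × M => bigU γ.2) fun γ x ⟨y, h⟩ => op_left_mem_bigU h
  unfold IsRel
  infer_instance

theorem isFun_iff {f : M} : IsFun f ↔ IsRel f ∧ ∀ p ∈ f, ∀ q ∈ f, p1 p = p1 q → p2 p = p2 q := by
  refine and_congr_right fun hr => ⟨fun h p hp q hq e => ?_, fun h x y y' h1 h2 => ?_⟩
  · obtain ⟨x, y, rfl⟩ := hr p hp
    obtain ⟨x', y', rfl⟩ := hr q hq
    simp only [p1_op, p2_op] at e ⊢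
    subst e
    exact h x y y' hp hq
  · simpa using h _ h1 _ h2 (by simp)

instance IsFun.lp [hf : Lf A f] : Lp A fun γ => IsFun (f γ) := by
  have h1 : Lp A fun γ => IsRel (f γ) ∧
      ∀ p, p ∈ f γ → ∀ q, q ∈ f γ → p1 p = p1 q → p2 p = p2 q := inferInstance
  exact Lp.congr (h := h1) fun γ => isFun_iff

instance Maps.lp [Lf A f] [Lf A g] [Lf A h] : Lp A fun γ => Maps (f γ) (g γ) (h γ) := by
  unfold Maps; infer_instance

instance fns.lf [Lf A f] [Lf A g] : Lf A fun γ => fns (f γ) (g γ) := by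
  unfold fns; infer_instance

instance Inj.lp [Lf A f] : Lp A fun γ => Inj (f γ) := by
  unfold Inj; infer_instance

instance Bij.lp [Lf A f] [Lf A g] [Lf A h] : Lp A fun γ => Bij (f γ) (g γ) (h γ) := by
  unfold Bij; infer_instance

instance res.lf [Lf A f] [Lf A g] : Lf A fun γ => res (f γ) (g γ) := by
  have h1 : Lp A fun γ : (Γ × M) × M => ∃ y, γ.1.2 = op γ.2 y :=
    Lp.ex_of (fun γ : (Γ × M) × M => bigU γ.1.2) fun γ y h => op_right_mem_bigU h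
  unfold res
  infer_instance

instance im.lf [Lf A f] [Lf A g] : Lf A fun γ => im (f γ) (g γ) := by
  unfold im; infer_instance

instance Eqn.lp [Lf A f] [Lf A g] : Lp A fun γ => Eqn (f γ) (g γ) := by
  unfold Eqn
  exact Lp.ex_of (fun γ => pw (prod (f γ) (g γ))) fun γ y h => mem_pw.2 h.1.sub_prod

instance Leq.lp [Lf A f] [Lf A g] : Lp A fun γ => Leq (f γ) (g γ) := by
  unfold Leq
  exact Lp.ex_of (fun γ => pw (prod (f γ) (g γ))) fun γ y h => mem_pw.2 h.1.sub_prod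

/-! ### ordinals -/

instance IsTrans.lp [Lf A f] : Lp A fun γ => IsTrans (f γ) := by
  unfold IsTrans; infer_instance

instance IsOrd.lp [Lf A f] : Lp A fun γ => IsOrd (f γ) := by
  unfold IsOrd; infer_instance

instance IsLim.lp [Lf A f] : Lp A fun γ => IsLim (f γ) := by
  unfold IsLim; infer_instance

instance IsNat.lp [Lf A f] : Lp A fun γ => IsNat (f γ) := by
  unfold IsNat; infer_instance

theorem eq_om_iff {z : M} : z = om ↔ IsLim z ∧ ∀ y ∈ z, IsNat y := by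
  constructor
  · rintro rfl
    exact ⟨isLim_om, fun y hy => mem_om.1 hy⟩
  · rintro ⟨h1, h2⟩
    exact Sub.antisymm (fun y hy => mem_om.2 (h2 y hy)) (om_sub_of_isLim h1)

theorem om_mem_Vr_η : om ∈ Vr A.η :=
  (ord_mem_Vr_iff isOrd_om A.lim.1).2 (A.lim.1.trans A.om_mem A.κ_mem)

theorem κ_mem_Vr_η : A.κ ∈ Vr A.η :=
  (ord_mem_Vr_iff A.ord_κ A.lim.1).2 A.κ_mem

instance (priority := 2000) om.lf : Lf A fun _ : Γ => (om : M) :=
  Lf.of_graph (R := fun _ z => IsLim z ∧ ∀ y, y ∈ z → IsNat y) (fun _ _ => om_mem_Vr_η)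
    fun _ _ => eq_om_iff

instance IsCard.lp [Lf A f] : Lp A fun γ => IsCard (f γ) := by
  unfold IsCard; infer_instance

instance InfCard.lp [Lf A f] : Lp A fun γ => InfCard (f γ) := by
  unfold InfCard; infer_instance

theorem isReg_bd {κ : M} : IsReg κ ↔ InfCard κ ∧ ∀ α ∈ κ, ∀ f ∈ fns α κ, ∃ β ∈ κ, ∀ ξ ∈ α,
    ap f ξ ∈ β := by
  unfold IsReg
  simp only [mem_fns]

instance IsReg.lp [Lf A f] : Lp A fun γ => IsReg (f γ) := by
  have : Lp A fun γ => InfCard (f γ) ∧ ∀ α, α ∈ f γ → ∀ g, g ∈ fns α (f γ) → ∃ β, β ∈ f γ ∧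
      ∀ ξ, ξ ∈ α → ap g ξ ∈ β := inferInstance
  exact Lp.congr (h := this) fun γ => isReg_bd

/-! ### ranks, collapses -/

instance rk.lf [Lf A f] : Lf A fun γ => rk (f γ) := by
  have hc : ∀ {Δ : Type} [IsCtx Δ M] [CMap Δ] (u : Δ → M) [Dff u] [Lf A u],
      Cl A fun δ => img (ran (u δ)) fun y => sc y := fun {Δ} _ _ u _ hu =>
    ⟨fun γ hγ => img_mem_Vr A.lim (ran_mem_Vr A.lim (hu.mem γ hγ)) _ fun x _ => by
      rw [sub_Vr_iff (isOrd_rk x).sc, rk_sc]; exact Sub.refl _⟩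
  have := hc fun γ : (Γ × M) × M => γ.2
  unfold rk
  refine erec.lf (A := A) (G := fun _ _ f => bigU (img (ran f) fun y => sc y)) fun γ _ x hx => ?_
  refine mem_Vr_of_sub (prod_mem_Vr A.lim hx (rk_mem_Vr A.lim.1 hx)) fun p hp => ?_
  obtain ⟨y, hy, rfl⟩ := mem_lam.1 hp
  exact op_mem_prod.2 ⟨hy, rk_mem hy⟩

end

end

end Pool.Agent.IST
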