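import Pool.Agent.IST.LosD
import Pool.Agent.IST.CardB

/-!
# The theorem of Łoś: the cumulative hierarchy, cardinals, normal ultrafilters
-/

set_option synthInstance.maxSize 100000

namespace Pool.Agent.IST

open Pool.Agent.BVM CMap Amp

section

variable {M : Type} [SetModel M] {Γ : Type} [IsCtx Γ M] {A : Amp M} [CMap Γ]

section

variable {f g h k : Γ → M} [Dff f] [Dff g] [Dff h] [Dff k]

instance Vr.lf [Lf A f] : Lf A fun γ => Vr (f γ) := by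
  have hc : ∀ {Δ : Type} [IsCtx Δ M] [CMap Δ] (u : Δ → M) [Dff u] [Lf A u],
      Cl A fun δ => img (ran (u δ)) fun y => pw y := fun {Δ} _ _ u _ hu =>
    ⟨fun γ hγ => img_mem_Vr A.lim (ran_mem_Vr A.lim (hu.mem γ hγ)) _ fun x _ => by
      rw [sub_Vr_iff (isOrd_rk x).sc, rk_pw]; exact Sub.refl _⟩
  have := hc fun γ : (Γ × M) × M => γ.2
  unfold Vr
  refine erec.lf (A := A) (G := fun _ _ f => bigU (img (ran f) fun y => pw y)) fun γ _ x hx => ?_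
  refine mem_Vr_of_sub (prod_mem_Vr A.lim hx (pw_mem_Vr A.lim (Vr_mem_Vr A.lim.1 hx)))
    fun p hp => ?_
  obtain ⟨y, hy, rfl⟩ := mem_lam.1 hp
  refine op_mem_prod.2 ⟨hy, mem_pw.2 ?_⟩
  change Vr y ⊆ Vr x
  rw [← Vr_rk x, ← Vr_rk y]
  exact Vr_mono ((isOrd_rk x).sub_of_mem (rk_mem hy))

instance mc.lf [Lf A f] [Lf A g] : Lf A fun γ => mc (f γ) (g γ) := by
  have hc : ∀ {Δ : Type} [IsCtx Δ M] [CMap Δ] (u v : Δ → M) [Dff u] [Lf A u] [Dff v] [Lf A v],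
      Cl A fun δ => img (v δ) fun y => ap (u δ) y := fun {Δ} _ _ u v _ hu _ _ =>
    ⟨fun γ hγ => by
      refine mem_Vr_of_sub (union_mem_Vr A.lim.1 (ran_mem_Vr A.lim (hu.mem γ hγ))
        (sing_mem_Vr A.lim (empty_mem_Vr A.lim))) fun z hz => ?_
      obtain ⟨y, -, rfl⟩ := mem_img.1 hz
      rw [mem_union, mem_sing]
      by_cases hy : ∃! z, op y z ∈ u γ
      · exact Or.inl (mem_ran.2 ⟨y, the_spec hy⟩)
      · right
        unfold ap the
        rw [dif_neg hy]⟩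
  have := hc (fun γ : (Γ × M) × M => γ.2) (fun γ : (Γ × M) × M => f γ.1.1 ∩ γ.1.2)
  unfold mc
  refine erec.lf (A := A) (G := fun γ x u => img (f γ ∩ x) fun y => ap u y) fun γ _ x hx => ?_
  refine mem_Vr_of_sub (prod_mem_Vr A.lim hx (Vr_mem_Vr A.lim.1 hx)) fun p hp => ?_
  obtain ⟨y, hy, rfl⟩ := mem_lam.1 hp
  refine op_mem_prod.2 ⟨hy, ?_⟩
  change mc (f γ) y ∈ Vr x
  exact mem_Vr.2 ⟨y, hy, by rw [← Vr_rk y]; exact mc_sub_Vr⟩

/-! ### cardinals -/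

/-- `V_η` is closed under cardinalities -/
class ClCard (A : Amp M) : Prop where
  mem : ∀ a ∈ Vr A.η, card a ∈ Vr A.η

section

variable [hA : ClCard A]

instance card.lf [hf : Lf A f] : Lf A fun γ => card (f γ) :=
  Lf.of_graph (R := fun γ z => IsCard z ∧ Eqn (f γ) z) (fun γ hγ => hA.mem _ (hf.mem γ hγ))
    fun _ _ => ⟨fun h => h ▸ ⟨isCard_card _, eqn_card _⟩, fun h => (card_eq_of h.1 h.2).symm⟩

instance pow2.lf [Lf A f] : Lf A fun γ => pow2 (f γ) := by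
  unfold pow2; infer_instance

instance cexp.lf [Lf A f] [Lf A g] : Lf A fun γ => cexp (f γ) (g γ) := by
  unfold cexp; infer_instance

instance pws.lf [Lf A f] [Lf A g] : Lf A fun γ => pws (f γ) (g γ) := by
  unfold pws; infer_instance

theorem mem_pow2_self {α : M} (h : IsOrd α) : α ∈ pow2 α := by
  rcases (isCard_pow2 α).isOrd.total h with h1 | h1
  · exact absurd ((eqn_card (pw α)).leq.trans (leq_of_sub h1)) (not_leq_pw α)
  · exact h1

theorem scard_eq_iff {α z : M} : z = scard α ↔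
    (IsOrd α ∧ IsCard z ∧ α ∈ z ∧ ∀ ν ∈ z, IsCard ν → α ∉ ν) ∨ (¬ IsOrd α ∧ z = ∅) := by
  by_cases h : IsOrd α
  · simp only [h, true_and, not_true_eq_false, false_and, or_false]
    constructor
    · rintro rfl
      refine ⟨isCard_scard h, mem_scard_self h, fun ν hν hc hα => ?_⟩
      exact mem_irrefl _ (scard_sub h hc hα ν hν)
    · rintro ⟨h1, h2, h3⟩
      refine Sub.antisymm ?_ (scard_sub h h1 h2)
      rcases h1.isOrd.total (isCard_scard h).isOrd with h4 | h4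
      · exact h4
      · exact absurd (mem_scard_self h) (h3 _ h4 (isCard_scard h))
  · simp only [h, false_and, not_false_eq_true, true_and, false_or]
    have : scard α = ∅ := by
      unfold scard the
      rw [dif_neg]
      rintro ⟨μ, ⟨h1, h2, -⟩, -⟩
      exact h (h1.isOrd.mem h2)
    rw [this]

theorem scard_mem_Vr {α : M} (hα : α ∈ Vr A.η) : scard α ∈ Vr A.η := by
  by_cases h : IsOrd α
  · have h1 : pow2 α ∈ Vr A.η := hA.mem _ (pw_mem_Vr A.lim hα)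
    exact mem_Vr_of_sub h1 (scard_sub h (isCard_pow2 α) (mem_pow2_self h))
  · rcases (scard_eq_iff (α := α)).1 rfl with h1 | h1
    · exact absurd h1.1 h
    · rw [h1.2]; exact empty_mem_Vr A.lim

instance scard.lf [hf : Lf A f] : Lf A fun γ => scard (f γ) :=
  Lf.of_graph (R := fun γ z =>
    (IsOrd (f γ) ∧ IsCard z ∧ f γ ∈ z ∧ ∀ ν, ν ∈ z → IsCard ν → f γ ∉ ν) ∨
      (¬ IsOrd (f γ) ∧ z = ∅)) (fun γ hγ => scard_mem_Vr (hf.mem γ hγ))
    fun _ _ => scard_eq_iff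

instance IsSLim.lp [Lf A f] : Lp A fun γ => IsSLim (f γ) := by
  unfold IsSLim; infer_instance

end

instance seqs.cl [hf : Lf A f] [hg : Lf A g] : Cl A fun γ => img (f γ) fun α => fns α (g γ) :=
  ⟨fun γ hγ => by
    refine mem_Vr_of_sub (pw_mem_Vr A.lim (pw_mem_Vr A.lim (prod_mem_Vr A.lim
      (bigU_mem_Vr A.lim.1 (hf.mem γ hγ)) (hg.mem γ hγ)))) fun z hz => ?_
    obtain ⟨α, hα, rfl⟩ := mem_img.1 hz
    rw [mem_pw]
    intro u hu
    rw [mem_pw]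
    intro p hp
    obtain ⟨x, hx, y, hy, rfl⟩ := mem_prod.1 ((mem_fns.1 hu).sub_prod p hp)
    exact op_mem_prod.2 ⟨mem_bigU.2 ⟨α, hα, hx⟩, hy⟩⟩

instance seqs.lf [Lf A f] [Lf A g] : Lf A fun γ => seqs (f γ) (g γ) := by
  unfold seqs; infer_instance

/-! ### ultrafilters -/

instance Aa.lp {U D : Γ → M} {φ : Γ → M → Prop} [Dff U] [Dff D]
    [Dfp fun γ : Γ × M => φ γ.1 γ.2] [Lf A U] [Lf A D] [Lp A fun γ : Γ × M => φ γ.1 γ.2] :
    Lp A fun γ => Aa (U γ) (D γ) (φ γ) := by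
  unfold Aa; infer_instance

theorem nfu_bd {κ Z D U : M} : Nfu κ Z D U ↔
    (∀ x, x ∈ D → x ⊆ Z) ∧ (∀ X, X ∈ U → X ⊆ D) ∧
    (∀ X, X ∈ U → ∀ Y, Y ∈ pw D → X ⊆ Y → Y ∈ U) ∧
    (∀ X, X ∈ U → ∀ Y, Y ∈ U → X ∩ Y ∈ U) ∧ (∀ X, X ∈ pw D → (D \ X ∈ U ↔ X ∉ U)) ∧
    (∀ z, z ∈ Z → sep D (fun x => z ∈ x) ∈ U) ∧
    (∀ α, α ∈ κ → ∀ F, F ∈ fns α U → sep D (fun x => ∀ z, z ∈ α → x ∈ ap F z) ∈ U) ∧
    ∀ F, F ∈ fns Z U → sep D (fun x => ∀ z, z ∈ x → x ∈ ap F z) ∈ U := by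
  unfold Nfu
  simp only [mem_pw, mem_fns]
  refine and_congr Iff.rfl (and_congr Iff.rfl (and_congr ?_ (and_congr Iff.rfl
    (and_congr Iff.rfl (and_congr Iff.rfl (and_congr ?_ ?_))))))
  · exact ⟨fun h X hX Y h1 h2 => h X hX Y h2 h1, fun h X hX Y h1 h2 => h X hX Y h2 h1⟩
  · constructor
    · rintro h α hα F ⟨h1, rfl, h3⟩
      exact h F h1 hα h3
    · intro h F h1 h2 h3
      exact h _ h2 F ⟨h1, rfl, h3⟩
  · constructor
    · rintro h F ⟨h1, h2, h3⟩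
      exact h F h1 h2 h3
    · intro h F h1 h2 h3
      exact h F ⟨h1, h2, h3⟩

instance Nfu.lp {κ Z D U : Γ → M} [Dff κ] [Dff Z] [Dff D] [Dff U] [Lf A κ] [Lf A Z] [Lf A D]
    [Lf A U] : Lp A fun γ => Nfu (κ γ) (Z γ) (D γ) (U γ) := by
  simp only [nfu_bd]
  infer_instance

instance IsAmp.lp [ClCard A] [Lf A f] [Lf A g] [Lf A h] :
    Lp A fun γ => IsAmp (f γ) (g γ) (h γ) := by
  unfold IsAmp; infer_instance

end

end

end Pool.Agent.IST
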