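import Pool.Agent.IST.LosE

/-!
# The theorem of Łoś: case distinctions, closed levels
-/

set_option synthInstance.maxSize 100000

namespace Pool.Agent.IST

open Pool.Agent.BVM CMap Amp

section

variable {M : Type} [SetModel M] {Γ : Type} [IsCtx Γ M]

/-- there are arbitrarily large `η` such that `V_η` is closed under `F` -/
theorem exists_closed1 (F : M → M) [hF : Dff fun γ : E0 M × M => F γ.2] {β : M} (hβ : IsOrd β) :
    ∃ η : M, IsLim η ∧ β ∈ η ∧ ∀ x ∈ Vr η, F x ∈ Vr η := by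
  have hF' : ∀ {Δ : Type} [IsCtx Δ M] {v : Δ → M} [Dff v], Dff fun δ => F (v δ) :=
    fun {_ _ _ _} => dff_un hF
  obtain ⟨η, h1, h2, h3⟩ := exists_closed_ord (fun α => rk (img (Vr α) fun x => F x))
    (fun _ _ => isOrd_rk _) β hβ
  refine ⟨η, h1, h2, fun x hx => ?_⟩
  obtain ⟨α, hα, h4⟩ := mem_Vr.1 hx
  have h5 : x ∈ Vr (sc α) := by rw [Vr_sc (h1.1.mem hα), mem_pw]; exact h4
  rw [mem_Vr_iff h1.1]
  exact h1.1.trans (rk_mem (mem_img.2 ⟨x, h5, rfl⟩)) (h3 _ (h1.2.2 _ hα))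

variable {A : Amp M} [CMap Γ]

instance (priority := 2000) Lf.ite {P : Γ → Prop} {f g : Γ → M} [∀ γ, Decidable (P γ)] [Dfp P]
    [Dff f] [Dff g] [Lp A P] [hf : Lf A f] [hg : Lf A g] :
    Lf A fun γ => if P γ then f γ else g γ := by
  refine Lf.of_graph (R := fun γ z => (P γ ∧ z = f γ) ∨ (¬ P γ ∧ z = g γ)) (fun γ hγ => ?_)
    fun γ z => ?_
  · by_cases h : P γ
    · simp only [h, if_true]; exact hf.mem γ hγ
    · simp only [h, if_false]; exact hg.mem γ hγ
  · by_cases h : P γ <;> simp [h]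

end

end Pool.Agent.IST
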