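import Pool.Agent.IST.Fun

/-!
# Normal fine ultrafilters in a model of ZFC

`Nfu κ Z D U`: `U` is a `κ`-complete normal fine ultrafilter on the set `D` of subsets of `Z`.
`Aa U D φ`: almost all `x` in `D` satisfy `φ`.
-/

namespace Pool.Agent.IST

open Pool.Agent.BVM

section

variable {M : Type} [SetModel M] {Γ : Type} [IsCtx Γ M]

/-- almost all `x` satisfy `φ` -/
def Aa (U D : M) (φ : M → Prop) : Prop := sep D φ ∈ U

instance Aa.dfp {U D : Γ → M} {φ : Γ → M → Prop} [Dff U] [Dff D]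
    [Dfp fun γ : Γ × M => φ γ.1 γ.2] : Dfp fun γ => Aa (U γ) (D γ) (φ γ) := by
  unfold Aa; infer_instance

/-- `U` is a `κ`-complete normal fine ultrafilter on the set `D` of subsets of `Z` -/
def Nfu (κ Z D U : M) : Prop :=
  (∀ x ∈ D, x ⊆ Z) ∧ (∀ X ∈ U, X ⊆ D) ∧ (∀ X ∈ U, ∀ Y, X ⊆ Y → Y ⊆ D → Y ∈ U) ∧
    (∀ X ∈ U, ∀ Y ∈ U, X ∩ Y ∈ U) ∧ (∀ X, X ⊆ D → (D \ X ∈ U ↔ X ∉ U)) ∧
    (∀ z ∈ Z, sep D (fun x => z ∈ x) ∈ U) ∧
    (∀ F, IsFun F → dom F ∈ κ → (∀ z ∈ dom F, ap F z ∈ U) →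
      sep D (fun x => ∀ z ∈ dom F, x ∈ ap F z) ∈ U) ∧
    ∀ F, IsFun F → dom F = Z → (∀ z ∈ Z, ap F z ∈ U) →
      sep D (fun x => ∀ z ∈ x, x ∈ ap F z) ∈ U

set_option synthInstance.maxSize 1024 in
instance Nfu.dfp {κ Z D U : Γ → M} [Dff κ] [Dff Z] [Dff D] [Dff U] :
    Dfp fun γ => Nfu (κ γ) (Z γ) (D γ) (U γ) := by
  unfold Nfu; infer_instance

/-- exchanging the last two variables -/
theorem Dfp.swap {P : Γ → M → M → Prop} [h : Dfp fun γ : (Γ × M) × M => P γ.1.1 γ.1.2 γ.2] :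
    Dfp fun γ : (Γ × M) × M => P γ.1.1 γ.2 γ.1.2 := by
  obtain ⟨φ, s, hs, hP⟩ := h.out
  refine ⟨φ, fun i γ => s i ((γ.1.1, γ.2), γ.1.2), fun i => ?_, fun γ => hP ((γ.1.1, γ.2), γ.1.2)⟩
  dsimp only
  rcases hs i with ⟨g, ⟨g', hg', rfl⟩ | rfl, h⟩ | h
  · rw [h]; exact simple_fst (simple_fst hg')
  · rw [h]; exact simple_snd
  · rw [h]; exact simple_fst simple_snd

/-- slices of a binary predicate -/
theorem dfp_left {φ : M → M → Prop} [h : Dfp fun γ : (E0 M × M) × M => φ γ.1.2 γ.2] (z : M) :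
    Dfp fun δ : E0 M × M => φ z δ.2 :=
  dfp_slice (P := fun (γ : E0 M × M) x => φ γ.2 x) (⟨⟩, z)

namespace Nfu

variable {κ Z D U : M}

theorem sub_Z (h : Nfu κ Z D U) {x : M} (hx : x ∈ D) : x ⊆ Z := h.1 x hx

theorem up (h : Nfu κ Z D U) {X Y : M} (hX : X ∈ U) (h1 : X ⊆ Y) (h2 : Y ⊆ D) : Y ∈ U :=
  h.2.2.1 X hX Y h1 h2

theorem ultra (h : Nfu κ Z D U) {X : M} (hX : X ⊆ D) : D \ X ∈ U ↔ X ∉ U := h.2.2.2.2.1 X hX

variable {φ ψ : M → Prop} [Dfp fun γ : E0 M × M => φ γ.2] [Dfp fun γ : E0 M × M => ψ γ.2]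

theorem aa_mono (h : Nfu κ Z D U) (h1 : Aa U D φ) (h2 : ∀ x ∈ D, φ x → ψ x) : Aa U D ψ :=
  h.up h1 (fun x hx => mem_sep.2 ⟨(mem_sep.1 hx).1, h2 x (mem_sep.1 hx).1 (mem_sep.1 hx).2⟩)
    fun _ hx => (mem_sep.1 hx).1

theorem aa_congr (h : Nfu κ Z D U) (h2 : ∀ x ∈ D, φ x ↔ ψ x) : Aa U D φ ↔ Aa U D ψ :=
  ⟨fun h1 => h.aa_mono h1 fun x hx => (h2 x hx).1, fun h1 => h.aa_mono h1 fun x hx => (h2 x hx).2⟩

theorem aa_and (h : Nfu κ Z D U) (h1 : Aa U D φ) (h2 : Aa U D ψ) :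
    Aa U D fun x => φ x ∧ ψ x := by
  have := h.2.2.2.1 _ h1 _ h2
  refine h.up this (fun x hx => ?_) fun _ hx => (mem_sep.1 hx).1
  rw [mem_inter, mem_sep, mem_sep] at hx
  exact mem_sep.2 ⟨hx.1.1, hx.1.2, hx.2.2⟩

theorem aa_not (h : Nfu κ Z D U) : (Aa U D fun x => ¬ φ x) ↔ ¬ Aa U D φ := by
  have e : D \ sep D φ = sep D fun x => ¬ φ x := by
    apply ext; intro x
    rw [mem_diff, mem_sep, mem_sep]
    constructor
    · rintro ⟨h1, h2⟩; exact ⟨h1, fun h3 => h2 ⟨h1, h3⟩⟩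
    · rintro ⟨h1, h2⟩; exact ⟨h1, fun h3 => h2 h3.2⟩
  have := h.ultra (X := sep D φ) fun _ hx => (mem_sep.1 hx).1
  rw [e] at this
  exact this

theorem aa_true (h : Nfu κ Z D U) : Aa U D fun _ => True := by
  by_contra h1
  have h2 := (h.aa_not (φ := fun _ => True)).2 h1
  exact h1 (h.aa_mono h2 fun _ _ _ => trivial)

theorem aa_of_all (h : Nfu κ Z D U) (h1 : ∀ x ∈ D, φ x) : Aa U D φ :=
  h.aa_mono h.aa_true fun x hx _ => h1 x hx

theorem not_aa_false (h : Nfu κ Z D U) : ¬ Aa U D fun _ => False := by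
  intro h1
  refine (h.aa_not (φ := fun _ => False)).1 (h.aa_of_all fun _ _ => not_false) h1

theorem aa_ex (h : Nfu κ Z D U) (h1 : Aa U D φ) : ∃ x ∈ D, φ x := by
  by_contra h2
  push Not at h2
  exact h.not_aa_false (h.aa_mono h1 fun x hx h3 => h2 x hx h3)

theorem aa_const (h : Nfu κ Z D U) {p : Prop} [Dfp fun _ : E0 M × M => p] :
    (Aa U D fun _ => p) ↔ p := by
  constructor
  · intro h1
    obtain ⟨x, -, hx⟩ := h.aa_ex h1
    exact hx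
  · intro hp
    exact h.aa_of_all fun _ _ => hp

theorem aa_and_iff (h : Nfu κ Z D U) : (Aa U D fun x => φ x ∧ ψ x) ↔ Aa U D φ ∧ Aa U D ψ :=
  ⟨fun h1 => ⟨h.aa_mono h1 fun _ _ h2 => h2.1, h.aa_mono h1 fun _ _ h2 => h2.2⟩,
    fun h1 => h.aa_and h1.1 h1.2⟩

theorem aa_or_iff (h : Nfu κ Z D U) : (Aa U D fun x => φ x ∨ ψ x) ↔ Aa U D φ ∨ Aa U D ψ := by
  constructor
  · intro h1
    by_contra h2
    push Not at h2
    have h3 := h.aa_and (h.aa_not.2 h2.1) (h.aa_not.2 h2.2)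
    obtain ⟨x, -, ⟨h4, h5⟩, h6 | h6⟩ := h.aa_ex (h.aa_and h3 h1)
    · exact h4 h6
    · exact h5 h6
  · rintro (h1 | h1)
    · exact h.aa_mono h1 fun _ _ h2 => Or.inl h2
    · exact h.aa_mono h1 fun _ _ h2 => Or.inr h2

theorem aa_imp_iff (h : Nfu κ Z D U) : (Aa U D fun x => φ x → ψ x) ↔ (Aa U D φ → Aa U D ψ) := by
  constructor
  · intro h1 h2
    exact h.aa_mono (h.aa_and h1 h2) fun _ _ h3 => h3.1 h3.2
  · intro h1
    by_cases h2 : Aa U D φ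
    · exact h.aa_mono (h1 h2) fun _ _ h3 _ => h3
    · exact h.aa_mono (h.aa_not.2 h2) fun _ _ h3 h4 => absurd h4 h3

theorem aa_iff_iff (h : Nfu κ Z D U) :
    (Aa U D fun x => (φ x ↔ ψ x)) ↔ (Aa U D φ ↔ Aa U D ψ) := by
  constructor
  · intro h1
    exact ⟨fun h2 => h.aa_mono (h.aa_and h1 h2) fun _ _ h3 => h3.1.1 h3.2,
      fun h2 => h.aa_mono (h.aa_and h1 h2) fun _ _ h3 => h3.1.2 h3.2⟩
  · intro h1
    by_cases h2 : Aa U D φ
    · exact h.aa_mono (h.aa_and h2 (h1.1 h2)) fun _ _ h3 => ⟨fun _ => h3.2, fun _ => h3.1⟩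
    · exact h.aa_mono (h.aa_and (h.aa_not.2 h2) (h.aa_not.2 fun h4 => h2 (h1.2 h4)))
        fun _ _ h3 => ⟨fun h5 => absurd h5 h3.1, fun h5 => absurd h5 h3.2⟩

theorem aa_fine (h : Nfu κ Z D U) {z : M} (hz : z ∈ Z) : Aa U D fun x => z ∈ x :=
  h.2.2.2.2.2.1 z hz

section

theorem swp {χ : M → M → Prop} (hχ : Dfp fun γ : (E0 M × M) × M => χ γ.1.2 γ.2) :
    Dfp fun γ : (E0 M × M) × M => χ γ.2 γ.1.2 := Dfp.swap (P := fun _ z x => χ z x)

variable {χ : M → M → Prop} [hχ : Dfp fun γ : (E0 M × M) × M => χ γ.1.2 γ.2]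

/-- normality -/
theorem aa_all (h : Nfu κ Z D U) :
    (Aa U D fun x => ∀ z ∈ x, χ z x) ↔ ∀ z ∈ Z, Aa U D fun x => χ z x := by
  have hl := fun z => dfp_left (φ := χ) z
  have hs := swp hχ
  constructor
  · intro h1 z hz
    have := hl z
    exact h.aa_mono (h.aa_and h1 (h.aa_fine hz)) fun x _ h2 => h2.1 z h2.2
  · intro h1
    have hd : Dfp fun γ : (E0 M × M) × M => χ γ.1.2 γ.2 := hχ
    have h2 := h.2.2.2.2.2.2.2 (lam Z fun z => sep D fun x => χ z x) isFun_lam dom_lam (by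
      intro z hz
      rw [ap_lam hz]
      exact h1 z hz)
    refine h.up h2 (fun x hx => ?_) fun _ hx => (mem_sep.1 hx).1
    have h3 := mem_sep.1 hx
    refine mem_sep.2 ⟨h3.1, fun z hz => ?_⟩
    have h4 := h3.2 z hz
    rw [ap_lam (h.sub_Z h3.1 z hz)] at h4
    have := hl z
    exact (mem_sep.1 h4).2

/-- normality, existential form -/
theorem aa_exists (h : Nfu κ Z D U) :
    (Aa U D fun x => ∃ z ∈ x, χ z x) ↔ ∃ z ∈ Z, Aa U D fun x => χ z x := by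
  have hl := fun z => dfp_left (φ := χ) z
  have hs := swp hχ
  have h1 := h.aa_all (χ := fun z x => ¬ χ z x)
  constructor
  · intro h2
    by_contra h3
    push Not at h3
    have h4 := h1.2 fun z hz => by
      have := hl z
      exact h.aa_not.2 (h3 z hz)
    obtain ⟨x, -, h5, z, hz, h6⟩ := h.aa_ex (h.aa_and h4 h2)
    exact h5 z hz h6
  · rintro ⟨z, hz, h2⟩
    have := hl z
    exact h.aa_mono (h.aa_and h2 (h.aa_fine hz)) fun x _ h3 => ⟨z, h3.2, h3.1⟩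

/-- `κ`-completeness -/
theorem aa_small (h : Nfu κ Z D U) {a : M} (ha : a ∈ κ) :
    (Aa U D fun x => ∀ z ∈ a, χ z x) ↔ ∀ z ∈ a, Aa U D fun x => χ z x := by
  have hl := fun z => dfp_left (φ := χ) z
  have hs := swp hχ
  constructor
  · intro h1 z hz
    have := hl z
    exact h.aa_mono h1 fun x _ h2 => h2 z hz
  · intro h1
    have hd : Dfp fun γ : (E0 M × M) × M => χ γ.1.2 γ.2 := hχ
    have h2 := h.2.2.2.2.2.2.1 (lam a fun z => sep D fun x => χ z x) isFun_lam (by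
      rw [dom_lam]; exact ha) (by
      intro z hz
      rw [dom_lam] at hz
      rw [ap_lam hz]
      exact h1 z hz)
    refine h.up h2 (fun x hx => ?_) fun _ hx => (mem_sep.1 hx).1
    have h3 := mem_sep.1 hx
    refine mem_sep.2 ⟨h3.1, fun z hz => ?_⟩
    have h4 := h3.2 z (by rw [dom_lam]; exact hz)
    rw [ap_lam hz] at h4
    have := hl z
    exact (mem_sep.1 h4).2

end

end Nfu

end

end Pool.Agent.IST
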