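import Pool.Agent.IST.Fun

/-!
# Ordinals in a model of ZFC
-/

set_option synthInstance.maxSize 100000

namespace Pool.Agent.IST

open Pool.Agent.BVM

section

variable {M : Type} [SetModel M] {Γ : Type} [IsCtx Γ M]

theorem found {x : M} (h : x ≠ ∅) : ∃ y ∈ x, ∀ z ∈ y, z ∉ x :=
  SetModel.zfc.found x (ne_empty_iff.1 h)

theorem mem_irrefl (x : M) : x ∉ x := by
  intro h
  obtain ⟨y, hy, h'⟩ := found (x := sing x) (ne_empty_iff.2 ⟨x, mem_sing.2 rfl⟩)
  rw [mem_sing] at hy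
  subst hy
  exact h' y h (mem_sing.2 rfl)

theorem mem_asymm {x y : M} (h : x ∈ y) : y ∉ x := by
  intro h'
  obtain ⟨z, hz, h''⟩ := found (x := upair x y) (ne_empty_iff.2 ⟨x, mem_upair.2 (Or.inl rfl)⟩)
  rcases mem_upair.1 hz with rfl | rfl
  · exact h'' y h' (mem_upair.2 (Or.inr rfl))
  · exact h'' x h (mem_upair.2 (Or.inl rfl))

/-- `x` is transitive -/
def IsTrans (x : M) : Prop := ∀ y ∈ x, ∀ z ∈ y, z ∈ x

instance IsTrans.dfp {f : Γ → M} [Dff f] : Dfp fun γ => IsTrans (f γ) := by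
  unfold IsTrans; infer_instance

/-- `x` is an ordinal -/
def IsOrd (x : M) : Prop := IsTrans x ∧ ∀ y ∈ x, IsTrans y

instance IsOrd.dfp {f : Γ → M} [Dff f] : Dfp fun γ => IsOrd (f γ) := by
  unfold IsOrd; infer_instance

theorem IsOrd.mem {α β : M} (h : IsOrd α) (hβ : β ∈ α) : IsOrd β :=
  ⟨h.2 β hβ, fun y hy => h.2 y (h.1 β hβ y hy)⟩

theorem IsOrd.trans {α β γ : M} (h : IsOrd γ) (h1 : α ∈ β) (h2 : β ∈ γ) : α ∈ γ := h.1 β h2 α h1

theorem IsOrd.sub_of_mem {α β : M} (h : IsOrd β) (h1 : α ∈ β) : α ⊆ β := fun z hz => h.1 α h1 z hz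

/-- least element of a nonempty definable class of ordinals -/
theorem exists_min (P : M → Prop) [Dfp fun γ : E0 M × M => P γ.2] {α : M} (hα : IsOrd α)
    (h : P α) : ∃ β, IsOrd β ∧ P β ∧ ∀ γ ∈ β, ¬ P γ := by
  obtain ⟨β, hβ, hm⟩ := found (x := sep (α ∪ sing α) P)
    (ne_empty_iff.2 ⟨α, mem_sep.2 ⟨mem_union.2 (Or.inr (mem_sing.2 rfl)), h⟩⟩)
  rw [mem_sep, mem_union, mem_sing] at hβ
  refine ⟨β, ?_, hβ.2, fun γ hγ hP => hm γ hγ ?_⟩
  · rcases hβ.1 with h1 | rfl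
    · exact hα.mem h1
    · exact hα
  · rw [mem_sep, mem_union, mem_sing]
    refine ⟨Or.inl ?_, hP⟩
    rcases hβ.1 with h1 | rfl
    · exact hα.1 β h1 γ hγ
    · exact hγ

theorem ord_ind (P : M → Prop) [Dfp fun γ : E0 M × M => P γ.2]
    (h : ∀ α, IsOrd α → (∀ β ∈ α, P β) → P α) : ∀ α, IsOrd α → P α := by
  intro α hα
  by_contra hP
  obtain ⟨β, hβ, h1, h2⟩ := exists_min (fun x => ¬ P x) hα hP
  exact h1 (h β hβ fun γ hγ => by simpa using h2 γ hγ)

theorem IsOrd.cmp {α β : M} (hα : IsOrd α) (hβ : IsOrd β) : α ∈ β ∨ α = β ∨ β ∈ α := by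
  have key : ∀ α : M, IsOrd α → ∀ β, IsOrd β → α ∈ β ∨ α = β ∨ β ∈ α := by
    refine ord_ind (fun α => ∀ β, IsOrd β → α ∈ β ∨ α = β ∨ β ∈ α) fun α hα ihα => ?_
    refine ord_ind (fun β => α ∈ β ∨ α = β ∨ β ∈ α) fun β hβ ihβ => ?_
    by_contra hc
    push Not at hc
    obtain ⟨h1, h2, h3⟩ := hc
    refine h2 (ext fun x => ⟨fun hx => ?_, fun hx => ?_⟩)
    · rcases ihα x hx β hβ with h | rfl | h
      · exact h
      · exact absurd hx h3
      · exact absurd (hα.1 x hx β h) h3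
    · rcases ihβ x hx with h | rfl | h
      · exact absurd (hβ.1 x hx α h) h1
      · exact absurd hx h1
      · exact h
  exact key α hα β hβ

theorem IsOrd.sub_iff {α β : M} (hα : IsOrd α) (hβ : IsOrd β) : α ⊆ β ↔ α ∈ β ∨ α = β := by
  constructor
  · intro h
    rcases hα.cmp hβ with h1 | h1 | h1
    · exact Or.inl h1
    · exact Or.inr h1
    · exact absurd (h β h1) (mem_irrefl β)
  · rintro (h | rfl)
    · exact hβ.sub_of_mem h
    · exact Sub.refl _

theorem IsOrd.not_mem {α β : M} (hα : IsOrd α) (hβ : IsOrd β) : α ∉ β ↔ β ⊆ α := by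
  rw [hβ.sub_iff hα]
  constructor
  · intro h
    rcases hα.cmp hβ with h1 | h1 | h1
    · exact absurd h1 h
    · exact Or.inr h1.symm
    · exact Or.inl h1
  · rintro (h | rfl)
    · exact mem_asymm h
    · exact mem_irrefl _

theorem IsOrd.total {α β : M} (hα : IsOrd α) (hβ : IsOrd β) : α ⊆ β ∨ β ∈ α := by
  by_cases h : β ∈ α
  · exact Or.inr h
  · exact Or.inl ((hβ.not_mem hα).1 h)

theorem IsOrd.mem_of_sub_of_mem {α β γ : M} (hα : IsOrd α) (hγ : IsOrd γ) (h : α ⊆ β) (h' : β ∈ γ) :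
    α ∈ γ := by
  rcases (hα.sub_iff (hγ.mem h')).1 h with h1 | rfl
  · exact hγ.trans h1 h'
  · exact h'

/-- a transitive set of ordinals is an ordinal -/
theorem isOrd_of_trans {x : M} (h : IsTrans x) (h' : ∀ y ∈ x, IsOrd y) : IsOrd x :=
  ⟨h, fun y hy => (h' y hy).1⟩

theorem isOrd_empty : IsOrd (∅ : M) :=
  ⟨fun y hy => absurd hy (notMem_empty y), fun y hy => absurd hy (notMem_empty y)⟩

/-- successor -/
noncomputable def sc (x : M) : M := x ∪ sing x

@[simp] theorem mem_sc {x y : M} : y ∈ sc x ↔ y ∈ x ∨ y = x := by simp [sc]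

instance sc.dff {f : Γ → M} [Dff f] : Dff fun γ => sc (f γ) := by
  unfold sc; infer_instance

theorem self_mem_sc (x : M) : x ∈ sc x := mem_sc.2 (Or.inr rfl)

theorem sub_sc (x : M) : x ⊆ sc x := fun _ h => mem_sc.2 (Or.inl h)

theorem IsOrd.sc {α : M} (h : IsOrd α) : IsOrd (sc α) := by
  refine isOrd_of_trans (fun y hy z hz => mem_sc.2 (Or.inl ?_)) fun y hy => ?_
  · rcases mem_sc.1 hy with h1 | rfl
    · exact h.1 y h1 z hz
    · exact hz
  · rcases mem_sc.1 hy with h1 | rfl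
    · exact h.mem h1
    · exact h

theorem IsOrd.mem_sc_iff {α β : M} (hα : IsOrd α) (hβ : IsOrd β) : α ∈ IST.sc β ↔ α ⊆ β := by
  rw [mem_sc, hα.sub_iff hβ]

theorem IsOrd.sc_sub_iff {α β : M} (hβ : IsOrd β) : IST.sc α ⊆ β ↔ α ∈ β := by
  constructor
  · intro h
    exact h α (self_mem_sc α)
  · intro h z hz
    rcases mem_sc.1 hz with h1 | rfl
    · exact hβ.trans h1 h
    · exact h

theorem sc_inj {α β : M} (h : sc α = sc β) : α = β := by
  have h1 : α ∈ sc β := h ▸ self_mem_sc α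
  have h2 : β ∈ sc α := h.symm ▸ self_mem_sc β
  rcases mem_sc.1 h1 with h3 | h3
  · rcases mem_sc.1 h2 with h4 | h4
    · exact absurd h4 (mem_asymm h3)
    · exact h4.symm
  · exact h3

theorem isOrd_bigU {x : M} (h : ∀ y ∈ x, IsOrd y) : IsOrd (bigU x) := by
  refine isOrd_of_trans (fun y hy z hz => ?_) fun y hy => ?_
  · obtain ⟨t, ht, hyt⟩ := mem_bigU.1 hy
    exact mem_bigU.2 ⟨t, ht, (h t ht).trans hz hyt⟩
  · obtain ⟨t, ht, hyt⟩ := mem_bigU.1 hy
    exact (h t ht).mem hyt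

theorem isOrd_union {x y : M} (hx : IsOrd x) (hy : IsOrd y) : IsOrd (x ∪ y) := by
  refine isOrd_of_trans (fun a ha z hz => ?_) fun a ha => ?_
  · rcases mem_union.1 ha with h | h
    · exact mem_union.2 (Or.inl (hx.trans hz h))
    · exact mem_union.2 (Or.inr (hy.trans hz h))
  · rcases mem_union.1 ha with h | h
    · exact hx.mem h
    · exact hy.mem h

theorem sub_bigU {x y : M} (h : y ∈ x) : y ⊆ bigU x := fun z hz => mem_bigU.2 ⟨y, h, hz⟩

/-- there is an ordinal above every element of a set of ordinals -/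
theorem exists_ord_above (a : M) : ∃ α : M, IsOrd α ∧ ∀ β ∈ a, IsOrd β → β ∈ α := by
  refine ⟨sc (bigU (sep a fun x => IsOrd x)), (isOrd_bigU fun y hy => (mem_sep.1 hy).2).sc,
    fun β hβ ho => ?_⟩
  rw [ho.mem_sc_iff (isOrd_bigU fun y hy => (mem_sep.1 hy).2)]
  exact sub_bigU (mem_sep.2 ⟨hβ, ho⟩)

theorem exists_ord_notMem (a : M) : ∃ α : M, IsOrd α ∧ α ∉ a := by
  obtain ⟨α, h, h'⟩ := exists_ord_above a
  exact ⟨α, h, fun h2 => mem_irrefl α (h' α h2 h)⟩

/-- limit ordinals -/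
def IsLim (α : M) : Prop := IsOrd α ∧ α ≠ ∅ ∧ ∀ β ∈ α, sc β ∈ α

instance IsLim.dfp {f : Γ → M} [Dff f] : Dfp fun γ => IsLim (f γ) := by
  unfold IsLim; infer_instance

theorem ord_cases {α : M} (h : IsOrd α) : α = ∅ ∨ (∃ β, IsOrd β ∧ α = sc β) ∨ IsLim α := by
  by_cases h0 : α = ∅
  · exact Or.inl h0
  by_cases h1 : ∃ β, IsOrd β ∧ α = sc β
  · exact Or.inr (Or.inl h1)
  refine Or.inr (Or.inr ⟨h, h0, fun β hβ => ?_⟩)
  rcases (h.mem hβ).sc.cmp h with h2 | h2 | h2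
  · exact h2
  · exact absurd ⟨β, h.mem hβ, h2.symm⟩ h1
  · rcases mem_sc.1 h2 with h3 | rfl
    · exact absurd h3 (mem_asymm hβ)
    · exact absurd hβ (mem_irrefl _)

theorem IsLim.isOrd {α : M} (h : IsLim α) : IsOrd α := h.1

theorem IsLim.bigU_eq {α : M} (h : IsLim α) : bigU α = α := by
  apply ext; intro x
  rw [mem_bigU]
  exact ⟨fun ⟨y, hy, hx⟩ => h.1.trans hx hy, fun hx => ⟨sc x, h.2.2 x hx, self_mem_sc x⟩⟩

theorem not_isLim_empty : ¬ IsLim (∅ : M) := fun h => h.2.1 rfl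

theorem not_isLim_sc {α : M} : ¬ IsLim (sc α) := fun h => by
  have := h.2.2 α (self_mem_sc α)
  exact mem_irrefl _ this

theorem empty_mem_of_isLim {α : M} (h : IsLim α) : ∅ ∈ α := by
  rcases isOrd_empty.cmp h.1 with h1 | h1 | h1
  · exact h1
  · exact absurd h1.symm h.2.1
  · exact absurd h1 (notMem_empty _)

theorem empty_mem_of_ne {α : M} (h : IsOrd α) (h' : α ≠ ∅) : ∅ ∈ α := by
  rcases isOrd_empty.cmp h with h1 | h1 | h1
  · exact h1
  · exact absurd h1.symm h'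
  · exact absurd h1 (notMem_empty _)

/-! ### `ω` -/

/-- natural numbers: ordinals such that no element of the successor is a limit -/
def IsNat (x : M) : Prop := IsOrd x ∧ ∀ y ∈ sc x, ¬ IsLim y

instance IsNat.dfp {f : Γ → M} [Dff f] : Dfp fun γ => IsNat (f γ) := by
  unfold IsNat; infer_instance

theorem exists_omega : ∃ w : M, ∀ x, x ∈ w ↔ IsNat x := by
  obtain ⟨I, ⟨e, he, he'⟩, hs⟩ := (SetModel.zfc (M := M)).infinity
  have h0 : (∅ : M) ∈ I := by
    have : e = ∅ := eq_empty_iff.2 he'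
    exact this ▸ he
  have h1 : ∀ x ∈ I, sc x ∈ I := fun x hx => by
    obtain ⟨s, hs1, hs2⟩ := hs x hx
    have : s = sc x := ext fun z => (hs2 z).trans mem_sc.symm
    exact this ▸ hs1
  refine ⟨sep I IsNat, fun x => ?_⟩
  rw [mem_sep]
  refine ⟨fun h => h.2, fun h => ⟨?_, h⟩⟩
  have key : ∀ x : M, IsOrd x → IsNat x → x ∈ I := by
    refine ord_ind (fun x => IsNat x → x ∈ I) fun x hx ih hn => ?_
    rcases ord_cases hx with rfl | ⟨β, hβ, rfl⟩ | h2
    · exact h0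
    · refine h1 β (ih β (self_mem_sc β) ⟨hβ, fun y hy => ?_⟩)
      exact hn.2 y (sub_sc _ y hy)
    · exact absurd h2 (hn.2 x (self_mem_sc x))
  exact key x h.1 h

/-- the set of natural numbers of the model -/
noncomputable def om : M := exists_omega.choose

@[simp] theorem mem_om {x : M} : x ∈ (om : M) ↔ IsNat x := exists_omega.choose_spec x

theorem isOrd_om : IsOrd (om : M) := by
  refine isOrd_of_trans (fun y hy z hz => ?_) fun y hy => (mem_om.1 hy).1
  rw [mem_om] at hy ⊢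
  refine ⟨hy.1.mem hz, fun t ht => hy.2 t (sub_sc _ t ?_)⟩
  rcases mem_sc.1 ht with h | rfl
  · exact hy.1.trans h hz
  · exact hz

theorem isNat_empty : IsNat (∅ : M) := by
  refine ⟨isOrd_empty, fun y hy => ?_⟩
  rcases mem_sc.1 hy with h | rfl
  · exact absurd h (notMem_empty _)
  · exact not_isLim_empty

theorem IsNat.sc {n : M} (h : IsNat n) : IsNat (sc n) := by
  refine ⟨h.1.sc, fun y hy => ?_⟩
  rcases mem_sc.1 hy with h1 | rfl
  · exact h.2 y h1
  · exact not_isLim_sc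

theorem isLim_om : IsLim (om : M) :=
  ⟨isOrd_om, ne_empty_iff.2 ⟨∅, mem_om.2 isNat_empty⟩, fun n hn => mem_om.2 (mem_om.1 hn).sc⟩

theorem om_sub_of_isLim {α : M} (h : IsLim α) : om ⊆ α := by
  rcases isOrd_om.total h.1 with h1 | h1
  · exact h1
  · exact absurd h ((mem_om.1 h1).2 α (self_mem_sc α))

theorem nat_ind (P : M → Prop) [Dfp fun γ : E0 M × M => P γ.2] (h0 : P ∅)
    (h1 : ∀ n ∈ (om : M), P n → P (sc n)) : ∀ n ∈ (om : M), P n := by
  intro n hn
  have key : ∀ n : M, IsOrd n → n ∈ (om : M) → P n := by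
    refine ord_ind (fun n => n ∈ (om : M) → P n) fun n ho ih hn => ?_
    rcases ord_cases ho with rfl | ⟨m, hm, rfl⟩ | h2
    · exact h0
    · have hm' : m ∈ (om : M) := isOrd_om.trans (self_mem_sc m) hn
      exact h1 m hm' (ih m (self_mem_sc m) hm')
    · exact absurd h2 ((mem_om.1 hn).2 n (self_mem_sc n))
  exact key n (isOrd_om.mem hn) hn

theorem om_cases {n : M} (h : n ∈ (om : M)) : n = ∅ ∨ ∃ m ∈ (om : M), n = sc m := by
  rcases ord_cases (isOrd_om.mem h) with h0 | ⟨m, hm, rfl⟩ | h2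
  · exact Or.inl h0
  · exact Or.inr ⟨m, isOrd_om.trans (self_mem_sc m) h, rfl⟩
  · exact absurd h2 ((mem_om.1 h).2 n (self_mem_sc n))

end

end Pool.Agent.IST
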