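import Pool.Agent.IST.Rank

/-!
# Recursion on the rank

`rrec G x = G x (rrec G ↾ Vr (rk x))`: the values at all sets of smaller rank may be used.
-/

set_option synthInstance.maxSize 100000

namespace Pool.Agent.IST

open Pool.Agent.BVM

section

variable {M : Type} [SetModel M] {Γ : Type} [IsCtx Γ M]

/-- the function on `Vr α` defined by recursion on the rank -/
noncomputable def rrF (G : M → M → M) (α : M) : M :=
  erec (fun α f => lam (Vr α) fun x => G x (lam (Vr (rk x)) fun z => ap (ap f (sc (rk z))) z)) α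

/-- the function defined by recursion on the rank -/
noncomputable def rrec (G : M → M → M) (x : M) : M := ap (rrF G (sc (rk x))) x

theorem rrF.dff' {G : Γ → M → M → M} [h : Dff fun γ : (Γ × M) × M => G γ.1.1 γ.1.2 γ.2]
    {Δ : Type} [IsCtx Δ M] {c : Δ → Γ} [hc : Cor c] {f : Δ → M} [Dff f] :
    Dff fun δ => rrF (G (c δ)) (f δ) := by
  unfold rrF
  have h1 : Dff fun γ : ((Δ × M) × M) × M => G (c γ.1.1.1) γ.2
      (lam (Vr (rk γ.2)) fun z => ap (ap γ.1.2 (sc (rk z))) z) :=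
    Dff.lift2 (c := fun γ : ((Δ × M) × M) × M => c γ.1.1.1)
      (hc := ⟨fun f hf => simple_fst (simple_fst (simple_fst (hc.out f hf)))⟩)
  exact erec.dff (G := fun (δ : Δ) α f => lam (Vr α) fun x => G (c δ) x
    (lam (Vr (rk x)) fun z => ap (ap f (sc (rk z))) z))

theorem rrec.dff' {G : Γ → M → M → M} [h : Dff fun γ : (Γ × M) × M => G γ.1.1 γ.1.2 γ.2]
    {Δ : Type} [IsCtx Δ M] {c : Δ → Γ} [hc : Cor c] {f : Δ → M} [Dff f] :
    Dff fun δ => rrec (G (c δ)) (f δ) := by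
  unfold rrec
  have : Dff fun δ => rrF (G (c δ)) (sc (rk (f δ))) := rrF.dff'
  infer_instance

instance rrec.dff {G : Γ → M → M → M} [h : Dff fun γ : (Γ × M) × M => G γ.1.1 γ.1.2 γ.2]
    {f : Γ → M} [Dff f] : Dff fun γ => rrec (G γ) (f γ) :=
  rrec.dff' (c := fun γ : Γ => γ)

theorem mem_Vr_self {x : M} : x ∈ Vr (sc (rk x)) :=
  (mem_Vr_iff (isOrd_rk x).sc).2 (self_mem_sc _)

theorem mem_Vr_rk {x z : M} : z ∈ Vr (rk x) ↔ rk z ∈ rk x := mem_Vr_iff (isOrd_rk x)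

theorem fst_mem_Vr {x z s : M} (h : op z s ∈ x) : z ∈ Vr (rk x) := by
  have h1 := sub_Vr_rk x _ h
  have h2 := isTrans_Vr _ _ h1 (sing z) (mem_op.2 (Or.inl rfl))
  exact isTrans_Vr _ _ h2 z (mem_sing.2 rfl)

theorem snd_mem_Vr {x z s : M} (h : op z s ∈ x) : s ∈ Vr (rk x) := by
  have h1 := sub_Vr_rk x _ h
  have h2 := isTrans_Vr _ _ h1 (upair z s) (mem_op.2 (Or.inr rfl))
  exact isTrans_Vr _ _ h2 s (mem_upair.2 (Or.inr rfl))

section

variable {G : M → M → M} [hG : Dff fun γ : (E0 M × M) × M => G γ.1.2 γ.2]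

theorem rrec_slice : Dff fun γ : E0 M × M => rrec G γ.2 :=
  rrec.dff' (Γ := E0 M) (G := fun _ => G) (c := fun γ : E0 M × M => γ.1)

theorem rrec_eq (x : M) : rrec G x = G x (lam (Vr (rk x)) fun z => rrec G z) := by
  have hd := rrec_slice (G := G)
  have hF : Dff fun γ : E0 M × M => rrF G γ.2 :=
    rrF.dff' (Γ := E0 M) (G := fun _ => G) (c := fun γ : E0 M × M => γ.1)
  have h1 : Dff fun γ : ((E0 M × M) × M) × M => G γ.2
      (lam (Vr (rk γ.2)) fun z => ap (ap γ.1.2 (sc (rk z))) z) :=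
    Dff.lift2 (F := fun _ : E0 M => G) (c := fun _ => ⟨⟩)
  have h2 : Dff fun γ : (E0 M × M) × M => lam (Vr γ.1.2) fun x => G x
      (lam (Vr (rk x)) fun z => ap (ap γ.2 (sc (rk z))) z) := inferInstance
  have e1 : rrF G (sc (rk x)) = lam (Vr (sc (rk x))) fun y => G y
      (lam (Vr (rk y)) fun z => ap (ap (lam (sc (rk x)) fun α => rrF G α) (sc (rk z))) z) :=
    erec_ord (G := fun α f => lam (Vr α) fun x => G x
      (lam (Vr (rk x)) fun z => ap (ap f (sc (rk z))) z)) (isOrd_rk x).sc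
  have h3 : Dff fun γ : E0 M × M => G γ.2
      (lam (Vr (rk γ.2)) fun z => ap (ap (lam (sc (rk x)) fun α => rrF G α) (sc (rk z))) z) := by
    have hF' : Dff fun γ : ((E0 M × M) × M) × M => rrF G γ.2 :=
      rrF.dff' (Γ := E0 M) (G := fun _ => G) (c := fun _ => ⟨⟩)
    exact Dff.lift2 (F := fun _ : E0 M => G) (c := fun _ => ⟨⟩)
  change ap (rrF G (sc (rk x))) x = _
  rw [e1, ap_lam mem_Vr_self]
  congr 1
  refine lam_congr fun z hz => ?_
  have hz' := mem_Vr_rk.1 hz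
  have h4 : sc (rk z) ∈ sc (rk x) :=
    ((isOrd_rk z).sc.mem_sc_iff (isOrd_rk x)).2 (((isOrd_rk x).sc_sub_iff).2 hz')
  rw [ap_lam h4]
  rfl

end

end

end Pool.Agent.IST
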