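import Pool.Agent.IST.Ord

/-!
# Recursion in a model of ZFC
-/

set_option synthInstance.maxSize 100000

namespace Pool.Agent.IST

open Pool.Agent.BVM

section

variable {M : Type} [SetModel M] {Γ : Type} [IsCtx Γ M]

/-! ### substitution -/

instance (priority := 3000) Cor.e0 : Cor fun _ : Γ => (⟨⟩ : E0 M) :=
  ⟨fun f _ => (IsCtx.const (f ⟨⟩) : IsCtx.simple fun _ : Γ => f ⟨⟩)⟩

instance Cor.pair {Δ Δ' : Type} [IsCtx Δ M] [IsCtx Δ' M] {g : Γ → Δ} {h : Γ → Δ' × M} [hg : Cor g]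
    [hh : Cor h] : Cor fun γ => (g γ, (h γ).2) :=
  ⟨by
    rintro f (⟨f', hf', rfl⟩ | rfl)
    · exact hg.out _ hf'
    · exact hh.out _ simple_snd⟩

instance Cor.pairConst {Δ : Type} [IsCtx Δ M] {g : Γ → Δ} {c : M} [hg : Cor g] :
    Cor fun γ => (g γ, c) :=
  ⟨by
    rintro f (⟨f', hf', rfl⟩ | rfl)
    · exact hg.out _ hf'
    · exact IsCtx.const c⟩

theorem Dfp.sub1' {P : Γ → M → Prop} [h : Dfp fun γ : Γ × M => P γ.1 γ.2] {f : Γ → M} [Dff f] :
    Dfp fun γ => P γ (f γ) := by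
  have h1 : Dfp fun γ : Γ => ∃ x, x = f γ ∧ P γ x := inferInstance
  exact h1.congr fun γ => by simp

theorem Dff.sub1' {F : Γ → M → M} [h : Dff fun γ : Γ × M => F γ.1 γ.2] {f : Γ → M} [Dff f] :
    Dff fun γ => F γ (f γ) := by
  have h2 : Dfp fun γ : (Γ × M) × M => γ.1.2 = F γ.1.1 γ.2 :=
    Dfp.comp (g := fun γ : (Γ × M) × M => (((γ.1.1, γ.2) , γ.1.2) : (Γ × M) × M))
      (P := fun δ : (Γ × M) × M => δ.2 = F δ.1.1 δ.1.2) (h := h.out)
  have h3 : Dfp fun γ : Γ × M => ∃ x, x = f γ.1 ∧ γ.2 = F γ.1 x := inferInstance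
  exact ⟨h3.congr fun γ => by simp⟩

theorem Dff.sub2' {F : Γ → M → M → M} [h : Dff fun γ : (Γ × M) × M => F γ.1.1 γ.1.2 γ.2]
    {f g : Γ → M} [Dff f] [Dff g] : Dff fun γ => F γ (f γ) (g γ) := by
  have h1 : Dff fun γ : Γ × M => F γ.1 γ.2 (g γ.1) :=
    Dff.sub1' (F := fun (γ : Γ × M) y => F γ.1 γ.2 y)
  exact Dff.sub1' (F := fun γ x => F γ x (g γ))

theorem Dfp.sub2' {P : Γ → M → M → Prop} [h : Dfp fun γ : (Γ × M) × M => P γ.1.1 γ.1.2 γ.2]
    {f g : Γ → M} [Dff f] [Dff g] : Dfp fun γ => P γ (f γ) (g γ) := by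
  have h1 : Dfp fun γ : Γ × M => P γ.1 γ.2 (g γ.1) :=
    Dfp.sub1' (P := fun (γ : Γ × M) y => P γ.1 γ.2 y)
  exact Dfp.sub1' (P := fun γ x => P γ x (g γ))

/-- binary function, in a larger context -/
theorem Dff.lift2 {Δ : Type} [IsCtx Δ M] {F : Γ → M → M → M}
    [h : Dff fun γ : (Γ × M) × M => F γ.1.1 γ.1.2 γ.2] {c : Δ → Γ} [hc : Cor c]
    {f g : Δ → M} [Dff f] [Dff g] : Dff fun δ => F (c δ) (f δ) (g δ) := by
  have : Dff fun γ : (Δ × M) × M => F (c γ.1.1) γ.1.2 γ.2 :=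
    Dff.comp (g := fun γ : (Δ × M) × M => (((c γ.1.1, γ.1.2) , γ.2) : (Γ × M) × M))
      (hg := ⟨by
        rintro f (⟨f', ⟨f'', hf'', rfl⟩ | rfl, rfl⟩ | rfl)
        · exact simple_fst (simple_fst (hc.out _ hf''))
        · exact simple_fst simple_snd
        · exact simple_snd⟩)
      (F := fun δ : (Γ × M) × M => F δ.1.1 δ.1.2 δ.2)
  exact Dff.sub2' (F := fun δ x y => F (c δ) x y)

theorem Dfp.lift2 {Δ : Type} [IsCtx Δ M] {P : Γ → M → M → Prop}
    [h : Dfp fun γ : (Γ × M) × M => P γ.1.1 γ.1.2 γ.2] {c : Δ → Γ} [hc : Cor c]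
    {f g : Δ → M} [Dff f] [Dff g] : Dfp fun δ => P (c δ) (f δ) (g δ) := by
  have : Dfp fun γ : (Δ × M) × M => P (c γ.1.1) γ.1.2 γ.2 :=
    Dfp.comp (g := fun γ : (Δ × M) × M => (((c γ.1.1, γ.1.2) , γ.2) : (Γ × M) × M))
      (hg := ⟨by
        rintro f (⟨f', ⟨f'', hf'', rfl⟩ | rfl, rfl⟩ | rfl)
        · exact simple_fst (simple_fst (hc.out _ hf''))
        · exact simple_fst simple_snd
        · exact simple_snd⟩)
      (P := fun δ : (Γ × M) × M => P δ.1.1 δ.1.2 δ.2)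
  exact Dfp.sub2' (P := fun δ x y => P (c δ) x y)

theorem Dff.lift1 {Δ : Type} [IsCtx Δ M] {F : Γ → M → M}
    [h : Dff fun γ : Γ × M => F γ.1 γ.2] {c : Δ → Γ} [hc : Cor c]
    {f : Δ → M} [Dff f] : Dff fun δ => F (c δ) (f δ) := by
  have : Dff fun γ : Δ × M => F (c γ.1) γ.2 :=
    Dff.comp (g := fun γ : Δ × M => ((c γ.1, γ.2) : Γ × M)) (hg := Cor.prod)
      (F := fun δ : Γ × M => F δ.1 δ.2)
  exact Dff.sub1' (F := fun δ x => F (c δ) x)

theorem Dfp.lift1 {Δ : Type} [IsCtx Δ M] {P : Γ → M → Prop}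
    [h : Dfp fun γ : Γ × M => P γ.1 γ.2] {c : Δ → Γ} [hc : Cor c]
    {f : Δ → M} [Dff f] : Dfp fun δ => P (c δ) (f δ) := by
  have : Dfp fun γ : Δ × M => P (c γ.1) γ.2 :=
    Dfp.comp (g := fun γ : Δ × M => ((c γ.1, γ.2) : Γ × M)) (hg := Cor.prod)
      (P := fun δ : Γ × M => P δ.1 δ.2)
  exact Dfp.sub1' (P := fun δ x => P (c δ) x)

theorem dff_slice2 {F : Γ → M → M → M} [h : Dff fun γ : (Γ × M) × M => F γ.1.1 γ.1.2 γ.2]
    (γ : Γ) : Dff fun δ : (E0 M × M) × M => F γ δ.1.2 δ.2 := by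
  obtain ⟨φ, s, hs, hP⟩ := h.out.out
  refine ⟨φ, fun i δ => s i (((γ, δ.1.1.2), δ.1.2), δ.2), fun i => ?_,
    fun δ => hP (((γ, δ.1.1.2), δ.1.2), δ.2)⟩
  dsimp only
  rcases hs i with ⟨g, ⟨g', ⟨g'', hg'', rfl⟩ | rfl, rfl⟩ | rfl, h⟩ | h
  · rw [h]; exact (IsCtx.const (g'' γ) : IsCtx.simple fun _ : ((E0 M × M) × M) × M => g'' γ)
  · rw [h]; exact simple_fst (simple_fst (simple_snd : IsCtx.simple (Prod.snd : E0 M × M → M)))
  · rw [h]; exact simple_fst (simple_snd : IsCtx.simple (Prod.snd : (E0 M × M) × M → M))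
  · rw [h]; exact (simple_snd : IsCtx.simple (Prod.snd : ((E0 M × M) × M) × M → M))

/-! ### recursion along membership -/

/-- `f` is an approximation of the function defined by recursion from `G` -/
def Appr (G : M → M → M) (f : M) : Prop :=
  IsFun f ∧ IsTrans (dom f) ∧ ∀ x ∈ dom f, ap f x = G x (res f x)

theorem Appr.dfp {G : Γ → M → M → M} [h : Dff fun γ : (Γ × M) × M => G γ.1.1 γ.1.2 γ.2]
    {Δ : Type} [IsCtx Δ M] {c : Δ → Γ} [hc : Cor c] {f : Δ → M} [Dff f] :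
    Dfp fun δ => Appr (G (c δ)) (f δ) := by
  unfold Appr
  have : Dff fun γ : Δ × M => G (c γ.1) γ.2 (res (f γ.1) γ.2) :=
    Dff.lift2 (c := fun γ : Δ × M => c γ.1) (hc := ⟨fun f hf => simple_fst (hc.out f hf)⟩)
  infer_instance

/-- the function defined by recursion: `erec G x = G x (erec G ↾ x)` -/
noncomputable def erec (G : M → M → M) (x : M) : M :=
  the fun w => ∃ f, Appr G f ∧ x ∈ dom f ∧ ap f x = w

theorem erec.dff' {G : Γ → M → M → M} [h : Dff fun γ : (Γ × M) × M => G γ.1.1 γ.1.2 γ.2]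
    {Δ : Type} [IsCtx Δ M] {c : Δ → Γ} [hc : Cor c] {f : Δ → M} [Dff f] :
    Dff fun δ => erec (G (c δ)) (f δ) := by
  unfold erec
  have : Dfp fun δ : (Δ × M) × M => Appr (G (c δ.1.1)) δ.2 :=
    Appr.dfp (c := fun δ : (Δ × M) × M => c δ.1.1)
      (hc := ⟨fun f hf => simple_fst (simple_fst (hc.out f hf))⟩)
  infer_instance

instance erec.dff {G : Γ → M → M → M} [h : Dff fun γ : (Γ × M) × M => G γ.1.1 γ.1.2 γ.2]
    {f : Γ → M} [Dff f] : Dff fun γ => erec (G γ) (f γ) :=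
  erec.dff' (c := fun γ : Γ => γ)

theorem Appr.agree {G : M → M → M} {f g : M} (hf : Appr G f) (hg : Appr G g) :
    ∀ x, x ∈ dom f → x ∈ dom g → ap f x = ap g x := by
  by_contra hc
  push Not at hc
  obtain ⟨x, h1, h2, h3⟩ := hc
  obtain ⟨y, hy, hm⟩ := found (x := sep (dom f ∩ dom g) fun x => ap f x ≠ ap g x)
    (ne_empty_iff.2 ⟨x, mem_sep.2 ⟨mem_inter.2 ⟨h1, h2⟩, h3⟩⟩)
  rw [mem_sep, mem_inter] at hy
  refine hy.2 ?_
  rw [hf.2.2 y hy.1.1, hg.2.2 y hy.1.2]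
  congr 1
  refine hf.1.res.ext hg.1.res ?_ fun z hz => ?_
  · rw [dom_res, dom_res]
    apply ext; intro z
    simp only [mem_inter]
    exact ⟨fun h => ⟨hg.2.1 y hy.1.2 z h.2, h.2⟩, fun h => ⟨hf.2.1 y hy.1.1 z h.2, h.2⟩⟩
  · rw [dom_res, mem_inter] at hz
    rw [hf.1.ap_res hz.2, hg.1.ap_res hz.2]
    by_contra hne
    exact hm z hz.2 (mem_sep.2 ⟨mem_inter.2 ⟨hz.1, hg.2.1 y hy.1.2 z hz.2⟩, hne⟩)

theorem Appr.erec_eq {G : M → M → M} {f x : M} (hf : Appr G f) (hx : x ∈ dom f) :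
    erec G x = ap f x :=
  the_eq ⟨f, hf, hx, rfl⟩ fun _ ⟨g, hg, h1, h2⟩ => by rw [← h2, hg.agree hf x h1 hx]

section

variable {G : M → M → M} [hG : Dff fun γ : (E0 M × M) × M => G γ.1.2 γ.2]

theorem erec_slice : Dff fun γ : E0 M × M => erec G γ.2 :=
  erec.dff' (Γ := E0 M) (G := fun _ => G) (c := fun γ : E0 M × M => γ.1)

/-- on every transitive set there is an approximation -/
theorem exists_appr {t : M} (ht : IsTrans t) : Appr G (lam t fun x => erec G x) := by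
  have hd := erec_slice (G := G)
  have hA : Dfp fun γ : ((E0 M × M) × M) => Appr G γ.2 :=
    Appr.dfp (Γ := E0 M) (G := fun _ => G) (c := fun γ : (E0 M × M) × M => γ.1.1)
  have hS : Dfp fun γ : E0 M × M => ∃ f, Appr G f ∧ γ.2 ∈ dom f := inferInstance
  set S := sep t fun z => ∃ f, Appr G f ∧ z ∈ dom f with hSdef
  have hSt : IsTrans S := by
    intro y hy z hz
    rw [hSdef, mem_sep] at hy ⊢
    obtain ⟨hy1, f, hf, hyf⟩ := hy
    exact ⟨ht y hy1 z hz, f, hf, hf.2.1 y hyf z hz⟩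
  have hg : Appr G (lam S fun x => erec G x) := by
    refine ⟨isFun_lam, by rw [dom_lam]; exact hSt, fun x hx => ?_⟩
    rw [dom_lam] at hx
    rw [ap_lam hx]
    rw [hSdef, mem_sep] at hx
    obtain ⟨hxt, f, hf, hxf⟩ := hx
    rw [hf.erec_eq hxf, hf.2.2 x hxf]
    congr 1
    refine hf.1.res.ext isFun_lam.res ?_ fun z hz => ?_
    · rw [dom_res, dom_res, dom_lam]
      apply ext; intro z
      rw [mem_inter, mem_inter]
      refine ⟨fun h => ⟨?_, h.2⟩, fun h => ⟨hf.2.1 x hxf z h.2, h.2⟩⟩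
      rw [hSdef, mem_sep]
      exact ⟨ht x hxt z h.2, f, hf, h.1⟩
    · rw [dom_res, mem_inter] at hz
      rw [hf.1.ap_res hz.2, isFun_lam.ap_res hz.2, ap_lam, hf.erec_eq hz.1]
      rw [hSdef, mem_sep]
      exact ⟨ht x hxt z hz.2, f, hf, hz.1⟩
  have hSeq : S = t := by
    by_contra hne
    have : t \ S ≠ ∅ := by
      intro h0
      refine hne (Sub.antisymm (fun z hz => (mem_sep.1 hz).1) fun z hz => ?_)
      by_contra hz'
      exact eq_empty_iff.1 h0 z (mem_diff.2 ⟨hz, hz'⟩)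
    obtain ⟨x, hx, hm⟩ := found this
    rw [mem_diff] at hx
    have hxS : x ⊆ S := fun z hz => by
      by_contra hz'
      exact hm z hz (mem_diff.2 ⟨ht x hx.1 z hz, hz'⟩)
    set g := lam S fun x => erec G x with hgdef
    set v := G x (res g x) with hv
    have hfun : IsFun (g ∪ sing (op x v)) := by
      constructor
      · intro p hp
        rcases mem_union.1 hp with h | h
        · exact hg.1.1 p h
        · exact ⟨x, v, mem_sing.1 h⟩
      · intro a b b' h1 h2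
        rw [mem_union, mem_sing] at h1 h2
        rcases h1 with h1 | h1 <;> rcases h2 with h2 | h2
        · exact hg.1.2 a b b' h1 h2
        · obtain ⟨rfl, rfl⟩ := op_inj.1 h2
          exact absurd (op_mem_lam.1 h1).1 hx.2
        · obtain ⟨rfl, rfl⟩ := op_inj.1 h1
          exact absurd (op_mem_lam.1 h2).1 hx.2
        · rw [(op_inj.1 h1).2, (op_inj.1 h2).2]
    have hdom : ∀ z, z ∈ dom (g ∪ sing (op x v)) ↔ z ∈ S ∨ z = x := by
      intro z
      rw [mem_dom]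
      constructor
      · rintro ⟨y, hy⟩
        rcases mem_union.1 hy with h | h
        · exact Or.inl (op_mem_lam.1 h).1
        · exact Or.inr (op_inj.1 (mem_sing.1 h)).1
      · rintro (h | rfl)
        · exact ⟨_, mem_union.2 (Or.inl (op_mem_lam.2 ⟨h, rfl⟩))⟩
        · exact ⟨v, mem_union.2 (Or.inr (mem_sing.2 rfl))⟩
    have hapS : ∀ z ∈ S, ap (g ∪ sing (op x v)) z = ap g z := fun z hz =>
      hfun.ap_eq (mem_union.2 (Or.inl (hg.1.op_ap_mem (by rw [dom_lam]; exact hz))))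
    have hres : ∀ z, z ⊆ S → res (g ∪ sing (op x v)) z = res g z := by
      intro z hz
      apply ext; intro p
      unfold res
      rw [mem_sep, mem_sep, mem_union, mem_sing]
      constructor
      · rintro ⟨h1 | rfl, a, ha, b, h2⟩
        · exact ⟨h1, a, ha, b, h2⟩
        · obtain ⟨rfl, rfl⟩ := op_inj.1 h2
          exact absurd (hz _ ha) hx.2
      · rintro ⟨h1, h2⟩
        exact ⟨Or.inl h1, h2⟩
    have happr : Appr G (g ∪ sing (op x v)) := by
      refine ⟨hfun, fun y hy z hz => ?_, fun y hy => ?_⟩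
      · rw [hdom] at hy ⊢
        rcases hy with h | rfl
        · exact Or.inl (hSt y h z hz)
        · exact Or.inl (hxS z hz)
      · rcases (hdom y).1 hy with h | rfl
        · rw [hapS y h, hres y (hSt y h), hg.2.2 y (by rw [dom_lam]; exact h)]
        · rw [hfun.ap_eq (mem_union.2 (Or.inr (mem_sing.2 rfl))), hres y hxS, hv]
    exact hx.2 (mem_sep.2 ⟨hx.1, _, happr, (hdom x).2 (Or.inr rfl)⟩)
  rw [hSeq] at hg
  exact hg

theorem erec_eq_of_trans {t x : M} (ht : IsTrans t) (hx : x ∈ t) :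
    erec G x = G x (lam x fun y => erec G y) := by
  have hd := erec_slice (G := G)
  have h := exists_appr (G := G) ht
  rw [h.erec_eq (by rw [dom_lam]; exact hx), h.2.2 x (by rw [dom_lam]; exact hx)]
  congr 1
  refine isFun_lam.res.ext isFun_lam ?_ fun z hz => ?_
  · rw [dom_res, dom_lam, dom_lam]
    apply ext; intro z
    rw [mem_inter]
    exact ⟨fun h => h.2, fun h => ⟨ht x hx z h, h⟩⟩
  · rw [dom_res, mem_inter] at hz
    rw [isFun_lam.ap_res hz.2, ap_lam hz.2, ap_lam (ht x hx z hz.2)]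

theorem erec_ord {α : M} (h : IsOrd α) : erec G α = G α (lam α fun y => erec G y) :=
  erec_eq_of_trans h.sc.1 (self_mem_sc α)

end

/-! ### transitive closure, induction along membership -/

/-- iterated union -/
noncomputable def itU (x n : M) : M := erec (fun _ f => x ∪ bigU (bigU (ran f))) n

instance itU.dff {f g : Γ → M} [Dff f] [Dff g] : Dff fun γ => itU (f γ) (g γ) := by
  unfold itU; infer_instance

theorem itU_eq {x n : M} (hn : IsOrd n) : itU x n = x ∪ bigU (bigU (img n fun m => itU x m)) := by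
  unfold itU
  rw [erec_ord hn]
  congr 3
  exact ran_lam

/-- a transitive set containing `x` as a subset -/
noncomputable def tc (x : M) : M := bigU (img om fun n => itU x n)

instance tc.dff {f : Γ → M} [Dff f] : Dff fun γ => tc (f γ) := by
  unfold tc; infer_instance

theorem mem_tc {x z : M} : z ∈ tc x ↔ ∃ n ∈ (om : M), z ∈ itU x n := mem_iU

theorem sub_tc (x : M) : x ⊆ tc x := fun z hz => mem_tc.2
  ⟨∅, mem_om.2 isNat_empty, by rw [itU_eq isOrd_empty]; exact mem_union.2 (Or.inl hz)⟩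

theorem isTrans_tc (x : M) : IsTrans (tc x) := by
  intro y hy z hz
  rw [mem_tc] at hy ⊢
  obtain ⟨n, hn, hy⟩ := hy
  refine ⟨sc n, mem_om.2 (mem_om.1 hn).sc, ?_⟩
  rw [itU_eq (isOrd_om.mem hn).sc]
  refine mem_union.2 (Or.inr (mem_bigU.2 ⟨y, mem_bigU.2 ⟨itU x n, ?_, hy⟩, hz⟩))
  exact mem_img.2 ⟨n, self_mem_sc n, rfl⟩

theorem tc_sub {x t : M} (ht : IsTrans t) (h : x ⊆ t) : tc x ⊆ t := by
  have key : ∀ n : M, IsOrd n → itU x n ⊆ t := by
    refine ord_ind (fun n => itU x n ⊆ t) fun n hn ih => ?_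
    rw [itU_eq hn]
    intro z hz
    rcases mem_union.1 hz with h1 | h1
    · exact h z h1
    · obtain ⟨y, hy, hz⟩ := mem_bigU.1 h1
      obtain ⟨w, hw, hy⟩ := mem_bigU.1 hy
      obtain ⟨m, hm, rfl⟩ := mem_img.1 hw
      exact ht y (ih m hm y hy) z hz
  intro z hz
  obtain ⟨n, hn, hz⟩ := mem_tc.1 hz
  exact key n (isOrd_om.mem hn) z hz

/-- induction along membership -/
theorem mem_ind (P : M → Prop) [Dfp fun γ : E0 M × M => P γ.2]
    (h : ∀ x, (∀ y ∈ x, P y) → P x) : ∀ x, P x := by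
  intro x
  by_contra hP
  obtain ⟨y, hy, hm⟩ := found (x := sep (tc (sing x)) fun x => ¬ P x)
    (ne_empty_iff.2 ⟨x, mem_sep.2 ⟨sub_tc _ _ (mem_sing.2 rfl), hP⟩⟩)
  rw [mem_sep] at hy
  refine hy.2 (h y fun z hz => ?_)
  by_contra hz'
  exact hm z hz (mem_sep.2 ⟨isTrans_tc _ y hy.1 z hz, hz'⟩)

theorem erec_eq {G : M → M → M} [hG : Dff fun γ : (E0 M × M) × M => G γ.1.2 γ.2] (x : M) :
    erec G x = G x (lam x fun y => erec G y) :=
  erec_eq_of_trans (isTrans_tc (sing x)) (sub_tc _ _ (mem_sing.2 rfl))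

end

end Pool.Agent.IST
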