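import Pool.Agent.IST.Rank
import Pool.Agent.IST.Subst

/-!
# Recursion on the rank

`vrec G x = G x (vrec G ↾ Vr (rk x))`.
-/

set_option synthInstance.maxSize 100000

namespace Pool.Agent.IST

open Pool.Agent.BVM

section

variable {M : Type} [SetModel M] {Γ : Type} [IsCtx Γ M]

/-- the recursion on levels of the cumulative hierarchy -/
noncomputable def vlev (G : M → M → M) (α : M) : M :=
  erec (fun α h => lam (Vr α) fun x => G x (ap h (rk x))) α

/-- recursion on the rank -/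
noncomputable def vrec (G : M → M → M) (x : M) : M := G x (vlev G (rk x))

theorem vlev.dff' {G : Γ → M → M → M} [h : Dff fun γ : (Γ × M) × M => G γ.1.1 γ.1.2 γ.2]
    {Δ : Type} [IsCtx Δ M] {c : Δ → Γ} [hc : Cor c] {f : Δ → M} [Dff f] :
    Dff fun δ => vlev (G (c δ)) (f δ) := by
  unfold vlev
  have : Dff fun γ : ((Γ × M) × M) × M => G γ.1.1.1 γ.2 (ap γ.1.2 (rk γ.2)) :=
    Dff.lift2 (F := G) (c := fun γ : ((Γ × M) × M) × M => γ.1.1.1)
      (hc := ⟨fun f hf => simple_fst (simple_fst (simple_fst hf))⟩)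
  exact erec.dff' (G := fun γ α h => lam (Vr α) fun x => G γ x (ap h (rk x))) (c := c)

theorem vrec.dff' {G : Γ → M → M → M} [h : Dff fun γ : (Γ × M) × M => G γ.1.1 γ.1.2 γ.2]
    {Δ : Type} [IsCtx Δ M] {c : Δ → Γ} [hc : Cor c] {f : Δ → M} [Dff f] :
    Dff fun δ => vrec (G (c δ)) (f δ) := by
  unfold vrec
  have : Dff fun δ : Δ => vlev (G (c δ)) (rk (f δ)) := vlev.dff' (c := c)
  exact Dff.lift2 (F := G) (c := c)

instance vrec.dff {G : Γ → M → M → M} [h : Dff fun γ : (Γ × M) × M => G γ.1.1 γ.1.2 γ.2]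
    {f : Γ → M} [Dff f] : Dff fun γ => vrec (G γ) (f γ) :=
  vrec.dff' (c := fun γ : Γ => γ)

theorem vlev_eq {G : M → M → M} [hG : Dff fun γ : (E0 M × M) × M => G γ.1.2 γ.2] {α : M}
    (hα : IsOrd α) : vlev G α = lam (Vr α) fun x => vrec G x := by
  have h1 : ∀ {Δ : Type} [IsCtx Δ M] {f g : Δ → M} [Dff f] [Dff g], Dff fun δ => G (f δ) (g δ) :=
    fun {Δ} _ {f g} _ _ => Dff.lift2 (Γ := E0 M) (F := fun _ => G) (c := fun _ : Δ => (⟨⟩ : E0 M))
  have h2 : Dff fun γ : E0 M × M => vlev G γ.2 :=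
    vlev.dff' (Γ := E0 M) (G := fun _ => G) (c := fun γ : E0 M × M => γ.1)
  have h3 : Dff fun γ : (E0 M × M) × M => vlev G γ.2 :=
    vlev.dff' (Γ := E0 M) (G := fun _ => G) (c := fun γ : (E0 M × M) × M => γ.1.1)
      (hc := ⟨fun f hf => simple_fst (simple_fst hf)⟩)
  conv_lhs => rw [vlev, erec_ord hα]
  refine lam_congr fun x hx => ?_
  unfold vrec
  congr 1
  exact ap_lam (F := fun y => vlev G y) (rk_mem_of_mem_Vr hα hx)

theorem vrec_eq {G : M → M → M} [hG : Dff fun γ : (E0 M × M) × M => G γ.1.2 γ.2] (x : M) :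
    vrec G x = G x (lam (Vr (rk x)) fun y => vrec G y) := by
  conv_lhs => rw [vrec, vlev_eq (isOrd_rk x)]

/-- induction on the rank -/
theorem rk_ind (P : M → Prop) [Dfp fun γ : E0 M × M => P γ.2]
    (h : ∀ x, (∀ y, rk y ∈ rk x → P y) → P x) : ∀ x, P x := by
  have key : ∀ α : M, IsOrd α → ∀ x, rk x = α → P x := by
    have : ∀ {Δ : Type} [IsCtx Δ M] {f : Δ → M} [Dff f], Dfp fun δ => P (f δ) :=
      fun {Δ} _ {f} _ => Dfp.lift1 (Γ := E0 M) (P := fun _ => P) (c := fun _ : Δ => (⟨⟩ : E0 M))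
    refine ord_ind (fun α => ∀ x, rk x = α → P x) fun α hα ih x hx => ?_
    exact h x fun y hy => ih (rk y) (hx ▸ hy) y rfl
  exact fun x => key (rk x) (isOrd_rk x) x rfl

theorem rk_op_left {x y z : M} (h : op x y ∈ z) : rk x ∈ rk z := by
  have h1 := rk_mem h
  have h2 : rk x ∈ rk (op x y) :=
    (isOrd_rk _).trans (rk_mem (mem_sing.2 rfl)) (rk_mem (mem_op.2 (Or.inl rfl)))
  exact (isOrd_rk z).trans h2 h1

end

end Pool.Agent.IST
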